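import Pool.Agent.H80Skein.Color

/-! Locality of labellings, labellings of a stack of cups, alternating sums. -/

set_option linter.unusedSimpArgs false
set_option linter.unusedSectionVars false

namespace H80Skein

instance decDia : (m : ℕ) → (w : Word) → (n : ℕ) → Decidable (Dia m w n)
  | m, [], n => inferInstanceAs (Decidable (m = n))
  | m, g :: w, n =>
    haveI := decDia (m - g.kind.inn + g.kind.out) w n
    inferInstanceAs (Decidable (_ ∧ _))

section

variable {N : ℕ} [NeZero N]

/-- The first `n` labels of `z`, followed by `x`. -/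
def graft (n : ℕ) (x z : ℕ → ZMod N) : ℕ → ZMod N := fun j => if j < n then z j else x (j - n)

theorem graft_lt {n j : ℕ} (h : j < n) (x z : ℕ → ZMod N) : graft n x z j = z j := by
  simp [graft, h]
theorem graft_ge {n j : ℕ} (h : n ≤ j) (x z : ℕ → ZMod N) : graft n x z j = x (j - n) := by
  simp [graft, Nat.not_lt.2 h]

theorem graft_tl (n : ℕ) (x : ℕ → ZMod N) : graft n (tl n x) x = x := by
  funext j
  by_cases h : j < n
  · rw [graft_lt h]
  · rw [graft_ge (by omega)]; simp only [tl]; congr 1; omega

theorem tl_graft (n : ℕ) (x z : ℕ → ZMod N) : tl n (graft n x z) = x := by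
  funext j
  simp only [tl]
  rw [graft_ge (by omega)]
  congr 1; omega

theorem act_graft (τ : ZMod N) {m : ℕ} (g : Gen) (h : g.off + g.kind.inn ≤ m)
    (x r : ℕ → ZMod N) :
    act τ g (graft m r x) =
      (act τ g x).map (graft (m - g.kind.inn + g.kind.out) r) := by
  rw [act_def, act_def, Multiset.map_map]
  have R : rule τ g.kind (graft m r x g.off) (graft m r x (g.off + 1)) =
      rule τ g.kind (x g.off) (x (g.off + 1)) := by
    cases hk : g.kind with
    | cup => rfl
    | cap => rw [hk] at h; simp only [inn_cap] at h; rw [graft_lt (by omega), graft_lt (by omega)]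
    | pos => rw [hk] at h; simp only [inn_pos] at h; rw [graft_lt (by omega), graft_lt (by omega)]
    | neg => rw [hk] at h; simp only [inn_neg] at h; rw [graft_lt (by omega), graft_lt (by omega)]
  rw [R]
  congr 1
  funext c
  simp only [Function.comp]
  funext j
  by_cases h1 : j < g.off
  · rw [glue_lt _ h1, graft_lt (by omega), graft_lt (by omega), glue_lt _ h1]
  by_cases h2 : j < g.off + g.kind.out
  · rw [glue_mid _ (by omega) h2, graft_lt (by omega), glue_mid _ (by omega) h2]
  rw [glue_ge _ (by omega)]
  by_cases h3 : j < m - g.kind.inn + g.kind.out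
  · rw [graft_lt (by omega), graft_lt h3, glue_ge _ (by omega)]
  · rw [graft_ge (by omega), graft_ge (by omega)]
    congr 1; omega

/-- Locality: a diagram with `m` lower endpoints only acts on the first `m` labels. -/
theorem runs_graft (τ : ZMod N) {m n : ℕ} {w : Word} (h : Dia m w n) (x r : ℕ → ZMod N) :
    runs τ w (graft m r x) = (runs τ w x).map (graft n r) := by
  induction w generalizing m x with
  | nil => rw [dia_nil] at h; subst h; simp
  | cons g w ih =>
    obtain ⟨h1, h2⟩ := h
    rw [runs_cons, runs_cons, act_graft τ g h1, Multiset.bind_map, Multiset.map_bind]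
    congr 1
    funext y
    exact ih h2 y

theorem runs_zero_closed (τ : ZMod N) {n : ℕ} {w : Word} (h : Dia 0 w n) (x : ℕ → ZMod N) :
    runs τ w x = (runs τ w 0).map (graft n x) := by
  have := runs_graft τ h 0 x
  have e : graft 0 x 0 = x := by funext j; simp [graft]
  rwa [e] at this

theorem mem_runs_zero {τ : ZMod N} {n : ℕ} {w : Word} (h : Dia 0 w n) {z : ℕ → ZMod N}
    (hz : z ∈ runs τ w 0) {j : ℕ} (hj : n ≤ j) : z j = 0 := by
  have e := runs_zero_closed τ h 0
  rw [e, Multiset.mem_map] at hz
  obtain ⟨y, -, rfl⟩ := hz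
  rw [graft_ge hj]; rfl

theorem mem_runs_tl {τ : ZMod N} {m n : ℕ} {w : Word} (h : Dia m w n) {x z : ℕ → ZMod N}
    (hz : z ∈ runs τ w x) : tl n z = tl m x := by
  have e := runs_graft τ h x (tl m x)
  rw [graft_tl] at e
  rw [e, Multiset.mem_map] at hz
  obtain ⟨y, -, rfl⟩ := hz
  exact tl_graft _ _ _

/-- A labelling count only depends on the first `m` labels. -/
theorem card_runs_congr (τ : ZMod N) {m n : ℕ} {w : Word} (h : Dia m w n) {x x' : ℕ → ZMod N}
    (hx : ∀ j < m, x j = x' j) : Multiset.card (runs τ w x) = Multiset.card (runs τ w x') := by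
  have e : x' = graft m (tl m x') x := by
    funext j
    by_cases hj : j < m
    · rw [graft_lt hj, hx j hj]
    · rw [graft_ge (by omega)]; simp only [tl]; congr 1; omega
  rw [e, runs_graft τ h, Multiset.card_map]

theorem card_bind {α β : Type*} (s : Multiset α) (f : α → Multiset β) :
    Multiset.card (s.bind f) = (s.map fun a => Multiset.card (f a)).sum := by
  rw [Multiset.card_bind]; rfl

theorem card_runs_append (τ : ZMod N) (u v : Word) (x : ℕ → ZMod N) :
    Multiset.card (runs τ (u ++ v) x) =
      ((runs τ u x).map fun z => Multiset.card (runs τ v z)).sum := by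
  rw [runs_append, card_bind]

/-- A closed diagram inside another one multiplies the number of labellings. -/
theorem card_runs_closed (τ : ZMod N) (u v T : Word) (k : ℕ) (hT : Dia 0 T 0)
    (x : ℕ → ZMod N) :
    Multiset.card (runs τ (u ++ sh k T ++ v) x) =
      Multiset.card (runs τ T 0) * Multiset.card (runs τ (u ++ v) x) := by
  rw [List.append_assoc, card_runs_append, card_runs_append, ← Multiset.sum_map_mul_left]
  congr 1
  congr 1
  funext z
  rw [card_runs_append, runs_sh, runs_zero_closed τ hT, Multiset.map_map, Multiset.map_map]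
  have : ∀ y, pre k z (graft 0 (tl k z) y) = z := by
    intro y
    have e : graft 0 (tl k z) y = tl k z := by funext j; simp [graft]
    rw [e, pre_tl]
  simp only [Function.comp_def, this]
  simp

/-- The stack of `n` cups. -/
def cups (n : ℕ) : Word := List.replicate n (cup 0)

theorem cups_succ (n : ℕ) : cups (n + 1) = cup 0 :: cups n := rfl

theorem cups_add (a b : ℕ) : cups (a + b) = cups a ++ cups b := by
  simp only [cups, List.replicate_add]

theorem dia_cups (m n : ℕ) : Dia m (cups n) (m + 2 * n) := by
  induction n generalizing m with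
  | zero => simp [cups]
  | succ n ih =>
    rw [cups_succ]
    refine ⟨by simp, ?_⟩
    have := ih (m + 2)
    have e : m + 2 * (n + 1) = m + 2 + 2 * n := by ring
    rw [e]; simpa using this

theorem mem_cups {n : ℕ} {x z : ℕ → ZMod N} :
    z ∈ runs 0 (cups n) x ↔ (∀ i < n, z (2 * i + 1) = z (2 * i)) ∧ tl (2 * n) z = x := by
  induction n generalizing x with
  | zero => simp [cups]
  | succ n ih =>
    rw [cups_succ, ← put_nil x, runs_cup0]
    simp only [Multiset.mem_bind, ih, add_zero]
    constructor
    · rintro ⟨c, -, h1, h2⟩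
      have hz : ∀ j, z (j + 2 * n) = put [c, c] x j := fun j => congrFun h2 j
      refine ⟨?_, ?_⟩
      · intro i hi
        by_cases h : i < n
        · exact h1 i h
        · have : i = n := by omega
          subst this
          have a0 := hz 0
          have a1 := hz 1
          simp only [put_cons_zero, put_cons_one] at a0 a1
          rw [Nat.add_comm (2 * i) 1, a1, ← a0]; simp
      · funext j
        simp only [tl, put_nil]
        have := hz (j + 2)
        simp only [put_cons_succ, put_nil] at this
        rw [← this]; congr 1; ring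
    · rintro ⟨h1, h2⟩
      refine ⟨z (2 * n), by simp, fun i hi => h1 i (by omega), ?_⟩
      funext j
      simp only [tl]
      match j with
      | 0 => simp
      | 1 =>
        simp only [put_cons_one]
        rw [Nat.add_comm]; exact h1 n (by omega)
      | j + 2 =>
        simp only [put_cons_succ]
        rw [← h2]
        simp only [tl]
        congr 1; ring

theorem card_cups (n : ℕ) (x : ℕ → ZMod N) : Multiset.card (runs 0 (cups n) x) = N ^ n := by
  induction n generalizing x with
  | zero => simp [cups]
  | succ n ih =>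
    rw [cups_succ, ← put_nil x, runs_cup0, card_bind]
    simp only [ih]
    rw [Multiset.map_const', Multiset.sum_replicate]
    simp [ZMod.card, pow_succ, mul_comm]

theorem nodup_cups (n : ℕ) (x : ℕ → ZMod N) : (runs 0 (cups n) x).Nodup := by
  induction n generalizing x with
  | zero => simp [cups]
  | succ n ih =>
    rw [cups_succ, ← put_nil x, runs_cup0]
    rw [Multiset.nodup_bind]
    refine ⟨fun a _ => ih _, ?_⟩
    apply Multiset.Nodup.pairwise _ (Finset.univ : Finset (ZMod N)).nodup
    intro a _ b _ hab
    rw [Function.onFun, Multiset.disjoint_left]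
    intro z hz hz'
    rw [mem_cups] at hz hz'
    apply hab
    have := hz.2.symm.trans hz'.2
    have := congrFun this 0
    simpa using this

/-- The alternating sum of the first `m` labels. -/
def alt : ℕ → (ℕ → ZMod N) → ZMod N
  | 0, _ => 0
  | m + 1, x => x 0 - alt m (tl 1 x)

theorem alt_put2 (m : ℕ) (a b : ZMod N) (x : ℕ → ZMod N) :
    alt (m + 2) (put [a, b] x) = a - b + alt m x := by
  have e1 : tl 1 (put [a, b] x) = put [b] x := rfl
  have e2 : tl 1 (put [b] x) = x := rfl
  show (put [a, b] x) 0 - ((tl 1 (put [a, b] x)) 0 - alt m (tl 1 (tl 1 (put [a, b] x)))) = _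
  rw [e1, e2]
  simp only [put_cons_zero]
  ring

theorem alt_act {m : ℕ} (k : Kind) (o : ℕ) (h : o + k.inn ≤ m) {x z : ℕ → ZMod N}
    (hz : z ∈ act (0 : ZMod N) ⟨k, o⟩ x) : alt (m - k.inn + k.out) z = alt m x := by
  induction o generalizing m x z with
  | zero =>
    cases k with
    | cup =>
      have h1 : act (0 : ZMod N) (cup 0) x = runs 0 [cup 0] x := (runs_single _ _ _).symm
      change z ∈ act (0 : ZMod N) (cup 0) x at hz
      rw [h1, ← put_nil x, runs_cup0, Multiset.mem_bind] at hz
      obtain ⟨c, -, hz⟩ := hz
      rw [runs_nil, Multiset.mem_singleton] at hz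
      subst hz
      simp only [inn_cup, out_cup, Nat.sub_zero, add_zero]
      rw [alt_put2]; ring
    | cap =>
      have h1 : act (0 : ZMod N) (cap 0) x = runs 0 [cap 0] x := (runs_single _ _ _).symm
      change z ∈ act (0 : ZMod N) (cap 0) x at hz
      obtain ⟨m, rfl⟩ : ∃ m', m = m' + 2 := ⟨m - 2, by simp at h; omega⟩
      rw [h1, eq_put2 x, runs_cap0] at hz
      split_ifs at hz with h2
      · rw [runs_nil, Multiset.mem_singleton] at hz
        subst hz
        rw [eq_put2 x, alt_put2, h2]
        simp only [inn_cap, out_cap, put_nil, Nat.add_sub_cancel, add_zero]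
        ring_nf
        rfl
      · simp at hz
    | pos =>
      have h1 : act (0 : ZMod N) (pos 0) x = runs 0 [pos 0] x := (runs_single _ _ _).symm
      change z ∈ act (0 : ZMod N) (pos 0) x at hz
      obtain ⟨m, rfl⟩ : ∃ m', m = m' + 2 := ⟨m - 2, by simp at h; omega⟩
      rw [h1, eq_put2 x, runs_pos0, runs_nil, Multiset.mem_singleton] at hz
      subst hz
      rw [eq_put2 x]
      simp only [inn_pos, out_pos, Nat.add_sub_cancel]
      rw [alt_put2, alt_put2]
      have e : tl 2 (put [x 0, x 1] (tl 2 x)) = tl 2 x := rfl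
      simp only [put_cons_zero, put_cons_one, e]
      ring
    | neg =>
      have h1 : act (0 : ZMod N) (neg 0) x = runs 0 [neg 0] x := (runs_single _ _ _).symm
      change z ∈ act (0 : ZMod N) (neg 0) x at hz
      obtain ⟨m, rfl⟩ : ∃ m', m = m' + 2 := ⟨m - 2, by simp at h; omega⟩
      rw [h1, eq_put2 x, runs_neg0, runs_nil, Multiset.mem_singleton] at hz
      subst hz
      rw [eq_put2 x]
      simp only [inn_neg, out_neg, Nat.add_sub_cancel]
      rw [alt_put2, alt_put2]
      have e : tl 2 (put [x 0, x 1] (tl 2 x)) = tl 2 x := rfl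
      simp only [put_cons_zero, put_cons_one, e]
      ring
  | succ o ih =>
    rw [act_shift, Multiset.mem_map] at hz
    obtain ⟨z', hz', rfl⟩ := hz
    obtain ⟨m, rfl⟩ : ∃ m', m = m' + 1 := ⟨m - 1, by omega⟩
    have := ih (m := m) (by omega) hz'
    have e : m + 1 - k.inn + k.out = m - k.inn + k.out + 1 := by omega
    rw [e]
    show pre 1 x z' 0 - alt _ (tl 1 (pre 1 x z')) = x 0 - alt m (tl 1 x)
    rw [tl_pre, this, pre_lt (by omega)]

theorem alt_runs {m n : ℕ} {w : Word} (h : Dia m w n) {x z : ℕ → ZMod N}
    (hz : z ∈ runs (0 : ZMod N) w x) : alt n z = alt m x := by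
  induction w generalizing m x with
  | nil =>
    rw [dia_nil] at h
    rw [runs_nil, Multiset.mem_singleton] at hz
    rw [h, hz]
  | cons g w ih =>
    rw [runs_cons, Multiset.mem_bind] at hz
    obtain ⟨y, hy, hz⟩ := hz
    rw [ih h.2 hz]
    exact alt_act g.kind g.off h.1 hy

theorem alt_even (n : ℕ) (x : ℕ → ZMod N) :
    alt (2 * n) x = -∑ i ∈ Finset.range n, (x (2 * i + 1) - x (2 * i)) := by
  induction n generalizing x with
  | zero => simp [alt]
  | succ n ih =>
    have e : 2 * (n + 1) = 2 * n + 2 := by ring
    rw [Finset.sum_range_succ', e, eq_put2 x, alt_put2, ih]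
    have h : ∀ i, (tl 2 x) (2 * i + 1) - (tl 2 x) (2 * i) =
      put [x 0, x 1] (tl 2 x) (2 * (i + 1) + 1) - put [x 0, x 1] (tl 2 x) (2 * (i + 1)) := by
      intro i
      rfl
    simp only [h]
    simp only [Nat.mul_zero, Nat.zero_add, put_cons_zero, put_cons_one]
    ring

end

end H80Skein
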