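import Pool.Agent.H80Skein.Nat

/-! Reflections of diagrams, bending around cups, and the half twist. -/

set_option linter.unusedSimpArgs false
set_option linter.unusedSectionVars false

namespace H80Skein

/-! ### Turning a diagram over (exchanging bottom and top) -/

/-- Cups and caps exchanged. -/
def flK : Kind → Kind
  | .cup => .cap
  | .cap => .cup
  | .pos => .pos
  | .neg => .neg

@[simp] theorem flK_inn (k : Kind) : (flK k).inn = k.out := by cases k <;> rfl
@[simp] theorem flK_out (k : Kind) : (flK k).out = k.inn := by cases k <;> rfl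
@[simp] theorem flK_flK (k : Kind) : flK (flK k) = k := by cases k <;> rfl

/-- The diagram turned over about a horizontal axis. -/
def flp : Word → Word
  | [] => []
  | g :: w => flp w ++ [⟨flK g.kind, g.off⟩]

@[simp] theorem flp_nil : flp [] = [] := rfl
theorem flp_cons (g : Gen) (w : Word) : flp (g :: w) = flp w ++ [⟨flK g.kind, g.off⟩] := rfl
theorem flp_append (u v : Word) : flp (u ++ v) = flp v ++ flp u := by
  induction u with
  | nil => simp
  | cons g u ih => simp [flp_cons, ih]
theorem flp_flp (w : Word) : flp (flp w) = w := by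
  induction w with
  | nil => rfl
  | cons g w ih =>
    rw [flp_cons, flp_append, ih]
    simp [flp_cons, flp_nil]
theorem flp_sh (k : ℕ) (w : Word) : flp (sh k w) = sh k (flp w) := by
  induction w with
  | nil => rfl
  | cons g w ih => simp [flp_cons, ih]

theorem dia_flp {m n : ℕ} {w : Word} (h : Dia m w n) : Dia n (flp w) m := by
  induction w generalizing m with
  | nil => exact (dia_nil.1 h).symm
  | cons g w ih =>
    obtain ⟨h1, h2⟩ := h
    rw [flp_cons]
    refine dia_append.2 ⟨_, ih h2, ?_⟩
    refine ⟨by simp; omega, ?_⟩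
    simp only [flK_inn, flK_out, dia_nil]
    omega

theorem Elem.flp {s t : Word} (h : Elem s t) {m n : ℕ} (hs : Dia m s n) (ht : Dia m t n) :
    Iso n m (H80Skein.flp s) (H80Skein.flp t) := by
  have ds := dia_flp hs
  have dt := dia_flp ht
  cases h with
  | far a b i j h =>
    have := Elem.far (flK a) (flK b) i j h
    simp only [flK_inn, flK_out] at this
    exact (Iso.elem this dt ds).symm
  | zig i => exact Iso.elem (Elem.zag i) ds dt
  | zag i => exact Iso.elem (Elem.zig i) ds dt
  | slideA i => exact Iso.elem (Elem.slideD i) ds dt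
  | slideB i => exact Iso.elem (Elem.slideC i) ds dt
  | slideC i => exact Iso.elem (Elem.slideB i) ds dt
  | slideD i => exact Iso.elem (Elem.slideA i) ds dt
  | r1A i => exact Iso.elem (Elem.r1C i) ds dt
  | r1B i => exact Iso.elem (Elem.r1D i) ds dt
  | r1C i => exact Iso.elem (Elem.r1A i) ds dt
  | r1D i => exact Iso.elem (Elem.r1B i) ds dt
  | r2A i => exact Iso.elem (Elem.r2B i) ds dt
  | r2B i => exact Iso.elem (Elem.r2A i) ds dt
  | r3 i => exact Iso.elem (Elem.r3 i) ds dt

theorem elem_width {s t : Word} (h : Elem s t) {m n n' : ℕ} (hs : Dia m s n) (ht : Dia m t n') :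
    n = n' := by
  cases h with
  | far a b i j h =>
    obtain ⟨c1, c2, c3⟩ := hs
    obtain ⟨d1, d2, d3⟩ := ht
    simp only [dia_nil] at c1 c2 c3 d1 d2 d3
    omega
  | _ =>
    simp only [dia_cons, dia_nil, cup_kind, cap_kind, pos_kind, neg_kind, cup_off, cap_off,
      pos_off, neg_off, inn_cup, inn_cap, inn_pos, inn_neg, out_cup, out_cap, out_pos,
      out_neg] at hs ht
    omega

theorem Iso.flp {m n : ℕ} {a b : Word} (h : Iso m n a b) :
    Iso n m (H80Skein.flp a) (H80Skein.flp b) := by
  induction h with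
  | rel a b hab =>
    obtain ⟨h1, h2, u, v, s, t, hst, rfl, rfl⟩ := hab
    rw [List.append_assoc] at h1 h2
    obtain ⟨l, a1, a2⟩ := dia_append.1 h1
    obtain ⟨l', a3, a4⟩ := dia_append.1 a2
    obtain ⟨l2, b1, b2⟩ := dia_append.1 h2
    obtain ⟨l2', b3, b4⟩ := dia_append.1 b2
    have e1 := dia_unique a1 b1
    subst e1
    have e2 : l' = l2' := elem_width hst a3 b3
    subst e2
    rw [flp_append, flp_append, flp_append, flp_append, ← List.append_assoc, ← List.append_assoc]
    exact Iso.ctx (dia_flp a4) (dia_flp a1) (hst.flp a3 b3)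
  | refl a => exact Iso.refl _
  | symm a b _ ih => exact ih.symm
  | trans a b c _ _ ih ih' => exact ih.trans ih'

/-! ### Reflection in a vertical line (crossings kept: turning over about a vertical axis) -/

/-- The diagram (with `m` lower endpoints) turned over about a vertical axis. -/
def hr : ℕ → Word → Word
  | _, [] => []
  | m, g :: w => ⟨g.kind, m - g.off - g.kind.inn⟩ :: hr (m - g.kind.inn + g.kind.out) w

@[simp] theorem hr_nil (m : ℕ) : hr m [] = [] := rfl
theorem hr_cons (m : ℕ) (g : Gen) (w : Word) :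
    hr m (g :: w) = ⟨g.kind, m - g.off - g.kind.inn⟩ :: hr (m - g.kind.inn + g.kind.out) w := rfl

theorem hr_append {m l : ℕ} {u : Word} (h : Dia m u l) (v : Word) :
    hr m (u ++ v) = hr m u ++ hr l v := by
  induction u generalizing m with
  | nil => rw [dia_nil] at h; subst h; rfl
  | cons g u ih => rw [List.cons_append, hr_cons, ih h.2, hr_cons]; rfl

theorem dia_hr {m n : ℕ} {w : Word} (h : Dia m w n) : Dia m (hr m w) n := by
  induction w generalizing m with
  | nil => exact h
  | cons g w ih =>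
    obtain ⟨h1, h2⟩ := h
    exact ⟨by simp only; omega, ih h2⟩

theorem hr_flp {m n : ℕ} {w : Word} (h : Dia m w n) : hr n (flp w) = flp (hr m w) := by
  induction w generalizing m with
  | nil => rfl
  | cons g w ih =>
    obtain ⟨h1, h2⟩ := h
    have e : m - g.kind.inn + g.kind.out - g.off - g.kind.out = m - g.off - g.kind.inn := by omega
    rw [flp_cons, hr_append (dia_flp h2), ih h2, hr_cons m g w, flp_cons]
    simp only [hr_cons, hr_nil, flK_inn, e]

/-- The diagram (with `m` lower endpoints) rotated by half a turn in the plane. -/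
def rotw (m : ℕ) (w : Word) : Word := flp (hr m w)

@[simp] theorem rotw_nil (m : ℕ) : rotw m [] = [] := rfl
theorem rotw_cons (m : ℕ) (g : Gen) (w : Word) : rotw m (g :: w) =
    rotw (m - g.kind.inn + g.kind.out) w ++ [⟨flK g.kind, m - g.off - g.kind.inn⟩] := rfl

theorem dia_rotw {m n : ℕ} {w : Word} (h : Dia m w n) : Dia n (rotw m w) m := dia_flp (dia_hr h)

/-! ### Nested cups and bending -/

/-- `k` nested cups. -/
def nc : ℕ → Word
  | 0 => []
  | k + 1 => nc k ++ [cup k]

@[simp] theorem nc_zero : nc 0 = [] := rfl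
theorem nc_succ (k : ℕ) : nc (k + 1) = nc k ++ [cup k] := rfl

theorem nc_add (a b : ℕ) : nc (a + b) = nc a ++ sh a (nc b) := by
  induction b with
  | zero => simp
  | succ b ih =>
    rw [← Nat.add_assoc, nc_succ, ih, nc_succ, sh_append]
    simp [cup, Nat.add_comm]

theorem dia_nc (k : ℕ) : Dia 0 (nc k) (2 * k) := by
  induction k with
  | zero => rfl
  | succ k ih =>
    rw [nc_succ]
    refine dia_append.2 ⟨_, ih, ⟨by simp; omega, ?_⟩⟩
    simp; omega

theorem bend_core (k : Kind) : Iso 0 (k.out + k.inn) (nc k.inn ++ [⟨k, 0⟩])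
    (nc k.out ++ [⟨flK k, k.out⟩]) := by
  have key : Iso 0 4 [cup 0, cup 1, pos 0] [cup 0, cup 1, pos 2] := by
    have s1 : Iso 0 4 ([cup 0] ++ [cup 0, neg 1] ++ []) ([cup 0] ++ [cup 1, pos 0] ++ []) :=
      Iso.step (Elem.slideB 0) (by decide) (by decide)
    have s2 : Iso 0 4 ([cup 0] ++ [cup 1, pos 2] ++ []) ([cup 0] ++ [cup 2, neg 1] ++ []) :=
      Iso.step (Elem.slideA 1) (by decide) (by decide)
    have s3 : Iso 0 4 ([] ++ [cup 0, cup 2] ++ [neg 1]) ([] ++ [cup 0, cup 0] ++ [neg 1]) :=
      Iso.step (Elem.far .cup .cup 0 0 le_rfl) (by decide) (by decide)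
    exact s1.symm.trans (s3.symm.trans s2.symm)
  cases k with
  | cup =>
    have : Iso 0 2 ([cup 0] ++ [cup 1, cap 2] ++ []) ([cup 0] ++ [] ++ []) :=
      Iso.step (Elem.zag 1) (by decide) (by decide)
    exact this.symm
  | cap =>
    have : Iso 0 2 ([cup 0] ++ [cup 1, cap 0] ++ []) ([cup 0] ++ [] ++ []) :=
      Iso.step (Elem.zig 0) (by decide) (by decide)
    exact this
  | pos => exact key
  | neg => exact key.mir

theorem bend_gen' (k : Kind) (i r : ℕ) : Iso 0 ((i + k.out + r) + (i + k.inn + r))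
    (nc (i + k.inn + r) ++ [⟨k, i⟩]) (nc (i + k.out + r) ++ [⟨flK k, (i + k.out + r) + r⟩]) := by
  induction r with
  | zero =>
    have h := (bend_core k).at i i
    rw [sh_append, sh_append] at h
    have d : Dia 0 (nc i) (i + 0 + i) := (dia_nc i).cast rfl (by omega) rfl
    have := Iso.pre d h
    refine this.cast rfl (by omega) ?_ ?_
    · rw [Nat.add_zero, nc_add]; simp
    · rw [Nat.add_zero, nc_add]; simp [Nat.add_comm]
  | succ r ih =>
    have d1 : Dia 0 (nc (i + k.inn + r)) ((i + k.inn + r) + (i + k.inn + r)) :=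
      (dia_nc _).cast rfl (by omega) rfl
    have d2 : Dia 0 (nc (i + k.out + r)) ((i + k.out + r) + (i + k.out + r)) :=
      (dia_nc _).cast rfl (by omega) rfl
    have f1 := Elem.far k .cup i (i + r) (by omega)
    have f2 := Elem.far .cup (flK k) (i + k.out + r) (i + k.out + r + r) (by omega)
    have e1 : i + r + k.inn = i + k.inn + r := by omega
    have e2 : i + r + k.out = i + k.out + r := by omega
    rw [e1, e2] at f1
    simp only [inn_cup, out_cup, Nat.add_zero] at f2
    have hin := Kind.inn_eq k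
    have hout := Kind.out_eq k
    have s1 : Iso 0 ((i + k.out + (r + 1)) + (i + k.inn + (r + 1)))
        (nc (i + k.inn + r) ++ [⟨k, i⟩, ⟨.cup, i + k.out + r⟩] ++ [])
        (nc (i + k.inn + r) ++ [⟨.cup, i + k.inn + r⟩, ⟨k, i⟩] ++ []) := by
      refine Iso.step f1 ?_ ?_
      · rw [List.append_nil]
        refine dia_append.2 ⟨_, d1, ?_, ?_, ?_⟩
        · simp only; omega
        · simp only [inn_cup]; omega
        · simp only [dia_nil, inn_cup, out_cup]; omega
      · rw [List.append_nil]
        refine dia_append.2 ⟨_, d1, ?_, ?_, ?_⟩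
        · simp only [inn_cup]; omega
        · simp only [inn_cup, out_cup]; omega
        · simp only [dia_nil, inn_cup, out_cup]; omega
    have s2 : Iso 0 ((i + k.out + (r + 1)) + (i + k.inn + (r + 1)))
        ((nc (i + k.inn + r) ++ [⟨k, i⟩]) ++ [⟨.cup, i + k.out + r⟩])
        ((nc (i + k.out + r) ++ [⟨flK k, (i + k.out + r) + r⟩]) ++ [⟨.cup, i + k.out + r⟩]) := by
      refine Iso.post (n := (i + k.out + r) + (i + k.inn + r)) ?_ ih
      refine ⟨by simp only [inn_cup]; omega, ?_⟩
      simp only [dia_nil, inn_cup, out_cup]; omega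
    have s3 : Iso 0 ((i + k.out + (r + 1)) + (i + k.inn + (r + 1)))
        (nc (i + k.out + r) ++ [⟨.cup, i + k.out + r⟩, ⟨flK k, i + k.out + r + r + 2⟩] ++ [])
        (nc (i + k.out + r) ++ [⟨flK k, (i + k.out + r) + r⟩, ⟨.cup, i + k.out + r⟩] ++ []) := by
      refine Iso.step f2 ?_ ?_
      · rw [List.append_nil]
        refine dia_append.2 ⟨_, d2, ?_, ?_, ?_⟩
        · simp only [inn_cup]; omega
        · simp only [inn_cup, out_cup, flK_inn]; omega
        · simp only [dia_nil, inn_cup, out_cup, flK_inn, flK_out]; omega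
      · rw [List.append_nil]
        refine dia_append.2 ⟨_, d2, ?_, ?_, ?_⟩
        · simp only [flK_inn]; omega
        · simp only [inn_cup, out_cup, flK_inn, flK_out]; omega
        · simp only [dia_nil, inn_cup, out_cup, flK_inn, flK_out]; omega
    refine (s1.symm.cast rfl rfl ?_ ?_).trans (s2.trans (s3.symm.cast rfl rfl ?_ ?_))
    · rw [← Nat.add_assoc (i + k.inn), nc_succ]; simp [cup]
    · simp
    · simp
    · rw [← Nat.add_assoc (i + k.out), nc_succ]
      have e : i + k.out + r + 1 + (r + 1) = i + k.out + r + r + 2 := by omega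
      rw [e]; simp [cup]

theorem bend_gen {a a' : ℕ} {g : Gen} (h : Dia a [g] a') :
    Iso 0 (a' + a) (nc a ++ [g]) (nc a' ++ sh a' [⟨flK g.kind, a - g.off - g.kind.inn⟩]) := by
  obtain ⟨k, i⟩ := g
  obtain ⟨h1, h2⟩ := h
  rw [dia_nil] at h2
  simp only at h1 h2
  obtain ⟨r, rfl⟩ : ∃ r, a = i + k.inn + r := ⟨a - (i + k.inn), by omega⟩
  obtain rfl : a' = i + k.out + r := by omega
  have := bend_gen' k i r
  have e : i + k.inn + r - i - k.inn = r := by omega
  simpa [e, Nat.add_comm, Nat.add_left_comm, Nat.add_assoc] using this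

/-- A word on the left legs of nested cups can be moved to the right legs. -/
theorem bend {a b : ℕ} {W : Word} (h : Dia a W b) :
    Iso 0 (b + a) (nc a ++ W) (nc b ++ sh b (rotw a W)) := by
  induction W generalizing a with
  | nil =>
    rw [dia_nil] at h
    subst h
    simpa using Iso.refl _
  | cons g W ih =>
    obtain ⟨h1, h2⟩ := h
    have dg : Dia a [g] (a - g.kind.inn + g.kind.out) := ⟨h1, rfl⟩
    have dx : Dia (a - g.kind.inn + g.kind.out) [⟨flK g.kind, a - g.off - g.kind.inn⟩] a := by
      refine ⟨by simp only [flK_inn]; omega, ?_⟩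
      simp only [flK_inn, flK_out, dia_nil]; omega
    have h3 := ih h2
    rw [rotw_cons]
    generalize a - g.kind.inn + g.kind.out = a' at *
    have s1 : Iso 0 (b + a) ((nc a ++ [g]) ++ W)
        ((nc a' ++ sh a' [⟨flK g.kind, a - g.off - g.kind.inn⟩]) ++ W) :=
      Iso.post (dia_right a h2) (bend_gen dg)
    have s2 := Iso.pre ((dia_nc a').cast rfl (show 2 * a' = a' + a' by omega) rfl)
      (far_words h2 dx)
    have dx' : Dia (b + a') (sh b [⟨flK g.kind, a - g.off - g.kind.inn⟩]) (b + a) :=
      (dia_sh b dx).cast (by omega) (by omega) rfl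
    have s3 := Iso.post dx' h3
    refine (s1.cast rfl rfl ?_ ?_).trans ((s2.symm.cast rfl rfl rfl ?_).trans
      (s3.cast rfl rfl rfl ?_))
    · simp
    · simp
    · simp
    · simp

theorem bend_cup {L : Word} (h : Dia 1 L 1) :
    Iso 0 2 ([cup 0] ++ L) ([cup 0] ++ sh 1 (rotw 1 L)) := bend h

theorem bend_cap {L : Word} (h : Dia 1 L 1) :
    Iso 2 0 (L ++ [cap 0]) (sh 1 (rotw 1 L) ++ [cap 0]) := by
  have := (bend_cup (dia_flp h)).flp
  rw [flp_append, flp_append, flp_flp, flp_sh, rotw, flp_flp, hr_flp h] at this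
  exact this

/-! ### The half twist -/

/-- A strand of the word `blk` type: `b` strands passing under the next one. -/
def under (b : ℕ) : Word := binv (carN 0 b)

theorem isBraid_mir {w : Word} (h : IsBraid w) : IsBraid (mir w) := by
  intro g hg
  rw [mir, List.mem_map] at hg
  obtain ⟨g', hg', rfl⟩ := hg
  rcases h g' hg' with h | h <;> simp [h, mirK]

theorem isBraid_carN (a k : ℕ) : IsBraid (carN a k) := isBraid_mir (isBraid_car a k)

theorem dia_under {b M : ℕ} (h : b + 1 ≤ M) : Dia M (under b) M :=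
  dia_binv (isBraid_carN 0 b) (dia_mir (dia_car (by omega)))

theorem under_nat {a b : ℕ} {W : Word} (h : Dia a W b) :
    Iso (a + 1) (b + 1) (W ++ under b) (under a ++ sh 1 W) :=
  iso_inv_swap (isBraid_carN 0 a) (dia_mir (dia_car (by omega))) (isBraid_carN 0 b)
    (dia_mir (dia_car (by omega))) (dia_sh 1 h) (dia_right 1 h) (nat_neg h)

/-- `b` strands passing under the next `r` strands. -/
def bk (b : ℕ) : ℕ → Word
  | 0 => []
  | r + 1 => under b ++ sh 1 (bk b r)

theorem dia_bk {b r M : ℕ} (h : b + r ≤ M) : Dia M (bk b r) M := by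
  induction r generalizing M with
  | zero => rfl
  | succ r ih =>
    have := dia_sh 1 (ih (M := M - 1) (by omega))
    have e : M - 1 + 1 = M := by omega
    rw [e] at this
    exact dia_append.2 ⟨M, dia_under (by omega), this⟩

theorem bk_nat {a b : ℕ} {W : Word} (h : Dia a W b) (r : ℕ) :
    Iso (a + r) (b + r) (W ++ bk b r) (bk a r ++ sh r W) := by
  induction r with
  | zero => simpa [bk] using Iso.refl _
  | succ r ih =>
    have s1 := Iso.post (v := sh 1 (bk b r)) (r := b + (r + 1))
      ((dia_sh 1 (dia_bk (b := b) (r := r) (M := b + r) le_rfl)).cast (by omega) (by omega) rfl)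
      (((under_nat h).right r).cast rfl (show b + 1 + r = b + r + 1 by omega) rfl rfl)
    have s2 := Iso.pre (u := under a) (l := a + 1 + r)
      (dia_under (by omega) : Dia (a + 1 + r) (under a) (a + 1 + r))
      ((ih.left 1).cast (show a + r + 1 = a + 1 + r by omega) rfl rfl rfl)
    refine (s1.cast (by omega) (by omega) ?_ ?_).trans (s2.cast (by omega) (by omega) rfl ?_)
    · simp [bk]
    · simp
    · simp [bk, sh_sh]

/-- The half twist. -/
def ht : ℕ → Word
  | 0 => []
  | n + 1 => car 0 n ++ ht n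

theorem dia_ht {n M : ℕ} (h : n ≤ M) : Dia M (ht n) M := by
  induction n with
  | zero => rfl
  | succ n ih => exact dia_append.2 ⟨M, dia_car (by omega), ih (by omega)⟩

/-- Two strands carried to the right under `r` strands, in two ways. -/
theorem car_two (r : ℕ) : Iso (2 + r) (2 + r) (car 1 r ++ car 0 r) (bk 2 r) := by
  induction r with
  | zero => exact Iso.refl _
  | succ r ih =>
    -- `pos 0` commutes with `car 2 r`
    have f := far_words (a := 2) (b := 2) (c := r + 1) (d := r + 1) (W := [pos 0]) (X := car 0 r)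
      (by decide) (dia_car (by omega))
    rw [sh_car] at f
    have s1 := Iso.ctx (l := 2 + (r + 1)) (r := 2 + (r + 1)) (u := [pos 1]) (v := car 1 r)
      (⟨by simp <;> omega, by simp <;> omega⟩) (dia_car (by omega)) f
    have s2 := Iso.pre (l := 2 + (r + 1)) (u := [pos 1, pos 0])
      (⟨by simp; omega, by simp, by simp; omega⟩)
      ((ih.left 1).cast (show 2 + r + 1 = 2 + (r + 1) by omega)
        (show 2 + r + 1 = 2 + (r + 1) by omega) rfl rfl)
    rw [sh_append, sh_car, sh_car] at s2
    refine (s1.symm.cast rfl rfl ?_ ?_).trans (s2.cast rfl rfl rfl ?_)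
    · simp [car]
    · simp
    · rfl

theorem bk_zero (r : ℕ) : bk 0 r = [] := by
  induction r with
  | zero => rfl
  | succ r ih => rw [bk, ih]; rfl

theorem ht_split {c : ℕ} (hc : c = 0 ∨ c = 2) (r : ℕ) :
    Iso (c + r) (c + r) (ht (c + r)) (ht c ++ bk c r ++ ht r) := by
  rcases hc with rfl | rfl
  · simpa [bk_zero, ht] using Iso.refl _
  · have e : 2 + r = r + 1 + 1 := by omega
    have e2 : ht (2 + r) = [pos 0] ++ (car 1 r ++ car 0 r) ++ ht r := by
      rw [e, ht, ht, car]; simp
    rw [e2]
    exact Iso.ctx (u := [pos 0]) (v := ht r) (⟨by simp, by simp [Nat.add_comm]⟩)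
      (dia_ht (by omega)) (car_two r)

theorem twist_core (k : Kind) : Iso k.inn k.out ([⟨k, 0⟩] ++ ht k.out) (ht k.inn ++ [⟨k, 0⟩]) := by
  cases k with
  | cup => exact Iso.elem (Elem.r1A 0) (by decide) (by decide)
  | cap => exact (Iso.elem (Elem.r1C 0) (by decide) (by decide)).symm
  | pos => exact Iso.refl _
  | neg =>
    have s1 : Iso 2 2 [neg 0, pos 0] [] := Iso.elem (Elem.r2B 0) (by decide) (by decide)
    have s2 : Iso 2 2 [pos 0, neg 0] [] := Iso.elem (Elem.r2A 0) (by decide) (by decide)
    exact s1.trans s2.symm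

theorem twist_gen (k : Kind) (i r : ℕ) : Iso (i + k.inn + r) (i + k.out + r)
    ([⟨k, i⟩] ++ ht (i + k.out + r)) (ht (i + k.inn + r) ++ [⟨k, r⟩]) := by
  induction i with
  | zero =>
    have dk : Dia k.inn [⟨k, 0⟩] k.out := ⟨by simp, by simp⟩
    have dk' : Dia (k.inn + r) [⟨k, 0⟩] (k.out + r) := dia_right r dk
    have dkr : Dia (k.inn + r) [⟨k, r⟩] (k.out + r) := ⟨by simp <;> omega, by simp <;> omega⟩
    have s1 := Iso.pre dk' (ht_split k.out_eq r)
    have s2 := Iso.post (v := bk k.out r ++ ht r) (r := k.out + r)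
      (dia_append.2 ⟨_, dia_bk le_rfl, dia_ht (by omega)⟩) ((twist_core k).right r)
    have s3 := Iso.ctx (u := ht k.inn) (v := ht r) (l := k.inn + r) (r := k.out + r)
      (dia_ht (by omega)) (dia_ht (by omega)) (bk_nat dk r)
    have f := far_words (W := ht r) (X := [⟨k, 0⟩]) (a := r) (b := r) (dia_ht le_rfl) dk
    have s4 := Iso.pre (u := ht k.inn ++ bk k.inn r) (l := k.inn + r) (m := k.inn + r)
      (dia_append.2 ⟨_, dia_ht (by omega), dia_bk le_rfl⟩)
      (f.cast (Nat.add_comm _ _) (Nat.add_comm _ _) rfl rfl)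
    have s5 := Iso.post dkr (ht_split k.inn_eq r)
    rw [Nat.zero_add, Nat.zero_add]
    have t2 : Iso (k.inn + r) (k.out + r) ([⟨k, 0⟩] ++ (ht k.out ++ bk k.out r ++ ht r))
        (ht k.inn ++ ([⟨k, 0⟩] ++ bk k.out r) ++ ht r) := s2.cast rfl rfl (by simp) (by simp)
    have t4 : Iso (k.inn + r) (k.out + r) (ht k.inn ++ (bk k.inn r ++ sh r [⟨k, 0⟩]) ++ ht r)
        (ht k.inn ++ bk k.inn r ++ ht r ++ [⟨k, r⟩]) := s4.symm.cast rfl rfl (by simp) (by simp)
    exact s1.trans (t2.trans (s3.trans (t4.trans s5.symm)))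
  | succ i ih =>
    have dk : Dia (i + k.inn + r) [⟨k, i⟩] (i + k.out + r) := ⟨by simp <;> omega, by simp <;> omega⟩
    have s1 := Iso.post (v := ht (i + k.out + r)) (r := i + k.out + r + 1)
      (dia_ht (by omega)) (nat_pos dk)
    have s2 := Iso.pre (u := car 0 (i + k.inn + r)) (l := i + k.inn + r + 1)
      (dia_car (by omega)) (ih.right 1)
    have e1 : i + 1 + k.inn + r = i + k.inn + r + 1 := by omega
    have e2 : i + 1 + k.out + r = i + k.out + r + 1 := by omega
    rw [e1, e2, ht, ht]
    refine (s1.cast rfl rfl ?_ ?_).trans (s2.cast rfl rfl rfl ?_)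
    · simp
    · simp
    · simp

/-- The half twist turns a word over. -/
theorem twist_nat {a b : ℕ} {W : Word} (h : Dia a W b) :
    Iso a b (W ++ ht b) (ht a ++ hr a W) := by
  induction W generalizing a with
  | nil =>
    rw [dia_nil] at h
    subst h
    simpa using Iso.refl _
  | cons g W ih =>
    obtain ⟨h1, h2⟩ := h
    obtain ⟨k, i⟩ := g
    simp only at h1 h2
    obtain ⟨r, rfl⟩ : ∃ r, a = i + k.inn + r := ⟨a - (i + k.inn), by omega⟩
    have e : i + k.inn + r - k.inn + k.out = i + k.out + r := by omega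
    have e' : i + k.inn + r - i - k.inn = r := by omega
    rw [e] at h2
    rw [hr_cons]
    simp only [e, e']
    have dk : Dia (i + k.inn + r) [⟨k, i⟩] (i + k.out + r) := ⟨by simp <;> omega, by simp <;> omega⟩
    have s1 := Iso.pre dk (ih h2)
    have s2 := Iso.post (dia_hr h2) (twist_gen k i r)
    refine (s1.cast rfl rfl rfl ?_).trans (s2.cast rfl rfl rfl ?_)
    · simp
    · simp

theorem iso_hr {L : Word} (h : Dia 1 L 1) : Iso 1 1 L (hr 1 L) := by
  have := twist_nat h
  simpa [ht] using this

/-- A long knot, summed with its reverse, is isotopic to its image under rotation. -/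
theorem iso_rotw {J : Word} (h : Dia 1 J 1) : Iso 1 1 (rotw 1 (J ++ flp J)) (J ++ flp J) := by
  have hL : Dia 1 (J ++ flp J) 1 := dia_append.2 ⟨1, h, dia_flp h⟩
  have := (iso_hr hL).symm.flp
  rw [flp_append J, flp_flp] at this
  exact this

end H80Skein
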