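import Pool.Agent.H80Skein.Insert

/-! The Kauffman bracket of a sliced diagram, as an operator. -/

set_option linter.unusedSimpArgs false
set_option linter.unusedSectionVars false

namespace H80Skein

section Ops

variable {R : Type*} [CommRing R]

/-- Functions of the labels `0`, `1` of the strands. -/
abbrev Fn (R : Type*) := (ℕ → ZMod 2) → R

/-- Two labels inserted at `i`. -/
def ins2 (i : ℕ) (a b : ZMod 2) (x : ℕ → ZMod 2) : ℕ → ZMod 2 := fun j =>
  if j < i then x j else if j = i then a else if j = i + 1 then b else x (j - 2)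

/-- Two labels removed at `i`. -/
def del2 (i : ℕ) (x : ℕ → ZMod 2) : ℕ → ZMod 2 := fun j => if j < i then x j else x (j + 2)

theorem ins2_lt {i j : ℕ} (h : j < i) (a b : ZMod 2) (x : ℕ → ZMod 2) : ins2 i a b x j = x j := by
  simp [ins2, h]
theorem ins2_at (i : ℕ) (a b : ZMod 2) (x : ℕ → ZMod 2) : ins2 i a b x i = a := by simp [ins2]
theorem ins2_at' (i : ℕ) (a b : ZMod 2) (x : ℕ → ZMod 2) : ins2 i a b x (i + 1) = b := by
  simp [ins2]
theorem ins2_ge {i j : ℕ} (h : i ≤ j) (a b : ZMod 2) (x : ℕ → ZMod 2) :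
    ins2 i a b x (j + 2) = x j := by
  have h1 : ¬ j + 2 < i := by omega
  have h2 : ¬ j + 2 = i := by omega
  have h3 : ¬ j + 2 = i + 1 := by omega
  simp [ins2, h1, h2, h3]

theorem del2_ins2 (i : ℕ) (a b : ZMod 2) (x : ℕ → ZMod 2) : del2 i (ins2 i a b x) = x := by
  funext j
  unfold del2
  split_ifs with h
  · exact ins2_lt h _ _ _
  · exact ins2_ge (by omega) _ _ _

variable (A : Rˣ)

/-- The cup operator. -/
def Cup (i : ℕ) : Module.End R (Fn R) where
  toFun φ x := (A : R) * φ (ins2 i 0 1 x) - ((A⁻¹ : Rˣ) : R) * φ (ins2 i 1 0 x)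
  map_add' φ ψ := by funext x; simp only [Pi.add_apply]; ring
  map_smul' r φ := by funext x; simp only [Pi.smul_apply, smul_eq_mul, RingHom.id_apply]; ring

/-- The weight of a cap with left label `a`. -/
def wn (a : ZMod 2) : R := if a = 0 then -(A : R) else ((A⁻¹ : Rˣ) : R)

/-- The cap operator. -/
def Cap (i : ℕ) : Module.End R (Fn R) where
  toFun φ x := if x (i + 1) = x i + 1 then wn A (x i) * φ (del2 i x) else 0
  map_add' φ ψ := by funext x; simp only [Pi.add_apply]; split_ifs <;> ring
  map_smul' r φ := by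
    funext x; simp only [Pi.smul_apply, smul_eq_mul, RingHom.id_apply]; split_ifs <;> ring

theorem cup_apply (i : ℕ) (φ : Fn R) (x : ℕ → ZMod 2) : Cup A i φ x =
    (A : R) * φ (ins2 i 0 1 x) - ((A⁻¹ : Rˣ) : R) * φ (ins2 i 1 0 x) := rfl
theorem cap_apply (i : ℕ) (φ : Fn R) (x : ℕ → ZMod 2) : Cap A i φ x =
    if x (i + 1) = x i + 1 then wn A (x i) * φ (del2 i x) else 0 := rfl

/-- The loop value. -/
def dl : R := -(A : R) ^ 2 - ((A⁻¹ : Rˣ) : R) ^ 2

theorem aa : (A : R) * ((A⁻¹ : Rˣ) : R) = 1 := by simp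

theorem cup_cap (i : ℕ) : Cup A i * Cap A i = dl A • 1 := by
  ext φ x
  simp only [Module.End.mul_apply, cup_apply, cap_apply, ins2_at, ins2_at', del2_ins2, dl,
    LinearMap.smul_apply, Module.End.one_apply, Pi.smul_apply, smul_eq_mul, wn]
  have h1 : (1 : ZMod 2) = 0 + 1 := by decide
  have h2 : (0 : ZMod 2) = 1 + 1 := by decide
  have h3 : (1 : ZMod 2) ≠ 0 := by decide
  rw [if_pos h1, if_pos h2, if_pos trivial, if_neg h3]
  ring

theorem zig_op (i : ℕ) : Cup A (i + 1) * Cap A i = 1 := by
  ext φ x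
  have e : ∀ a b : ZMod 2, b = x i → del2 i (ins2 (i + 1) a b x) = x := by
    intro a b hb
    funext j
    unfold del2
    split_ifs with h
    · exact ins2_lt (by omega) _ _ _
    · by_cases h2 : j = i
      · subst h2
        have : j + 2 = j + 1 + 1 := rfl
        rw [this, ins2_at', hb]
      · exact ins2_ge (by omega) _ _ _
  simp only [Module.End.mul_apply, cup_apply, cap_apply, ins2_at, Module.End.one_apply, wn,
    ins2_lt (Nat.lt_succ_self i)]
  have hx : x i = 0 ∨ x i = 1 := by generalize x i = a; revert a; decide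
  have := aa A
  rcases hx with hx | hx
  · rw [hx, if_neg (by decide), if_pos (by decide), if_pos rfl, e 1 0 hx.symm]
    linear_combination φ x * this
  · rw [hx, if_pos (by decide), if_neg (by decide), if_neg (by decide), e 0 1 hx.symm]
    linear_combination φ x * this

theorem zag_op (i : ℕ) : Cup A i * Cap A (i + 1) = 1 := by
  ext φ x
  have e : ∀ a b : ZMod 2, a = x i → del2 (i + 1) (ins2 i a b x) = x := by
    intro a b hb
    funext j
    unfold del2
    split_ifs with h
    · by_cases h2 : j = i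
      · subst h2
        rw [ins2_at, hb]
      · exact ins2_lt (by omega) _ _ _
    · exact ins2_ge (by omega) _ _ _
  have e2 : ∀ a b : ZMod 2, ins2 i a b x (i + 1 + 1) = x i := fun a b => ins2_ge le_rfl _ _ _
  simp only [Module.End.mul_apply, cup_apply, cap_apply, ins2_at', Module.End.one_apply, wn, e2]
  have hx : x i = 0 ∨ x i = 1 := by generalize x i = a; revert a; decide
  have := aa A
  rcases hx with hx | hx
  · rw [hx, if_pos (by decide), if_neg (by decide), if_neg (by decide), e 0 1 hx.symm]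
    linear_combination φ x * this
  · rw [hx, if_neg (by decide), if_pos (by decide), if_pos trivial, e 1 0 hx.symm]
    linear_combination φ x * this

theorem far_cup_cup {i j : ℕ} (h : i ≤ j) : Cup A i * Cup A (j + 2) = Cup A j * Cup A i := by
  have e : ∀ (a b c d : ZMod 2) (x : ℕ → ZMod 2),
      ins2 (j + 2) c d (ins2 i a b x) = ins2 i a b (ins2 j c d x) := by
    intro a b c d x
    funext k
    simp only [ins2]
    split_ifs <;> first | rfl | omega | (congr 1; omega)
  ext φ x
  simp only [Module.End.mul_apply, cup_apply, e]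
  ring

theorem far_cup_cap {i j : ℕ} (h : i ≤ j) : Cup A i * Cap A (j + 2) = Cap A j * Cup A i := by
  have e : ∀ (a b : ZMod 2) (x : ℕ → ZMod 2),
      del2 (j + 2) (ins2 i a b x) = ins2 i a b (del2 j x) := by
    intro a b x
    funext k
    simp only [ins2, del2]
    split_ifs <;> first | rfl | omega | (congr 1; omega)
  have e1 : ∀ (a b : ZMod 2) (x : ℕ → ZMod 2), ins2 i a b x (j + 2) = x j :=
    fun a b x => ins2_ge h _ _ _
  have e2 : ∀ (a b : ZMod 2) (x : ℕ → ZMod 2), ins2 i a b x (j + 2 + 1) = x (j + 1) :=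
    fun a b x => ins2_ge (by omega) _ _ _
  ext φ x
  simp only [Module.End.mul_apply, cup_apply, cap_apply, e, e1, e2]
  split_ifs <;> ring

theorem far_cap_cup {i j : ℕ} (h : i ≤ j) : Cap A i * Cup A j = Cup A (j + 2) * Cap A i := by
  have e : ∀ (a b : ZMod 2) (x : ℕ → ZMod 2),
      ins2 j a b (del2 i x) = del2 i (ins2 (j + 2) a b x) := by
    intro a b x
    funext k
    simp only [ins2, del2]
    split_ifs <;> first | rfl | omega | (congr 1; omega)
  have e1 : ∀ (a b : ZMod 2) (x : ℕ → ZMod 2), ins2 (j + 2) a b x i = x i :=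
    fun a b x => ins2_lt (by omega) _ _ _
  have e2 : ∀ (a b : ZMod 2) (x : ℕ → ZMod 2), ins2 (j + 2) a b x (i + 1) = x (i + 1) :=
    fun a b x => ins2_lt (by omega) _ _ _
  ext φ x
  simp only [Module.End.mul_apply, cup_apply, cap_apply, e, e1, e2]
  split_ifs <;> ring

theorem far_cap_cap {i j : ℕ} (h : i ≤ j) : Cap A i * Cap A j = Cap A (j + 2) * Cap A i := by
  have e : ∀ (x : ℕ → ZMod 2), del2 j (del2 i x) = del2 i (del2 (j + 2) x) := by
    intro x
    funext k
    simp only [del2]
    split_ifs <;> first | rfl | omega | (congr 1; omega)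
  have e1 : ∀ (x : ℕ → ZMod 2), del2 i x j = x (j + 2) := by
    intro x; simp only [del2]; rw [if_neg (by omega)]
  have e2 : ∀ (x : ℕ → ZMod 2), del2 i x (j + 1) = x (j + 2 + 1) := by
    intro x; simp only [del2]; rw [if_neg (by omega)]
  have e3 : ∀ (x : ℕ → ZMod 2), del2 (j + 2) x i = x i := by
    intro x; simp only [del2]; rw [if_pos (by omega)]
  have e4 : ∀ (x : ℕ → ZMod 2), del2 (j + 2) x (i + 1) = x (i + 1) := by
    intro x; simp only [del2]; rw [if_pos (by omega)]
  ext φ x
  simp only [Module.End.mul_apply, cap_apply, e, e1, e2, e3, e4]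
  split_ifs <;> ring

/-- The Temperley-Lieb generator. -/
def TE (i : ℕ) : Module.End R (Fn R) := Cap A i * Cup A i

/-- The operator of a piece. -/
def op : Kind → ℕ → Module.End R (Fn R)
  | .cup, i => Cup A i
  | .cap, i => Cap A i
  | .pos, i => ((A⁻¹ : Rˣ) : R) • 1 + (A : R) • TE A i
  | .neg, i => (A : R) • 1 + ((A⁻¹ : Rˣ) : R) • TE A i

/-- The operator of a diagram. -/
def ev (w : Word) : Module.End R (Fn R) := (w.map fun g => op A g.kind g.off).prod

@[simp] theorem ev_nil : ev A [] = 1 := rfl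
theorem ev_cons (g : Gen) (w : Word) : ev A (g :: w) = op A g.kind g.off * ev A w := by
  simp [ev]
theorem ev_append (u v : Word) : ev A (u ++ v) = ev A u * ev A v := by simp [ev]

theorem te_te (i : ℕ) : TE A i * TE A i = dl A • TE A i := by
  unfold TE
  rw [mul_assoc, ← mul_assoc (Cup A i), cup_cap]
  simp

theorem far_E (k : Kind) {i j : ℕ} (h : i ≤ j) :
    op A k i * TE A (j + k.out) = TE A (j + k.inn) * op A k i := by
  have hc : Cup A i * TE A (j + 2) = TE A j * Cup A i := by
    unfold TE
    rw [← mul_assoc, far_cup_cap A h, mul_assoc, far_cup_cup A h, mul_assoc]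
  have hd : Cap A i * TE A j = TE A (j + 2) * Cap A i := by
    unfold TE
    rw [← mul_assoc, far_cap_cap A h, mul_assoc, far_cap_cup A h, mul_assoc]
  have he : TE A i * TE A (j + 2) = TE A (j + 2) * TE A i := by
    conv_lhs => rw [TE]
    conv_rhs => rw [TE.eq_1 A i]
    rw [mul_assoc, hc, ← mul_assoc, hd, mul_assoc]
  cases k with
  | cup => exact hc
  | cap => exact hd
  | pos =>
    simp only [op, out_pos, inn_pos, add_mul, mul_add, smul_mul_assoc, mul_smul_comm, one_mul,
      mul_one, he]
  | neg =>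
    simp only [op, out_neg, inn_neg, add_mul, mul_add, smul_mul_assoc, mul_smul_comm, one_mul,
      mul_one, he]

theorem far_E' (k : Kind) {i j : ℕ} (h : i ≤ j) :
    TE A i * op A k (j + 2) = op A k (j + 2) * TE A i := by
  cases k with
  | cup =>
    simp only [op, TE]
    rw [mul_assoc, far_cup_cup A h, ← mul_assoc, far_cap_cup A h, mul_assoc]
  | cap =>
    simp only [op, TE]
    rw [mul_assoc, far_cup_cap A h, ← mul_assoc, far_cap_cap A h, mul_assoc]
  | pos =>
    have := far_E A .pos h
    have he : TE A i * TE A (j + 2) = TE A (j + 2) * TE A i := by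
      have h1 := far_E A .cup h
      have h2 := far_E A .cap h
      simp only [op, out_cup, inn_cup, out_cap, inn_cap, Nat.add_zero] at h1 h2
      conv_lhs => rw [TE]
      conv_rhs => rw [TE.eq_1 A i]
      rw [mul_assoc, h1, ← mul_assoc, h2, mul_assoc]
    simp only [op, add_mul, mul_add, smul_mul_assoc, mul_smul_comm, one_mul, mul_one, he]
  | neg =>
    have he : TE A i * TE A (j + 2) = TE A (j + 2) * TE A i := by
      have h1 := far_E A .cup h
      have h2 := far_E A .cap h
      simp only [op, out_cup, inn_cup, out_cap, inn_cap, Nat.add_zero] at h1 h2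
      conv_lhs => rw [TE]
      conv_rhs => rw [TE.eq_1 A i]
      rw [mul_assoc, h1, ← mul_assoc, h2, mul_assoc]
    simp only [op, add_mul, mul_add, smul_mul_assoc, mul_smul_comm, one_mul, mul_one, he]

theorem far_op (a b : Kind) {i j : ℕ} (h : i ≤ j) :
    op A a i * op A b (j + a.out) = op A b (j + a.inn) * op A a i := by
  cases b with
  | cup =>
    cases a with
    | cup => exact far_cup_cup A h
    | cap => exact far_cap_cup A h
    | pos =>
      have := far_E' A .cup h
      simp only [op] at this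
      simp only [op, out_pos, inn_pos, add_mul, mul_add, smul_mul_assoc, mul_smul_comm, one_mul,
        mul_one, this]
    | neg =>
      have := far_E' A .cup h
      simp only [op] at this
      simp only [op, out_neg, inn_neg, add_mul, mul_add, smul_mul_assoc, mul_smul_comm, one_mul,
        mul_one, this]
  | cap =>
    cases a with
    | cup => exact far_cup_cap A h
    | cap => exact far_cap_cap A h
    | pos =>
      have := far_E' A .cap h
      simp only [op] at this
      simp only [op, out_pos, inn_pos, add_mul, mul_add, smul_mul_assoc, mul_smul_comm, one_mul,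
        mul_one, this]
    | neg =>
      have := far_E' A .cap h
      simp only [op] at this
      simp only [op, out_neg, inn_neg, add_mul, mul_add, smul_mul_assoc, mul_smul_comm, one_mul,
        mul_one, this]
  | pos =>
    have := far_E A a h
    simp only [op.eq_3, add_mul, mul_add, smul_mul_assoc, mul_smul_comm, one_mul, mul_one, this]
  | neg =>
    have := far_E A a h
    simp only [op.eq_4, add_mul, mul_add, smul_mul_assoc, mul_smul_comm, one_mul, mul_one, this]

theorem te_te' (i : ℕ) : TE A i * TE A i = (-(A : R) ^ 2 - ((A⁻¹ : Rˣ) : R) ^ 2) • TE A i :=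
  te_te A i

theorem tft (i : ℕ) : TE A i * TE A (i + 1) * TE A i = TE A i := by
  unfold TE
  have h1 := zig_op A i
  have h2 := zag_op A i
  calc Cap A i * Cup A i * (Cap A (i + 1) * Cup A (i + 1)) * (Cap A i * Cup A i)
      = Cap A i * (Cup A i * Cap A (i + 1)) * (Cup A (i + 1) * Cap A i) * Cup A i := by
        simp only [mul_assoc]
    _ = _ := by rw [h1, h2]; simp

theorem ftf (i : ℕ) : TE A (i + 1) * TE A i * TE A (i + 1) = TE A (i + 1) := by
  unfold TE
  have h1 := zig_op A i
  have h2 := zag_op A i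
  calc Cap A (i + 1) * Cup A (i + 1) * (Cap A i * Cup A i) * (Cap A (i + 1) * Cup A (i + 1))
      = Cap A (i + 1) * (Cup A (i + 1) * Cap A i) * (Cup A i * Cap A (i + 1)) * Cup A (i + 1) := by
        simp only [mul_assoc]
    _ = _ := by rw [h1, h2]; simp

theorem r2_alg {S : Type*} [Ring S] [Algebra R S] {a b : R} (hab : a * b = 1) {E : S}
    (hE : E * E = (-b ^ 2 - a ^ 2) • E) : (a • 1 + b • E) * (b • 1 + a • E) = 1 := by
  have : (a • 1 + b • E) * (b • 1 + a • E) = (a * b) • (1 : S) + (a * a + b * b) • E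
      + (a * b) • (E * E) := by
    simp only [add_mul, mul_add, smul_mul_assoc, mul_smul_comm, one_mul, mul_one]
    module
  rw [this, hE, hab]
  match_scalars <;> linear_combination (0 : R)

theorem r3_alg {S : Type*} [Ring S] [Algebra R S] {a b : R} (hab : a * b = 1) {E F : S}
    (hE : E * E = (-b ^ 2 - a ^ 2) • E) (hF : F * F = (-b ^ 2 - a ^ 2) • F)
    (h1 : E * F * E = E) (h2 : F * E * F = F) :
    (a • 1 + b • E) * (a • 1 + b • F) * (a • 1 + b • E) =
      (a • 1 + b • F) * (a • 1 + b • E) * (a • 1 + b • F) := by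
  have key : ∀ (E F : S), (a • 1 + b • E) * (a • 1 + b • F) * (a • 1 + b • E) =
      (a ^ 3) • (1 : S) + (2 * a ^ 2 * b) • E + (a ^ 2 * b) • F + (a * b ^ 2) • (E * F)
        + (a * b ^ 2) • (F * E) + (a * b ^ 2) • (E * E) + (b ^ 3) • (E * F * E) := by
    intro E F
    simp only [add_mul, mul_add, smul_mul_assoc, mul_smul_comm, one_mul, mul_one]
    module
  rw [key, key, hE, hF, h1, h2]
  match_scalars
  · ring
  · linear_combination (-(a ^ 2 * b + b ^ 3)) * hab
  · linear_combination (a ^ 2 * b + b ^ 3) * hab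
  · ring
  · ring

theorem aa' : ((A⁻¹ : Rˣ) : R) * (A : R) = 1 := by simp

/-- The framing factor. -/
def qq : Rˣ := -(A ^ 3)

theorem kink1 : ((A⁻¹ : Rˣ) : R) + (A : R) * dl A = ((qq A : Rˣ) : R) := by
  have := aa A
  simp only [dl, qq, Units.val_neg, Units.val_pow_eq_pow_val]
  linear_combination (-((A⁻¹ : Rˣ) : R)) * this

theorem kink2 : (A : R) + ((A⁻¹ : Rˣ) : R) * dl A = (((qq A)⁻¹ : Rˣ) : R) := by
  have h := aa A
  have e : (((qq A)⁻¹ : Rˣ) : R) = -(((A⁻¹ : Rˣ) : R) ^ 3) := by
    rw [qq, inv_neg, ← inv_pow]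
    simp
  rw [e, dl]
  linear_combination (-(A : R)) * h

theorem ev_elem {s t : Word} (h : Elem s t) :
    ∃ k : ℤ, ev A s = (((qq A) ^ k : Rˣ) : R) • ev A t := by
  have h1 := aa A
  have h2 := aa' A
  cases h with
  | far a b i j h =>
    refine ⟨0, ?_⟩
    simp only [ev_cons, ev_nil, mul_one, zpow_zero, Units.val_one, one_smul]
    exact far_op A a b h
  | zig i =>
    refine ⟨0, ?_⟩
    simp only [ev_cons, ev_nil, mul_one, zpow_zero, Units.val_one, one_smul]
    exact zig_op A i
  | zag i =>
    refine ⟨0, ?_⟩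
    simp only [ev_cons, ev_nil, mul_one, zpow_zero, Units.val_one, one_smul]
    exact zag_op A i
  | slideA i =>
    refine ⟨0, ?_⟩
    simp only [ev_cons, ev_nil, mul_one, zpow_zero, Units.val_one, one_smul, cup_kind, pos_kind,
      neg_kind, cup_off, pos_off, neg_off, op, mul_add, mul_smul_comm, TE, ← mul_assoc,
      zag_op, zig_op, one_mul]
    abel
  | slideB i =>
    refine ⟨0, ?_⟩
    simp only [ev_cons, ev_nil, mul_one, zpow_zero, Units.val_one, one_smul, cup_kind, pos_kind,
      neg_kind, cup_off, pos_off, neg_off, op, mul_add, mul_smul_comm, TE, ← mul_assoc,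
      zag_op, zig_op, one_mul]
    abel
  | slideC i =>
    refine ⟨0, ?_⟩
    simp only [ev_cons, ev_nil, mul_one, zpow_zero, Units.val_one, one_smul, cap_kind, pos_kind,
      neg_kind, cap_off, pos_off, neg_off, op, add_mul, smul_mul_assoc, TE, mul_assoc,
      zag_op, zig_op, one_mul]
    abel
  | slideD i =>
    refine ⟨0, ?_⟩
    simp only [ev_cons, ev_nil, mul_one, zpow_zero, Units.val_one, one_smul, cap_kind, pos_kind,
      neg_kind, cap_off, pos_off, neg_off, op, add_mul, smul_mul_assoc, TE, mul_assoc,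
      zag_op, zig_op, one_mul]
    abel
  | r1A i =>
    refine ⟨1, ?_⟩
    simp only [ev_cons, ev_nil, mul_one, zpow_one, cup_kind, pos_kind, cup_off, pos_off, op,
      mul_add, mul_smul_comm, TE, ← mul_assoc, cup_cap, smul_mul_assoc, one_mul]
    rw [← kink1, smul_smul, ← add_smul]
  | r1B i =>
    refine ⟨-1, ?_⟩
    simp only [ev_cons, ev_nil, mul_one, zpow_neg_one, cup_kind, neg_kind, cup_off, neg_off, op,
      mul_add, mul_smul_comm, TE, ← mul_assoc, cup_cap, smul_mul_assoc, one_mul]
    rw [← kink2, smul_smul, ← add_smul]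
  | r1C i =>
    refine ⟨1, ?_⟩
    simp only [ev_cons, ev_nil, mul_one, zpow_one, cap_kind, pos_kind, cap_off, pos_off, op,
      add_mul, smul_mul_assoc, TE, mul_assoc, cup_cap, mul_smul_comm, one_mul]
    rw [← kink1, smul_smul, ← add_smul]
  | r1D i =>
    refine ⟨-1, ?_⟩
    simp only [ev_cons, ev_nil, mul_one, zpow_neg_one, cap_kind, neg_kind, cap_off, neg_off, op,
      add_mul, smul_mul_assoc, TE, mul_assoc, cup_cap, mul_smul_comm, one_mul]
    rw [← kink2, smul_smul, ← add_smul]
  | r2A i =>
    refine ⟨0, ?_⟩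
    simp only [ev_cons, ev_nil, mul_one, zpow_zero, Units.val_one, one_smul, pos_kind, neg_kind,
      pos_off, neg_off, op]
    exact r2_alg h2 (te_te' A i)
  | r2B i =>
    refine ⟨0, ?_⟩
    simp only [ev_cons, ev_nil, mul_one, zpow_zero, Units.val_one, one_smul, pos_kind, neg_kind,
      pos_off, neg_off, op]
    refine r2_alg h1 ?_
    rw [te_te' A i]
    congr 1
    ring
  | r3 i =>
    refine ⟨0, ?_⟩
    simp only [ev_cons, ev_nil, mul_one, zpow_zero, Units.val_one, one_smul, pos_kind, pos_off,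
      op]
    have := r3_alg h2 (te_te' A i) (te_te' A (i + 1)) (tft A i) (ftf A i)
    simpa only [mul_assoc] using this

theorem ev_iso {m n : ℕ} {a b : Word} (h : Iso m n a b) :
    ∃ k : ℤ, ev A a = (((qq A) ^ k : Rˣ) : R) • ev A b := by
  induction h with
  | rel a b hab =>
    obtain ⟨-, -, u, v, s, t, hst, rfl, rfl⟩ := hab
    obtain ⟨k, hk⟩ := ev_elem A hst
    refine ⟨k, ?_⟩
    rw [ev_append, ev_append, ev_append, ev_append, hk]
    simp
  | refl a => exact ⟨0, by simp⟩
  | symm a b _ ih =>
    obtain ⟨k, hk⟩ := ih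
    refine ⟨-k, ?_⟩
    rw [hk, smul_smul, ← Units.val_mul, ← zpow_add]
    simp
  | trans a b c _ _ ih ih' =>
    obtain ⟨k, hk⟩ := ih
    obtain ⟨l, hl⟩ := ih'
    refine ⟨k + l, ?_⟩
    rw [hk, hl, smul_smul, ← Units.val_mul, ← zpow_add]

end Ops

end H80Skein
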