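import Pool.Agent.H80Skein.Defs

/-! Invariance of the labellings, and basic rules for diagrams and isotopies. -/

set_option linter.unusedSimpArgs false

namespace H80Skein

@[simp] theorem cup_kind (i : ℕ) : (cup i).kind = .cup := rfl
@[simp] theorem cap_kind (i : ℕ) : (cap i).kind = .cap := rfl
@[simp] theorem pos_kind (i : ℕ) : (pos i).kind = .pos := rfl
@[simp] theorem neg_kind (i : ℕ) : (neg i).kind = .neg := rfl
@[simp] theorem cup_off (i : ℕ) : (cup i).off = i := rfl
@[simp] theorem cap_off (i : ℕ) : (cap i).off = i := rfl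
@[simp] theorem pos_off (i : ℕ) : (pos i).off = i := rfl
@[simp] theorem neg_off (i : ℕ) : (neg i).off = i := rfl
@[simp] theorem inn_cup : Kind.cup.inn = 0 := rfl
@[simp] theorem inn_cap : Kind.cap.inn = 2 := rfl
@[simp] theorem inn_pos : Kind.pos.inn = 2 := rfl
@[simp] theorem inn_neg : Kind.neg.inn = 2 := rfl
@[simp] theorem out_cup : Kind.cup.out = 2 := rfl
@[simp] theorem out_cap : Kind.cap.out = 0 := rfl
@[simp] theorem out_pos : Kind.pos.out = 2 := rfl
@[simp] theorem out_neg : Kind.neg.out = 2 := rfl

theorem Kind.inn_eq (k : Kind) : k.inn = 0 ∨ k.inn = 2 := by cases k <;> simp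
theorem Kind.out_eq (k : Kind) : k.out = 0 ∨ k.out = 2 := by cases k <;> simp

/-! ### Diagrams -/

@[simp] theorem dia_nil {m n : ℕ} : Dia m [] n ↔ m = n := Iff.rfl

theorem dia_cons {m n : ℕ} {g : Gen} {w : Word} :
    Dia m (g :: w) n ↔ g.off + g.kind.inn ≤ m ∧ Dia (m - g.kind.inn + g.kind.out) w n := Iff.rfl

theorem dia_append {m n : ℕ} {u v : Word} :
    Dia m (u ++ v) n ↔ ∃ l, Dia m u l ∧ Dia l v n := by
  induction u generalizing m with
  | nil => simp
  | cons g u ih =>
    simp only [List.cons_append, dia_cons, ih]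
    constructor
    · rintro ⟨h, l, h1, h2⟩
      exact ⟨l, ⟨h, h1⟩, h2⟩
    · rintro ⟨l, ⟨h, h1⟩, h2⟩
      exact ⟨h, l, h1, h2⟩

theorem dia_unique {m n n' : ℕ} {w : Word} (h : Dia m w n) (h' : Dia m w n') : n = n' := by
  induction w generalizing m with
  | nil => simp_all
  | cons g w ih => exact ih h.2 h'.2

@[simp] theorem sh_nil (k : ℕ) : sh k [] = [] := rfl
@[simp] theorem sh_cons (k : ℕ) (g : Gen) (w : Word) :
    sh k (g :: w) = ⟨g.kind, g.off + k⟩ :: sh k w := rfl
@[simp] theorem sh_append (k : ℕ) (u v : Word) : sh k (u ++ v) = sh k u ++ sh k v := by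
  simp [sh]
@[simp] theorem sh_zero (w : Word) : sh 0 w = w := by
  induction w with
  | nil => rfl
  | cons g w ih => rw [sh_cons, ih]; rfl
theorem sh_sh (k l : ℕ) (w : Word) : sh k (sh l w) = sh (l + k) w := by
  induction w with
  | nil => rfl
  | cons g w ih => simp [ih, Nat.add_assoc]

/-- Strands added on the right. -/
theorem dia_right {m n : ℕ} {w : Word} (k : ℕ) (h : Dia m w n) : Dia (m + k) w (n + k) := by
  induction w generalizing m with
  | nil => simp_all
  | cons g w ih =>
    obtain ⟨h1, h2⟩ := h
    refine ⟨by omega, ?_⟩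
    have := ih h2
    have e : m + k - g.kind.inn + g.kind.out = m - g.kind.inn + g.kind.out + k := by omega
    rw [e]; exact this

/-- Strands added on the left. -/
theorem dia_sh {m n : ℕ} {w : Word} (k : ℕ) (h : Dia m w n) : Dia (m + k) (sh k w) (n + k) := by
  induction w generalizing m with
  | nil => simp_all
  | cons g w ih =>
    obtain ⟨h1, h2⟩ := h
    rw [sh_cons]
    refine ⟨by simp only; omega, ?_⟩
    have := ih h2
    simp only
    have e : m + k - g.kind.inn + g.kind.out = m - g.kind.inn + g.kind.out + k := by omega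
    rw [e]; exact this

/-! ### Isotopy -/

theorem Iso.refl {m n : ℕ} (w : Word) : Iso m n w w := Relation.EqvGen.refl w
theorem Iso.symm {m n : ℕ} {a b : Word} (h : Iso m n a b) : Iso m n b a :=
  Relation.EqvGen.symm _ _ h
theorem Iso.trans {m n : ℕ} {a b c : Word} (h : Iso m n a b) (h' : Iso m n b c) : Iso m n a c :=
  Relation.EqvGen.trans _ _ _ h h'

theorem Iso.ctx {m n l r : ℕ} {a b u v : Word} (hu : Dia l u m) (hv : Dia n v r)
    (h : Iso m n a b) : Iso l r (u ++ a ++ v) (u ++ b ++ v) := by
  induction h with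
  | rel a b hab =>
    obtain ⟨h1, h2, u', v', s, t, hst, rfl, rfl⟩ := hab
    refine Relation.EqvGen.rel _ _ ⟨?_, ?_, u ++ u', v' ++ v, s, t, hst, by simp, by simp⟩
    · exact dia_append.2 ⟨_, dia_append.2 ⟨_, hu, h1⟩, hv⟩
    · exact dia_append.2 ⟨_, dia_append.2 ⟨_, hu, h2⟩, hv⟩
  | refl a => exact Iso.refl _
  | symm a b _ ih => exact ih.symm
  | trans a b c _ _ ih ih' => exact ih.trans ih'

theorem Iso.pre {m n l : ℕ} {a b u : Word} (hu : Dia l u m)
    (h : Iso m n a b) : Iso l n (u ++ a) (u ++ b) := by
  have := Iso.ctx hu (v := []) (r := n) rfl h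
  simpa using this

theorem Iso.post {m n r : ℕ} {a b v : Word} (hv : Dia n v r)
    (h : Iso m n a b) : Iso m r (a ++ v) (b ++ v) := by
  have := Iso.ctx (u := []) (l := m) rfl hv h
  simpa using this

/-- An elementary move in a context, when the result is a diagram. -/
theorem Iso.step {m n : ℕ} {u v s t : Word} (h : Elem s t) (h1 : Dia m (u ++ s ++ v) n)
    (h2 : Dia m (u ++ t ++ v) n) : Iso m n (u ++ s ++ v) (u ++ t ++ v) :=
  Relation.EqvGen.rel _ _ ⟨h1, h2, u, v, s, t, h, rfl, rfl⟩

theorem Iso.elem {m n : ℕ} {s t : Word} (h : Elem s t) (h1 : Dia m s n)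
    (h2 : Dia m t n) : Iso m n s t :=
  Relation.EqvGen.rel _ _ ⟨h1, h2, [], [], s, t, h, by simp, by simp⟩

theorem Iso.dia {m n : ℕ} {a b : Word} (h : Iso m n a b) : Dia m a n ↔ Dia m b n := by
  induction h with
  | rel a b hab => exact ⟨fun _ => hab.2.1, fun _ => hab.1⟩
  | refl a => exact Iff.rfl
  | symm a b _ ih => exact ih.symm
  | trans a b c _ _ ih ih' => exact ih.trans ih'

theorem Elem.shift (k : ℕ) {s t : Word} (h : Elem s t) : Elem (sh k s) (sh k t) := by
  cases h with
  | far a b i j h =>
    have := Elem.far a b (i + k) (j + k) (by omega)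
    simp only [sh_cons, sh_nil]
    have e1 : j + a.out + k = j + k + a.out := by omega
    have e2 : j + a.inn + k = j + k + a.inn := by omega
    rw [e1, e2]; exact this
  | zig i =>
    have := Elem.zig (i + k)
    have e : i + 1 + k = i + k + 1 := by omega
    simp only [cup, cap, sh_cons, sh_nil, e] at this ⊢; exact this
  | zag i =>
    have := Elem.zag (i + k)
    have e : i + 1 + k = i + k + 1 := by omega
    simp only [cup, cap, sh_cons, sh_nil, e] at this ⊢; exact this
  | slideA i =>
    have := Elem.slideA (i + k)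
    have e : i + 1 + k = i + k + 1 := by omega
    simp only [cup, cap, pos, neg, sh_cons, sh_nil, e] at this ⊢; exact this
  | slideB i =>
    have := Elem.slideB (i + k)
    have e : i + 1 + k = i + k + 1 := by omega
    simp only [cup, cap, pos, neg, sh_cons, sh_nil, e] at this ⊢; exact this
  | slideC i =>
    have := Elem.slideC (i + k)
    have e : i + 1 + k = i + k + 1 := by omega
    simp only [cup, cap, pos, neg, sh_cons, sh_nil, e] at this ⊢; exact this
  | slideD i =>
    have := Elem.slideD (i + k)
    have e : i + 1 + k = i + k + 1 := by omega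
    simp only [cup, cap, pos, neg, sh_cons, sh_nil, e] at this ⊢; exact this
  | r1A i => exact Elem.r1A (i + k)
  | r1B i => exact Elem.r1B (i + k)
  | r1C i => exact Elem.r1C (i + k)
  | r1D i => exact Elem.r1D (i + k)
  | r2A i => exact Elem.r2A (i + k)
  | r2B i => exact Elem.r2B (i + k)
  | r3 i =>
    have := Elem.r3 (i + k)
    have e : i + 1 + k = i + k + 1 := by omega
    simp only [cup, cap, pos, neg, sh_cons, sh_nil, e] at this ⊢; exact this

theorem Iso.left {m n : ℕ} (k : ℕ) {a b : Word} (h : Iso m n a b) :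
    Iso (m + k) (n + k) (sh k a) (sh k b) := by
  induction h with
  | rel a b hab =>
    obtain ⟨h1, h2, u, v, s, t, hst, rfl, rfl⟩ := hab
    refine Relation.EqvGen.rel _ _ ⟨dia_sh k h1, dia_sh k h2, sh k u, sh k v, sh k s, sh k t,
      hst.shift k, by simp, by simp⟩
  | refl a => exact Iso.refl _
  | symm a b _ ih => exact ih.symm
  | trans a b c _ _ ih ih' => exact ih.trans ih'

theorem Iso.right {m n : ℕ} (k : ℕ) {a b : Word} (h : Iso m n a b) :
    Iso (m + k) (n + k) a b := by
  induction h with
  | rel a b hab =>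
    obtain ⟨h1, h2, u, v, s, t, hst, rfl, rfl⟩ := hab
    exact Relation.EqvGen.rel _ _ ⟨dia_right k h1, dia_right k h2, u, v, s, t, hst, rfl, rfl⟩
  | refl a => exact Iso.refl _
  | symm a b _ ih => exact ih.symm
  | trans a b c _ _ ih ih' => exact ih.trans ih'

/-! ### Labellings -/

section

variable {N : ℕ} [NeZero N]

@[simp] theorem runs_nil (τ : ZMod N) (x : ℕ → ZMod N) : runs τ [] x = {x} := rfl

theorem runs_cons (τ : ZMod N) (g : Gen) (w : Word) (x : ℕ → ZMod N) :
    runs τ (g :: w) x = (act τ g x).bind (runs τ w) := rfl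

theorem runs_append (τ : ZMod N) (u v : Word) (x : ℕ → ZMod N) :
    runs τ (u ++ v) x = (runs τ u x).bind (runs τ v) := by
  induction u generalizing x with
  | nil => simp
  | cons g u ih =>
    rw [List.cons_append, runs_cons, runs_cons, Multiset.bind_assoc]
    congr 1
    funext y
    exact ih y

theorem runs_single (τ : ZMod N) (g : Gen) (x : ℕ → ZMod N) : runs τ [g] x = act τ g x := by
  rw [runs_cons]
  have : (runs τ [] : (ℕ → ZMod N) → Multiset (ℕ → ZMod N)) = fun a => {a} := rfl
  rw [this, Multiset.bind_singleton, Multiset.map_id']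


theorem act_def (τ : ZMod N) (g : Gen) (x : ℕ → ZMod N) :
    act τ g x = (rule τ g.kind (x g.off) (x (g.off + 1))).map (glue g x) := rfl

theorem glue_lt (g : Gen) {l : ℕ} (h : l < g.off) (x : ℕ → ZMod N)
    (c : ZMod N × ZMod N) : glue g x c l = x l := by
  simp only [glue]
  rw [if_pos h]

theorem glue_mid (g : Gen) {l : ℕ} (h : g.off ≤ l) (h' : l < g.off + g.kind.out)
    (x : ℕ → ZMod N) (c : ZMod N × ZMod N) :
    glue g x c l = if l = g.off then c.1 else c.2 := by
  simp only [glue]
  rw [if_neg (by omega), if_pos h']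

theorem glue_ge (g : Gen) {l : ℕ} (h : g.off + g.kind.out ≤ l) (x : ℕ → ZMod N)
    (c : ZMod N × ZMod N) : glue g x c l = x (l - g.kind.out + g.kind.inn) := by
  simp only [glue]
  rw [if_neg (by omega), if_neg (by omega)]

theorem glue_glue (a b : Kind) {i j : ℕ} (h : i ≤ j) (x : ℕ → ZMod N) (c d : ZMod N × ZMod N) :
    glue ⟨b, j + a.out⟩ (glue ⟨a, i⟩ x c) d = glue ⟨a, i⟩ (glue ⟨b, j + a.inn⟩ x d) c := by
  funext k
  by_cases h1 : k < i
  · rw [glue_lt _ (by simp only; omega), glue_lt _ (by simp only; omega),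
      glue_lt _ (by simp only; omega), glue_lt _ (by simp only; omega)]
  by_cases h2 : k < i + a.out
  · rw [glue_lt _ (by simp only; omega), glue_mid _ (by simp only; omega) (by simp only; omega),
      glue_mid _ (by simp only; omega) (by simp only; omega)]
  by_cases h3 : k < j + a.out
  · rw [glue_lt _ (by simp only; omega), glue_ge _ (by simp only; omega),
      glue_ge _ (by simp only; omega), glue_lt _ (by simp only; omega)]
  by_cases h4 : k < j + a.out + b.out
  · rw [glue_mid _ (by simp only; omega) (by simp only; omega),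
      glue_ge _ (by simp only; omega), glue_mid _ (by simp only; omega) (by simp only; omega)]
    simp only
    by_cases h5 : k = j + a.out
    · rw [if_pos h5, if_pos (by omega)]
    · rw [if_neg h5, if_neg (by omega)]
  · rw [glue_ge _ (by simp only; omega), glue_ge _ (by simp only; omega),
      glue_ge _ (by simp only; omega), glue_ge _ (by simp only; omega)]
    congr 1
    simp only
    omega

theorem runs_far (τ : ZMod N) (a b : Kind) {i j : ℕ} (h : i ≤ j) (x : ℕ → ZMod N) :
    runs τ [⟨a, i⟩, ⟨b, j + a.out⟩] x = runs τ [⟨b, j + a.inn⟩, ⟨a, i⟩] x := by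
  rw [runs_cons, runs_cons]
  have e1 : ∀ g : Gen, (runs τ [g] : (ℕ → ZMod N) → _) = act τ g := by
    intro g; funext y; exact runs_single τ g y
  rw [e1, e1, act_def, act_def, Multiset.bind_map, Multiset.bind_map]
  simp only [act_def]
  have L : ∀ c, (glue ⟨a, i⟩ x c) (j + a.out) = x (j + a.inn) := by
    intro c
    rw [glue_ge _ (by simp only; omega)]
    congr 1
    simp only
    omega
  have L' : ∀ c, (glue ⟨a, i⟩ x c) (j + a.out + 1) = x (j + a.inn + 1) := by
    intro c
    rw [glue_ge _ (by simp only; omega)]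
    congr 1
    simp only
    omega
  have R : ∀ d, rule τ a ((glue ⟨b, j + a.inn⟩ x d) i) ((glue ⟨b, j + a.inn⟩ x d) (i + 1)) =
      rule τ a (x i) (x (i + 1)) := by
    intro d
    cases a with
    | cup => rfl
    | cap =>
      rw [glue_lt _ (by simp only [inn_cap]; omega), glue_lt _ (by simp only [inn_cap]; omega)]
    | pos =>
      rw [glue_lt _ (by simp only [inn_pos]; omega), glue_lt _ (by simp only [inn_pos]; omega)]
    | neg =>
      rw [glue_lt _ (by simp only [inn_neg]; omega), glue_lt _ (by simp only [inn_neg]; omega)]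
  simp only [L, L', R]
  rw [Multiset.bind_map_comm]
  congr 1
  funext d
  congr 1
  funext c
  exact glue_glue a b h x c d

/-- The labels from strand `i` on. -/
def tl (i : ℕ) (x : ℕ → ZMod N) : ℕ → ZMod N := fun j => x (j + i)

/-- The labels `z` with the first `i` labels of `x` in front. -/
def pre (i : ℕ) (x z : ℕ → ZMod N) : ℕ → ZMod N := fun j => if j < i then x j else z (j - i)

@[simp] theorem tl_zero (x : ℕ → ZMod N) : tl 0 x = x := rfl
@[simp] theorem pre_zero (x z : ℕ → ZMod N) : pre 0 x z = z := by
  funext j; simp [pre]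
@[simp] theorem tl_pre (i : ℕ) (x z : ℕ → ZMod N) : tl i (pre i x z) = z := by
  funext j; simp [tl, pre]
@[simp] theorem pre_pre (i : ℕ) (x z z' : ℕ → ZMod N) : pre i (pre i x z) z' = pre i x z' := by
  funext j; simp only [pre]; split_ifs <;> rfl
theorem pre_tl (i : ℕ) (x : ℕ → ZMod N) : pre i x (tl i x) = x := by
  funext j
  simp only [pre, tl]
  split_ifs with h
  · rfl
  · congr 1; omega
theorem pre_lt {i j : ℕ} (h : j < i) (x z : ℕ → ZMod N) : pre i x z j = x j := by
  simp [pre, h]
theorem pre_ge {i j : ℕ} (h : i ≤ j) (x z : ℕ → ZMod N) : pre i x z j = z (j - i) := by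
  simp [pre, Nat.not_lt.2 h]
theorem pre_inj {i : ℕ} {x z z' : ℕ → ZMod N} (h : pre i x z = pre i x z') : z = z' := by
  have := congrArg (tl i) h
  simpa using this

theorem glue_shift (k : Kind) (o i : ℕ) (x : ℕ → ZMod N) (c : ZMod N × ZMod N) :
    glue ⟨k, o + i⟩ x c = pre i x (glue ⟨k, o⟩ (tl i x) c) := by
  funext j
  by_cases h1 : j < i
  · rw [glue_lt _ (by simp only; omega), pre_lt h1]
  rw [pre_ge (by omega)]
  by_cases h2 : j < o + i
  · rw [glue_lt _ (by simp only; omega), glue_lt _ (by simp only; omega)]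
    simp only [tl]; congr 1; omega
  by_cases h3 : j < o + i + k.out
  · rw [glue_mid _ (by simp only; omega) (by simp only; omega),
      glue_mid _ (by simp only; omega) (by simp only; omega)]
    simp only
    by_cases h5 : j = o + i
    · rw [if_pos h5, if_pos (by omega)]
    · rw [if_neg h5, if_neg (by omega)]
  · rw [glue_ge _ (by simp only; omega), glue_ge _ (by simp only; omega)]
    simp only [tl]
    congr 1
    omega

theorem act_shift (τ : ZMod N) (k : Kind) (o i : ℕ) (x : ℕ → ZMod N) :
    act τ ⟨k, o + i⟩ x = (act τ ⟨k, o⟩ (tl i x)).map (pre i x) := by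
  rw [act_def, act_def, Multiset.map_map]
  have e1 : x (o + i) = tl i x o := rfl
  have e2 : x (o + i + 1) = tl i x (o + 1) := by
    simp only [tl]; congr 1; omega
  simp only [e1, e2]
  congr 1
  funext c
  exact glue_shift k o i x c

/-- Labellings of a diagram with `i` more strands on the left. -/
theorem runs_sh (τ : ZMod N) (i : ℕ) (w : Word) (x : ℕ → ZMod N) :
    runs τ (sh i w) x = (runs τ w (tl i x)).map (pre i x) := by
  induction w generalizing x with
  | nil => simp [pre_tl]
  | cons g w ih =>
    rw [sh_cons, runs_cons, runs_cons, act_shift, Multiset.bind_map, Multiset.map_bind]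
    congr 1
    funext z
    rw [ih, tl_pre]
    congr 1
    funext z'
    exact pre_pre i x z z'

theorem bind_ite (a : ZMod N) {β : Type*} (F : ZMod N → Multiset β) :
    (Finset.univ : Finset (ZMod N)).val.bind (fun c => if c = a then F c else 0) = F a := by
  have : (Finset.univ : Finset (ZMod N)).val.bind (fun c => if c = a then F c else 0)
      = ∑ c : ZMod N, (if c = a then F c else 0) := rfl
  rw [this, Finset.sum_ite_eq' Finset.univ a F]
  simp

theorem bind_reindex (e : ZMod N ≃ ZMod N) {β : Type*} (F : ZMod N → Multiset β) :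
    (Finset.univ : Finset (ZMod N)).val.bind (fun c => F (e c)) =
      (Finset.univ : Finset (ZMod N)).val.bind F := by
  have : (Finset.univ : Finset (ZMod N)).val.bind (fun c => F (e c))
      = ∑ c : ZMod N, F (e c) := rfl
  rw [this, Equiv.sum_comp e F]
  rfl

theorem runs_cup (τ : ZMod N) (i : ℕ) (w : Word) (x : ℕ → ZMod N) :
    runs τ (cup i :: w) x =
      (Finset.univ : Finset (ZMod N)).val.bind fun c => runs τ w (glue (cup i) x (c, c + τ)) := by
  rw [runs_cons, act_def]
  simp only [rule, cup_kind, Multiset.map_map, Multiset.bind_map]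
  rfl

theorem runs_cap (τ : ZMod N) (i : ℕ) (w : Word) (x : ℕ → ZMod N) :
    runs τ (cap i :: w) x =
      if x (i + 1) = x i + τ then runs τ w (glue (cap i) x (0, 0)) else 0 := by
  rw [runs_cons, act_def]
  simp only [rule, cap_kind, cap_off]
  split_ifs <;> simp

theorem runs_pos (τ : ZMod N) (i : ℕ) (w : Word) (x : ℕ → ZMod N) :
    runs τ (pos i :: w) x = runs τ w (glue (pos i) x (x (i + 1), 2 * x (i + 1) - x i)) := by
  rw [runs_cons, act_def]
  simp only [rule, pos_kind, pos_off]
  simp

theorem runs_neg (τ : ZMod N) (i : ℕ) (w : Word) (x : ℕ → ZMod N) :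
    runs τ (neg i :: w) x = runs τ w (glue (neg i) x (2 * x i - x (i + 1), x i)) := by
  rw [runs_cons, act_def]
  simp only [rule, neg_kind, neg_off]
  simp

/-- The labels `l` in front of `x`. -/
def put : List (ZMod N) → (ℕ → ZMod N) → ℕ → ZMod N
  | [], x => x
  | a :: l, x => fun j => match j with
    | 0 => a
    | j + 1 => put l x j

@[simp] theorem put_nil (x : ℕ → ZMod N) : put [] x = x := rfl
@[simp] theorem put_cons_zero (a : ZMod N) (l : List (ZMod N)) (x : ℕ → ZMod N) :
    put (a :: l) x 0 = a := rfl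
@[simp] theorem put_cons_succ (a : ZMod N) (l : List (ZMod N)) (x : ℕ → ZMod N) (j : ℕ) :
    put (a :: l) x (j + 1) = put l x j := rfl
@[simp] theorem put_cons_one (a b : ZMod N) (l : List (ZMod N)) (x : ℕ → ZMod N) :
    put (a :: b :: l) x 1 = b := rfl
@[simp] theorem put_cons_two (a b c : ZMod N) (l : List (ZMod N)) (x : ℕ → ZMod N) :
    put (a :: b :: c :: l) x 2 = c := rfl

theorem eq_put_old (x : ℕ → ZMod N) : x = put [x 0] (tl 1 x) := by
  funext j
  cases j <;> rfl

theorem glue_cup_put (x : ℕ → ZMod N) (c : ZMod N × ZMod N) :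
    glue (cup 0) x c = put [c.1, c.2] x := by
  funext j
  match j with
  | 0 => rfl
  | 1 => rfl
  | j + 2 => simp [glue]

theorem glue_cap_put (a b : ZMod N) (x : ℕ → ZMod N) (c : ZMod N × ZMod N) :
    glue (cap 0) (put [a, b] x) c = x := by
  funext j
  simp [glue]

theorem glue_pos_put (a b : ZMod N) (x : ℕ → ZMod N) (c : ZMod N × ZMod N) :
    glue (pos 0) (put [a, b] x) c = put [c.1, c.2] x := by
  funext j
  match j with
  | 0 => rfl
  | 1 => rfl
  | j + 2 => simp [glue]

theorem glue_neg_put (a b : ZMod N) (x : ℕ → ZMod N) (c : ZMod N × ZMod N) :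
    glue (neg 0) (put [a, b] x) c = put [c.1, c.2] x := by
  funext j
  match j with
  | 0 => rfl
  | 1 => rfl
  | j + 2 => simp [glue]


theorem put_append (l r : List (ZMod N)) (x : ℕ → ZMod N) : put (l ++ r) x = put l (put r x) := by
  induction l with
  | nil => rfl
  | cons a l ih =>
    funext j
    cases j with
    | zero => rfl
    | succ j => simp [ih]

theorem put_at (l r : List (ZMod N)) (x : ℕ → ZMod N) (j : ℕ) :
    put (l ++ r) x (l.length + j) = put r x j := by
  induction l with
  | nil => simp
  | cons a l ih =>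
    have : (a :: l).length + j = (l.length + j) + 1 := by simp; omega
    rw [this, List.cons_append, put_cons_succ, ih]

theorem tl_put (l : List (ZMod N)) (x : ℕ → ZMod N) : tl l.length (put l x) = x := by
  funext j
  simp only [tl]
  have := put_at l [] x j
  simp only [List.append_nil, put_nil] at this
  rw [Nat.add_comm]; exact this

theorem pre_put (l : List (ZMod N)) (x z : ℕ → ZMod N) : pre l.length (put l x) z = put l z := by
  induction l with
  | nil => simp
  | cons a l ih =>
    funext j
    cases j with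
    | zero => simp [pre]
    | succ j =>
      have := congrFun ih j
      simp only [pre, List.length_cons, put_cons_succ] at this ⊢
      by_cases h : j < l.length
      · rw [if_pos h] at this
        rw [if_pos (by omega)]; exact this
      · rw [if_neg h] at this
        rw [if_neg (by omega)]
        have e : j + 1 - (l.length + 1) = j - l.length := by omega
        rw [e]; exact this

theorem runs_sh_put (τ : ZMod N) (l : List (ZMod N)) (w : Word) (x : ℕ → ZMod N) :
    runs τ (sh l.length w) (put l x) = (runs τ w x).map (put l) := by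
  rw [runs_sh, tl_put]
  congr 1
  funext z
  exact pre_put l x z

theorem runs_cons_put (τ : ZMod N) (k : Kind) (l : List (ZMod N)) (w : Word) (x : ℕ → ZMod N) :
    runs τ (⟨k, l.length⟩ :: w) (put l x) =
      (runs τ [⟨k, 0⟩] x).bind (fun z => runs τ w (put l z)) := by
  have h := runs_sh_put τ l [⟨k, 0⟩] x
  rw [sh_cons, sh_nil] at h
  simp only [Nat.zero_add] at h
  have e : (⟨k, l.length⟩ :: w : Word) = [⟨k, l.length⟩] ++ w := rfl
  rw [e, runs_append, h, Multiset.bind_map]

theorem runs_pos_put (τ : ZMod N) (l r : List (ZMod N)) (a b : ZMod N) (w : Word)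
    (x : ℕ → ZMod N) :
    runs τ (pos l.length :: w) (put (l ++ a :: b :: r) x) =
      runs τ w (put (l ++ b :: (2 * b - a) :: r) x) := by
  rw [put_append]
  show runs τ (⟨.pos, l.length⟩ :: w) _ = _
  rw [runs_cons_put]
  show Multiset.bind (runs τ [pos 0] _) _ = _
  rw [runs_pos, runs_nil, Multiset.singleton_bind]
  have e : put (a :: b :: r) x = put [a, b] (put r x) := put_append [a, b] r x
  rw [e, glue_pos_put, put_append]
  rfl

theorem runs_neg_put (τ : ZMod N) (l r : List (ZMod N)) (a b : ZMod N) (w : Word)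
    (x : ℕ → ZMod N) :
    runs τ (neg l.length :: w) (put (l ++ a :: b :: r) x) =
      runs τ w (put (l ++ (2 * a - b) :: a :: r) x) := by
  rw [put_append]
  show runs τ (⟨.neg, l.length⟩ :: w) _ = _
  rw [runs_cons_put]
  show Multiset.bind (runs τ [neg 0] _) _ = _
  rw [runs_neg, runs_nil, Multiset.singleton_bind]
  have e : put (a :: b :: r) x = put [a, b] (put r x) := put_append [a, b] r x
  rw [e, glue_neg_put, put_append]
  rfl

theorem runs_cap_put (τ : ZMod N) (l r : List (ZMod N)) (a b : ZMod N) (w : Word)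
    (x : ℕ → ZMod N) :
    runs τ (cap l.length :: w) (put (l ++ a :: b :: r) x) =
      if b = a + τ then runs τ w (put (l ++ r) x) else 0 := by
  rw [put_append]
  show runs τ (⟨.cap, l.length⟩ :: w) _ = _
  rw [runs_cons_put]
  show Multiset.bind (runs τ [cap 0] _) _ = _
  rw [runs_cap, runs_nil]
  have e : put (a :: b :: r) x = put [a, b] (put r x) := put_append [a, b] r x
  rw [e, glue_cap_put, put_append]
  simp only [Nat.zero_add, put_cons_one, put_cons_zero]
  split_ifs <;> simp

theorem runs_cup_put (τ : ZMod N) (l r : List (ZMod N)) (w : Word) (x : ℕ → ZMod N) :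
    runs τ (cup l.length :: w) (put (l ++ r) x) =
      (Finset.univ : Finset (ZMod N)).val.bind fun c =>
        runs τ w (put (l ++ c :: (c + τ) :: r) x) := by
  rw [put_append]
  show runs τ (⟨.cup, l.length⟩ :: w) _ = _
  rw [runs_cons_put]
  show Multiset.bind (runs τ [cup 0] _) _ = _
  rw [runs_cup, Multiset.bind_assoc]
  congr 1
  funext c
  rw [runs_nil, Multiset.singleton_bind, glue_cup_put, put_append]
  rfl

section inst
variable (τ : ZMod N) (w : Word) (x : ℕ → ZMod N) (l : List (ZMod N))
  (a b p q r s t u v : ZMod N)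

theorem runs_pos0 : runs τ (pos 0 :: w) (put (a :: b :: l) x) =
    runs τ w (put (b :: (2 * b - a) :: l) x) := runs_pos_put τ [] l a b w x
theorem runs_pos1 : runs τ (pos 1 :: w) (put (p :: a :: b :: l) x) =
    runs τ w (put (p :: b :: (2 * b - a) :: l) x) := runs_pos_put τ [p] l a b w x
theorem runs_pos2 : runs τ (pos 2 :: w) (put (p :: q :: a :: b :: l) x) =
    runs τ w (put (p :: q :: b :: (2 * b - a) :: l) x) := runs_pos_put τ [p, q] l a b w x
theorem runs_neg0 : runs τ (neg 0 :: w) (put (a :: b :: l) x) =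
    runs τ w (put ((2 * a - b) :: a :: l) x) := runs_neg_put τ [] l a b w x
theorem runs_neg1 : runs τ (neg 1 :: w) (put (p :: a :: b :: l) x) =
    runs τ w (put (p :: (2 * a - b) :: a :: l) x) := runs_neg_put τ [p] l a b w x
theorem runs_cap0 : runs τ (cap 0 :: w) (put (a :: b :: l) x) =
    if b = a + τ then runs τ w (put l x) else 0 := runs_cap_put τ [] l a b w x
theorem runs_cap1 : runs τ (cap 1 :: w) (put (p :: a :: b :: l) x) =
    if b = a + τ then runs τ w (put (p :: l) x) else 0 := runs_cap_put τ [p] l a b w x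
theorem runs_cup0 : runs τ (cup 0 :: w) (put l x) =
    (Finset.univ : Finset (ZMod N)).val.bind fun c => runs τ w (put (c :: (c + τ) :: l) x) :=
  runs_cup_put τ [] l w x
theorem runs_cup1 : runs τ (cup 1 :: w) (put (p :: l) x) =
    (Finset.univ : Finset (ZMod N)).val.bind fun c =>
      runs τ w (put (p :: c :: (c + τ) :: l) x) :=
  runs_cup_put τ [p] l w x

end inst

theorem eq_put1 (x : ℕ → ZMod N) : x = put [x 0] (tl 1 x) := by
  funext j
  match j with
  | 0 => rfl
  | j + 1 => rfl

theorem eq_put2 (x : ℕ → ZMod N) : x = put [x 0, x 1] (tl 2 x) := by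
  funext j
  match j with
  | 0 => rfl
  | 1 => rfl
  | j + 2 => rfl

theorem eq_put3 (x : ℕ → ZMod N) : x = put [x 0, x 1, x 2] (tl 3 x) := by
  funext j
  match j with
  | 0 => rfl
  | 1 => rfl
  | 2 => rfl
  | j + 3 => rfl

/-- An elementary relation at position `0` for the labellings gives it at all positions. -/
theorem runs_of_base {τ : ZMod N} {s t : Word} (h : ∀ x : ℕ → ZMod N, runs τ s x = runs τ t x)
    (i : ℕ) (x : ℕ → ZMod N) : runs τ (sh i s) x = runs τ (sh i t) x := by
  rw [runs_sh, runs_sh, h]

/-- Labellings are unchanged by the elementary moves. -/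
theorem runs_elem {τ : ZMod N} (hτ : τ + τ = 0) {s t : Word} (h : Elem s t) (x : ℕ → ZMod N) :
    runs τ s x = runs τ t x := by
  cases h with
  | far a b i j h => exact runs_far τ a b h x
  | zig i =>
    have := runs_of_base (τ := τ) (s := [cup 1, cap 0]) (t := []) ?_ i x
    · simpa [cup, cap, Nat.add_comm] using this
    intro x
    rw [eq_put1 x, runs_cup1]
    simp only [runs_cap0]
    rw [bind_ite, runs_nil, runs_nil]
    congr 2
    simp only [List.cons.injEq, and_true]
    rw [add_assoc, hτ, add_zero]
  | zag i =>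
    have := runs_of_base (τ := τ) (s := [cup 0, cap 1]) (t := []) ?_ i x
    · simpa [cup, cap, Nat.add_comm] using this
    intro x
    rw [eq_put1 x, runs_cup0]
    simp only [runs_cap1]
    have h3 : ∀ c, (x 0 = c + τ + τ) ↔ c = x 0 := by
      intro c
      rw [add_assoc, hτ, add_zero]
      exact eq_comm
    simp only [h3]
    rw [bind_ite]
  | slideA i =>
    have := runs_of_base (τ := τ) (s := [cup 0, pos 1]) (t := [cup 1, neg 0]) ?_ i x
    · simpa [cup, pos, neg, Nat.add_comm] using this
    intro x
    rw [eq_put1 x, runs_cup0, runs_cup1, ← bind_reindex (Equiv.subLeft (2 * x 0))]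
    simp only [runs_pos1, runs_neg0, Equiv.subLeft_apply, runs_nil]
    congr 1
    funext c
    have e1 : 2 * x 0 - (2 * x 0 - c + τ) = c + τ := by linear_combination -hτ
    rw [e1]
  | slideB i =>
    have := runs_of_base (τ := τ) (s := [cup 0, neg 1]) (t := [cup 1, pos 0]) ?_ i x
    · simpa [cup, pos, neg, Nat.add_comm] using this
    intro x
    rw [eq_put1 x, runs_cup0, runs_cup1]
    simp only [runs_pos0, runs_neg1, runs_nil]
    congr 1
    funext c
    have e2 : 2 * (c + τ) - x 0 = 2 * c - x 0 := by linear_combination hτ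
    rw [e2]
  | slideC i =>
    have := runs_of_base (τ := τ) (s := [neg 1, cap 0]) (t := [pos 0, cap 1]) ?_ i x
    · simpa [cap, pos, neg, Nat.add_comm] using this
    intro x
    rw [eq_put3 x, runs_neg1, runs_cap0, runs_pos0, runs_cap1]
    by_cases h : x 2 = 2 * x 1 - x 0 + τ
    · rw [if_pos h, if_pos]
      rw [h]; linear_combination -hτ
    · rw [if_neg h, if_neg]
      intro h'
      apply h
      linear_combination -h' - hτ
  | slideD i =>
    have := runs_of_base (τ := τ) (s := [pos 1, cap 0]) (t := [neg 0, cap 1]) ?_ i x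
    · simpa [cap, pos, neg, Nat.add_comm] using this
    intro x
    rw [eq_put3 x, runs_pos1, runs_cap0, runs_neg0, runs_cap1]
    by_cases h : x 2 = x 0 + τ
    · rw [if_pos h, if_pos h, h]
      have e2 : 2 * (x 0 + τ) - x 1 = 2 * x 0 - x 1 := by linear_combination hτ
      rw [e2]
    · rw [if_neg h, if_neg h]
  | r1A i =>
    have := runs_of_base (τ := τ) (s := [cup 0, pos 0]) (t := [cup 0]) ?_ i x
    · simpa [cup, pos, neg, Nat.add_comm] using this
    intro x
    conv_lhs => rw [← put_nil x]
    conv_rhs => rw [← put_nil x]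
    rw [runs_cup0, runs_cup0, ← bind_reindex (Equiv.addRight τ) (fun c => runs τ [] (put [c, c + τ] x))]
    congr 1
    funext c
    rw [runs_pos0]
    simp only [Equiv.coe_addRight]
    congr 4
    ring
  | r1B i =>
    have := runs_of_base (τ := τ) (s := [cup 0, neg 0]) (t := [cup 0]) ?_ i x
    · simpa [cup, pos, neg, Nat.add_comm] using this
    intro x
    conv_lhs => rw [← put_nil x]
    conv_rhs => rw [← put_nil x]
    rw [runs_cup0, runs_cup0, ← bind_reindex (Equiv.addRight τ) (fun c => runs τ [] (put [c, c + τ] x))]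
    congr 1
    funext c
    rw [runs_neg0]
    simp only [Equiv.coe_addRight]
    have e1 : 2 * c - (c + τ) = c + τ := by linear_combination -hτ
    have e2 : c + τ + τ = c := by linear_combination hτ
    rw [e1, e2]
  | r1C i =>
    have := runs_of_base (τ := τ) (s := [pos 0, cap 0]) (t := [cap 0]) ?_ i x
    · simpa [cap, pos, neg, Nat.add_comm] using this
    intro x
    rw [eq_put2 x, runs_pos0, runs_cap0, runs_cap0]
    by_cases h : x 1 = x 0 + τ
    · rw [if_pos h, if_pos]
      rw [h]; linear_combination hτ - hτ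
    · rw [if_neg h, if_neg]
      intro h'
      apply h
      linear_combination h'
  | r1D i =>
    have := runs_of_base (τ := τ) (s := [neg 0, cap 0]) (t := [cap 0]) ?_ i x
    · simpa [cap, pos, neg, Nat.add_comm] using this
    intro x
    rw [eq_put2 x, runs_neg0, runs_cap0, runs_cap0]
    by_cases h : x 1 = x 0 + τ
    · rw [if_pos h, if_pos]
      rw [h]; ring
    · rw [if_neg h, if_neg]
      intro h'
      apply h
      linear_combination h'
  | r2A i =>
    have := runs_of_base (τ := τ) (s := [pos 0, neg 0]) (t := []) ?_ i x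
    · simpa [cap, pos, neg, Nat.add_comm] using this
    intro x
    rw [eq_put2 x, runs_pos0, runs_neg0, runs_nil, runs_nil]
    congr 3
    ring
  | r2B i =>
    have := runs_of_base (τ := τ) (s := [neg 0, pos 0]) (t := []) ?_ i x
    · simpa [cap, pos, neg, Nat.add_comm] using this
    intro x
    rw [eq_put2 x, runs_neg0, runs_pos0, runs_nil, runs_nil]
    congr 4
    ring
  | r3 i =>
    have := runs_of_base (τ := τ) (s := [pos 0, pos 1, pos 0]) (t := [pos 1, pos 0, pos 1]) ?_ i x
    · simpa [cap, pos, neg, Nat.add_comm] using this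
    intro x
    rw [eq_put3 x, runs_pos0, runs_pos1, runs_pos0, runs_pos1, runs_pos0, runs_pos1,
      runs_nil, runs_nil]
    congr 5
    ring

theorem runs_iso {τ : ZMod N} (hτ : τ + τ = 0) {m n : ℕ} {s t : Word} (h : Iso m n s t)
    (x : ℕ → ZMod N) : runs τ s x = runs τ t x := by
  induction h generalizing x with
  | rel a b hab =>
    obtain ⟨-, -, u, v, s, t, hst, rfl, rfl⟩ := hab
    rw [List.append_assoc, List.append_assoc, runs_append, runs_append]
    congr 1
    funext y
    rw [runs_append, runs_append, runs_elem hτ hst]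
  | refl a => rfl
  | symm a b _ ih => exact (ih x).symm
  | trans a b c _ _ ih ih' => exact (ih x).trans (ih' x)

end

end H80Skein
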