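import Pool.Agent.H80Skein.Match

/-! The context lemma: a matching that closes a stack of cups to one cycle is the matching of a
context that closes the stack of cups to an unknot and over which a prescribed colouring extends. -/

set_option linter.unusedSimpArgs false
set_option linter.unusedSectionVars false

namespace H80Skein

theorem Beh.congr {S : Word} {M : ℕ} {κ κ' : ℕ → ℕ} {c : ℕ} (h : Beh S M κ c)
    (hk : ∀ j < M, κ j = κ' j) : Beh S M κ' c := by
  intro τ x
  rw [h τ x]
  have : (∀ i < M, x (κ i) = x i + τ) ↔ (∀ i < M, x (κ' i) = x i + τ) := by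
    constructor
    · intro H i hi; rw [← hk i hi]; exact H i hi
    · intro H i hi; rw [hk i hi]; exact H i hi
  simp only [this]

section

variable {p : ℕ} [Fact p.Prime]

/-- The colour jump over the block `i`. -/
def ej (y : ℕ → ZMod p) (i : ℕ) : ZMod p := y (2 * i + 1) - y (2 * i)

/-- The conclusion of the context lemma. -/
def Good (n : ℕ) (κ : ℕ → ℕ) (y : ℕ → ZMod p) : Prop :=
  ∃ S : Word, Dia (2 * n) S 0 ∧ Beh S (2 * n) κ 1 ∧ Iso 0 0 (cups n ++ S) unknot ∧
    runs (0 : ZMod p) S y ≠ 0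

/-- The hypothesis of the context lemma. -/
structure Hyp (n : ℕ) (κ : ℕ → ℕ) (y : ℕ → ZMod p) : Prop where
  mat : Mat (2 * n) κ
  conn : Conn n κ
  sum : ∑ i ∈ Finset.range n, ej y i = 0

/-- The chosen endpoint `a`. -/
structure Suit (n : ℕ) (κ : ℕ → ℕ) (y : ℕ → ZMod p) (a : ℕ) : Prop where
  lt : a < 2 * n
  ne : a / 2 ≠ κ a / 2
  tw : ej y (a / 2) ≠ 0 ∨ ej y (κ a / 2) ≠ 0
  post : n = 2 ∨ ej y (a / 2) + ej y (κ a / 2) ≠ 0 ∨
    ∃ i < n, i ≠ a / 2 ∧ i ≠ κ a / 2 ∧ ej y i ≠ 0

theorem Good.cross {n : ℕ} {κ σ : ℕ → ℕ} {W : Word} {y y' : ℕ → ZMod p}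
    (hd : Dia (2 * n) W (2 * n)) (hi : Iso 0 (2 * n) (cups n ++ W) (cups n))
    (h1 : ∀ j, σ (σ j) = j) (h2 : ∀ j, j < 2 * n → σ j < 2 * n)
    (hW : ∀ (τ : ZMod 2) (x : ℕ → ZMod 2), runs τ W x = {fun j => x (σ j)})
    (hy : runs (0 : ZMod p) W y = {y'})
    (h : Good n (fun j => σ (κ (σ j))) y') : Good n κ y := by
  obtain ⟨S, a, b, c, d⟩ := h
  refine ⟨W ++ S, dia_append.2 ⟨_, hd, a⟩, ?_, ?_, ?_⟩
  · have := b.conj h1 h2 hW
    simpa only [h1] using this
  · rw [← List.append_assoc]
    exact (Iso.post a hi).trans c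
  · rw [runs_append, hy, Multiset.singleton_bind]; exact d

theorem Conn.conj {n : ℕ} {κ σ : ℕ → ℕ} (h : Conn n κ)
    (h1 : ∀ j, σ (σ j) = j) (h2 : ∀ j, j < 2 * n → σ j < 2 * n)
    (h3 : ∀ j, σ (2 * j + 1) / 2 = σ (2 * j) / 2) : Conn n (fun j => σ (κ (σ j))) := by
  intro x hx hx' i hi
  have blk : ∀ a b, a < 2 * n → a / 2 = b / 2 → x a = x b := by
    intro a b ha hab
    have e : ∀ c, c < 2 * n → x c = x (2 * (c / 2)) := by
      intro c hc
      rcases Nat.even_or_odd' c with ⟨d, rfl | rfl⟩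
      · have : 2 * d / 2 = d := by omega
        rw [this]
      · have : (2 * d + 1) / 2 = d := by omega
        rw [this]; exact hx' d (by omega)
    rw [e a ha, e b (by omega), hab]
  have H := h (fun j => x (σ j)) (by
    intro j hj
    have := hx (σ j) (h2 j hj)
    simpa only [h1] using this) (by
    intro j hj
    exact blk _ _ (h2 _ (by omega)) (h3 j))
  have a1 := H (σ i) (h2 i hi)
  have a2 := H (σ 0) (h2 0 (by omega))
  simp only [h1] at a1 a2
  rw [a1, a2]

theorem Hyp.conj {n : ℕ} {κ σ ρ : ℕ → ℕ} {y y' : ℕ → ZMod p} (h : Hyp n κ y)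
    (h1 : ∀ j, σ (σ j) = j) (h2 : ∀ j, j < 2 * n → σ j < 2 * n)
    (h3 : ∀ j, σ j / 2 = ρ (j / 2)) (h4 : ∀ j, ρ (ρ j) = j) (h5 : ∀ j, j < n → ρ j < n)
    (he : ∀ m, ej y' m = ej y (ρ m)) : Hyp n (fun j => σ (κ (σ j))) y' := by
  refine ⟨h.mat.conj h1 h2, h.conn.conj h1 h2 ?_, ?_⟩
  · intro j
    rw [h3, h3]; congr 1; omega
  · simp only [he]
    rw [← h.sum]
    apply Finset.sum_nbij' ρ ρ
    · intro a ha; simp only [Finset.mem_range] at ha ⊢; exact h5 a ha
    · intro a ha; simp only [Finset.mem_range] at ha ⊢; exact h5 a ha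
    · intro a _; exact h4 a
    · intro a _; exact h4 a
    · intro a _; rfl

theorem Suit.conj {n : ℕ} {κ σ ρ : ℕ → ℕ} {y y' : ℕ → ZMod p} {a : ℕ} (h : Suit n κ y a)
    (h1 : ∀ j, σ (σ j) = j) (h2 : ∀ j, j < 2 * n → σ j < 2 * n)
    (h3 : ∀ j, σ j / 2 = ρ (j / 2)) (h4 : ∀ j, ρ (ρ j) = j) (h5 : ∀ j, j < n → ρ j < n)
    (he : ∀ m, ej y' m = ej y (ρ m)) : Suit n (fun j => σ (κ (σ j))) y' (σ a) := by
  have e1 : σ a / 2 = ρ (a / 2) := h3 a
  have e2 : (fun j => σ (κ (σ j))) (σ a) / 2 = ρ (κ a / 2) := by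
    simp only [h1]; exact h3 _
  refine ⟨h2 a h.lt, ?_, ?_, ?_⟩
  · rw [e1, e2]
    intro e
    apply h.ne
    have := congrArg ρ e
    rwa [h4, h4] at this
  · rw [e1, e2, he, he, h4, h4]; exact h.tw
  · rw [e1, e2, he, he, h4, h4]
    rcases h.post with h | h | ⟨i, hi, h6, h7, h8⟩
    · exact Or.inl h
    · exact Or.inr (Or.inl h)
    · refine Or.inr (Or.inr ⟨ρ i, h5 i hi, ?_, ?_, ?_⟩)
      · intro e
        apply h6
        have := congrArg ρ e
        rwa [h4, h4] at this
      · intro e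
        apply h7
        have := congrArg ρ e
        rwa [h4, h4] at this
      · rw [he, h4]; exact h8

/-! The twist -/

theorem runs_twist {N : ℕ} [NeZero N] (τ : ZMod N) (m o : ℕ) (x : ℕ → ZMod N) :
    runs τ (List.replicate m (pos o)) x =
      {fun j => if j = o ∨ j = o + 1 then x j + m * (x (o + 1) - x o) else x j} := by
  induction m generalizing x with
  | zero =>
    simp
  | succ m ih =>
    rw [List.replicate_succ, runs_pos, ih]
    congr 1
    have g0 : glue (pos o) x (x (o + 1), 2 * x (o + 1) - x o) o = x (o + 1) := by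
      rw [glue_mid _ (by simp) (by simp)]; simp
    have g1 : glue (pos o) x (x (o + 1), 2 * x (o + 1) - x o) (o + 1) =
        2 * x (o + 1) - x o := by
      rw [glue_mid _ (by simp) (by simp)]; simp
    funext j
    by_cases h1 : j = o
    · subst h1
      rw [if_pos (Or.inl rfl), if_pos (Or.inl rfl), g0, g1]
      push_cast; ring
    by_cases h2 : j = o + 1
    · subst h2
      rw [if_pos (Or.inr rfl), if_pos (Or.inr rfl), g0, g1]
      push_cast; ring
    rw [if_neg (by tauto), if_neg (by tauto)]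
    by_cases h3 : j < o
    · rw [glue_lt _ h3]
    · rw [glue_ge _ (by simp; omega)]
      simp only [pos_kind, out_pos, inn_pos]
      congr 1; omega

theorem runs2_twist (τ : ZMod 2) (k o : ℕ) (x : ℕ → ZMod 2) :
    runs τ (List.replicate (2 * k) (pos o)) x = {x} := by
  rw [runs_twist]
  have : ((2 * k : ℕ) : ZMod 2) = 0 := by push_cast; rw [show (2 : ZMod 2) = 0 from rfl]; ring
  simp only [this, zero_mul, add_zero, ite_self]

theorem dia_replicate_pos {m M o : ℕ} (h : o + 2 ≤ M) : Dia M (List.replicate m (pos o)) M := by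
  induction m with
  | zero => rfl
  | succ m ih =>
    rw [List.replicate_succ]
    refine ⟨h, ?_⟩
    simp only [pos_kind, inn_pos, out_pos]
    have : M - 2 + 2 = M := by omega
    rw [this]; exact ih

theorem iso_cups_twist {n i : ℕ} (h : i + 1 ≤ n) (m : ℕ) :
    Iso 0 (2 * n) (cups n ++ List.replicate m (pos (2 * i))) (cups n) := by
  induction m with
  | zero => simp only [List.replicate_zero, List.append_nil]; exact Iso.refl _
  | succ m ih =>
    have e : cups n ++ List.replicate (m + 1) (pos (2 * i)) =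
        (cups n ++ sh (2 * i) [pos 0]) ++ List.replicate m (pos (2 * i)) := by
      rw [List.replicate_succ, List.append_assoc]
      congr 1
      simp [pos]
    rw [e]
    exact (Iso.post (dia_replicate_pos (by omega)) (iso_cups_flip h)).trans ih

theorem Good.twist {n i : ℕ} (h : i + 1 ≤ n) (k : ℕ) {κ : ℕ → ℕ} {y y' : ℕ → ZMod p}
    (hy : y' = fun j => if j = 2 * i ∨ j = 2 * i + 1 then y j + (2 * k : ℕ) * ej y i else y j)
    (hg : Good n κ y') : Good n κ y := by
  refine Good.cross (W := List.replicate (2 * k) (pos (2 * i))) (σ := id) (y' := y')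
    (dia_replicate_pos (by omega)) (iso_cups_twist h _) (fun j => rfl) (fun j hj => hj)
    (fun τ x => by rw [runs2_twist]; rfl) ?_ hg
  rw [runs_twist, hy]; rfl

theorem ej_twist {i k : ℕ} {y y' : ℕ → ZMod p}
    (hy : y' = fun j => if j = 2 * i ∨ j = 2 * i + 1 then y j + (2 * k : ℕ) * ej y i else y j)
    (m : ℕ) : ej y' m = ej y m := by
  subst hy
  simp only [ej]
  by_cases h : m = i
  · subst h
    rw [if_pos (Or.inr rfl), if_pos (Or.inl rfl)]; ring
  · rw [if_neg (by omega), if_neg (by omega)]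

/-- Solving the equation for the number of twists. -/
theorem exists_twist (hp : p ≠ 2) {e : ZMod p} (he : e ≠ 0) (a : ZMod p) :
    ∃ k : ℕ, ((2 * k : ℕ) : ZMod p) * e = a := by
  have h2 : (2 : ZMod p) ≠ 0 := by
    intro h
    have : ((2 : ℕ) : ZMod p) = 0 := by exact_mod_cast h
    rw [ZMod.natCast_eq_zero_iff] at this
    exact hp ((Nat.prime_dvd_prime_iff_eq Fact.out Nat.prime_two).1 this)
  refine ⟨(a / (2 * e)).val, ?_⟩
  push_cast
  rw [ZMod.natCast_val, ZMod.cast_id', id]
  field_simp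

/-! Flips and swaps -/

theorem Good.flip {n i : ℕ} (h : i + 1 ≤ n) {κ : ℕ → ℕ} {y : ℕ → ZMod p}
    (H : ∀ y' : ℕ → ZMod p, (∀ m, ej y' m = ej y m) →
      Good n (fun j => tr (2 * i) (κ (tr (2 * i) j))) y') : Good n κ y := by
  have hr := runs_pos (0 : ZMod p) (2 * i) [] y
  rw [runs_nil] at hr
  refine Good.cross (W := [pos (2 * i)]) (σ := tr (2 * i)) ⟨by simp; omega, by simp; omega⟩ ?_
    (tr_tr _) (fun j hj => (tr_lt (by omega)).2 hj)
    (fun τ x => by rw [runs2_pos, runs_nil]) hr (H _ ?_)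
  · have := iso_cups_flip h
    simpa [pos] using this
  · intro m
    simp only [ej]
    by_cases h1 : m = i
    · subst h1
      rw [glue_mid _ (by simp) (by simp), glue_mid _ (by simp) (by simp)]
      simp only [pos_off]
      rw [if_neg (by omega)]
      simp only [if_true]
      ring
    by_cases h2 : m < i
    · rw [glue_lt _ (by simp; omega), glue_lt _ (by simp; omega)]
    · rw [glue_ge _ (by simp; omega), glue_ge _ (by simp; omega)]
      simp only [pos_kind, out_pos, inn_pos]
      have e1 : 2 * m + 1 - 2 + 2 = 2 * m + 1 := by omega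
      have e2 : 2 * m - 2 + 2 = 2 * m := by omega
      rw [e1, e2]

/-- The exchange of the blocks `i` and `i + 1`. -/
def bsw (i : ℕ) : ℕ → ℕ := fun j => if j / 2 = i then j + 2 else if j / 2 = i + 1 then j - 2 else j

theorem bsw_bsw (i j : ℕ) : bsw i (bsw i j) = j := by
  simp only [bsw]; split_ifs <;> omega

theorem bsw_lt {i j n : ℕ} (h : i + 2 ≤ n) (hj : j < 2 * n) : bsw i j < 2 * n := by
  simp only [bsw]; split_ifs <;> omega

theorem bsw_half (i j : ℕ) : bsw i j / 2 = tr i (j / 2) := by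
  simp only [bsw, tr]; split_ifs <;> omega

theorem runs2_swap (i : ℕ) (τ : ZMod 2) (x : ℕ → ZMod 2) :
    runs τ (sh (2 * i) swapW) x = {fun j => x (bsw i j)} := by
  have e : sh (2 * i) swapW = [pos (1 + 2 * i), pos (0 + 2 * i), pos (2 + 2 * i), pos (1 + 2 * i)] :=
    rfl
  rw [e, runs2_pos, runs2_pos, runs2_pos, runs2_pos, runs_nil]
  congr 1
  funext j
  congr 1
  have h1 : j < 2 * i ∨ j = 2 * i ∨ j = 2 * i + 1 ∨ j = 2 * i + 2 ∨ j = 2 * i + 3 ∨
    2 * i + 4 ≤ j := by omega
  rcases h1 with h | h | h | h | h | h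
  · have e1 : bsw i j = j := by simp only [bsw]; split_ifs <;> omega
    have e2 : tr (1 + 2 * i) j = j := by simp only [tr]; split_ifs <;> omega
    have e3 : tr (2 + 2 * i) j = j := by simp only [tr]; split_ifs <;> omega
    have e4 : tr (0 + 2 * i) j = j := by simp only [tr]; split_ifs <;> omega
    rw [e1, e2, e3, e4, e2]
  · have e1 : bsw i j = 2 * i + 2 := by simp only [bsw]; split_ifs <;> omega
    have e2 : tr (1 + 2 * i) j = j := by simp only [tr]; split_ifs <;> omega
    have e3 : tr (2 + 2 * i) j = j := by simp only [tr]; split_ifs <;> omega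
    have e4 : tr (0 + 2 * i) j = j + 1 := by simp only [tr]; split_ifs <;> omega
    have e5 : tr (1 + 2 * i) (j + 1) = 2 * i + 2 := by simp only [tr]; split_ifs <;> omega
    rw [e1, e2, e3, e4, e5]
  · have e1 : bsw i j = 2 * i + 3 := by simp only [bsw]; split_ifs <;> omega
    have e2 : tr (1 + 2 * i) j = j + 1 := by simp only [tr]; split_ifs <;> omega
    have e3 : tr (2 + 2 * i) (j + 1) = j + 2 := by simp only [tr]; split_ifs <;> omega
    have e4 : tr (0 + 2 * i) (j + 2) = j + 2 := by simp only [tr]; split_ifs <;> omega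
    have e5 : tr (1 + 2 * i) (j + 2) = 2 * i + 3 := by simp only [tr]; split_ifs <;> omega
    rw [e1, e2, e3, e4, e5]
  · have e1 : bsw i j = 2 * i := by simp only [bsw]; split_ifs <;> omega
    have e2 : tr (1 + 2 * i) j = 2 * i + 1 := by simp only [tr]; split_ifs <;> omega
    have e3 : tr (2 + 2 * i) (2 * i + 1) = 2 * i + 1 := by simp only [tr]; split_ifs <;> omega
    have e4 : tr (0 + 2 * i) (2 * i + 1) = 2 * i := by simp only [tr]; split_ifs <;> omega
    have e5 : tr (1 + 2 * i) (2 * i) = 2 * i := by simp only [tr]; split_ifs <;> omega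
    rw [e1, e2, e3, e4, e5]
  · have e1 : bsw i j = 2 * i + 1 := by simp only [bsw]; split_ifs <;> omega
    have e2 : tr (1 + 2 * i) j = 2 * i + 3 := by simp only [tr]; split_ifs <;> omega
    have e3 : tr (2 + 2 * i) (2 * i + 3) = 2 * i + 2 := by simp only [tr]; split_ifs <;> omega
    have e4 : tr (0 + 2 * i) (2 * i + 2) = 2 * i + 2 := by simp only [tr]; split_ifs <;> omega
    have e5 : tr (1 + 2 * i) (2 * i + 2) = 2 * i + 1 := by simp only [tr]; split_ifs <;> omega
    rw [e1, e2, e3, e4, e5]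
  · have e1 : bsw i j = j := by simp only [bsw]; split_ifs <;> omega
    have e2 : tr (1 + 2 * i) j = j := by simp only [tr]; split_ifs <;> omega
    have e3 : tr (2 + 2 * i) j = j := by simp only [tr]; split_ifs <;> omega
    have e4 : tr (0 + 2 * i) j = j := by simp only [tr]; split_ifs <;> omega
    rw [e1, e2, e3, e4, e2]

theorem eq_put4 {N : ℕ} (x : ℕ → ZMod N) : x = put [x 0, x 1, x 2, x 3] (tl 4 x) := by
  funext j
  match j with
  | 0 => rfl
  | 1 => rfl
  | 2 => rfl
  | 3 => rfl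
  | j + 4 => rfl

theorem runs_swap (i : ℕ) (y : ℕ → ZMod p) :
    runs (0 : ZMod p) (sh (2 * i) swapW) y =
      {pre (2 * i) y (put [y (2 * i + 2), y (2 * i + 3),
        y (2 * i) + 2 * (y (2 * i + 3) - y (2 * i + 2)),
        y (2 * i + 1) + 2 * (y (2 * i + 3) - y (2 * i + 2))] (tl (2 * i + 4) y))} := by
  rw [runs_sh]
  have h : ∀ x : ℕ → ZMod p, runs (0 : ZMod p) swapW x =
      {put [x 2, x 3, x 0 + 2 * (x 3 - x 2), x 1 + 2 * (x 3 - x 2)] (tl 4 x)} := by
    intro x
    conv_lhs => rw [eq_put4 x]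
    rw [swapW, runs_pos1, runs_pos0, runs_pos2, runs_pos1, runs_nil]
    congr 3
    · ring_nf
  rw [h, Multiset.map_singleton]
  congr 2
  have e0 : tl (2 * i) y 0 = y (2 * i) := by simp [tl]
  have e1 : tl (2 * i) y 1 = y (2 * i + 1) := by simp only [tl]; congr 1; omega
  have e2 : tl (2 * i) y 2 = y (2 * i + 2) := by simp only [tl]; congr 1; omega
  have e3 : tl (2 * i) y 3 = y (2 * i + 3) := by simp only [tl]; congr 1; omega
  have e4 : tl 4 (tl (2 * i) y) = tl (2 * i + 4) y := by
    funext j; simp only [tl]; congr 1; omega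
  rw [e0, e1, e2, e3, e4]

theorem Good.swap {n i : ℕ} (h : i + 2 ≤ n) {κ : ℕ → ℕ} {y : ℕ → ZMod p}
    (H : ∀ y' : ℕ → ZMod p, (∀ m, ej y' m = ej y (tr i m)) →
      Good n (fun j => bsw i (κ (bsw i j))) y') : Good n κ y := by
  refine Good.cross (W := sh (2 * i) swapW) (σ := bsw i) ?_ (iso_cups_swap h)
    (bsw_bsw i) (fun j hj => bsw_lt h hj) (runs2_swap i) (runs_swap i y) (H _ ?_)
  · have d : Dia 4 swapW 4 := by decide
    have := dia_right (2 * n - 2 * i - 4) (dia_sh (2 * i) d)
    have e : 4 + 2 * i + (2 * n - 2 * i - 4) = 2 * n := by omega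
    rwa [e] at this
  · intro m
    simp only [ej]
    have h1 : m < i ∨ m = i ∨ m = i + 1 ∨ i + 2 ≤ m := by omega
    rcases h1 with h1 | h1 | h1 | h1
    · have e1 : tr i m = m := by simp only [tr]; split_ifs <;> omega
      rw [e1, pre_lt (by omega), pre_lt (by omega)]
    · subst h1
      have e1 : tr m m = m + 1 := by simp [tr]
      rw [e1, pre_ge (by omega), pre_ge (by omega)]
      have a1 : 2 * m + 1 - 2 * m = 1 := by omega
      have a2 : 2 * m - 2 * m = 0 := by omega
      rw [a1, a2, put_cons_one, put_cons_zero]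
      congr 1
    · subst h1
      have e1 : tr i (i + 1) = i := by simp [tr]
      rw [e1, pre_ge (by omega), pre_ge (by omega)]
      have a1 : 2 * (i + 1) + 1 - 2 * i = 3 := by omega
      have a2 : 2 * (i + 1) - 2 * i = 2 := by omega
      rw [a1, a2, put_cons_two]
      show (y (2 * i + 1) + 2 * (y (2 * i + 3) - y (2 * i + 2))) - _ = _
      ring
    · have e1 : tr i m = m := by simp only [tr]; split_ifs <;> omega
      rw [e1, pre_ge (by omega), pre_ge (by omega)]
      obtain ⟨q, hq⟩ : ∃ q, 2 * m - 2 * i = q + 4 := ⟨2 * m - 2 * i - 4, by omega⟩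
      have a1 : 2 * m + 1 - 2 * i = (q + 1) + 4 := by omega
      rw [a1, hq]
      have b1 : ∀ (l : List (ZMod p)) (r : ℕ → ZMod p) (j : ℕ), l.length = 4 →
          put l r (j + 4) = r j := by
        intro l r j hl
        have := put_at l [] r j
        rw [hl, List.append_nil, put_nil] at this
        rw [Nat.add_comm]; exact this
      rw [b1 _ _ _ rfl, b1 _ _ _ rfl]
      simp only [tl]
      have c1 : q + 1 + (2 * i + 4) = 2 * m + 1 := by omega
      have c2 : q + (2 * i + 4) = 2 * m := by omega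
      rw [c1, c2]

/-! The merge -/

theorem Good.merge {n i : ℕ} (h : i + 1 ≤ n) {κ : ℕ → ℕ} {y : ℕ → ZMod p}
    (hκ : Mat (2 * (n + 1)) κ) (hc : κ (2 * i + 1) = 2 * i + 2)
    (hy : y (2 * i + 2) = y (2 * i + 1))
    (H : Good n (fun j => del1 (2 * i + 1) (κ (ins1 (2 * i + 1) j)))
      (fun j => y (ins1 (2 * i + 1) j))) : Good (n + 1) κ y := by
  obtain ⟨S, a, b, c, d⟩ := H
  have hc' : κ (2 * i + 2) = 2 * i + 1 := by
    have := (hκ (2 * i + 1) (by omega)).2.2
    rwa [hc] at this
  refine ⟨cap (2 * i + 1) :: S, ⟨by simp; omega, ?_⟩, ?_, ?_, ?_⟩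
  · simp only [cap_kind, inn_cap, out_cap]
    have e : 2 * (n + 1) - 2 + 0 = 2 * n := by omega
    rw [e]; exact a
  · have := b.cap (i := 2 * i + 1) (by omega)
    refine this.congr ?_
    intro j hj
    simp only [capκ]
    by_cases h1 : j = 2 * i + 1
    · rw [if_pos h1, h1, hc]
    by_cases h2 : j = 2 * i + 1 + 1
    · rw [if_neg h1, if_pos h2, h2, hc']
    rw [if_neg h1, if_neg h2, ins1_del1 h1 h2]
    obtain ⟨-, -, c3⟩ := hκ j hj
    apply ins1_del1
    · intro e
      rw [e, hc] at c3; omega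
    · intro e
      rw [e] at c3
      have : κ (2 * i + 1 + 1) = 2 * i + 1 := hc'
      rw [this] at c3; omega
  · have e : cups (n + 1) ++ cap (2 * i + 1) :: S = (cups (n + 1) ++ sh (2 * i) [cap 1]) ++ S := by
      rw [List.append_assoc]
      congr 1
      simp [cap, Nat.add_comm]
    rw [e]
    exact (Iso.post a (iso_cups_merge h)).trans c
  · rw [runs_cap, if_pos (by rw [add_zero]; exact hy), glue_cap_eq]
    exact d

theorem Hyp.merge {n i : ℕ} (h : i + 1 ≤ n) {κ : ℕ → ℕ} {y : ℕ → ZMod p}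
    (H : Hyp (n + 1) κ y) (hc : κ (2 * i + 1) = 2 * i + 2)
    (hy : y (2 * i + 2) = y (2 * i + 1)) :
    Hyp n (fun j => del1 (2 * i + 1) (κ (ins1 (2 * i + 1) j)))
      (fun j => y (ins1 (2 * i + 1) j)) ∧
    (∀ m, m < i → ej (fun j => y (ins1 (2 * i + 1) j)) m = ej y m) ∧
    (∀ m, i < m → ej (fun j => y (ins1 (2 * i + 1) j)) m = ej y (m + 1)) ∧
    ej (fun j => y (ins1 (2 * i + 1) j)) i = ej y i + ej y (i + 1) := by
  have hc' : κ (2 * i + 2) = 2 * i + 1 := by
    have := (H.mat (2 * i + 1) (by omega)).2.2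
    rwa [hc] at this
  have nn : ∀ j, j < 2 * n → κ (ins1 (2 * i + 1) j) ≠ 2 * i + 1 ∧
      κ (ins1 (2 * i + 1) j) ≠ 2 * i + 1 + 1 := by
    intro j hj
    have hj' : ins1 (2 * i + 1) j < 2 * (n + 1) := by
      have := (ins1_lt (i := 2 * i + 1) (j := j) (M := 2 * n) (by omega)).2 hj
      omega
    obtain ⟨-, -, c3⟩ := H.mat _ hj'
    constructor
    · intro e
      rw [e, hc] at c3
      exact ins1_ne' _ _ c3.symm
    · intro e
      rw [e] at c3
      have : κ (2 * i + 1 + 1) = 2 * i + 1 := hc'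
      rw [this] at c3
      exact ins1_ne _ _ c3.symm
  have E1 : ∀ m, m < i → ej (fun j => y (ins1 (2 * i + 1) j)) m = ej y m := by
    intro m hm
    simp only [ej]
    have e1 : ins1 (2 * i + 1) (2 * m + 1) = 2 * m + 1 := by simp only [ins1]; split_ifs <;> omega
    have e2 : ins1 (2 * i + 1) (2 * m) = 2 * m := by simp only [ins1]; split_ifs <;> omega
    rw [e1, e2]
  have E2 : ∀ m, i < m → ej (fun j => y (ins1 (2 * i + 1) j)) m = ej y (m + 1) := by
    intro m hm
    simp only [ej]
    have e1 : ins1 (2 * i + 1) (2 * m + 1) = 2 * (m + 1) + 1 := by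
      simp only [ins1]; split_ifs <;> omega
    have e2 : ins1 (2 * i + 1) (2 * m) = 2 * (m + 1) := by
      simp only [ins1]; split_ifs <;> omega
    rw [e1, e2]
  have E3 : ej (fun j => y (ins1 (2 * i + 1) j)) i = ej y i + ej y (i + 1) := by
    simp only [ej]
    have e1 : ins1 (2 * i + 1) (2 * i + 1) = 2 * (i + 1) + 1 := by
      simp only [ins1]; split_ifs <;> omega
    have e2 : ins1 (2 * i + 1) (2 * i) = 2 * i := by
      simp only [ins1]; split_ifs <;> omega
    have e3 : 2 * (i + 1) = 2 * i + 2 := by ring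
    rw [e1, e2, e3, hy]; ring
  refine ⟨⟨?_, ?_, ?_⟩, E1, E2, E3⟩
  · intro j hj
    have hj' : ins1 (2 * i + 1) j < 2 * (n + 1) := by
      have := (ins1_lt (i := 2 * i + 1) (j := j) (M := 2 * n) (by omega)).2 hj
      omega
    obtain ⟨c1, c2, c3⟩ := H.mat _ hj'
    obtain ⟨n1, n2⟩ := nn j hj
    refine ⟨del1_lt (by omega) n1 n2 (by omega), ?_, ?_⟩
    · intro e
      apply c2
      have := congrArg (ins1 (2 * i + 1)) e
      rwa [ins1_del1 n1 n2] at this
    · simp only [ins1_del1 n1 n2, c3, del1_ins1]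
  · intro x hx hx' j hj
    -- extend `x` to the points of the larger diagram
    let X : ℕ → ZMod 2 := fun j => if j = 2 * i + 1 ∨ j = 2 * i + 2 then x (2 * i)
      else x (del1 (2 * i + 1) j)
    have X1 : ∀ j, X (ins1 (2 * i + 1) j) = x j := by
      intro j
      have a1 := ins1_ne (2 * i + 1) j
      have a2 := ins1_ne' (2 * i + 1) j
      simp only [X]
      rw [if_neg (by omega), del1_ins1]
    have X2 : X (2 * i + 1) = x (2 * i) := by simp [X]
    have X3 : X (2 * i + 2) = x (2 * i) := by simp [X]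
    have key := H.conn X (by
      intro j hj
      by_cases h1 : j = 2 * i + 1
      · rw [h1, hc, X2, X3]
      by_cases h2 : j = 2 * i + 2
      · rw [h2, hc', X2, X3]
      have hj2 : del1 (2 * i + 1) j < 2 * n := del1_lt (by omega) h1 h2 (by omega)
      obtain ⟨n1, n2⟩ := nn _ hj2
      have hh : x (del1 (2 * i + 1) (κ (ins1 (2 * i + 1) (del1 (2 * i + 1) j)))) =
        x (del1 (2 * i + 1) j) := hx _ hj2
      rw [ins1_del1 h1 h2] at n1 n2 hh
      conv_lhs => rw [← ins1_del1 n1 n2, X1]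
      conv_rhs => rw [← ins1_del1 h1 h2, X1]
      exact hh) (by
      intro m hm
      have h1 : m < i ∨ m = i ∨ m = i + 1 ∨ i + 2 ≤ m := by omega
      rcases h1 with h1 | h1 | h1 | h1
      · have e1 : ins1 (2 * i + 1) (2 * m + 1) = 2 * m + 1 := by
          simp only [ins1]; split_ifs <;> omega
        have e2 : ins1 (2 * i + 1) (2 * m) = 2 * m := by simp only [ins1]; split_ifs <;> omega
        rw [← e1, ← e2, X1, X1, e2]
        exact hx' m (by omega)
      · subst h1
        have e2 : ins1 (2 * m + 1) (2 * m) = 2 * m := by simp only [ins1]; split_ifs <;> omega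
        rw [X2]
        conv_rhs => rw [← e2, X1]
      · subst h1
        have e1 : ins1 (2 * i + 1) (2 * i + 1) = 2 * (i + 1) + 1 := by
          simp only [ins1]; split_ifs <;> omega
        have e2 : 2 * (i + 1) = 2 * i + 2 := by ring
        rw [← e1, X1, e2, X3]
        exact hx' i (by omega)
      · have e1 : ins1 (2 * i + 1) (2 * (m - 1) + 1) = 2 * m + 1 := by
          simp only [ins1]; split_ifs <;> omega
        have e2 : ins1 (2 * i + 1) (2 * (m - 1)) = 2 * m := by
          simp only [ins1]; split_ifs <;> omega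
        rw [← e1, ← e2, X1, X1]
        exact hx' (m - 1) (by omega))
    have k1 := key (ins1 (2 * i + 1) j) (by
      have := (ins1_lt (i := 2 * i + 1) (j := j) (M := 2 * n) (by omega)).2 hj
      omega)
    have e0 : ins1 (2 * i + 1) 0 = 0 := by simp only [ins1]; split_ifs <;> omega
    rw [← e0, X1, X1] at k1
    exact k1
  · -- the sum
    have key : ∀ n, i + 1 ≤ n → ∑ m ∈ Finset.range n, ej (fun j => y (ins1 (2 * i + 1) j)) m =
        ∑ m ∈ Finset.range (n + 1), ej y m := by
      intro n hn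
      induction n, hn using Nat.le_induction with
      | base =>
        rw [Finset.sum_range_succ, Finset.sum_range_succ _ (i + 1), Finset.sum_range_succ _ i, E3]
        rw [Finset.sum_congr rfl (fun m hm => E1 m (Finset.mem_range.1 hm))]
        ring
      | succ n hn ih =>
        rw [Finset.sum_range_succ, ih, Finset.sum_range_succ _ (n + 1), E2 n (by omega)]
    rw [key n h]; exact H.sum

end

end H80Skein
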