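import Pool.Agent.H80Skein.Context

/-! The context lemma, conclusion. -/

set_option linter.unusedSimpArgs false
set_option linter.unusedSectionVars false

namespace H80Skein

section

variable {p : ℕ} [Fact p.Prime]

/-- What the induction needs. -/
def IndHyp (p : ℕ) [Fact p.Prime] (n : ℕ) : Prop :=
  ∀ κ (y : ℕ → ZMod p), Hyp n κ y → (n = 1 ∨ ∃ i < n, ej y i ≠ 0) → Good n κ y

theorem good_core {n : ℕ} (IH : IndHyp p n) {κ : ℕ → ℕ} {y : ℕ → ZMod p} {i : ℕ}
    (H : Hyp (n + 1) κ y) (hi : i + 1 ≤ n) (hc : κ (2 * i + 1) = 2 * i + 2)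
    (hy : y (2 * i + 2) = y (2 * i + 1))
    (post : n + 1 = 2 ∨ ej y i + ej y (i + 1) ≠ 0 ∨
      ∃ l < n + 1, l ≠ i ∧ l ≠ i + 1 ∧ ej y l ≠ 0) : Good (n + 1) κ y := by
  obtain ⟨h1, E1, E2, E3⟩ := H.merge hi hc hy
  refine Good.merge hi H.mat hc hy (IH _ _ h1 ?_)
  rcases post with h | h | ⟨l, hl, h2, h3, h4⟩
  · left; omega
  · right; exact ⟨i, by omega, by rw [E3]; exact h⟩
  · right
    by_cases h5 : l < i
    · exact ⟨l, by omega, by rw [E1 l h5]; exact h4⟩
    · refine ⟨l - 1, by omega, ?_⟩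
      rw [E2 (l - 1) (by omega)]
      have : l - 1 + 1 = l := by omega
      rw [this]; exact h4

theorem good_adj (hp : p ≠ 2) {n : ℕ} (IH : IndHyp p n) {κ : ℕ → ℕ} {y : ℕ → ZMod p} {i : ℕ}
    (H : Hyp (n + 1) κ y) (S : Suit (n + 1) κ y (2 * i + 1)) (hc : κ (2 * i + 1) = 2 * i + 2) :
    Good (n + 1) κ y := by
  have hi : i + 1 ≤ n := by
    have := (H.mat _ S.lt).1
    rw [hc] at this; omega
  have ea : (2 * i + 1) / 2 = i := by omega
  have eb : κ (2 * i + 1) / 2 = i + 1 := by rw [hc]; omega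
  have post := S.post
  have tw := S.tw
  rw [ea, eb] at post tw
  rcases tw with tw | tw
  · obtain ⟨k, hk⟩ := exists_twist hp tw (y (2 * i + 2) - y (2 * i + 1))
    refine Good.twist (i := i) (by omega) k rfl ?_
    set y' : ℕ → ZMod p := fun j => if j = 2 * i ∨ j = 2 * i + 1 then
      y j + (2 * k : ℕ) * ej y i else y j with hy'
    have ejy := ej_twist hy'
    refine good_core IH (i := i) ⟨H.mat, H.conn, by simp only [ejy]; exact H.sum⟩ hi hc ?_ ?_
    · rw [hy']
      simp only
      rw [if_neg (by omega), if_pos (Or.inr trivial), hk]; ring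
    · simp only [ejy]; exact post
  · obtain ⟨k, hk⟩ := exists_twist hp tw (y (2 * i + 1) - y (2 * i + 2))
    refine Good.twist (i := i + 1) (by omega) k rfl ?_
    set y' : ℕ → ZMod p := fun j => if j = 2 * (i + 1) ∨ j = 2 * (i + 1) + 1 then
      y j + (2 * k : ℕ) * ej y (i + 1) else y j with hy'
    have ejy := ej_twist hy'
    refine good_core IH (i := i) ⟨H.mat, H.conn, by simp only [ejy]; exact H.sum⟩ hi hc ?_ ?_
    · rw [hy']
      simp only
      rw [if_pos (by omega), if_neg (by omega), hk]; ring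
    · simp only [ejy]; exact post

theorem tr_half (i j : ℕ) : tr (2 * i) j / 2 = id (j / 2) := by
  simp only [tr, id]; split_ifs <;> omega

/-- Flipping a block. -/
theorem good_flip {n : ℕ} {κ : ℕ → ℕ} {y : ℕ → ZMod p} {a i : ℕ}
    (H : Hyp n κ y) (S : Suit n κ y a) (hi : i + 1 ≤ n)
    (K : ∀ y' : ℕ → ZMod p, Hyp n (fun j => tr (2 * i) (κ (tr (2 * i) j))) y' →
      Suit n (fun j => tr (2 * i) (κ (tr (2 * i) j))) y' (tr (2 * i) a) →
      Good n (fun j => tr (2 * i) (κ (tr (2 * i) j))) y') : Good n κ y := by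
  refine Good.flip hi (fun y' hy' => K y' ?_ ?_)
  · exact H.conj (ρ := id) (tr_tr _) (fun j hj => (tr_lt (by omega)).2 hj) (tr_half i)
      (fun j => rfl) (fun j hj => hj) hy'
  · exact S.conj (ρ := id) (tr_tr _) (fun j hj => (tr_lt (by omega)).2 hj) (tr_half i)
      (fun j => rfl) (fun j hj => hj) hy'

theorem good_adj2 (hp : p ≠ 2) {n : ℕ} (IH : IndHyp p n) {κ : ℕ → ℕ} {y : ℕ → ZMod p} {i : ℕ}
    (H : Hyp (n + 1) κ y) (S : Suit (n + 1) κ y (2 * i + 1))
    (hc : κ (2 * i + 1) / 2 = i + 1) : Good (n + 1) κ y := by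
  by_cases h : κ (2 * i + 1) = 2 * i + 2
  · exact good_adj hp IH H S h
  have h3 : κ (2 * i + 1) = 2 * i + 3 := by omega
  have hlt := (H.mat _ S.lt).1
  refine good_flip (i := i + 1) H S (by omega) (fun y' H' S' => ?_)
  have e1 : tr (2 * (i + 1)) (2 * i + 1) = 2 * i + 1 := by simp only [tr]; split_ifs <;> omega
  have e2 : tr (2 * (i + 1)) (2 * i + 3) = 2 * i + 2 := by simp only [tr]; split_ifs <;> omega
  rw [e1] at S'
  refine good_adj hp IH H' S' ?_
  simp only [e1, h3, e2]

theorem good_adj3 (hp : p ≠ 2) {n : ℕ} (IH : IndHyp p n) {κ : ℕ → ℕ} {y : ℕ → ZMod p} {a : ℕ}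
    (H : Hyp (n + 1) κ y) (S : Suit (n + 1) κ y a)
    (hc : κ a / 2 = a / 2 + 1) : Good (n + 1) κ y := by
  have hlt := S.lt
  rcases Nat.even_or_odd' a with ⟨i, rfl | rfl⟩
  · refine good_flip (i := i) H S (by omega) (fun y' H' S' => ?_)
    have e1 : tr (2 * i) (2 * i) = 2 * i + 1 := by simp [tr]
    have e3 : tr (2 * i) (2 * i + 1) = 2 * i := by simp [tr]
    rw [e1] at S'
    refine good_adj2 hp IH H' S' ?_
    simp only [e3]
    rw [tr_half, id]; omega
  · exact good_adj2 hp IH H S (by omega)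

theorem good_gap (hp : p ≠ 2) {n : ℕ} (IH : IndHyp p n) (d : ℕ) {κ : ℕ → ℕ} {y : ℕ → ZMod p}
    {a : ℕ} (H : Hyp (n + 1) κ y) (S : Suit (n + 1) κ y a)
    (hc : κ a / 2 = a / 2 + 1 + d) : Good (n + 1) κ y := by
  induction d generalizing κ y a with
  | zero => exact good_adj3 hp IH H S (by omega)
  | succ d ih =>
    have hlt := S.lt
    have hlt2 := (H.mat _ S.lt).1
    set i := a / 2 with hi
    have hi2 : i + 2 ≤ n + 1 := by omega
    refine Good.swap hi2 (fun y' hy' => ?_)
    have H' := H.conj (y' := y') (σ := bsw i) (ρ := tr i) (bsw_bsw i)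
      (fun j hj => bsw_lt hi2 hj) (bsw_half i) (tr_tr i) (fun j hj => (tr_lt hi2).2 hj) hy'
    have S' := S.conj (y' := y') (σ := bsw i) (ρ := tr i) (bsw_bsw i)
      (fun j hj => bsw_lt hi2 hj) (bsw_half i) (tr_tr i) (fun j hj => (tr_lt hi2).2 hj) hy'
    refine ih H' S' ?_
    simp only [bsw_bsw]
    rw [bsw_half, bsw_half, ← hi, hc]
    have e1 : tr i i = i + 1 := by simp [tr]
    have e2 : tr i (i + 1 + (d + 1)) = i + 1 + (d + 1) := by simp only [tr]; split_ifs <;> omega
    rw [e1, e2]; omega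

theorem Suit.other {n : ℕ} {κ : ℕ → ℕ} {y : ℕ → ZMod p} {a : ℕ} (hκ : Mat (2 * n) κ)
    (S : Suit n κ y a) : Suit n κ y (κ a) := by
  obtain ⟨h1, h2, h3⟩ := hκ a S.lt
  refine ⟨h1, ?_, ?_, ?_⟩
  · rw [h3]; exact fun e => S.ne e.symm
  · rw [h3]; exact S.tw.symm
  · rw [h3]
    rcases S.post with h | h | ⟨i, h4, h5, h6, h7⟩
    · exact Or.inl h
    · right; left; rw [add_comm]; exact h
    · right; right; exact ⟨i, h4, h6, h5, h7⟩

theorem good_of_suit (hp : p ≠ 2) {n : ℕ} (IH : IndHyp p n) {κ : ℕ → ℕ} {y : ℕ → ZMod p}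
    {a : ℕ} (H : Hyp (n + 1) κ y) (S : Suit (n + 1) κ y a) : Good (n + 1) κ y := by
  rcases lt_or_gt_of_ne S.ne with h | h
  · exact good_gap hp IH (κ a / 2 - a / 2 - 1) H S (by omega)
  · have h3 := (H.mat a S.lt).2.2
    exact good_gap hp IH (a / 2 - κ a / 2 - 1) H (S.other H.mat) (by rw [h3]; omega)

/-- A suitable endpoint exists. -/
theorem exists_suit {n : ℕ} (hn : 2 ≤ n) {κ : ℕ → ℕ} {y : ℕ → ZMod p} (H : Hyp n κ y)
    (he : ∃ i < n, ej y i ≠ 0) : ∃ a, Suit n κ y a := by
  classical
  obtain ⟨i0, hi0, he0⟩ := he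
  by_cases hall : ∀ i < n, ej y i ≠ 0
  · -- all jumps are nonzero
    let x : ℕ → ZMod 2 := fun j => if j / 2 = 0 then 0 else 1
    have : ∃ a < 2 * n, x (κ a) ≠ x a := by
      by_contra hcon
      push Not at hcon
      have key := H.conn x hcon (by
        intro i hi
        simp only [x]
        have e1 : (2 * i + 1) / 2 = i := by omega
        have e2 : 2 * i / 2 = i := by omega
        rw [e1, e2]) 2 (by omega)
      simp [x] at key
    obtain ⟨a, ha, hxa⟩ := this
    have hne : a / 2 ≠ κ a / 2 := by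
      intro e
      apply hxa
      simp only [x]
      rw [e]
    have hk := (H.mat a ha).1
    refine ⟨a, ha, hne, Or.inl (hall _ (by omega)), ?_⟩
    by_cases h2 : n = 2
    · exact Or.inl h2
    right; right
    have : ∃ i < n, i ≠ a / 2 ∧ i ≠ κ a / 2 := by
      by_contra hcon
      push Not at hcon
      have c0 := hcon 0 (by omega)
      have c1 := hcon 1 (by omega)
      have c2 := hcon 2 (by omega)
      by_cases z0 : 0 = a / 2
      · have := c1 (by omega)
        have := c2 (by omega)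
        omega
      · have := c0 z0
        by_cases z1 : 1 = a / 2
        · have := c2 (by omega)
          omega
        · have := c1 z1
          omega
    obtain ⟨i, hi, h3, h4⟩ := this
    exact ⟨i, hi, h3, h4, hall i hi⟩
  · push Not at hall
    obtain ⟨i1, hi1, he1⟩ := hall
    let x : ℕ → ZMod 2 := fun j => if ej y (j / 2) = 0 then 0 else 1
    have : ∃ a < 2 * n, x (κ a) ≠ x a := by
      by_contra hcon
      push Not at hcon
      have key := H.conn x hcon (by
        intro i hi
        simp only [x]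
        have e1 : (2 * i + 1) / 2 = i := by omega
        have e2 : 2 * i / 2 = i := by omega
        rw [e1, e2])
      have k1 := key (2 * i0) (by omega)
      have k2 := key (2 * i1) (by omega)
      simp only [x] at k1 k2
      have e1 : 2 * i0 / 2 = i0 := by omega
      have e2 : 2 * i1 / 2 = i1 := by omega
      rw [e1, if_neg he0] at k1
      rw [e2, if_pos he1] at k2
      rw [← k1] at k2
      exact absurd k2 (by decide)
    obtain ⟨a, ha, hxa⟩ := this
    simp only [x] at hxa
    have hne : a / 2 ≠ κ a / 2 := by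
      intro e
      apply hxa
      rw [e]
    refine ⟨a, ha, hne, ?_, ?_⟩
    · by_contra hcon
      push Not at hcon
      apply hxa
      rw [if_pos hcon.1, if_pos hcon.2]
    · right; left
      intro hsum
      apply hxa
      by_cases h1 : ej y (a / 2) = 0
      · rw [h1, zero_add] at hsum
        rw [if_pos h1, if_pos hsum]
      · by_cases h2 : ej y (κ a / 2) = 0
        · rw [h2, add_zero] at hsum; exact absurd hsum h1
        · rw [if_neg h1, if_neg h2]

theorem good_one {κ : ℕ → ℕ} {y : ℕ → ZMod p} (H : Hyp 1 κ y) : Good 1 κ y := by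
  have h0 := H.mat 0 (by omega)
  have h1 := H.mat 1 (by omega)
  have k0 : κ 0 = 1 := by omega
  have k1 : κ 1 = 0 := by omega
  have hs := H.sum
  rw [Finset.sum_range_one, ej] at hs
  simp only [Nat.mul_zero, Nat.zero_add] at hs
  have hy : y 1 = y 0 := by linear_combination hs
  refine ⟨[cap 0], by decide, ?_, Iso.refl _, ?_⟩
  · intro τ x
    rw [runs_cap, runs_nil]
    have : (∀ i < 2 * 1, x (κ i) = x i + τ) ↔ x (0 + 1) = x 0 + τ := by
      constructor
      · intro h
        have := h 0 (by omega)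
        rwa [k0] at this
      · intro h i hi
        have hi2 : i = 0 ∨ i = 1 := by omega
        rcases hi2 with rfl | rfl
        · rw [k0]; exact h
        · rw [k1]
          have h' : x 1 = x 0 + τ := h
          rw [h', z2']
    simp only [this]
    split_ifs <;> simp
  · rw [runs_cap, if_pos (by rw [add_zero]; exact hy), runs_nil]
    simp

/-- The context lemma. -/
theorem context_lemma (hp : p ≠ 2) {n : ℕ} (hn : 1 ≤ n) : IndHyp p n := by
  induction n, hn using Nat.le_induction with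
  | base => intro κ y H _; exact good_one H
  | succ n hn ih =>
    intro κ y H h
    have h' : ∃ i < n + 1, ej y i ≠ 0 := by
      rcases h with h | h
      · omega
      · exact h
    obtain ⟨a, ha⟩ := exists_suit (by omega) H h'
    exact good_of_suit hp ih H ha

end

end H80Skein
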