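import Pool.Agent.H80Skein.Deg

/-! Exact crossing numbers of sums of twist knots. -/

set_option linter.unusedSimpArgs false
set_option linter.unusedSectionVars false

namespace H80Skein

/-! ### A lower bound for the crossing number -/

section

variable {t : ℝ} (ht : 0 < t)

/-- The unit `(t, t⁻¹)` of `ℝ × ℝ`. -/
noncomputable def pu : (ℝ × ℝ)ˣ where
  val := (t, t⁻¹)
  inv := (t⁻¹, t)
  val_inv := by
    ext
    · simp [ht.ne']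
    · simp [ht.ne']
  inv_val := by
    ext
    · simp [ht.ne']
    · simp [ht.ne']

theorem pu_fst : Units.map (RingHom.fst ℝ ℝ : ℝ × ℝ →* ℝ) (pu ht) = tu t ht := by
  ext; rfl

theorem pu_snd : Units.map (RingHom.snd ℝ ℝ : ℝ × ℝ →* ℝ) (pu ht) =
    tu t⁻¹ (by positivity) := by
  ext; rfl

theorem prod_iso {D E : Word} (h : Iso 0 0 D E) :
    |br (tu t ht) D * br (tu t⁻¹ (by positivity)) D| =
      |br (tu t ht) E * br (tu t⁻¹ (by positivity)) E| := by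
  obtain ⟨k, hk⟩ := br_iso (pu ht) h
  have h1 := congrArg (RingHom.fst ℝ ℝ) hk
  have h2 := congrArg (RingHom.snd ℝ ℝ) hk
  rw [map_mul, br_map, br_map] at h1 h2
  have e1 : (Units.map ((RingHom.fst ℝ ℝ : ℝ × ℝ →+* ℝ) : ℝ × ℝ →* ℝ)) (pu ht) = tu t ht := pu_fst ht
  have e2 : (Units.map ((RingHom.snd ℝ ℝ : ℝ × ℝ →+* ℝ) : ℝ × ℝ →* ℝ)) (pu ht) =
    tu t⁻¹ (by positivity) := pu_snd ht
  rw [e1] at h1
  rw [e2] at h2
  have hq : (RingHom.fst ℝ ℝ) (((qq (pu ht)) ^ k : (ℝ × ℝ)ˣ) : ℝ × ℝ) *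
      (RingHom.snd ℝ ℝ) (((qq (pu ht)) ^ k : (ℝ × ℝ)ˣ) : ℝ × ℝ) = 1 := by
    have f1 : (RingHom.fst ℝ ℝ) (((qq (pu ht)) ^ k : (ℝ × ℝ)ˣ) : ℝ × ℝ) =
        ((-(t ^ 3)) : ℝ) ^ k := by
      have : (RingHom.fst ℝ ℝ) (((qq (pu ht)) ^ k : (ℝ × ℝ)ˣ) : ℝ × ℝ) =
          (((Units.map ((RingHom.fst ℝ ℝ : ℝ × ℝ →+* ℝ) : ℝ × ℝ →* ℝ) (qq (pu ht))) ^ k : ℝˣ) : ℝ) := by
        rw [← map_zpow]; rfl
      rw [this, Units.val_zpow_eq_zpow_val]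
      congr 1
    have f2 : (RingHom.snd ℝ ℝ) (((qq (pu ht)) ^ k : (ℝ × ℝ)ˣ) : ℝ × ℝ) =
        ((-((t⁻¹) ^ 3)) : ℝ) ^ k := by
      have : (RingHom.snd ℝ ℝ) (((qq (pu ht)) ^ k : (ℝ × ℝ)ˣ) : ℝ × ℝ) =
          (((Units.map ((RingHom.snd ℝ ℝ : ℝ × ℝ →+* ℝ) : ℝ × ℝ →* ℝ) (qq (pu ht))) ^ k : ℝˣ) : ℝ) := by
        rw [← map_zpow]; rfl
      rw [this, Units.val_zpow_eq_zpow_val]
      congr 1
    rw [f1, f2, ← mul_zpow]
    have : -(t ^ 3) * -((t⁻¹) ^ 3) = 1 := by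
      field_simp
    rw [this, one_zpow]
  rw [h1, h2]
  rw [show (RingHom.fst ℝ ℝ) (((qq (pu ht)) ^ k : (ℝ × ℝ)ˣ) : ℝ × ℝ) * br (tu t ht) E *
    ((RingHom.snd ℝ ℝ) (((qq (pu ht)) ^ k : (ℝ × ℝ)ˣ) : ℝ × ℝ) * br (tu t⁻¹ (by positivity)) E) =
    ((RingHom.fst ℝ ℝ) (((qq (pu ht)) ^ k : (ℝ × ℝ)ˣ) : ℝ × ℝ) *
      (RingHom.snd ℝ ℝ) (((qq (pu ht)) ^ k : (ℝ × ℝ)ˣ) : ℝ × ℝ)) *
      (br (tu t ht) E * br (tu t⁻¹ (by positivity)) E) by ring, hq, one_mul]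

end

/-- If the product of the two values grows like `t ^ N`, every diagram has at least
`(N - 4) / 4` crossings. -/
theorem crossings_ge {D E : Word} (hD : IsKnot D) (h : Iso 0 0 D E) {N : ℕ} {c t0 : ℝ}
    (hc : 0 < c) (ht0 : 1 ≤ t0)
    (hN : ∀ t : ℝ, ∀ ht : t0 ≤ t, c * t ^ N ≤
      |br (tu t (by linarith)) D * br (tu t⁻¹ (inv_pos.2 (by linarith))) D|) :
    N ≤ 4 * crossings E + 4 := by
  by_contra hlt
  push Not at hlt
  set M := 4 * crossings E + 4 with hM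
  have hE := hD.iso h
  set K : ℝ := 36 ^ (crossings E + 2) with hK
  have key : ∀ t : ℝ, t0 ≤ t → c * t ≤ K := by
    intro t ht
    have ht1 : 1 ≤ t := by linarith
    have ht2 : 0 < t := by linarith
    have h1 := hN t ht
    rw [prod_iso ht2 h] at h1
    have h2 := br_prod_le ht1 hE
    have h3 : c * t ^ N ≤ K * t ^ M := h1.trans h2
    have h4 : t ^ (M + 1) ≤ t ^ N := pow_le_pow_right₀ ht1 hlt
    have h5 : c * t * t ^ M ≤ K * t ^ M := by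
      calc c * t * t ^ M = c * t ^ (M + 1) := by rw [pow_succ]; ring
        _ ≤ c * t ^ N := by gcongr
        _ ≤ _ := h3
    exact le_of_mul_le_mul_right h5 (by positivity)
  have h6 := key (max t0 (K / c + 1)) (le_max_left _ _)
  have h7 : K / c + 1 ≤ max t0 (K / c + 1) := le_max_right _ _
  have h8 : c * (K / c + 1) ≤ K := (mul_le_mul_of_nonneg_left h7 hc.le).trans h6
  have h9 : c * (K / c + 1) = K + c := by field_simp
  linarith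

theorem cr_ge {D : Word} (hD : IsKnot D) {N m : ℕ} {c t0 : ℝ} (hc : 0 < c) (ht0 : 1 ≤ t0)
    (hN : ∀ t : ℝ, ∀ ht : t0 ≤ t, c * t ^ N ≤
      |br (tu t (by linarith)) D * br (tu t⁻¹ (inv_pos.2 (by linarith))) D|)
    (hm : 4 * m + 4 ≤ N) : (m : ℕ∞) ≤ cr D := by
  unfold cr
  refine le_iInf₂ (fun E hE => ?_)
  have := crossings_ge hD hE hc ht0 hN
  exact_mod_cast (by omega : m ≤ crossings E)

/-! ### The bracket of twist knots -/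

section

variable {R : Type*} [CommRing R] (A : Rˣ)

/-- The coefficient of the Temperley-Lieb generator in a twist region. -/
def cc : ℕ → R
  | 0 => 0
  | k + 1 => (A : R) * ((A⁻¹ : Rˣ) : R) ^ k - (A : R) ^ 3 * cc k

theorem ev_twist (i k : ℕ) : ev A (List.replicate k (pos i)) =
    ((A⁻¹ : Rˣ) : R) ^ k • 1 + cc A k • TE A i := by
  induction k with
  | zero => simp [cc]
  | succ k ih =>
    rw [List.replicate_succ', ev_append, ih]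
    have h1 := aa A
    rw [ev_cons, ev_nil, mul_one]
    simp only [pos_kind, pos_off, op, mul_add, add_mul, smul_mul_assoc, mul_smul_comm, one_mul,
      mul_one, te_te, dl, cc]
    match_scalars
    · ring
    · linear_combination (-(cc A k) * ((A⁻¹ : Rˣ) : R)) * h1

theorem dl_cc (k : ℕ) : dl A * cc A k = (-(A : R) ^ 3) ^ k - ((A⁻¹ : Rˣ) : R) ^ k := by
  have h1 := aa A
  induction k with
  | zero => simp [cc]
  | succ k ih =>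
    have : dl A * cc A (k + 1) = dl A * (A : R) * ((A⁻¹ : Rˣ) : R) ^ k
        - (A : R) ^ 3 * (dl A * cc A k) := by rw [cc]; ring
    rw [this, ih, dl, pow_succ, pow_succ]
    linear_combination (-(((A⁻¹ : Rˣ) : R)) * ((A⁻¹ : Rˣ) : R) ^ k) * h1

/-- The bracket of the long twist knot. -/
def bt (k : ℕ) : R := ((A⁻¹ : Rˣ) : R) ^ (k + 6) -
  cc A k * (((A⁻¹ : Rˣ) : R) ^ 4 + (A : R) ^ 4)

theorem ev_tk (k : ℕ) : ev A (tk k) = bt A k • 1 := by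
  have h1 := aa A
  have hn : ev A [neg 1, neg 1] = (A : R) ^ 2 • 1 + (1 - ((A⁻¹ : Rˣ) : R) ^ 4) • TE A 1 := by
    rw [ev_cons, ev_cons, ev_nil, mul_one]
    simp only [neg_kind, neg_off, op, mul_add, add_mul, smul_mul_assoc, mul_smul_comm, one_mul,
      mul_one, te_te, dl]
    match_scalars
    · ring
    · linear_combination (1 - (((A⁻¹ : Rˣ) : R)) * (A : R)) * h1
  have z1 := zig_op A 0
  have z2 := cup_cap A 0
  have z3 := cup_cap A 1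
  have z4 := zag_op A 0
  have e1 : Cup A 1 * TE A 0 * Cap A 0 = dl A • 1 := by
    unfold TE
    calc Cup A 1 * (Cap A 0 * Cup A 0) * Cap A 0 = (Cup A 1 * Cap A 0) * (Cup A 0 * Cap A 0) := by
          simp only [mul_assoc]
      _ = _ := by rw [z1, z2, one_mul]
  have e2 : Cup A 1 * TE A 1 * Cap A 0 = dl A • 1 := by
    unfold TE
    calc Cup A 1 * (Cap A 1 * Cup A 1) * Cap A 0 = (Cup A 1 * Cap A 1) * (Cup A 1 * Cap A 0) := by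
          simp only [mul_assoc]
      _ = _ := by rw [z1, z3, mul_one]
  have e3 : Cup A 1 * TE A 0 * TE A 1 * Cap A 0 = 1 := by
    unfold TE
    calc Cup A 1 * (Cap A 0 * Cup A 0) * (Cap A 1 * Cup A 1) * Cap A 0 =
        (Cup A 1 * Cap A 0) * (Cup A 0 * Cap A 1) * (Cup A 1 * Cap A 0) := by
          simp only [mul_assoc]
      _ = _ := by rw [z1, z4, mul_one, mul_one]
  have e0 : tk k = [cup 1] ++ List.replicate k (pos 0) ++ [neg 1, neg 1] ++ [cap 0] := by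
    simp [tk]
  rw [e0, ev_append, ev_append, ev_append, hn, ev_twist]
  rw [ev_cons, ev_nil, ev_cons, ev_nil, mul_one, mul_one]
  simp only [cup_kind, cup_off, cap_kind, cap_off, op, mul_add, add_mul, smul_mul_assoc,
    mul_smul_comm, one_mul, mul_one, e1, e2, e3, z1, bt, dl]
  match_scalars
  linear_combination (cc A k * (-1 - ((A⁻¹ : Rˣ) : R) * (A : R)) +
    ((A⁻¹ : Rˣ) : R) ^ k * ((A⁻¹ : Rˣ) : R) ^ 2 * (1 + ((A⁻¹ : Rˣ) : R) * (A : R))) * h1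

theorem ev_wpow {w : Word} {b : R} (h : ev A w = b • 1) (s : ℕ) : ev A (wpow w s) = b ^ s • 1 := by
  induction s with
  | zero => simp [wpow]
  | succ s ih =>
    rw [wpow, ev_append, h, ih, smul_mul_assoc, one_mul, smul_smul, pow_succ, mul_comm]

theorem br_closure {w : Word} {b : R} (h : ev A w = b • 1) :
    br A ([cup 0] ++ w ++ [cap 0]) = b * dl A := by
  unfold br
  rw [ev_append, ev_append, h]
  have : ev A [cup 0] * b • 1 * ev A [cap 0] = (b * dl A) • (1 : Module.End R (Fn R)) := by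
    rw [mul_smul_comm, mul_one, smul_mul_assoc, ev_cons, ev_cons, ev_nil, mul_one, mul_one]
    have := cup_cap A 0
    simp only [cup_kind, cup_off, cap_kind, cap_off, op]
    rw [this, smul_smul]
  rw [this]
  simp

end

/-! ### Real lower bounds -/

theorem dl_bt {R : Type*} [CommRing R] (A : Rˣ) (k : ℕ) : dl A * bt A k =
    dl A * ((A⁻¹ : Rˣ) : R) ^ (k + 6) - ((-(A : R) ^ 3) ^ k - ((A⁻¹ : Rˣ) : R) ^ k) *
      (((A⁻¹ : Rˣ) : R) ^ 4 + (A : R) ^ 4) := by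
  rw [bt, ← dl_cc]
  ring

theorem abs_dl_le {t : ℝ} (ht : 2 ≤ t) : |dl (tu t (by linarith))| ≤ 2 * t ^ 2 :=
  abs_dl (by linarith)

theorem pow_split {t : ℝ} (ht : 2 ≤ t) (k : ℕ) : 1 ≤ t ^ k := one_le_pow₀ (by linarith)

theorem bt_ge {t : ℝ} (ht : 2 ≤ t) {k : ℕ} (hk : 1 ≤ k) :
    t ^ (3 * k + 2) / 4 ≤ |bt (tu t (by linarith)) k| := by
  have ht0 : 0 < t := by linarith
  have h1 := dl_bt (tu t ht0) k
  have v1 : ((tu t ht0 : ℝˣ) : ℝ) = t := rfl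
  have v2 : (((tu t ht0)⁻¹ : ℝˣ) : ℝ) = t⁻¹ := by simp [tu]
  rw [v1, v2] at h1
  set B := bt (tu t ht0) k with hB
  set d := dl (tu t ht0) with hd
  have hdl : |d| ≤ 2 * t ^ 2 := abs_dl_le ht
  have hi : t⁻¹ ≤ 1 / 2 := by
    rw [inv_eq_one_div]; exact one_div_le_one_div_of_le (by norm_num) ht
  have hi0 : 0 < t⁻¹ := by positivity
  have hi1 : t⁻¹ ≤ 1 := by linarith
  have htt : t⁻¹ * t = 1 := inv_mul_cancel₀ ht0.ne'
  -- the small terms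
  have s1 : |d * t⁻¹ ^ (k + 6)| ≤ 1 := by
    rw [abs_mul, abs_of_nonneg (by positivity : (0 : ℝ) ≤ t⁻¹ ^ (k + 6))]
    have e1 : t⁻¹ ^ (k + 6) = t⁻¹ ^ 2 * t⁻¹ ^ (k + 4) := by rw [← pow_add]; congr 1; ring
    have e2 : t⁻¹ ^ (k + 4) ≤ 1 / 2 := by
      calc t⁻¹ ^ (k + 4) ≤ t⁻¹ ^ 1 := pow_le_pow_of_le_one hi0.le hi1 (by omega)
        _ ≤ 1 / 2 := by rw [pow_one]; exact hi
    calc |d| * t⁻¹ ^ (k + 6) ≤ 2 * t ^ 2 * (t⁻¹ ^ 2 * (1 / 2)) := by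
          rw [e1]; gcongr
      _ = (t⁻¹ * t) ^ 2 := by ring
      _ = 1 := by rw [htt]; norm_num
  have s2 : t⁻¹ ^ k * (t⁻¹ ^ 4 + t ^ 4) ≤ 2 * t ^ 3 := by
    have e1 : t⁻¹ ^ k ≤ t⁻¹ := by
      calc t⁻¹ ^ k ≤ t⁻¹ ^ 1 := pow_le_pow_of_le_one hi0.le hi1 hk
        _ = t⁻¹ := pow_one _
    have e2 : t⁻¹ ^ 4 ≤ t ^ 4 := by
      have : t⁻¹ ≤ t := by linarith
      gcongr
    calc t⁻¹ ^ k * (t⁻¹ ^ 4 + t ^ 4) ≤ t⁻¹ * (t ^ 4 + t ^ 4) := by gcongr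
      _ = 2 * t ^ 3 * (t⁻¹ * t) := by ring
      _ = 2 * t ^ 3 := by rw [htt, mul_one]
  -- the main term
  have s3 : t ^ (3 * k + 4) ≤ |(-t ^ 3) ^ k * (t⁻¹ ^ 4 + t ^ 4)| := by
    rw [abs_mul, abs_pow, abs_neg, abs_of_nonneg (by positivity : (0 : ℝ) ≤ t ^ 3),
      abs_of_nonneg (by positivity : (0 : ℝ) ≤ t⁻¹ ^ 4 + t ^ 4), pow_add, pow_mul]
    have : 0 ≤ t⁻¹ ^ 4 := by positivity
    gcongr
    linarith
  have s4 : 16 * t ^ 3 ≤ t ^ (3 * k + 4) := by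
    calc 16 * t ^ 3 = 2 ^ 4 * t ^ 3 := by norm_num
      _ ≤ t ^ 4 * t ^ 3 := by gcongr
      _ = t ^ 7 := by rw [← pow_add]
      _ ≤ t ^ (3 * k + 4) := pow_le_pow_right₀ (by linarith) (by omega)
  have s5 : (1 : ℝ) ≤ t ^ 3 := pow_split ht 3
  have s6 : t ^ (3 * k + 4) / 2 ≤ |d * B| := by
    rw [h1]
    have e : d * t⁻¹ ^ (k + 6) - ((-t ^ 3) ^ k - t⁻¹ ^ k) * (t⁻¹ ^ 4 + t ^ 4) =
        -((-t ^ 3) ^ k * (t⁻¹ ^ 4 + t ^ 4) - (d * t⁻¹ ^ (k + 6) + t⁻¹ ^ k * (t⁻¹ ^ 4 + t ^ 4))) := by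
      ring
    rw [e, abs_neg]
    have e2 := abs_sub_abs_le_abs_sub ((-t ^ 3) ^ k * (t⁻¹ ^ 4 + t ^ 4))
      (d * t⁻¹ ^ (k + 6) + t⁻¹ ^ k * (t⁻¹ ^ 4 + t ^ 4))
    have e3 : |d * t⁻¹ ^ (k + 6) + t⁻¹ ^ k * (t⁻¹ ^ 4 + t ^ 4)| ≤ 1 + 2 * t ^ 3 := by
      refine (abs_add_le _ _).trans (add_le_add s1 ?_)
      rw [abs_of_nonneg (by positivity)]
      exact s2
    linarith
  have s7 : |d * B| ≤ 2 * t ^ 2 * |B| := by
    rw [abs_mul]; gcongr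
  have s8 : t ^ (3 * k + 4) = t ^ (3 * k + 2) * t ^ 2 := by rw [← pow_add]
  have s9 : t ^ (3 * k + 2) / 4 * (2 * t ^ 2) ≤ |B| * (2 * t ^ 2) := by
    calc t ^ (3 * k + 2) / 4 * (2 * t ^ 2) = t ^ (3 * k + 4) / 2 := by rw [s8]; ring
      _ ≤ |d * B| := s6
      _ ≤ 2 * t ^ 2 * |B| := s7
      _ = _ := by ring
  exact le_of_mul_le_mul_right s9 (by positivity)

theorem bt_ge' {t : ℝ} (ht : 2 ≤ t) {k : ℕ} (hk : 1 ≤ k) :
    t ^ (k + 6) / 4 ≤ |bt (tu t⁻¹ (inv_pos.2 (by linarith))) k| := by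
  have ht0 : 0 < t := by linarith
  have h1 := dl_bt (tu t⁻¹ (inv_pos.2 ht0)) k
  have v1 : ((tu t⁻¹ (inv_pos.2 ht0) : ℝˣ) : ℝ) = t⁻¹ := rfl
  have v2 : (((tu t⁻¹ (inv_pos.2 ht0))⁻¹ : ℝˣ) : ℝ) = t := by simp [tu]
  rw [v1, v2] at h1
  have hdd : dl (tu t⁻¹ (inv_pos.2 ht0)) = dl (tu t ht0) := by
    rw [dl_tu, dl_tu, inv_inv]; ring
  have hdv := dl_tu ht0
  rw [hdd] at h1
  set B := bt (tu t⁻¹ (inv_pos.2 ht0)) k with hB
  set d := dl (tu t ht0) with hd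
  have hdl : |d| ≤ 2 * t ^ 2 := abs_dl_le ht
  have hi : t⁻¹ ≤ 1 / 2 := by
    rw [inv_eq_one_div]; exact one_div_le_one_div_of_le (by norm_num) ht
  have hi0 : 0 < t⁻¹ := by positivity
  have hi1 : t⁻¹ ≤ 1 := by linarith
  have s1 : t ^ (k + 8) ≤ |d * t ^ (k + 6)| := by
    rw [abs_mul, abs_of_nonneg (by positivity : (0 : ℝ) ≤ t ^ (k + 6)), hdv]
    have e1 : |-(t ^ 2) - t⁻¹ ^ 2| = t ^ 2 + t⁻¹ ^ 2 := by
      rw [← abs_neg, abs_of_nonneg]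
      · ring
      · have : 0 ≤ t ^ 2 + t⁻¹ ^ 2 := by positivity
        linarith
    rw [e1]
    have e2 : 0 ≤ t⁻¹ ^ 2 := by positivity
    calc t ^ (k + 8) = t ^ 2 * t ^ (k + 6) := by rw [← pow_add]; congr 1; ring
      _ ≤ _ := by gcongr; linarith
  have s2 : |(-t⁻¹ ^ 3) ^ k * (t ^ 4 + t⁻¹ ^ 4)| ≤ 2 * t ^ (k + 4) := by
    rw [abs_mul, abs_pow, abs_neg, abs_of_nonneg (by positivity : (0 : ℝ) ≤ t⁻¹ ^ 3),
      abs_of_nonneg (by positivity : (0 : ℝ) ≤ t ^ 4 + t⁻¹ ^ 4)]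
    have e1 : (t⁻¹ ^ 3) ^ k ≤ t ^ k := by
      have : t⁻¹ ^ 3 ≤ t := by
        calc t⁻¹ ^ 3 ≤ 1 := pow_le_one₀ hi0.le hi1
          _ ≤ t := by linarith
      gcongr
    have e2 : t⁻¹ ^ 4 ≤ t ^ 4 := by
      have : t⁻¹ ≤ t := by linarith
      gcongr
    calc (t⁻¹ ^ 3) ^ k * (t ^ 4 + t⁻¹ ^ 4) ≤ t ^ k * (t ^ 4 + t ^ 4) := by gcongr
      _ = _ := by rw [pow_add]; ring
  have s3 : |t ^ k * (t ^ 4 + t⁻¹ ^ 4)| ≤ 2 * t ^ (k + 4) := by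
    rw [abs_of_nonneg (by positivity)]
    have e2 : t⁻¹ ^ 4 ≤ t ^ 4 := by
      have : t⁻¹ ≤ t := by linarith
      gcongr
    calc t ^ k * (t ^ 4 + t⁻¹ ^ 4) ≤ t ^ k * (t ^ 4 + t ^ 4) := by gcongr
      _ = _ := by rw [pow_add]; ring
  have s4 : 16 * t ^ (k + 4) ≤ t ^ (k + 8) := by
    calc 16 * t ^ (k + 4) = 2 ^ 4 * t ^ (k + 4) := by norm_num
      _ ≤ t ^ 4 * t ^ (k + 4) := by gcongr
      _ = _ := by rw [← pow_add]; congr 1; ring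
  have s6 : t ^ (k + 8) / 2 ≤ |d * B| := by
    rw [h1]
    have e : d * t ^ (k + 6) - ((-t⁻¹ ^ 3) ^ k - t ^ k) * (t ^ 4 + t⁻¹ ^ 4) =
        d * t ^ (k + 6) - ((-t⁻¹ ^ 3) ^ k * (t ^ 4 + t⁻¹ ^ 4) - t ^ k * (t ^ 4 + t⁻¹ ^ 4)) := by
      ring
    rw [e]
    have e2 := abs_sub_abs_le_abs_sub (d * t ^ (k + 6))
      ((-t⁻¹ ^ 3) ^ k * (t ^ 4 + t⁻¹ ^ 4) - t ^ k * (t ^ 4 + t⁻¹ ^ 4))
    have e3 : |(-t⁻¹ ^ 3) ^ k * (t ^ 4 + t⁻¹ ^ 4) - t ^ k * (t ^ 4 + t⁻¹ ^ 4)| ≤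
        2 * t ^ (k + 4) + 2 * t ^ (k + 4) := (abs_sub _ _).trans (add_le_add s2 s3)
    have s5 : 0 ≤ t ^ (k + 4) := by positivity
    linarith
  have s7 : |d * B| ≤ 2 * t ^ 2 * |B| := by
    rw [abs_mul]; gcongr
  have s8 : t ^ (k + 8) = t ^ (k + 6) * t ^ 2 := by rw [← pow_add]
  have s9 : t ^ (k + 6) / 4 * (2 * t ^ 2) ≤ |B| * (2 * t ^ 2) := by
    calc t ^ (k + 6) / 4 * (2 * t ^ 2) = t ^ (k + 8) / 2 := by rw [s8]; ring
      _ ≤ |d * B| := s6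
      _ ≤ 2 * t ^ 2 * |B| := s7
      _ = _ := by ring
  exact le_of_mul_le_mul_right s9 (by positivity)

theorem dl_ge {t : ℝ} (ht : 0 < t) : t ^ 2 ≤ |dl (tu t ht)| := by
  rw [dl_tu, ← abs_neg, abs_of_nonneg]
  · have : 0 ≤ t⁻¹ ^ 2 := by positivity
    linarith
  · have : 0 ≤ t ^ 2 + t⁻¹ ^ 2 := by positivity
    linarith

theorem ksum_growth {k l : ℕ} (a b : ℕ) (hk : 1 ≤ k) (hl : 1 ≤ l) (t : ℝ) (ht : 2 ≤ t) :
    (1 / 16) ^ (a + b) * t ^ (4 * (a * (k + 2) + b * (l + 2)) + 4) ≤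
      |br (tu t (by linarith)) (ksum k l a b) *
        br (tu t⁻¹ (inv_pos.2 (by linarith))) (ksum k l a b)| := by
  have ht0 : 0 < t := by linarith
  have e : ∀ A : ℝˣ, br A (ksum k l a b) = (bt A k) ^ a * (bt A l) ^ b * dl A := by
    intro A
    have h : ev A (wpow (tk k) a ++ wpow (tk l) b) = ((bt A k) ^ a * (bt A l) ^ b) • 1 := by
      rw [ev_append, ev_wpow A (ev_tk A k), ev_wpow A (ev_tk A l), smul_mul_assoc, one_mul,
        smul_smul]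
    exact br_closure A h
  rw [e, e]
  have hdd : dl (tu t⁻¹ (inv_pos.2 ht0)) = dl (tu t ht0) := by
    rw [dl_tu, dl_tu, inv_inv]; ring
  rw [hdd, abs_mul, abs_mul, abs_mul, abs_mul, abs_mul, abs_pow, abs_pow, abs_pow, abs_pow]
  have h1 := bt_ge ht hk
  have h2 := bt_ge ht hl
  have h3 := bt_ge' ht hk
  have h4 := bt_ge' ht hl
  have h5 := dl_ge ht0
  calc (1 / 16) ^ (a + b) * t ^ (4 * (a * (k + 2) + b * (l + 2)) + 4) =
      ((t ^ (3 * k + 2) / 4) ^ a * (t ^ (3 * l + 2) / 4) ^ b * t ^ 2) *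
        ((t ^ (k + 6) / 4) ^ a * (t ^ (l + 6) / 4) ^ b * t ^ 2) := by
        have e1 : (t ^ (3 * k + 2) / 4) ^ a * (t ^ (k + 6) / 4) ^ a =
            (1 / 16) ^ a * t ^ (4 * (a * (k + 2))) := by
          rw [← mul_pow, show t ^ (3 * k + 2) / 4 * (t ^ (k + 6) / 4) =
            1 / 16 * (t ^ (3 * k + 2) * t ^ (k + 6)) by ring, ← pow_add, mul_pow, ← pow_mul]
          congr 2
          ring
        have e2 : (t ^ (3 * l + 2) / 4) ^ b * (t ^ (l + 6) / 4) ^ b =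
            (1 / 16) ^ b * t ^ (4 * (b * (l + 2))) := by
          rw [← mul_pow, show t ^ (3 * l + 2) / 4 * (t ^ (l + 6) / 4) =
            1 / 16 * (t ^ (3 * l + 2) * t ^ (l + 6)) by ring, ← pow_add, mul_pow, ← pow_mul]
          congr 2
          ring
        have e3 : ((t ^ (3 * k + 2) / 4) ^ a * (t ^ (3 * l + 2) / 4) ^ b * t ^ 2) *
            ((t ^ (k + 6) / 4) ^ a * (t ^ (l + 6) / 4) ^ b * t ^ 2) =
            ((t ^ (3 * k + 2) / 4) ^ a * (t ^ (k + 6) / 4) ^ a) *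
            ((t ^ (3 * l + 2) / 4) ^ b * (t ^ (l + 6) / 4) ^ b) * (t ^ 2 * t ^ 2) := by ring
        rw [e3, e1, e2, pow_add, show 4 * (a * (k + 2) + b * (l + 2)) + 4 =
          4 * (a * (k + 2)) + 4 * (b * (l + 2)) + 4 by ring, pow_add, pow_add]
        ring
    _ ≤ _ := by gcongr

/-- The crossing number of a sum of twist knots. -/
theorem cr_ksum_eq {k l : ℕ} (a b : ℕ) (hk : 1 ≤ k) (hl : 1 ≤ l) :
    cr (ksum k l a b) = ((a * (k + 2) + b * (l + 2) : ℕ) : ℕ∞) := by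
  refine le_antisymm (cr_ksum k l a b) ?_
  exact cr_ge (isKnot_ksum k l a b) (c := (1 / 16) ^ (a + b)) (t0 := 2) (by positivity)
    (by norm_num) (ksum_growth a b hk hl) le_rfl

end H80Skein
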