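import Pool.Agent.H80Skein.Base

/-! Isotopies of a stack of cups with crossings and caps above it; inverse braids. -/

set_option linter.unusedSimpArgs false
set_option linter.unusedSectionVars false

namespace H80Skein

theorem Gen.eta (g : Gen) : (⟨g.kind, g.off⟩ : Gen) = g := rfl

/-- A cup at the far left commutes with a diagram to its right. -/
theorem cup_comm {m n : ℕ} {W : Word} (h : Dia m W n) :
    Iso m (n + 2) (cup 0 :: sh 2 W) (W ++ [cup 0]) := by
  induction W generalizing m with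
  | nil => exact Iso.refl _
  | cons g W ih =>
    have hh := h
    obtain ⟨h1, h2⟩ := h
    have s1 : Iso m (n + 2) (cup 0 :: sh 2 (g :: W)) (g :: (cup 0 :: sh 2 W)) := by
      have d2 : Dia m ([g, cup 0] ++ sh 2 W) (n + 2) := by
        refine ⟨h1, by simp, ?_⟩
        simpa using dia_sh 2 h2
      have d1 : Dia m ([cup 0, ⟨g.kind, g.off + 2⟩] ++ sh 2 W) (n + 2) := by
        refine ⟨by simp, by simp only [cup_kind, inn_cup, out_cup]; omega, ?_⟩
        have := dia_sh 2 h2
        have e : m - (cup 0).kind.inn + (cup 0).kind.out - g.kind.inn + g.kind.out =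
          m - g.kind.inn + g.kind.out + 2 := by
          simp only [cup_kind, inn_cup, out_cup]; omega
        simp only
        rw [e]; exact this
      exact Iso.step (u := []) (v := sh 2 W) (Elem.far .cup g.kind 0 g.off (by omega)) d1 d2
    have s2 : Iso m (n + 2) ([g] ++ (cup 0 :: sh 2 W)) ([g] ++ (W ++ [cup 0])) :=
      Iso.pre (m := m - g.kind.inn + g.kind.out) (u := [g]) ⟨h1, rfl⟩ (ih h2)
    exact s1.trans s2

/-- A stack of cups at the far left commutes with a diagram to its right. -/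
theorem cups_comm {m n : ℕ} {W : Word} (i : ℕ) (h : Dia m W n) :
    Iso m (n + 2 * i) (cups i ++ sh (2 * i) W) (W ++ cups i) := by
  induction i generalizing m n W with
  | zero => simp only [cups, List.replicate_zero, Nat.mul_zero, sh_zero, List.nil_append,
      List.append_nil]; exact Iso.refl _
  | succ i ih =>
    have d : Dia (m + 2) (sh 2 W) (n + 2) := dia_sh 2 h
    have s1 := ih d
    have e : sh (2 * i) (sh 2 W) = sh (2 * (i + 1)) W := by rw [sh_sh]; congr 1; ring
    rw [e] at s1
    have s2 : Iso m (n + 2 + 2 * i) ([cup 0] ++ (cups i ++ sh (2 * (i + 1)) W))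
        ([cup 0] ++ (sh 2 W ++ cups i)) :=
      Iso.pre (m := m + 2) (u := [cup 0]) ⟨by simp, by simp⟩ s1
    have s3 : Iso m (n + 2 + 2 * i) ((cup 0 :: sh 2 W) ++ cups i) ((W ++ [cup 0]) ++ cups i) :=
      Iso.post (dia_cups (n + 2) i) (cup_comm h)
    have e2 : n + 2 * (i + 1) = n + 2 + 2 * i := by ring
    rw [e2]
    have s2' : Iso m (n + 2 + 2 * i) (cups (i + 1) ++ sh (2 * (i + 1)) W)
        ((cup 0 :: sh 2 W) ++ cups i) := by
      simpa [cups_succ] using s2
    have s3' : Iso m (n + 2 + 2 * i) ((cup 0 :: sh 2 W) ++ cups i) (W ++ cups (i + 1)) := by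
      simpa [cups_succ] using s3
    exact s2'.trans s3'

/-- A simplification of `a` cups with `W` above them holds in the middle of a stack. -/
theorem cups_mid {a a' : ℕ} {W : Word} (hW : Dia (2 * a) W (2 * a'))
    (h : Iso 0 (2 * a') (cups a ++ W) (cups a')) (l i : ℕ) :
    Iso 0 (2 * (l + a' + i)) (cups (l + a + i) ++ sh (2 * i) W) (cups (l + a' + i)) := by
  have d0 : Dia 0 (cups l) (2 * l) := by simpa using dia_cups 0 l
  have dl : Dia 0 (cups (l + a)) (2 * l + 2 * a) := by
    have := dia_cups 0 (l + a)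
    have e : 0 + 2 * (l + a) = 2 * l + 2 * a := by ring
    rwa [e] at this
  have dW : Dia (2 * l + 2 * a) W (2 * l + 2 * a') := by
    have := dia_right (2 * l) hW
    rwa [Nat.add_comm (2 * a), Nat.add_comm (2 * a')] at this
  have s1 := Iso.pre dl (cups_comm i dW)
  have s2 : Iso (2 * l) (2 * l + 2 * a') (cups a ++ W) (cups a') := by
    have := h.right (2 * l)
    rwa [Nat.zero_add, Nat.add_comm (2 * a')] at this
  have s3 := Iso.ctx d0 (dia_cups (2 * l + 2 * a') i) s2
  have e : 2 * (l + a' + i) = 2 * l + 2 * a' + 2 * i := by ring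
  rw [e]
  have e1 : cups (l + a + i) ++ sh (2 * i) W = cups (l + a) ++ (cups i ++ sh (2 * i) W) := by
    rw [cups_add (l + a) i, List.append_assoc]
  have e2 : cups (l + a) ++ (W ++ cups i) = cups l ++ (cups a ++ W) ++ cups i := by
    rw [cups_add l a]; simp only [List.append_assoc]
  have e3 : cups (l + a' + i) = cups l ++ cups a' ++ cups i := by
    rw [cups_add (l + a') i, cups_add l a']
  rw [e1, e3]
  rw [e2] at s1
  exact s1.trans s3

/-! Words for the basic operations -/

/-- The crossings exchanging the strand pairs `0, 1` and `2, 3`. -/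
def swapW : Word := [pos 1, pos 0, pos 2, pos 1]

theorem iso_swapW : Iso 0 4 (cups 2 ++ swapW) (cups 2) := by
  have a1 : Iso 0 4 ([cup 0] ++ [cup 0, pos 1] ++ [pos 0, pos 2, pos 1])
      ([cup 0] ++ [cup 1, neg 0] ++ [pos 0, pos 2, pos 1]) :=
    Iso.step (Elem.slideA 0) (by decide) (by decide)
  have a2 : Iso 0 4 ([cup 0, cup 1] ++ [neg 0, pos 0] ++ [pos 2, pos 1])
      ([cup 0, cup 1] ++ [] ++ [pos 2, pos 1]) :=
    Iso.step (Elem.r2B 0) (by decide) (by decide)
  have a3 : Iso 0 4 ([cup 0] ++ [cup 1, pos 2] ++ [pos 1])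
      ([cup 0] ++ [cup 2, neg 1] ++ [pos 1]) :=
    Iso.step (Elem.slideA 1) (by decide) (by decide)
  have a4 : Iso 0 4 ([cup 0, cup 2] ++ [neg 1, pos 1] ++ [])
      ([cup 0, cup 2] ++ [] ++ []) :=
    Iso.step (Elem.r2B 1) (by decide) (by decide)
  have a5 : Iso 0 4 ([] ++ [cup 0, cup 2] ++ []) ([] ++ [cup 0, cup 0] ++ []) :=
    Iso.step (Elem.far .cup .cup 0 0 le_rfl) (by decide) (by decide)
  exact a1.trans (a2.trans (a3.trans (a4.trans a5)))

theorem iso_flipW : Iso 0 2 (cups 1 ++ [pos 0]) (cups 1) :=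
  Iso.step (u := []) (v := []) (Elem.r1A 0) (by decide) (by decide)

theorem iso_mergeW : Iso 0 2 (cups 2 ++ [cap 1]) (cups 1) :=
  Iso.step (u := [cup 0]) (v := []) (s := [cup 0, cap 1]) (t := []) (Elem.zag 0)
    (by decide) (by decide)

theorem iso_cups_swap {n i : ℕ} (h : i + 2 ≤ n) :
    Iso 0 (2 * n) (cups n ++ sh (2 * i) swapW) (cups n) := by
  have := cups_mid (a := 2) (a' := 2) (W := swapW) (by decide) iso_swapW (n - 2 - i) i
  have e : n - 2 - i + 2 + i = n := by omega
  rwa [e] at this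

theorem iso_cups_flip {n i : ℕ} (h : i + 1 ≤ n) :
    Iso 0 (2 * n) (cups n ++ sh (2 * i) [pos 0]) (cups n) := by
  have := cups_mid (a := 1) (a' := 1) (W := [pos 0]) (by decide) iso_flipW (n - 1 - i) i
  have e : n - 1 - i + 1 + i = n := by omega
  rwa [e] at this

theorem iso_cups_merge {n i : ℕ} (h : i + 1 ≤ n) :
    Iso 0 (2 * n) (cups (n + 1) ++ sh (2 * i) [cap 1]) (cups n) := by
  have := cups_mid (a := 2) (a' := 1) (W := [cap 1]) (by decide) iso_mergeW (n - 1 - i) i
  have e : n - 1 - i + 1 + i = n := by omega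
  have e' : n - 1 - i + 2 + i = n + 1 := by omega
  rwa [e, e'] at this

/-! Inverse braids -/

/-- The braids. -/
def IsBraid (β : Word) : Prop := ∀ g ∈ β, g.kind = .pos ∨ g.kind = .neg

/-- The crossing of the other kind. -/
def Gen.inv (g : Gen) : Gen := match g.kind with
  | .pos => neg g.off
  | .neg => pos g.off
  | _ => g

/-- The inverse braid. -/
def binv : Word → Word
  | [] => []
  | g :: w => binv w ++ [g.inv]

theorem IsBraid.cons {g : Gen} {w : Word} (h : IsBraid (g :: w)) :
    (g.kind = .pos ∨ g.kind = .neg) ∧ IsBraid w :=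
  ⟨h g (by simp), fun g' hg' => h g' (by simp [hg'])⟩

theorem IsBraid.append {u v : Word} (hu : IsBraid u) (hv : IsBraid v) : IsBraid (u ++ v) := by
  intro g hg
  rcases List.mem_append.1 hg with h | h
  · exact hu g h
  · exact hv g h

theorem gen_inv_cases {g : Gen} (h : g.kind = .pos ∨ g.kind = .neg) :
    (g = pos g.off ∧ g.inv = neg g.off) ∨ (g = neg g.off ∧ g.inv = pos g.off) := by
  obtain ⟨k, o⟩ := g
  rcases h with h | h
  · left; simp only at h; subst h; exact ⟨rfl, rfl⟩
  · right; simp only at h; subst h; exact ⟨rfl, rfl⟩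

theorem isBraid_binv {β : Word} (h : IsBraid β) : IsBraid (binv β) := by
  induction β with
  | nil => exact h
  | cons g w ih =>
    obtain ⟨h1, h2⟩ := h.cons
    refine (ih h2).append ?_
    intro g' hg'
    rw [List.mem_singleton] at hg'
    subst hg'
    rcases gen_inv_cases h1 with ⟨-, h3⟩ | ⟨-, h3⟩ <;> rw [h3] <;> simp

theorem dia_braid_eq {β : Word} (h : IsBraid β) {m n : ℕ} (hd : Dia m β n) : m = n := by
  induction β generalizing m with
  | nil => exact hd
  | cons g w ih =>
    obtain ⟨h1, h2⟩ := h.cons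
    obtain ⟨h3, h4⟩ := hd
    have := ih h2 h4
    rcases h1 with h1 | h1 <;> rw [h1] at this h3 <;> simp at this h3 <;> omega

theorem dia_binv {β : Word} (h : IsBraid β) {m : ℕ} (hd : Dia m β m) : Dia m (binv β) m := by
  induction β with
  | nil => rfl
  | cons g w ih =>
    obtain ⟨h1, h2⟩ := h.cons
    obtain ⟨h3, h4⟩ := hd
    have e := dia_braid_eq h2 h4
    rw [e] at h4
    refine dia_append.2 ⟨m, ih h2 h4, ?_⟩
    rcases gen_inv_cases h1 with ⟨h5, h6⟩ | ⟨h5, h6⟩
    · rw [h6]; rw [h5] at h3; refine ⟨by simpa using h3, ?_⟩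
      simp at h3 ⊢; omega
    · rw [h6]; rw [h5] at h3; refine ⟨by simpa using h3, ?_⟩
      simp at h3 ⊢; omega

theorem iso_mul_binv {β : Word} (h : IsBraid β) {m : ℕ} (hd : Dia m β m) :
    Iso m m (β ++ binv β) [] := by
  induction β with
  | nil => exact Iso.refl _
  | cons g w ih =>
    obtain ⟨h1, h2⟩ := h.cons
    obtain ⟨h3, h4⟩ := hd
    have e := dia_braid_eq h2 h4
    rw [e] at h4
    have d1 : Dia m [g] m := ⟨h3, e⟩
    have d2 : Dia m [g.inv] m := by
      have := dia_binv (β := [g]) (by intro g' hg'; rw [List.mem_singleton] at hg'; rw [hg']; exact h1) d1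
      exact this
    have s1 := Iso.ctx d1 d2 (ih h2 h4)
    have s2 : Iso m m ([g] ++ [] ++ [g.inv]) [] := by
      have d3 : Dia m ([g] ++ [g.inv]) m := dia_append.2 ⟨m, d1, d2⟩
      rcases gen_inv_cases h1 with ⟨h5, h6⟩ | ⟨h5, h6⟩
      · rw [h6] at d3 ⊢; rw [h5] at d3 ⊢
        exact Iso.elem (Elem.r2A g.off) d3 rfl
      · rw [h6] at d3 ⊢; rw [h5] at d3 ⊢
        exact Iso.elem (Elem.r2B g.off) d3 rfl
    have e3 : (g :: w) ++ binv (g :: w) = [g] ++ (w ++ binv w) ++ [g.inv] := by
      simp [binv]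
    rw [e3]
    exact s1.trans s2

theorem binv_append (u v : Word) : binv (u ++ v) = binv v ++ binv u := by
  induction u with
  | nil => simp [binv]
  | cons g u ih => simp [binv, ih]

theorem binv_binv {β : Word} (h : IsBraid β) : binv (binv β) = β := by
  induction β with
  | nil => rfl
  | cons g w ih =>
    obtain ⟨h1, h2⟩ := h.cons
    rw [binv, binv_append, ih h2]
    rcases gen_inv_cases h1 with ⟨h5, h6⟩ | ⟨h5, h6⟩
    · rw [h6]; rw [h5]; rfl
    · rw [h6]; rw [h5]; rfl

theorem iso_binv_mul {β : Word} (h : IsBraid β) {m : ℕ} (hd : Dia m β m) :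
    Iso m m (binv β ++ β) [] := by
  have := iso_mul_binv (isBraid_binv h) (dia_binv h hd)
  rwa [binv_binv h] at this

end H80Skein
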