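import Mathlib

/-!
Knots, tangles, local moves and three knot invariants, by sliced diagrams.

A tangle diagram in general position is cut by horizontal lines into elementary pieces: a cup
(local minimum), a cap (local maximum) or one of the two kinds of crossing, each standing beside
vertical strands.  A diagram is the list of its pieces, read from bottom to top.
-/

namespace H80Skein

/-- The kinds of elementary pieces. In `pos` the strand going from lower right to upper left is the
over-strand, in `neg` the one going from lower left to upper right. -/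
inductive Kind
  | cup | cap | pos | neg
  deriving DecidableEq

/-- Number of strands of the piece at its lower end. -/
def Kind.inn : Kind → ℕ
  | .cup => 0
  | _ => 2

/-- Number of strands of the piece at its upper end. -/
def Kind.out : Kind → ℕ
  | .cap => 0
  | _ => 2

/-- An elementary piece with `off` vertical strands to its left. -/
structure Gen where
  kind : Kind
  off : ℕ
  deriving DecidableEq

/-- A sliced diagram: the list of its pieces from bottom to top. -/
abbrev Word := List Gen

/-- A cup with `i` strands to its left. -/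
def cup (i : ℕ) : Gen := ⟨.cup, i⟩
/-- A cap with `i` strands to its left. -/
def cap (i : ℕ) : Gen := ⟨.cap, i⟩
/-- A crossing of kind `pos` with `i` strands to its left. -/
def pos (i : ℕ) : Gen := ⟨.pos, i⟩
/-- A crossing of kind `neg` with `i` strands to its left. -/
def neg (i : ℕ) : Gen := ⟨.neg, i⟩

/-- `Dia m w n`: the word `w` is a tangle diagram with `m` lower and `n` upper endpoints. -/
def Dia : ℕ → Word → ℕ → Prop
  | m, [], n => m = n
  | m, g :: w, n => g.off + g.kind.inn ≤ m ∧ Dia (m - g.kind.inn + g.kind.out) w n

/-- The same diagram with `k` more strands to its left. -/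
def sh (k : ℕ) (w : Word) : Word := w.map fun g => ⟨g.kind, g.off + k⟩

/-- The elementary planar isotopies of sliced diagrams and the Reidemeister moves. -/
inductive Elem : Word → Word → Prop
  | far (a b : Kind) (i j : ℕ) (h : i ≤ j) :
      Elem [⟨a, i⟩, ⟨b, j + a.out⟩] [⟨b, j + a.inn⟩, ⟨a, i⟩]
  | zig (i : ℕ) : Elem [cup (i + 1), cap i] []
  | zag (i : ℕ) : Elem [cup i, cap (i + 1)] []
  | slideA (i : ℕ) : Elem [cup i, pos (i + 1)] [cup (i + 1), neg i]
  | slideB (i : ℕ) : Elem [cup i, neg (i + 1)] [cup (i + 1), pos i]
  | slideC (i : ℕ) : Elem [neg (i + 1), cap i] [pos i, cap (i + 1)]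
  | slideD (i : ℕ) : Elem [pos (i + 1), cap i] [neg i, cap (i + 1)]
  | r1A (i : ℕ) : Elem [cup i, pos i] [cup i]
  | r1B (i : ℕ) : Elem [cup i, neg i] [cup i]
  | r1C (i : ℕ) : Elem [pos i, cap i] [cap i]
  | r1D (i : ℕ) : Elem [neg i, cap i] [cap i]
  | r2A (i : ℕ) : Elem [pos i, neg i] []
  | r2B (i : ℕ) : Elem [neg i, pos i] []
  | r3 (i : ℕ) : Elem [pos i, pos (i + 1), pos i] [pos (i + 1), pos i, pos (i + 1)]

/-- One elementary isotopy or Reidemeister move inside a diagram with `m` lower and `n` upper
endpoints. -/
def Step (m n : ℕ) (a b : Word) : Prop :=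
  Dia m a n ∧ Dia m b n ∧ ∃ u v s t, Elem s t ∧ a = u ++ s ++ v ∧ b = u ++ t ++ v

/-- Isotopy of tangles, as equivalence of diagrams. -/
def Iso (m n : ℕ) : Word → Word → Prop := Relation.EqvGen (Step m n)

section Labels

variable {N : ℕ} [NeZero N]

/-- The possible pairs of labels leaving a piece at its upper end when the labels `a b` enter it
at its lower end.  Labels pass a crossing by the Fox rule (under-strand reflected in the
over-strand); the two ends of a cup or cap have labels `c, c + τ`.  (For a cup the
entering labels, for a cap the leaving labels, are dummies.) -/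
def rule (τ : ZMod N) : Kind → ZMod N → ZMod N → Multiset (ZMod N × ZMod N)
  | .cup, _, _ => (Finset.univ : Finset (ZMod N)).val.map fun c => (c, c + τ)
  | .cap, a, b => if b = a + τ then {(0, 0)} else 0
  | .pos, a, b => {(b, 2 * b - a)}
  | .neg, a, b => {(2 * a - b, a)}

/-- The labels `x` after the piece `g`, whose upper end has labels `c`. The label of the strand
number `j` (counted from `0`) is `x j`; labels beyond the last strand are dummies. -/
def glue (g : Gen) (x : ℕ → ZMod N) (c : ZMod N × ZMod N) : ℕ → ZMod N := fun j =>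
  if j < g.off then x j
  else if j < g.off + g.kind.out then (if j = g.off then c.1 else c.2)
  else x (j - g.kind.out + g.kind.inn)

/-- The possible labels above the piece `g` when the labels below it are `x`. -/
def act (τ : ZMod N) (g : Gen) (x : ℕ → ZMod N) : Multiset (ℕ → ZMod N) :=
  (rule τ g.kind (x g.off) (x (g.off + 1))).map (glue g x)

/-- The final labels of all labellings of the strands of the diagram `w` that start with the labels
`x` (one entry for each labelling). -/
def runs (τ : ZMod N) : Word → (ℕ → ZMod N) → Multiset (ℕ → ZMod N)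
  | [], x => {x}
  | g :: w, x => (act τ g x).bind (runs τ w)

end Labels

/-- Knot diagrams: closed diagrams with exactly one component. For `N = 2` and `τ = 0` a labelling
is constant along each component, so a closed diagram with `c` components has `2 ^ c` labellings. -/
def IsKnot (D : Word) : Prop := Dia 0 D 0 ∧ Multiset.card (runs (N := 2) 0 D 0) = 2

/-- The Fox `p`-colourings of the `2 * n` endpoints of the diagram `T` that extend over `T`. -/
def BdryCol (p : ℕ) [NeZero p] (n : ℕ) (T : Word) : Set (Fin (2 * n) → ZMod p) :=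
  {y | ∃ z ∈ runs (N := p) 0 T 0, ∀ j : Fin (2 * n), z j = y j}

/-- A local move: two diagrams `s`, `t` of `n`-string tangles, drawn with their `2 * n` endpoints at
the top, and a condition `ok` on the orientations (as in `Applies`) at the endpoints, before and
after the move.  `ok` true everywhere: an unoriented move; `ok y z` meaning `y = o` and `z = o`: an
oriented move between tangles with boundary orientation `o`. -/
structure Move where
  n : ℕ
  s : Word
  t : Word
  hs : Dia 0 s (2 * n)
  ht : Dia 0 t (2 * n)
  ok : (Fin (2 * n) → ZMod 2) → (Fin (2 * n) → ZMod 2) → Prop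

/-- The move `μ` applies to the diagram `D` and gives `E`: a subdiagram `s` of `D`, standing to the
right of `k` strands, is replaced by `t`.  An orientation is a labelling with `N = 2` and `τ = 1`
(label `0`: upwards, `1`: downwards); some orientations of `D` and of `E` must be allowed by
`ok` at the endpoints of `s` and `t`. -/
def Move.Applies (μ : Move) (D E : Word) : Prop :=
  ∃ (u v : Word) (m k : ℕ), Dia 0 u m ∧ k ≤ m ∧
    D = u ++ sh k μ.s ++ v ∧ E = u ++ sh k μ.t ++ v ∧
    ∃ y ∈ runs (N := 2) 1 (u ++ sh k μ.s) 0, ∃ z ∈ runs (N := 2) 1 (u ++ sh k μ.t) 0,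
      runs (N := 2) 1 v y ≠ 0 ∧ runs (N := 2) 1 v z ≠ 0 ∧
      μ.ok (fun j => y (k + j)) (fun j => z (k + j))

/-- Equivalence of knots generated by isotopy and the moves of `𝓜`. -/
def MEq (𝓜 : Set Move) : Word → Word → Prop :=
  Relation.EqvGen fun D E => IsKnot D ∧ IsKnot E ∧ (Iso 0 0 D E ∨ ∃ μ ∈ 𝓜, μ.Applies D E)

/-- `𝓜`-equivalent knots have the same value of `I`. -/
def Descends (𝓜 : Set Move) (I : Word → ℕ∞) : Prop :=
  ∀ D E, IsKnot D → IsKnot E → MEq 𝓜 D E → I D = I E

/-- Among knots with the same value of `I` there are at most `B` classes of `𝓜`-equivalence. -/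
def AtMost (B : ℕ) (𝓜 : Set Move) (I : Word → ℕ∞) : Prop :=
  ∀ K : Fin (B + 1) → Word, (∀ i, IsKnot (K i)) → (∀ i j, I (K i) = I (K j)) →
    ∃ i j, i ≠ j ∧ MEq 𝓜 (K i) (K j)

/-- The crossingless diagram of the unknot. -/
def unknot : Word := [cup 0, cap 0]

/-- `Switch k E F`: `F` arises from `E` by switching exactly `k` crossings. -/
inductive Switch : ℕ → Word → Word → Prop
  | nil : Switch 0 [] []
  | keep (g : Gen) {k : ℕ} {E F : Word} : Switch k E F → Switch k (g :: E) (g :: F)
  | posNeg (i : ℕ) {k : ℕ} {E F : Word} : Switch k E F → Switch (k + 1) (pos i :: E) (neg i :: F)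
  | negPos (i : ℕ) {k : ℕ} {E F : Word} : Switch k E F → Switch (k + 1) (neg i :: E) (pos i :: F)

/-- The unknotting number: the least number of crossings to switch in a diagram of the knot so as to
get a diagram of the unknot. -/
noncomputable def unk (D : Word) : ℕ∞ :=
  ⨅ (k : ℕ) (_ : ∃ E F, Iso 0 0 D E ∧ Switch k E F ∧ Iso 0 0 F unknot), (k : ℕ∞)

/-- The number of crossings of a diagram. -/
def crossings (D : Word) : ℕ := D.countP fun g => g.kind = .pos ∨ g.kind = .neg

/-- The crossing number. -/
noncomputable def cr (D : Word) : ℕ∞ := ⨅ (E : Word) (_ : Iso 0 0 D E), (crossings E : ℕ∞)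

/-- Each strand of the piece replaced by two parallel strands. -/
def dbl : Gen → Word
  | ⟨.cup, i⟩ => [cup (2 * i), cup (2 * i + 1)]
  | ⟨.cap, i⟩ => [cap (2 * i + 1), cap (2 * i)]
  | ⟨.pos, i⟩ => [pos (2 * i + 1), pos (2 * i), pos (2 * i + 2), pos (2 * i + 1)]
  | ⟨.neg, i⟩ => [neg (2 * i + 1), neg (2 * i), neg (2 * i + 2), neg (2 * i + 1)]

/-- The boundary of the surface made of a disk with `2 * h` bands, flat in the plane of the
diagram, that hang from the lower side of the disk; the `2 * h` arcs of `θ` are their cores. -/
def bandKnot (h : ℕ) (θ : Word) : Word :=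
  [cup 0] ++ sh 2 (θ.flatMap dbl) ++ List.replicate (4 * h) (cap 1) ++ [cap 0]

/-- The genus: the least `h` such that the knot bounds a disk with `2 * h` flat bands. -/
noncomputable def gen (D : Word) : ℕ∞ :=
  ⨅ (h : ℕ) (_ : ∃ θ, Dia 0 θ (4 * h) ∧ Iso 0 0 D (bandKnot h θ)), (h : ℕ∞)

/-- Trivial `n`-string tangles: up to isotopy, `n` cups followed by a braid. -/
def IsTrivial (n : ℕ) (T : Word) : Prop :=
  ∃ β : Word, (∀ g ∈ β, g.kind = .pos ∨ g.kind = .neg) ∧ Dia (2 * n) β (2 * n) ∧
    Iso 0 (2 * n) T (List.replicate n (cup 0) ++ β)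

end H80Skein
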