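import Pool.Agent.H80Skein.KMT

/-! Growth of the bracket: a lower bound for the crossing number. -/

set_option linter.unusedSimpArgs false
set_option linter.unusedSectionVars false

namespace H80Skein

/-! ### Change of rings -/

section

variable {R S : Type*} [CommRing R] [CommRing S]

theorem ev_map (f : R →+* S) (A : Rˣ) (w : Word) : ∀ (φ : Fn R) (x : ℕ → ZMod 2),
    f (ev A w φ x) = ev (Units.map (f : R →* S) A) w (fun y => f (φ y)) x := by
  have hi : f ((A⁻¹ : Rˣ) : R) = (((Units.map (f : R →* S) A)⁻¹ : Sˣ) : S) := by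
    rw [← map_inv]; rfl
  have ha : f (A : R) = ((Units.map (f : R →* S) A : Sˣ) : S) := rfl
  have hcup : ∀ (i : ℕ) (φ : Fn R) (x : ℕ → ZMod 2),
      f (Cup A i φ x) = Cup (Units.map (f : R →* S) A) i (fun y => f (φ y)) x := by
    intro i φ x
    simp only [cup_apply, map_sub, map_mul, hi, ha]
  have hcap : ∀ (i : ℕ) (φ : Fn R) (x : ℕ → ZMod 2),
      f (Cap A i φ x) = Cap (Units.map (f : R →* S) A) i (fun y => f (φ y)) x := by
    intro i φ x
    simp only [cap_apply]
    split_ifs
    · simp only [map_mul, wn]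
      split_ifs <;> simp only [map_neg, hi, ha]
    · simp
  have hte : ∀ (i : ℕ) (φ : Fn R) (x : ℕ → ZMod 2),
      f (TE A i φ x) = TE (Units.map (f : R →* S) A) i (fun y => f (φ y)) x := by
    intro i φ x
    simp only [TE, Module.End.mul_apply]
    rw [hcap]
    have : (fun y => f (Cup A i φ y)) = Cup (Units.map (f : R →* S) A) i (fun y => f (φ y)) := by
      funext y
      exact hcup i φ y
    rw [this]
  induction w with
  | nil => intro φ x; simp
  | cons g w ih =>
    intro φ x
    obtain ⟨k, i⟩ := g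
    rw [ev_cons, ev_cons, Module.End.mul_apply, Module.End.mul_apply]
    have e : ev (Units.map (f : R →* S) A) w (fun y => f (φ y)) = fun y => f (ev A w φ y) := by
      funext y; rw [ih]
    rw [e]
    cases k with
    | cup => exact hcup i _ x
    | cap => exact hcap i _ x
    | pos =>
      simp only [op, LinearMap.add_apply, LinearMap.smul_apply, Module.End.one_apply,
        Pi.add_apply, Pi.smul_apply, smul_eq_mul, map_add, map_mul, hi, ha, hte]
    | neg =>
      simp only [op, LinearMap.add_apply, LinearMap.smul_apply, Module.End.one_apply,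
        Pi.add_apply, Pi.smul_apply, smul_eq_mul, map_add, map_mul, hi, ha, hte]

end

/-! ### The bracket of a closed diagram -/

section

variable {R : Type*} [CommRing R] (A : Rˣ)

/-- The bracket of a closed diagram (normalised so that a circle counts `dl A`). -/
def br (D : Word) : R := ev A D 1 0

theorem br_iso {D E : Word} (h : Iso 0 0 D E) :
    ∃ k : ℤ, br A D = (((qq A) ^ k : Rˣ) : R) * br A E := by
  obtain ⟨k, hk⟩ := ev_iso A h
  refine ⟨k, ?_⟩
  unfold br
  rw [hk]
  simp

theorem br_map {S : Type*} [CommRing S] (f : R →+* S) (D : Word) :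
    f (br A D) = br (Units.map (f : R →* S) A) D := by
  unfold br
  rw [ev_map]
  have : (fun y : ℕ → ZMod 2 => f ((1 : Fn R) y)) = 1 := by
    funext y
    simp
  rw [this]

theorem br_pos (p q : Word) (i : ℕ) : br A (p ++ [pos i] ++ q) =
    ((A⁻¹ : Rˣ) : R) * br A (p ++ q) + (A : R) * br A (p ++ [cap i, cup i] ++ q) := by
  unfold br
  simp only [ev_append, ev_cons, ev_nil, mul_one, pos_kind, pos_off, cap_kind, cup_kind, cap_off,
    cup_off, op, mul_add, add_mul, mul_smul_comm, smul_mul_assoc, LinearMap.add_apply,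
    LinearMap.smul_apply, Pi.add_apply, Pi.smul_apply, smul_eq_mul, TE]

theorem br_neg (p q : Word) (i : ℕ) : br A (p ++ [neg i] ++ q) =
    (A : R) * br A (p ++ q) + ((A⁻¹ : Rˣ) : R) * br A (p ++ [cap i, cup i] ++ q) := by
  unfold br
  simp only [ev_append, ev_cons, ev_nil, mul_one, neg_kind, neg_off, cap_kind, cup_kind, cap_off,
    cup_off, op, mul_add, add_mul, mul_smul_comm, smul_mul_assoc, LinearMap.add_apply,
    LinearMap.smul_apply, Pi.add_apply, Pi.smul_apply, smul_eq_mul, TE]

end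

/-! ### Real values -/

/-- The unit `t` of the reals. -/
noncomputable def tu (t : ℝ) (ht : 0 < t) : ℝˣ := Units.mk0 t ht.ne'

theorem dl_tu {t : ℝ} (ht : 0 < t) : dl (tu t ht) = -(t ^ 2) - (t⁻¹) ^ 2 := by
  simp [dl, tu]

theorem abs_dl {t : ℝ} (ht : 1 ≤ t) : |dl (tu t (by linarith))| ≤ 2 * t ^ 2 := by
  rw [dl_tu]
  have h1 : (t⁻¹) ^ 2 ≤ 1 := by
    have : t⁻¹ ≤ 1 := inv_le_one_of_one_le₀ ht
    have h0 : 0 ≤ t⁻¹ := by positivity
    nlinarith
  have h2 : 1 ≤ t ^ 2 := by nlinarith
  have h3 : 0 ≤ (t⁻¹) ^ 2 := by positivity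
  rw [abs_le]
  constructor <;> nlinarith

theorem two_pow_inj {a b : ℕ} (h : 2 ^ a = 2 ^ b) : a = b := Nat.pow_right_injective le_rfl h

theorem cl_sA (w : Word) : CL (sA w) := by
  intro g hg
  rw [sA, List.mem_flatMap] at hg
  obtain ⟨⟨k', i'⟩, -, hg'⟩ := hg
  cases k' <;> simp [smA] at hg'
  · simp [hg']
  · simp [hg']
  · rcases hg' with rfl | rfl <;> simp

theorem cl_sB (w : Word) : CL (sB w) := by
  intro g hg
  rw [sB, List.mem_flatMap] at hg
  obtain ⟨⟨k', i'⟩, -, hg'⟩ := hg
  cases k' <;> simp [smB] at hg'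
  · simp [hg']
  · simp [hg']
  · rcases hg' with rfl | rfl <;> simp

theorem le_succ_of_pow {a b : ℕ} (h : 2 ^ a ≤ 2 * 2 ^ b) : a ≤ b + 1 := by
  rw [← pow_succ'] at h
  exact (Nat.pow_le_pow_iff_right (by norm_num)).1 h

theorem key_bound {t : ℝ} (ht : 1 ≤ t) {n b l : ℕ} {X Y : ℝ} (hX : |X| ≤ 3 ^ n * 2 ^ b * t ^ (n + 2 * b))
    (hb : b ≤ l + 1) (hY : |Y| ≤ 3 ^ n * 2 ^ l * t ^ (n + 2 * l)) :
    |t⁻¹ * X + t * Y| ≤ 3 ^ (n + 1) * 2 ^ l * t ^ (n + 1 + 2 * l) := by
  have ht0 : 0 < t := by linarith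
  have h1 : |X| ≤ 3 ^ n * 2 ^ (l + 1) * t ^ (n + 2 * (l + 1)) := by
    refine hX.trans ?_
    gcongr
    · norm_num
  have h2 : |t⁻¹ * X| ≤ t⁻¹ * (3 ^ n * 2 ^ (l + 1) * t ^ (n + 2 * (l + 1))) := by
    rw [abs_mul, abs_of_pos (by positivity : (0 : ℝ) < t⁻¹)]
    gcongr
  have h3 : |t * Y| ≤ t * (3 ^ n * 2 ^ l * t ^ (n + 2 * l)) := by
    rw [abs_mul, abs_of_pos ht0]
    gcongr
  have e2 : t⁻¹ * (3 ^ n * 2 ^ (l + 1) * t ^ (n + 2 * (l + 1))) =
      2 * (3 ^ n * 2 ^ l * t ^ (n + 1 + 2 * l)) := by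
    have : n + 2 * (l + 1) = (n + 1 + 2 * l) + 1 := by ring
    rw [this, pow_succ t]
    field_simp
    ring
  have e3 : t * (3 ^ n * 2 ^ l * t ^ (n + 2 * l)) = 3 ^ n * 2 ^ l * t ^ (n + 1 + 2 * l) := by
    have : n + 1 + 2 * l = (n + 2 * l) + 1 := by ring
    rw [this, pow_succ t]
    ring
  calc |t⁻¹ * X + t * Y| ≤ |t⁻¹ * X| + |t * Y| := abs_add_le _ _
    _ ≤ 2 * (3 ^ n * 2 ^ l * t ^ (n + 1 + 2 * l)) + 3 ^ n * 2 ^ l * t ^ (n + 1 + 2 * l) := by
        rw [← e2, ← e3]
        exact add_le_add h2 h3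
    _ = _ := by ring

/-- The upper bound on the bracket, for the smoothing with the coefficient `t`. -/
theorem br_le (n : ℕ) {t : ℝ} (ht : 1 ≤ t) : ∀ (D : Word), crossings D = n → Dia 0 D 0 →
    (∀ l : ℕ, Multiset.card (runs (0 : ZMod 2) (sA D) 0) = 2 ^ l →
      |br (tu t (by linarith)) D| ≤ 3 ^ n * 2 ^ l * t ^ (n + 2 * l)) ∧
    (∀ l : ℕ, Multiset.card (runs (0 : ZMod 2) (sB D) 0) = 2 ^ l →
      |br (tu t⁻¹ (by positivity)) D| ≤ 3 ^ n * 2 ^ l * t ^ (n + 2 * l)) := by
  have ht0 : 0 < t := by linarith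
  induction n with
  | zero =>
    intro D hn hD
    have h := cl_of_crossings hn
    rw [sA_cl h, sB_cl h]
    constructor
    · intro l hl
      obtain ⟨l', h1, h2⟩ := loops_of_cl (tu t ht0) _ D rfl hD h
      have : l' = l := two_pow_inj (by rw [← h2, hl])
      subst this
      have e : br (tu t ht0) D = (dl (tu t ht0)) ^ l' := by
        unfold br; rw [h1]; simp
      rw [e, abs_pow, pow_zero, one_mul, zero_add, pow_mul, ← mul_pow]
      exact pow_le_pow_left₀ (abs_nonneg _) (abs_dl ht) _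
    · intro l hl
      obtain ⟨l', h1, h2⟩ := loops_of_cl (tu t⁻¹ (by positivity)) _ D rfl hD h
      have : l' = l := two_pow_inj (by rw [← h2, hl])
      subst this
      have e : br (tu t⁻¹ (by positivity)) D = (dl (tu t⁻¹ (by positivity))) ^ l' := by
        unfold br; rw [h1]; simp
      have e2 : dl (tu t⁻¹ (by positivity)) = dl (tu t ht0) := by
        rw [dl_tu, dl_tu, inv_inv]; ring
      rw [e, e2, abs_pow, pow_zero, one_mul, zero_add, pow_mul, ← mul_pow]
      exact pow_le_pow_left₀ (abs_nonneg _) (abs_dl ht) _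
  | succ n ih =>
    intro D hn hD
    rcases cl_or_crossing D with h | ⟨p, g, q, rfl, hg⟩
    · exfalso
      have : crossings D = 0 := by
        rw [crossings, List.countP_eq_zero]
        intro g hg
        rcases h g hg with h | h <;> simp [h]
      omega
    · rw [List.append_assoc] at hD
      obtain ⟨m, hp, hgq⟩ := dia_append.1 hD
      obtain ⟨m', hg1, hq⟩ := dia_append.1 hgq
      obtain ⟨k, i⟩ := g
      obtain ⟨hi, hm⟩ := hg1
      rw [dia_nil] at hm
      have hcr : ∀ w : Word, crossings w = 0 → crossings (p ++ w ++ q) = n := by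
        intro w hw
        rw [crossings_append, crossings_append] at hn ⊢
        have : crossings [(⟨k, i⟩ : Gen)] = 1 := by
          rcases hg with h | h <;> (simp only at h; subst h; rfl)
        omega
      have hk : k.inn = 2 ∧ k.out = 2 := by
        rcases hg with h | h <;> (simp only at h; subst h; exact ⟨rfl, rfl⟩)
      simp only [hk.1, hk.2] at hi hm
      obtain rfl : m' = m := by omega
      have hq' : Dia m' q 0 := hq
      have d0 : Dia 0 (p ++ q) 0 := dia_append.2 ⟨_, hp, hq'⟩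
      have d1 : Dia 0 (p ++ [cap i, cup i] ++ q) 0 :=
        dia_append.2 ⟨_, dia_append.2 ⟨_, hp, dia_e hi⟩, hq'⟩
      have c0 := ih (p ++ q) (by simpa using hcr [] rfl) d0
      have c1 := ih (p ++ [cap i, cup i] ++ q) (hcr _ rfl) d1
      obtain ⟨-, tA1, tA2⟩ := three_way (dia_sA hp) (dia_sA hq') hi (pos i) (Or.inl rfl) rfl
      obtain ⟨-, tB1, tB2⟩ := three_way (dia_sB hp) (dia_sB hq') hi (pos i) (Or.inl rfl) rfl
      obtain ⟨lA0, -, hA0⟩ := loops_of_cl (1 : ℝˣ) _ (sA (p ++ q)) rfl (dia_sA d0) (cl_sA _)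
      obtain ⟨lA1, -, hA1⟩ := loops_of_cl (1 : ℝˣ) _ (sA (p ++ [cap i, cup i] ++ q)) rfl
        (dia_sA d1) (cl_sA _)
      obtain ⟨lB0, -, hB0⟩ := loops_of_cl (1 : ℝˣ) _ (sB (p ++ q)) rfl (dia_sB d0) (cl_sB _)
      obtain ⟨lB1, -, hB1⟩ := loops_of_cl (1 : ℝˣ) _ (sB (p ++ [cap i, cup i] ++ q)) rfl
        (dia_sB d1) (cl_sB _)
      have rA0 := c0.1 lA0 hA0
      have rA1 := c1.1 lA1 hA1
      have rB0 := c0.2 lB0 hB0
      have rB1 := c1.2 lB1 hB1
      rw [sA_append] at hA0
      rw [sA_append, sA_append, sA_e] at hA1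
      rw [sB_append] at hB0
      rw [sB_append, sB_append, sB_e] at hB1
      rw [hA0, hA1] at tA1 tA2
      rw [hB0, hB1] at tB1 tB2
      have uA1 := le_succ_of_pow tA1
      have uA2 := le_succ_of_pow tA2
      have uB1 := le_succ_of_pow tB1
      have uB2 := le_succ_of_pow tB2
      have v1 : ((tu t ht0 : ℝˣ) : ℝ) = t := rfl
      have v2 : (((tu t ht0)⁻¹ : ℝˣ) : ℝ) = t⁻¹ := by simp [tu]
      have v3 : ((tu t⁻¹ (by positivity) : ℝˣ) : ℝ) = t⁻¹ := rfl
      have v4 : (((tu t⁻¹ (by positivity))⁻¹ : ℝˣ) : ℝ) = t := by simp [tu]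
      simp only at hg
      rcases hg with rfl | rfl
      · have e1 : sA [(⟨.pos, i⟩ : Gen)] = [cap i, cup i] := rfl
        have e2 : sB [(⟨.pos, i⟩ : Gen)] = [] := rfl
        rw [sA_append, sA_append, sB_append, sB_append, e1, e2, List.append_nil]
        constructor
        · intro l hl
          have hll : lA1 = l := two_pow_inj (by rw [← hA1, hl])
          subst hll
          have := br_pos (tu t ht0) p q i
          rw [v1, v2] at this
          show |br (tu t ht0) (p ++ [pos i] ++ q)| ≤ _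
          rw [this]
          exact key_bound ht rA0 uA1 rA1
        · intro l hl
          have hll : lB0 = l := two_pow_inj (by rw [← hB0, hl])
          subst hll
          have := br_pos (tu t⁻¹ (by positivity)) p q i
          rw [v3, v4] at this
          show |br (tu t⁻¹ (by positivity)) (p ++ [pos i] ++ q)| ≤ _
          rw [this, add_comm]
          exact key_bound ht rB1 uB2 rB0
      · have e1 : sA [(⟨.neg, i⟩ : Gen)] = [] := rfl
        have e2 : sB [(⟨.neg, i⟩ : Gen)] = [cap i, cup i] := rfl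
        rw [sA_append, sA_append, sB_append, sB_append, e1, e2, List.append_nil]
        constructor
        · intro l hl
          have hll : lA0 = l := two_pow_inj (by rw [← hA0, hl])
          subst hll
          have := br_neg (tu t ht0) p q i
          rw [v1, v2] at this
          show |br (tu t ht0) (p ++ [neg i] ++ q)| ≤ _
          rw [this, add_comm]
          exact key_bound ht rA1 uA2 rA0
        · intro l hl
          have hll : lB1 = l := two_pow_inj (by rw [← hB1, hl])
          subst hll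
          have := br_neg (tu t⁻¹ (by positivity)) p q i
          rw [v3, v4] at this
          show |br (tu t⁻¹ (by positivity)) (p ++ [neg i] ++ q)| ≤ _
          rw [this]
          exact key_bound ht rB0 uB1 rB1

/-- For a knot diagram with `n` crossings the product of the two values is at most of order
`t ^ (4 * n + 4)`. -/
theorem br_prod_le {t : ℝ} (ht : 1 ≤ t) {D : Word} (hD : IsKnot D) :
    |br (tu t (by linarith)) D * br (tu t⁻¹ (by positivity)) D| ≤
      36 ^ (crossings D + 2) * t ^ (4 * crossings D + 4) := by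
  have ht0 : 0 < t := by linarith
  obtain ⟨a, -, ha⟩ := loops_of_cl (1 : ℝˣ) _ (sA D) rfl (dia_sA hD.1) (cl_sA _)
  obtain ⟨b, -, hb⟩ := loops_of_cl (1 : ℝˣ) _ (sB D) rfl (dia_sB hD.1) (cl_sB _)
  have h1 := br_le (crossings D) ht D rfl hD.1
  have h2 := h1.1 a ha
  have h3 := h1.2 b hb
  have h4 := kmt (crossings D) D rfl hD.1
  rw [ha, hb, hD.2, ← pow_add, ← pow_add] at h4
  have h5 : a + b ≤ crossings D + 2 := (Nat.pow_le_pow_iff_right (by norm_num)).1 h4
  rw [abs_mul]
  calc |br (tu t (by linarith)) D| * |br (tu t⁻¹ (by positivity)) D| ≤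
      (3 ^ crossings D * 2 ^ a * t ^ (crossings D + 2 * a)) *
        (3 ^ crossings D * 2 ^ b * t ^ (crossings D + 2 * b)) := by gcongr
    _ = (9 ^ crossings D * 2 ^ (a + b)) * t ^ (2 * crossings D + 2 * (a + b)) := by
        rw [show (9 : ℝ) = 3 * 3 by norm_num, mul_pow, pow_add, show
          2 * crossings D + 2 * (a + b) = (crossings D + 2 * a) + (crossings D + 2 * b) by ring,
          pow_add]
        ring
    _ ≤ 36 ^ (crossings D + 2) * t ^ (4 * crossings D + 4) := by
        have g1 : t ^ (2 * crossings D + 2 * (a + b)) ≤ t ^ (4 * crossings D + 4) :=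
          pow_le_pow_right₀ ht (by omega)
        have g2 : (9 : ℝ) ^ crossings D * 2 ^ (a + b) ≤ 36 ^ (crossings D + 2) := by
          calc (9 : ℝ) ^ crossings D * 2 ^ (a + b) ≤
              9 ^ (crossings D + 2) * 2 ^ (crossings D + 2) := by
                have g3 : (9 : ℝ) ^ crossings D ≤ 9 ^ (crossings D + 2) :=
                  pow_le_pow_right₀ (by norm_num) (by omega)
                have g4 : (2 : ℝ) ^ (a + b) ≤ 2 ^ (crossings D + 2) :=
                  pow_le_pow_right₀ (by norm_num) h5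
                exact mul_le_mul g3 g4 (by positivity) (by positivity)
            _ = 18 ^ (crossings D + 2) := by rw [← mul_pow]; norm_num
            _ ≤ 36 ^ (crossings D + 2) := pow_le_pow_left₀ (by norm_num) (by norm_num) _
        exact mul_le_mul g2 g1 (by positivity) (by positivity)

end H80Skein
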