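import Pool.Agent.H80Skein.Rigid

/-! A knot has only the constant colourings for almost all primes. -/

set_option linter.unusedSimpArgs false
set_option linter.unusedSectionVars false

namespace H80Skein

section defect

variable {R : Type*} [CommRing R]

/-- `glue` over any ring. -/
def gR (g : Gen) (x : ℕ → R) (c : R × R) : ℕ → R := fun j =>
  if j < g.off then x j
  else if j < g.off + g.kind.out then (if j = g.off then c.1 else c.2)
  else x (j - g.kind.out + g.kind.inn)

theorem gR_add (g : Gen) (x x' : ℕ → R) (c c' : R × R) :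
    gR g (x + x') (c + c') = gR g x c + gR g x' c' := by
  funext j
  simp only [gR, Pi.add_apply, Prod.fst_add, Prod.snd_add]
  split_ifs <;> rfl

theorem gR_smul (g : Gen) (r : R) (x : ℕ → R) (c : R × R) :
    gR g (r • x) (r • c) = r • gR g x c := by
  funext j
  simp only [gR, Pi.smul_apply, Prod.smul_fst, Prod.smul_snd]
  split_ifs <;> rfl

theorem gR_map {S : Type*} [CommRing S] (f : R →+* S) (g : Gen) (x : ℕ → R) (c : R × R) :
    gR g (f ∘ x) (f c.1, f c.2) = f ∘ gR g x c := by
  funext j
  simp only [gR, Function.comp]
  split_ifs <;> rfl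

/-- The failures of the conditions at the caps, the labels of the cups being `c`. -/
def dfc : Word → (ℕ → R) → (ℕ → R) → ℕ → R
  | [], _, _ => 0
  | ⟨.cup, i⟩ :: w, c, x => dfc w (fun j => c (j + 1)) (gR (cup i) x (c 0, c 0))
  | ⟨.cap, i⟩ :: w, c, x => fun j => match j with
    | 0 => x (i + 1) - x i
    | j + 1 => dfc w c (gR (cap i) x 0) j
  | ⟨.pos, i⟩ :: w, c, x => dfc w c (gR (pos i) x (x (i + 1), 2 * x (i + 1) - x i))
  | ⟨.neg, i⟩ :: w, c, x => dfc w c (gR (neg i) x (2 * x i - x (i + 1), x i))

theorem dfc_add (w : Word) (c c' x x' : ℕ → R) :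
    dfc w (c + c') (x + x') = dfc w c x + dfc w c' x' := by
  induction w generalizing c c' x x' with
  | nil => simp [dfc]
  | cons g w ih =>
    obtain ⟨k, i⟩ := g
    cases k with
    | cup =>
      simp only [dfc]
      rw [← ih, ← gR_add]; rfl
    | cap =>
      funext j
      cases j with
      | zero => simp only [dfc, Pi.add_apply]; ring
      | succ j =>
        simp only [dfc, Pi.add_apply]
        have := congrFun (ih c c' (gR (cap i) x 0) (gR (cap i) x' 0)) j
        rw [Pi.add_apply] at this
        rw [← this, ← gR_add, add_zero]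
    | pos =>
      simp only [dfc]
      rw [← ih, ← gR_add]
      congr 2
      ext
      · rfl
      · simp only [Pi.add_apply, Prod.snd_add]; ring
    | neg =>
      simp only [dfc]
      rw [← ih, ← gR_add]
      congr 2
      ext
      · simp only [Pi.add_apply, Prod.fst_add]; ring
      · rfl

theorem dfc_smul (w : Word) (r : R) (c x : ℕ → R) :
    dfc w (r • c) (r • x) = r • dfc w c x := by
  induction w generalizing c x with
  | nil => simp [dfc]
  | cons g w ih =>
    obtain ⟨k, i⟩ := g
    cases k with
    | cup =>
      simp only [dfc]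
      rw [← ih, ← gR_smul]; rfl
    | cap =>
      funext j
      cases j with
      | zero => simp only [dfc, Pi.smul_apply, smul_eq_mul]; ring
      | succ j =>
        simp only [dfc, Pi.smul_apply]
        have := congrFun (ih c (gR (cap i) x 0)) j
        rw [Pi.smul_apply] at this
        rw [← this, ← gR_smul, smul_zero]
    | pos =>
      simp only [dfc]
      rw [← ih, ← gR_smul]
      congr 2
      ext
      · rfl
      · simp only [Pi.smul_apply, Prod.smul_snd, smul_eq_mul]; ring
    | neg =>
      simp only [dfc]
      rw [← ih, ← gR_smul]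
      congr 2
      ext
      · simp only [Pi.smul_apply, Prod.smul_fst, smul_eq_mul]; ring
      · rfl

theorem dfc_map {S : Type*} [CommRing S] (f : R →+* S) (w : Word) (c x : ℕ → R) :
    dfc w (f ∘ c) (f ∘ x) = f ∘ dfc w c x := by
  induction w generalizing c x with
  | nil => funext j; simp [dfc]
  | cons g w ih =>
    obtain ⟨k, i⟩ := g
    cases k with
    | cup =>
      simp only [dfc]
      rw [← ih, ← gR_map]; rfl
    | cap =>
      funext j
      cases j with
      | zero => simp only [dfc, Function.comp, map_sub]
      | succ j =>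
        simp only [dfc, Function.comp]
        have := congrFun (ih c (gR (cap i) x 0)) j
        rw [Function.comp_apply] at this
        rw [← this, ← gR_map]
        simp only [Prod.fst_zero, Prod.snd_zero, map_zero]
        rfl
    | pos =>
      simp only [dfc]
      rw [← ih, ← gR_map]
      simp only [Function.comp, map_sub, map_mul, map_ofNat]
    | neg =>
      simp only [dfc]
      rw [← ih, ← gR_map]
      simp only [Function.comp, map_sub, map_mul, map_ofNat]

/-- The number of cups. -/
def ncup (w : Word) : ℕ := w.countP fun g => g.kind = .cup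
/-- The number of caps. -/
def ncap (w : Word) : ℕ := w.countP fun g => g.kind = .cap

theorem dfc_ge (w : Word) (c x : ℕ → R) {j : ℕ} (hj : ncap w ≤ j) : dfc w c x j = 0 := by
  induction w generalizing c x j with
  | nil => rfl
  | cons g w ih =>
    obtain ⟨k, i⟩ := g
    cases k with
    | cup => simp only [dfc]; exact ih _ _ (by simpa [ncap] using hj)
    | cap =>
      simp only [ncap, List.countP_cons, decide_true, if_true] at hj
      cases j with
      | zero => omega
      | succ j => simp only [dfc]; exact ih _ _ (by simp only [ncap]; omega)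
    | pos => simp only [dfc]; exact ih _ _ (by simpa [ncap] using hj)
    | neg => simp only [dfc]; exact ih _ _ (by simpa [ncap] using hj)

/-- Extension by zero. -/
def ext0 {k : ℕ} (c : Fin k → R) : ℕ → R := fun j => if h : j < k then c ⟨j, h⟩ else 0

theorem ext0_add {k : ℕ} (c c' : Fin k → R) : ext0 (c + c') = ext0 c + ext0 c' := by
  funext j; simp only [ext0, Pi.add_apply]; split_ifs <;> simp

theorem ext0_smul {k : ℕ} (r : R) (c : Fin k → R) : ext0 (r • c) = r • ext0 c := by
  funext j; simp only [ext0, Pi.smul_apply]; split_ifs <;> simp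

theorem ext0_map {S : Type*} [CommRing S] (f : R →+* S) {k : ℕ} (c : Fin k → R) :
    ext0 (f ∘ c) = f ∘ ext0 c := by
  funext j; simp only [ext0, Function.comp]; split_ifs <;> simp

/-- The defect as a linear map of the labels of the cups. -/
def dfl (w : Word) (R : Type*) [CommRing R] : (Fin (ncup w) → R) →ₗ[R] (ℕ → R) where
  toFun c := dfc w (ext0 c) 0
  map_add' c c' := by
    rw [ext0_add, ← dfc_add, add_zero]
  map_smul' r c := by
    rw [ext0_smul, RingHom.id_apply, ← dfc_smul, smul_zero]

/-- The integer matrix of the defect. -/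
def dmat (w : Word) : Matrix (Fin (ncap w)) (Fin (ncup w)) ℤ :=
  fun i j => dfl w ℤ (fun l => if j = l then 1 else 0) i

theorem dfl_eq (w : Word) (c : Fin (ncup w) → R) (i : Fin (ncap w)) :
    dfl w R c i = ((dmat w).map (Int.castRingHom R)).mulVec c i := by
  rw [LinearMap.pi_apply_eq_sum_univ (dfl w R) c]
  simp only [Matrix.mulVec, dotProduct, Finset.sum_apply, Pi.smul_apply, smul_eq_mul,
    Matrix.map_apply]
  refine Finset.sum_congr rfl (fun j _ => ?_)
  rw [mul_comm]
  congr 1
  have h := congrFun (dfc_map (Int.castRingHom R) w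
    (ext0 (fun l : Fin (ncup w) => if j = l then (1 : ℤ) else 0)) 0) i
  rw [Function.comp_apply] at h
  have e1 : (Int.castRingHom R) ∘ (0 : ℕ → ℤ) = 0 := by funext j; simp
  have e2 : (Int.castRingHom R) ∘ (ext0 fun l : Fin (ncup w) => if j = l then (1 : ℤ) else 0) =
      ext0 fun l : Fin (ncup w) => if j = l then (1 : R) else 0 := by
    rw [← ext0_map]
    congr 1
    funext l
    simp only [Function.comp]
    split_ifs <;> simp
  rw [e1, e2] at h
  exact h

end defect

section

variable {N : ℕ} [NeZero N]

theorem glue_eq_gR (g : Gen) (x : ℕ → ZMod N) (c : ZMod N × ZMod N) : glue g x c = gR g x c := rfl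

open Classical in
theorem card_eq_sum_dfc (w : Word) (k : ℕ) (hk : ncup w = k) (x : ℕ → ZMod N) :
    Multiset.card (runs (0 : ZMod N) w x) =
      ∑ c : Fin k → ZMod N, if dfc w (ext0 c) x = 0 then 1 else 0 := by
  induction w generalizing x k with
  | nil =>
    have : k = 0 := by rw [← hk]; rfl
    subst this
    simp [dfc]
  | cons g w ih =>
    obtain ⟨kd, i⟩ := g
    cases kd with
    | cup =>
      have h1 : Multiset.card (runs (0 : ZMod N) (cup i :: w) x) =
          ∑ c0 : ZMod N, Multiset.card (runs (0 : ZMod N) w (glue (cup i) x (c0, c0 + 0))) := by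
        rw [runs_cup, card_bind]; rfl
      change Multiset.card (runs (0 : ZMod N) (cup i :: w) x) = _
      rw [h1]
      have hk' : k = ncup w + 1 := by rw [← hk]; simp [ncup]
      subst hk'
      simp only [ih (ncup w) rfl]
      rw [← (Fin.consEquiv fun _ => ZMod N).sum_comp, Fintype.sum_prod_type]
      refine Finset.sum_congr rfl (fun c0 _ => Finset.sum_congr rfl (fun c _ => ?_))
      have e1 : (fun j => ext0 (Fin.cons c0 c : Fin (ncup w + 1) → ZMod N) (j + 1)) = ext0 c := by
        funext j
        simp only [ext0]
        by_cases hj : j < ncup w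
        · rw [dif_pos (by omega), dif_pos hj]; rfl
        · rw [dif_neg (by omega), dif_neg hj]
      have e2 : ext0 (Fin.cons c0 c : Fin (ncup w + 1) → ZMod N) 0 = c0 := by
        simp only [ext0]
        rw [dif_pos (by omega)]; rfl
      refine if_congr ?_ rfl rfl
      show dfc w (ext0 c) (glue (cup i) x (c0, c0 + 0)) = 0 ↔
        dfc w (fun j => ext0 (Fin.cons c0 c : Fin (ncup w + 1) → ZMod N) (j + 1))
          (gR (cup i) x (ext0 (Fin.cons c0 c : Fin (ncup w + 1) → ZMod N) 0,
            ext0 (Fin.cons c0 c : Fin (ncup w + 1) → ZMod N) 0)) = 0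
      rw [e1, e2, add_zero, glue_eq_gR]
    | cap =>
      change Multiset.card (runs (0 : ZMod N) (cap i :: w) x) = _
      rw [runs_cap, add_zero]
      have hk' : ncup w = k := by rw [← hk]; simp [ncup]
      have key : ∀ c : ℕ → ZMod N, dfc (⟨.cap, i⟩ :: w) c x = 0 ↔
          (x (i + 1) = x i ∧ dfc w c (gR (cap i) x 0) = 0) := by
        intro c
        constructor
        · intro h
          refine ⟨sub_eq_zero.1 (congrFun h 0), ?_⟩
          funext j
          exact congrFun h (j + 1)
        · rintro ⟨h1, h2⟩
          funext j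
          cases j with
          | zero => exact sub_eq_zero.2 h1
          | succ j => exact congrFun h2 j
      simp only [key]
      by_cases h : x (i + 1) = x i
      · rw [if_pos h, ih k hk']
        simp only [h, true_and]
        rfl
      · rw [if_neg h]
        simp only [h, false_and, if_false]
        simp
    | pos =>
      change Multiset.card (runs (0 : ZMod N) (pos i :: w) x) = _
      have hk' : ncup w = k := by rw [← hk]; simp [ncup]
      rw [runs_pos, ih k hk']
      exact Finset.sum_congr rfl (fun c _ => if_congr Iff.rfl rfl rfl)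
    | neg =>
      change Multiset.card (runs (0 : ZMod N) (neg i :: w) x) = _
      have hk' : ncup w = k := by rw [← hk]; simp [ncup]
      rw [runs_neg, ih k hk']
      exact Finset.sum_congr rfl (fun c _ => if_congr Iff.rfl rfl rfl)

theorem card_eq_one_iff (w : Word) :
    Multiset.card (runs (0 : ZMod N) w 0) = 1 ↔
      ∀ c : Fin (ncup w) → ZMod N, ((dmat w).map (Int.castRingHom (ZMod N))).mulVec c = 0 →
        c = 0 := by
  classical
  rw [card_eq_sum_dfc w _ rfl]
  have key : ∀ c : Fin (ncup w) → ZMod N, dfc w (ext0 c) 0 = 0 ↔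
      ((dmat w).map (Int.castRingHom (ZMod N))).mulVec c = 0 := by
    intro c
    constructor
    · intro h
      funext i
      rw [← dfl_eq]
      exact congrFun h i
    · intro h
      funext j
      by_cases hj : j < ncap w
      · have := dfl_eq (R := ZMod N) w c ⟨j, hj⟩
        rw [h] at this
        exact this
      · exact dfc_ge w _ _ (by omega)
  simp only [key]
  rw [← Finset.card_filter]
  have h0 : (0 : Fin (ncup w) → ZMod N) ∈ Finset.univ.filter fun c : Fin (ncup w) → ZMod N =>
      ((dmat w).map (Int.castRingHom (ZMod N))).mulVec c = 0 := by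
    simp
  constructor
  · intro h c hc
    rw [Finset.card_eq_one] at h
    obtain ⟨a, ha⟩ := h
    rw [ha, Finset.mem_singleton] at h0
    have h1 : c ∈ Finset.univ.filter fun c : Fin (ncup w) → ZMod N =>
      ((dmat w).map (Int.castRingHom (ZMod N))).mulVec c = 0 :=
      Finset.mem_filter.2 ⟨Finset.mem_univ _, hc⟩
    rw [ha, Finset.mem_singleton] at h1
    rw [h1, ← h0]
  · intro h
    rw [Finset.card_eq_one]
    refine ⟨0, ?_⟩
    ext c
    simp only [Finset.mem_filter, Finset.mem_univ, true_and, Finset.mem_singleton]
    exact ⟨h c, fun hc => by rw [hc]; simp⟩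

/-- Labellings may be translated by a constant. -/
theorem act_translate (g : Gen) (x : ℕ → ZMod N) (a : ZMod N) :
    act (0 : ZMod N) g (fun j => x j + a) = (act 0 g x).map fun z j => z j + a := by
  have hg : ∀ c : ZMod N × ZMod N, glue g (fun j => x j + a) (c.1 + a, c.2 + a) =
      fun j => glue g x c j + a := by
    intro c
    funext j
    simp only [glue]
    split_ifs <;> rfl
  rw [act_def, act_def, Multiset.map_map]
  obtain ⟨k, i⟩ := g
  cases k with
  | cup =>
    simp only [rule, Multiset.map_map]
    have e : (Finset.univ : Finset (ZMod N)).val =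
        (Finset.univ : Finset (ZMod N)).val.map (Equiv.addRight a) := by
      have := Finset.map_univ_equiv (Equiv.addRight a)
      conv_lhs => rw [← this]
      rfl
    conv_lhs => rw [e]
    rw [Multiset.map_map]
    congr 1
    funext c
    simp only [Function.comp, add_zero, Equiv.coe_addRight]
    exact hg (c, c)
  | cap =>
    simp only [rule]
    by_cases h : x (i + 1) = x i + 0
    · rw [if_pos (by rw [h]; ring), if_pos h]
      simp only [Multiset.map_singleton, Function.comp]
      congr 1
      funext j
      simp only [glue]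
      split_ifs <;> first | rfl | (exfalso; simp at *; omega)
    · rw [if_neg (by intro h'; apply h; linear_combination h'), if_neg h]
      rfl
  | pos =>
    simp only [rule, Multiset.map_singleton, Function.comp]
    congr 1
    rw [← hg]
    congr 1
    ext
    · rfl
    · simp only; ring
  | neg =>
    simp only [rule, Multiset.map_singleton, Function.comp]
    congr 1
    rw [← hg]
    congr 1
    ext
    · simp only; ring
    · rfl

theorem card_runs_translate (w : Word) (x : ℕ → ZMod N) (a : ZMod N) :
    Multiset.card (runs (0 : ZMod N) w (fun j => x j + a)) =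
      Multiset.card (runs (0 : ZMod N) w x) := by
  have : ∀ x : ℕ → ZMod N, runs (0 : ZMod N) w (fun j => x j + a) =
      (runs (0 : ZMod N) w x).map fun z j => z j + a := by
    induction w with
    | nil => intro x; simp
    | cons g w ih =>
      intro x
      rw [runs_cons, runs_cons, act_translate, Multiset.bind_map, Multiset.map_bind]
      congr 1
      funext z
      exact ih z
  rw [this, Multiset.card_map]

/-- A nonempty closed diagram begins with a cup. -/
theorem exists_cons_cup {D : Word} (hD : Dia 0 D 0) (hne : D ≠ []) :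
    ∃ w, D = cup 0 :: w ∧ Dia 2 w 0 := by
  cases D with
  | nil => exact absurd rfl hne
  | cons g w =>
    obtain ⟨h1, h2⟩ := hD
    obtain ⟨k, i⟩ := g
    cases k with
    | cup =>
      simp only [inn_cup] at h1
      have hi : i = 0 := by omega
      subst hi
      exact ⟨w, rfl, h2⟩
    | cap => simp at h1
    | pos => simp at h1
    | neg => simp at h1

theorem card_cup_cons {w : Word} (hw : Dia 2 w 0) :
    Multiset.card (runs (0 : ZMod N) (cup 0 :: w) 0) =
      N * Multiset.card (runs (0 : ZMod N) w 0) := by
  have e0 : (0 : ℕ → ZMod N) = put [] 0 := rfl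
  have h3 : Multiset.card (runs (0 : ZMod N) (cup 0 :: w) 0) =
    ∑ c : ZMod N, Multiset.card (runs (0 : ZMod N) w (put [c, c + 0] 0)) := by
    conv_lhs => rw [e0]
    rw [runs_cup0, card_bind]; rfl
  rw [h3]
  have h4 : ∀ c : ZMod N, Multiset.card (runs (0 : ZMod N) w (put [c, c + 0] 0)) =
      Multiset.card (runs (0 : ZMod N) w 0) := by
    intro c
    rw [← card_runs_translate w 0 c]
    apply card_runs_congr 0 hw
    intro j hj
    have : j = 0 ∨ j = 1 := by omega
    rcases this with rfl | rfl <;> simp
  simp only [h4]
  rw [Finset.sum_const, Finset.card_univ, ZMod.card, smul_eq_mul]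

end

/-- If an integer matrix has trivial kernel modulo two, it has trivial kernel modulo almost all
primes. -/
theorem ker_trivial {r k : ℕ} (B : Matrix (Fin r) (Fin k) ℤ)
    (h : ∀ c : Fin k → ZMod 2, (B.map (Int.castRingHom (ZMod 2))).mulVec c = 0 → c = 0) :
    ∃ d : ℤ, d ≠ 0 ∧ ∀ (p : ℕ) [Fact p.Prime], ¬ (p : ℤ) ∣ d →
      ∀ c : Fin k → ZMod p, (B.map (Int.castRingHom (ZMod p))).mulVec c = 0 → c = 0 := by
  have hker : LinearMap.ker (Matrix.toLin' (B.map (Int.castRingHom (ZMod 2)))) = ⊥ := by
    rw [LinearMap.ker_eq_bot']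
    intro c hc
    rw [Matrix.toLin'_apply] at hc
    exact h c hc
  obtain ⟨g, hg⟩ := LinearMap.exists_leftInverse_of_injective _ hker
  let P : Matrix (Fin k) (Fin r) (ZMod 2) := LinearMap.toMatrix' g
  have hP : P * (B.map (Int.castRingHom (ZMod 2))) = 1 := by
    have h1 : LinearMap.toMatrix' (g ∘ₗ Matrix.toLin' (B.map (Int.castRingHom (ZMod 2)))) = 1 := by
      rw [hg, LinearMap.toMatrix'_id]
    rw [LinearMap.toMatrix'_comp, LinearMap.toMatrix'_toLin'] at h1
    exact h1
  let Q : Matrix (Fin k) (Fin r) ℤ := fun i j => ((P i j).val : ℤ)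
  have hQ : Q.map (Int.castRingHom (ZMod 2)) = P := by
    ext i j
    simp [Q]
  refine ⟨(Q * B).det, ?_, ?_⟩
  · intro h0
    have h1 : ((Q * B).map (Int.castRingHom (ZMod 2))).det = 1 := by
      rw [Matrix.map_mul, hQ, hP, Matrix.det_one]
    have h2 : (Int.castRingHom (ZMod 2)) (Q * B).det =
        ((Q * B).map (Int.castRingHom (ZMod 2))).det := RingHom.map_det _ _
    rw [h0, h1, map_zero] at h2
    exact absurd h2 (by decide)
  · intro p hp hpd c hc
    have h2 : (Int.castRingHom (ZMod p)) (Q * B).det =
        ((Q * B).map (Int.castRingHom (ZMod p))).det := RingHom.map_det _ _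
    have h3 : ((Q * B).map (Int.castRingHom (ZMod p))).det ≠ 0 := by
      rw [← h2]
      intro h4
      apply hpd
      exact (ZMod.intCast_zmod_eq_zero_iff_dvd _ p).1 h4
    apply Matrix.eq_zero_of_mulVec_eq_zero h3
    rw [Matrix.map_mul, ← Matrix.mulVec_mulVec, hc, Matrix.mulVec_zero]

/-- For almost all primes a knot only has the constant colourings. -/
theorem det_lemma {D : Word} (hD : IsKnot D) : ∃ d : ℤ, d ≠ 0 ∧ ∀ (p : ℕ) [Fact p.Prime],
    ¬ (p : ℤ) ∣ d → Multiset.card (runs (0 : ZMod p) D 0) = p := by
  have hne : D ≠ [] := by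
    rintro rfl
    have := hD.2
    simp at this
  obtain ⟨w, rfl, hw⟩ := exists_cons_cup hD.1 hne
  have h2 := hD.2
  rw [card_cup_cons hw] at h2
  have h1 : Multiset.card (runs (0 : ZMod 2) w 0) = 1 := by omega
  rw [card_eq_one_iff] at h1
  obtain ⟨d, hd, H⟩ := ker_trivial _ h1
  refine ⟨d, hd, fun p hp hpd => ?_⟩
  rw [card_cup_cons hw, (card_eq_one_iff w).2 (H p hpd), mul_one]

end H80Skein
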