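import Pool.Agent.H80Skein.Inv

/-! Twist knots, their connected sums, and knots bounding flat genus one surfaces. -/

set_option linter.unusedSimpArgs false
set_option linter.unusedSectionVars false

namespace H80Skein

/-- The long twist knot with `k + 2` crossings. -/
def tk (k : ℕ) : Word := [cup 1] ++ List.replicate k (pos 0) ++ [neg 1, neg 1, cap 0]

theorem dia_tk (k : ℕ) : Dia 1 (tk k) 1 := by
  have h1 : Dia 1 [cup 1] 3 := by decide
  have h2 : Dia 3 [neg 1, neg 1, cap 0] 1 := by decide
  exact dia_append.2 ⟨3, dia_append.2 ⟨3, h1, dia_replicate_pos (by omega)⟩, h2⟩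

theorem dia_tk2 (k : ℕ) : Dia 2 (tk k) 2 := dia_right 1 (dia_tk k)

section

variable {N : ℕ} [NeZero N]

theorem runs_twist0 (k : ℕ) (w : Word) (a b : ZMod N) (l : List (ZMod N)) (x : ℕ → ZMod N) :
    runs (0 : ZMod N) (List.replicate k (pos 0) ++ w) (put (a :: b :: l) x) =
      runs 0 w (put ((a + (k : ZMod N) * (b - a)) :: (b + (k : ZMod N) * (b - a)) :: l) x) := by
  rw [runs_append, runs_twist, Multiset.singleton_bind]
  congr 1
  funext j
  match j with
  | 0 => simp
  | 1 => simp
  | j + 2 => simp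

/-- The equation of the twist knot. -/
theorem runs_tk (k : ℕ) (x : ℕ → ZMod N) :
    runs (0 : ZMod N) (tk k) x =
      ∑ e : ZMod N, if (2 * k + 1 : ZMod N) * e = 0 then {x} else 0 := by
  have e0 : ∀ w, runs (0 : ZMod N) w x = runs (0 : ZMod N) w (put [x 0] (tl 1 x)) := by
    intro w; rw [← eq_put1]
  rw [tk, List.append_assoc, List.cons_append, List.nil_append, e0, runs_cup1]
  rw [← bind_reindex (Equiv.addRight (x 0)), sum_eq_bind]
  refine Finset.sum_congr rfl (fun e _ => ?_)
  rw [runs_twist0, runs_neg1, runs_neg1, runs_cap0, runs_nil]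
  simp only [Equiv.coe_addRight, add_zero]
  by_cases h : (2 * k + 1 : ZMod N) * e = 0
  · rw [if_pos h, if_pos (by linear_combination h)]
    conv_rhs => rw [eq_put1 x]
    congr 3
    linear_combination h
  · rw [if_neg h, if_neg]
    intro h'
    apply h
    linear_combination h'

/-- The number of solutions of the equation of the twist knot. -/
def mult (N : ℕ) [NeZero N] (k : ℕ) : ℕ :=
  (Finset.univ.filter fun e : ZMod N => (2 * k + 1 : ZMod N) * e = 0).card

theorem runs_tk' (k : ℕ) (x : ℕ → ZMod N) :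
    runs (0 : ZMod N) (tk k) x = Multiset.replicate (mult N k) x := by
  rw [runs_tk, ← Finset.sum_filter, Finset.sum_const, mult, Multiset.nsmul_singleton]

/-- Powers of a word. -/
def wpow (w : Word) : ℕ → Word
  | 0 => []
  | a + 1 => w ++ wpow w a

theorem dia_wpow {w : Word} {m : ℕ} (h : Dia m w m) (a : ℕ) : Dia m (wpow w a) m := by
  induction a with
  | zero => rfl
  | succ a ih => exact dia_append.2 ⟨m, h, ih⟩

theorem runs_wpow (k a : ℕ) (x : ℕ → ZMod N) :
    runs (0 : ZMod N) (wpow (tk k) a) x = Multiset.replicate (mult N k ^ a) x := by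
  induction a with
  | zero => simp [wpow, Multiset.replicate_one]
  | succ a ih =>
    rw [wpow, runs_append, runs_tk']
    have : (Multiset.replicate (mult N k) x).bind (runs (0 : ZMod N) (wpow (tk k) a)) =
        (Multiset.replicate (mult N k) x).bind fun _ => Multiset.replicate (mult N k ^ a) x := by
      apply Multiset.bind_congr
      intro y hy
      rw [Multiset.eq_of_mem_replicate hy]; exact ih
    rw [this]
    rw [Multiset.eq_replicate]
    constructor
    · rw [card_bind, Multiset.map_const', Multiset.sum_replicate, Multiset.card_replicate,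
        Multiset.card_replicate, smul_eq_mul, pow_succ, mul_comm]
    · intro y hy
      rw [Multiset.mem_bind] at hy
      obtain ⟨z, -, hz⟩ := hy
      exact Multiset.eq_of_mem_replicate hz

end

/-- The connected sum of `a` twist knots of one kind and `b` of another one. -/
def ksum (k l a b : ℕ) : Word := [cup 0] ++ (wpow (tk k) a ++ wpow (tk l) b) ++ [cap 0]

theorem dia_ksum (k l a b : ℕ) : Dia 0 (ksum k l a b) 0 := by
  have h1 : Dia 0 [cup 0] 2 := by decide
  have h2 : Dia 2 [cap 0] 0 := by decide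
  exact dia_append.2 ⟨2, dia_append.2 ⟨2, h1, dia_append.2
    ⟨2, dia_wpow (dia_tk2 k) a, dia_wpow (dia_tk2 l) b⟩⟩, h2⟩

theorem card_ksum {N : ℕ} [NeZero N] (k l a b : ℕ) :
    Multiset.card (runs (0 : ZMod N) (ksum k l a b) 0) = N * (mult N k ^ a * mult N l ^ b) := by
  have e0 : (0 : ℕ → ZMod N) = put [] 0 := rfl
  rw [ksum, List.append_assoc, List.cons_append, List.nil_append]
  conv_lhs => rw [e0]
  rw [runs_cup0, card_bind]
  have h : ∀ c : ZMod N, Multiset.card (runs (0 : ZMod N)
      (wpow (tk k) a ++ wpow (tk l) b ++ [cap 0]) (put [c, c + 0] 0)) =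
      mult N k ^ a * mult N l ^ b := by
    intro c
    rw [card_runs_append, runs_append, runs_wpow]
    have h1 : (Multiset.replicate (mult N k ^ a) (put [c, c + 0] (0 : ℕ → ZMod N))).bind
        (runs (0 : ZMod N) (wpow (tk l) b)) =
        Multiset.replicate (mult N k ^ a * mult N l ^ b) (put [c, c + 0] 0) := by
      have : (Multiset.replicate (mult N k ^ a) (put [c, c + 0] (0 : ℕ → ZMod N))).bind
          (runs (0 : ZMod N) (wpow (tk l) b)) =
          (Multiset.replicate (mult N k ^ a) (put [c, c + 0] (0 : ℕ → ZMod N))).bind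
          fun _ => Multiset.replicate (mult N l ^ b) (put [c, c + 0] 0) := by
        apply Multiset.bind_congr
        intro y hy
        rw [Multiset.eq_of_mem_replicate hy]; exact runs_wpow l b _
      rw [this, Multiset.eq_replicate]
      constructor
      · rw [card_bind, Multiset.map_const', Multiset.sum_replicate, Multiset.card_replicate,
          Multiset.card_replicate, smul_eq_mul]
      · intro y hy
        rw [Multiset.mem_bind] at hy
        obtain ⟨z, -, hz⟩ := hy
        exact Multiset.eq_of_mem_replicate hz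
    rw [h1, Multiset.map_replicate, Multiset.sum_replicate, runs_cap0, if_pos (by ring),
      runs_nil, Multiset.card_singleton, smul_eq_mul, mul_one]
  simp only [h]
  rw [Multiset.map_const', Multiset.sum_replicate, smul_eq_mul]
  congr 1
  simp [ZMod.card]

theorem mult_two (k : ℕ) : mult 2 k = 1 := by
  have h : (2 * k + 1 : ZMod 2) = 1 := by
    rw [show (2 : ZMod 2) = 0 from rfl, zero_mul, zero_add]
  rw [mult]
  simp only [h, one_mul]
  rfl

theorem isKnot_ksum (k l a b : ℕ) : IsKnot (ksum k l a b) := by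
  refine ⟨dia_ksum k l a b, ?_⟩
  rw [card_ksum, mult_two, mult_two]; simp

section

variable {p : ℕ} [Fact p.Prime]

theorem mult_eq_one {k : ℕ} (h : ¬ p ∣ 2 * k + 1) : mult p k = 1 := by
  have h1 : (2 * k + 1 : ZMod p) ≠ 0 := by
    intro h0
    apply h
    rw [← ZMod.natCast_eq_zero_iff]
    push_cast; exact h0
  rw [mult, Finset.card_eq_one]
  refine ⟨0, ?_⟩
  ext e
  simp [h1]

theorem mult_eq_p {k : ℕ} (h : p ∣ 2 * k + 1) : mult p k = p := by
  have h1 : (2 * k + 1 : ZMod p) = 0 := by
    have := (ZMod.natCast_eq_zero_iff (2 * k + 1) p).2 h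
    push_cast at this; exact this
  rw [mult]
  simp only [h1, zero_mul, Finset.filter_true, Finset.card_univ, ZMod.card]

end

theorem crossings_append (u v : Word) : crossings (u ++ v) = crossings u + crossings v := by
  simp [crossings]

theorem crossings_tk (k : ℕ) : crossings (tk k) = k + 2 := by
  have h1 : crossings (List.replicate k (pos 0)) = k := by
    rw [crossings, List.countP_replicate]; simp
  have h2 : crossings [cup 1] = 0 := by decide
  have h3 : crossings [neg 1, neg 1, cap 0] = 2 := by decide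
  rw [tk, crossings_append, crossings_append, h1, h2, h3]; ring

theorem crossings_wpow (w : Word) (a : ℕ) : crossings (wpow w a) = a * crossings w := by
  induction a with
  | zero => simp [wpow, crossings]
  | succ a ih => rw [wpow, crossings_append, ih]; ring

theorem cr_ksum (k l a b : ℕ) : cr (ksum k l a b) ≤ ((a * (k + 2) + b * (l + 2) : ℕ) : ℕ∞) := by
  refine (iInf_le _ (ksum k l a b)).trans ?_
  refine (iInf_le _ (Iso.refl _)).trans ?_
  have h2 : crossings [cup 0] = 0 := by decide
  have h3 : crossings [cap 0] = 0 := by decide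
  have : crossings (ksum k l a b) = a * (k + 2) + b * (l + 2) := by
    rw [ksum, crossings_append, crossings_append, crossings_append, crossings_wpow,
      crossings_wpow, crossings_tk, crossings_tk, h2, h3]; ring
  rw [this]

/-! Unknotting number one -/

theorem iso_kinks (k : ℕ) : Iso 2 0 (List.replicate k (pos 0) ++ [cap 0]) [cap 0] := by
  induction k with
  | zero => exact Iso.refl _
  | succ k ih =>
    have e : List.replicate (k + 1) (pos 0) ++ [cap 0] =
        List.replicate k (pos 0) ++ [pos 0, cap 0] := by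
      rw [List.replicate_succ', List.append_assoc]; rfl
    rw [e]
    have s : Iso 2 0 (List.replicate k (pos 0) ++ [pos 0, cap 0])
        (List.replicate k (pos 0) ++ [cap 0]) :=
      Iso.pre (dia_replicate_pos (by omega)) (Iso.elem (Elem.r1C 0) (by decide) (by decide))
    exact s.trans ih

theorem unk_twist_le (k : ℕ) : unk (ksum k 0 1 0) ≤ 1 := by
  have e : ksum k 0 1 0 = [cup 0, cup 1] ++ List.replicate k (pos 0) ++ [neg 1, neg 1, cap 0, cap 0] := by
    simp [ksum, wpow, tk]
  rw [e]
  refine (iInf_le _ 1).trans ?_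
  have hsw : ∀ (u : Word) {m : ℕ} {A B : Word}, Switch m A B → Switch m (u ++ A) (u ++ B) := by
    intro u m A B h
    induction u with
    | nil => exact h
    | cons g u ih => exact Switch.keep g ih
  have hS : Switch 1 ([cup 0, cup 1] ++ List.replicate k (pos 0) ++ [neg 1, neg 1, cap 0, cap 0])
      ([cup 0, cup 1] ++ List.replicate k (pos 0) ++ [neg 1, pos 1, cap 0, cap 0]) :=
    hsw _ (Switch.keep _ (Switch.negPos 1 (Switch.refl _)))
  have hI : Iso 0 0 ([cup 0, cup 1] ++ List.replicate k (pos 0) ++ [neg 1, pos 1, cap 0, cap 0])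
      unknot := by
    have d0 : Dia 0 [cup 0, cup 1] 4 := by decide
    have d1 : Dia 4 (List.replicate k (pos 0)) 4 := dia_replicate_pos (by omega)
    have d2 : Dia 0 ([cup 0, cup 1] ++ List.replicate k (pos 0)) 4 := dia_append.2 ⟨4, d0, d1⟩
    have s1 : Iso 0 0 (([cup 0, cup 1] ++ List.replicate k (pos 0)) ++ [neg 1, pos 1] ++ [cap 0, cap 0])
        (([cup 0, cup 1] ++ List.replicate k (pos 0)) ++ [] ++ [cap 0, cap 0]) :=
      Iso.ctx d2 (by decide : Dia 4 [cap 0, cap 0] 0)
        (Iso.elem (Elem.r2B 1) (by decide) (by decide))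
    have s2 : Iso 0 0 ([cup 0, cup 1] ++ (List.replicate k (pos 0) ++ [cap 0]) ++ [cap 0])
        ([cup 0, cup 1] ++ [cap 0] ++ [cap 0]) :=
      Iso.ctx d0 (by decide : Dia 2 [cap 0] 0) ((iso_kinks k).right 2)
    have s3 : Iso 0 0 ([cup 0] ++ [cup 1, cap 0] ++ [cap 0]) ([cup 0] ++ [] ++ [cap 0]) :=
      Iso.step (Elem.zig 0) (by decide) (by decide)
    have e1 : ([cup 0, cup 1] ++ List.replicate k (pos 0)) ++ [neg 1, pos 1] ++ [cap 0, cap 0] =
        [cup 0, cup 1] ++ List.replicate k (pos 0) ++ [neg 1, pos 1, cap 0, cap 0] := by simp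
    have e2 : ([cup 0, cup 1] ++ List.replicate k (pos 0)) ++ [] ++ [cap 0, cap 0] =
        [cup 0, cup 1] ++ (List.replicate k (pos 0) ++ [cap 0]) ++ [cap 0] := by simp
    rw [e1, e2] at s1
    exact s1.trans (s2.trans s3)
  exact (iInf_le _ ⟨_, _, Iso.refl _, hS, hI⟩).trans (by simp)

/-! Flat genus one surfaces -/

/-- The cores of the two bands. -/
def bth (m : ℕ) : Word := [cup 0, cup 2] ++ List.replicate (2 * m + 1) (pos 1)

theorem dia_bth (m : ℕ) : Dia 0 (bth m) 4 :=
  dia_append.2 ⟨4, by decide, dia_replicate_pos (by omega)⟩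

theorem gen_band_le (m : ℕ) : gen (bandKnot 1 (bth m)) ≤ 1 := by
  refine (iInf_le _ 1).trans ?_
  refine (iInf_le _ ⟨bth m, dia_bth m, Iso.refl _⟩).trans ?_
  simp

section inst
variable {N : ℕ} [NeZero N] (τ : ZMod N) (w : Word) (x : ℕ → ZMod N) (l : List (ZMod N))
  (a b p q r s t u v : ZMod N)

theorem runs_pos4 : runs τ (pos 4 :: w) (put (p :: q :: r :: s :: a :: b :: l) x) =
    runs τ w (put (p :: q :: r :: s :: b :: (2 * b - a) :: l) x) :=
  runs_pos_put τ [p, q, r, s] l a b w x
theorem runs_pos5 : runs τ (pos 5 :: w) (put (p :: q :: r :: s :: t :: a :: b :: l) x) =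
    runs τ w (put (p :: q :: r :: s :: t :: b :: (2 * b - a) :: l) x) :=
  runs_pos_put τ [p, q, r, s, t] l a b w x
theorem runs_pos6 : runs τ (pos 6 :: w) (put (p :: q :: r :: s :: t :: u :: a :: b :: l) x) =
    runs τ w (put (p :: q :: r :: s :: t :: u :: b :: (2 * b - a) :: l) x) :=
  runs_pos_put τ [p, q, r, s, t, u] l a b w x
theorem runs_cup2 : runs τ (cup 2 :: w) (put (p :: q :: l) x) =
    (Finset.univ : Finset (ZMod N)).val.bind fun c =>
      runs τ w (put (p :: q :: c :: (c + τ) :: l) x) :=
  runs_cup_put τ [p, q] l w x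
theorem runs_cup3 : runs τ (cup 3 :: w) (put (p :: q :: r :: l) x) =
    (Finset.univ : Finset (ZMod N)).val.bind fun c =>
      runs τ w (put (p :: q :: r :: c :: (c + τ) :: l) x) :=
  runs_cup_put τ [p, q, r] l w x
theorem runs_cup6 : runs τ (cup 6 :: w) (put (p :: q :: r :: s :: t :: u :: l) x) =
    (Finset.univ : Finset (ZMod N)).val.bind fun c =>
      runs τ w (put (p :: q :: r :: s :: t :: u :: c :: (c + τ) :: l) x) :=
  runs_cup_put τ [p, q, r, s, t, u] l w x
theorem runs_cup7 : runs τ (cup 7 :: w) (put (p :: q :: r :: s :: t :: u :: v :: l) x) =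
    (Finset.univ : Finset (ZMod N)).val.bind fun c =>
      runs τ w (put (p :: q :: r :: s :: t :: u :: v :: c :: (c + τ) :: l) x) :=
  runs_cup_put τ [p, q, r, s, t, u, v] l w x

end inst

/-- The doubled crossing in its place in the band knot. -/
def dW : Word := [pos 5, pos 4, pos 6, pos 5]

section

variable {N : ℕ} [NeZero N]

theorem runs_dW (w : Word) (x : ℕ → ZMod N) (l : List (ZMod N)) (p q r s a b c d : ZMod N) :
    runs (0 : ZMod N) (dW ++ w) (put (p :: q :: r :: s :: a :: b :: c :: d :: l) x) =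
      runs 0 w (put (p :: q :: r :: s :: c :: d :: (a + 2 * (d - c)) ::
        (b + 2 * (d - c)) :: l) x) := by
  rw [dW]
  simp only [List.cons_append, List.nil_append]
  rw [runs_pos5, runs_pos4, runs_pos6, runs_pos5]
  have e1 : 2 * d - (2 * c - a) = a + 2 * (d - c) := by ring
  have e2 : 2 * d - (2 * c - b) = b + 2 * (d - c) := by ring
  rw [e1, e2]

theorem runs_dW_even (m : ℕ) (w : Word) (x : ℕ → ZMod N) (l : List (ZMod N))
    (p q r s a b c d : ZMod N) :
    runs (0 : ZMod N) (wpow dW (2 * m) ++ w)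
        (put (p :: q :: r :: s :: a :: b :: c :: d :: l) x) =
      runs 0 w (put (p :: q :: r :: s :: (a + 2 * m * (d - c)) :: (b + 2 * m * (d - c)) ::
        (c + 2 * m * (b - a)) :: (d + 2 * m * (b - a)) :: l) x) := by
  induction m generalizing a b c d with
  | zero => simp [wpow]
  | succ m ih =>
    have e : wpow dW (2 * (m + 1)) ++ w = dW ++ (dW ++ (wpow dW (2 * m) ++ w)) := by
      have : 2 * (m + 1) = 2 * m + 1 + 1 := by ring
      rw [this, wpow, wpow]; simp only [List.append_assoc]
    rw [e, runs_dW, runs_dW, ih]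
    push_cast
    have e1 : a + 2 * (d - c) + 2 * (m : ZMod N) * (d + 2 * (b + 2 * (d - c) - (a + 2 * (d - c))) -
        (c + 2 * (b + 2 * (d - c) - (a + 2 * (d - c))))) = a + 2 * ((m : ZMod N) + 1) * (d - c) := by
      ring
    have e2 : b + 2 * (d - c) + 2 * (m : ZMod N) * (d + 2 * (b + 2 * (d - c) - (a + 2 * (d - c))) -
        (c + 2 * (b + 2 * (d - c) - (a + 2 * (d - c))))) = b + 2 * ((m : ZMod N) + 1) * (d - c) := by
      ring
    have e3 : c + 2 * (b + 2 * (d - c) - (a + 2 * (d - c))) + 2 * (m : ZMod N) *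
        (b + 2 * (d - c) - (a + 2 * (d - c))) = c + 2 * ((m : ZMod N) + 1) * (b - a) := by
      ring
    have e4 : d + 2 * (b + 2 * (d - c) - (a + 2 * (d - c))) + 2 * (m : ZMod N) *
        (b + 2 * (d - c) - (a + 2 * (d - c))) = d + 2 * ((m : ZMod N) + 1) * (b - a) := by
      ring
    rw [e1, e2, e3, e4]

/-- The number of colourings of the band knot as a sum. -/
theorem card_band (m : ℕ) :
    Multiset.card (runs (0 : ZMod N) (bandKnot 1 (bth m)) 0) =
      ∑ z : ZMod N, ∑ a : ZMod N, ∑ b : ZMod N, ∑ c : ZMod N, ∑ d : ZMod N,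
        if (a = z ∧ c = z ∧ (2 * m + 1 : ZMod N) * (z - b) = 0 ∧
          (2 * m + 1 : ZMod N) * (d - z) = 0) then 1 else 0 := by
  classical
  have e0 : (0 : ℕ → ZMod N) = put [] 0 := rfl
  have e1 : bandKnot 1 (bth m) = cup 0 :: cup 2 :: cup 3 :: cup 6 :: cup 7 ::
      (wpow dW (2 * m) ++ (dW ++ [cap 1, cap 1, cap 1, cap 1, cap 0])) := by
    have h1 : ∀ k, sh 2 ((List.replicate k (pos 1)).flatMap dbl) = wpow dW k := by
      intro k
      induction k with
      | zero => rfl
      | succ k ih =>
        rw [List.replicate_succ, List.flatMap_cons, sh_append, ih, wpow]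
        rfl
    have h2 : wpow dW (2 * m + 1) = wpow dW (2 * m) ++ dW := by
      have : ∀ k, wpow dW (k + 1) = wpow dW k ++ dW := by
        intro k
        induction k with
        | zero => simp [wpow]
        | succ k ih =>
          have a1 : wpow dW (k + 1 + 1) = dW ++ wpow dW (k + 1) := rfl
          have a2 : wpow dW (k + 1) = dW ++ wpow dW k := rfl
          rw [a1]
          conv_lhs => rw [ih, ← List.append_assoc, ← a2]
      exact this _
    rw [bandKnot, bth, List.flatMap_append, sh_append, h1, h2]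
    simp [List.append_assoc, dbl, cup, sh, List.replicate]
  rw [e1]
  conv_lhs => rw [e0]
  rw [runs_cup0, card_bind]
  refine Finset.sum_congr rfl (fun z _ => ?_)
  rw [runs_cup2, card_bind]
  refine Finset.sum_congr rfl (fun a _ => ?_)
  rw [runs_cup3, card_bind]
  refine Finset.sum_congr rfl (fun b _ => ?_)
  rw [runs_cup6, card_bind]
  refine Finset.sum_congr rfl (fun c _ => ?_)
  rw [runs_cup7, card_bind]
  refine Finset.sum_congr rfl (fun d _ => ?_)
  simp only [add_zero]
  rw [runs_dW_even, runs_dW, runs_cap1]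
  by_cases h1 : a = z
  swap
  · conv_rhs => rw [if_neg (fun h => h1 h.1)]
    rw [if_neg (by simpa using h1)]; simp
  rw [if_pos (by simpa using h1), runs_cap1]
  subst h1
  by_cases h5 : c = a
  swap
  · conv_rhs => rw [if_neg (fun h => h5 h.2.1)]
    split_ifs with h2
    · rw [runs_cap1]
      split_ifs with h3
      · rw [runs_cap1]
        split_ifs with h4
        · rw [runs_cap0, if_neg (by simpa using h5)]; simp
        · simp
      · simp
    · simp
  subst h5
  by_cases h2 : (2 * m + 1 : ZMod N) * (c - b) = 0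
  swap
  · conv_rhs => rw [if_neg (fun h => h2 h.2.2.1)]
    rw [if_neg]
    · simp
    · intro h; apply h2; linear_combination h
  rw [if_pos (by linear_combination h2), runs_cap1]
  by_cases h3 : (2 * m + 1 : ZMod N) * (d - c) = 0
  · conv_rhs => rw [if_pos ⟨rfl, rfl, h2, h3⟩]
    rw [if_pos (by linear_combination h3 - h2), runs_cap1,
      if_pos (by linear_combination -h3), runs_cap0, if_pos (by ring), runs_nil,
      Multiset.card_singleton]
  · conv_rhs => rw [if_neg (fun h => h3 h.2.2.2)]
    split_ifs with h4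
    · rw [runs_cap1, if_neg]
      · simp
      · intro h; apply h3; linear_combination -h
    · simp

theorem card_band_unit {m : ℕ} (h : ∀ e : ZMod N, (2 * m + 1 : ZMod N) * e = 0 → e = 0) :
    Multiset.card (runs (0 : ZMod N) (bandKnot 1 (bth m)) 0) = N := by
  classical
  rw [card_band]
  have key : ∀ z a b c d : ZMod N, (a = z ∧ c = z ∧ (2 * m + 1 : ZMod N) * (z - b) = 0 ∧
      (2 * m + 1 : ZMod N) * (d - z) = 0) ↔ (a = z ∧ b = z ∧ c = z ∧ d = z) := by
    intro z a b c d
    constructor
    · rintro ⟨h1, h2, h3, h4⟩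
      exact ⟨h1, (sub_eq_zero.1 (h _ h3)).symm, h2, sub_eq_zero.1 (h _ h4)⟩
    · rintro ⟨h1, h2, h3, h4⟩
      exact ⟨h1, h3, by rw [h2]; ring, by rw [h4]; ring⟩
  simp only [key]
  have : ∀ z : ZMod N, (∑ a : ZMod N, ∑ b : ZMod N, ∑ c : ZMod N, ∑ d : ZMod N,
      if (a = z ∧ b = z ∧ c = z ∧ d = z) then 1 else 0) = 1 := by
    intro z
    simp only [ite_and]
    simp
  simp only [this]
  simp [ZMod.card]

theorem card_band_zero {m : ℕ} (h : (2 * m + 1 : ZMod N) = 0) :
    Multiset.card (runs (0 : ZMod N) (bandKnot 1 (bth m)) 0) = N ^ 3 := by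
  classical
  rw [card_band]
  simp only [h, zero_mul, and_true]
  have : ∀ z : ZMod N, (∑ a : ZMod N, ∑ _b : ZMod N, ∑ c : ZMod N, ∑ _d : ZMod N,
      if (a = z ∧ c = z) then 1 else 0) = N ^ 2 := by
    intro z
    simp only [ite_and]
    simp [ZMod.card, pow_two]
  simp only [this]
  simp only [Finset.sum_const, Finset.card_univ, ZMod.card, smul_eq_mul]
  ring

end

theorem isKnot_band (m : ℕ) : IsKnot (bandKnot 1 (bth m)) := by
  refine ⟨?_, ?_⟩
  · have h1 := dia_sh 2 (dia_dbl (dia_bth m))
    have h2 : Dia 0 [cup 0] 2 := by decide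
    have h3 : Dia 10 (List.replicate (4 * 1) (cap 1)) 2 := by decide
    have h4 : Dia 2 [cap 0] 0 := by decide
    exact dia_append.2 ⟨2, dia_append.2 ⟨10, dia_append.2 ⟨2, h2, h1⟩, h3⟩, h4⟩
  · apply card_band_unit
    intro e he
    have h : (2 * m + 1 : ZMod 2) = 1 := by
      rw [show (2 : ZMod 2) = 0 from rfl, zero_mul, zero_add]
    rwa [h, one_mul] at he

end H80Skein
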