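import Pool.Agent.H80Skein.GenIso

/-! The number of `3`-colourings of a knot bounding a disk with `2 * h` flat bands. -/

set_option linter.unusedSimpArgs false
set_option linter.unusedSectionVars false

namespace H80Skein

section

variable {N : ℕ} [NeZero N]

/-- The caps that close the bands. -/
def clw (n : ℕ) : Word := List.replicate n (cap 1) ++ [cap 0]

theorem dia_clw (n : ℕ) : Dia (2 + 2 * n) (clw n) 0 := by
  induction n with
  | zero => decide
  | succ n ih =>
    have e : clw (n + 1) = cap 1 :: clw n := rfl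
    rw [e]
    refine ⟨by simp; omega, ?_⟩
    have e2 : 2 + 2 * (n + 1) - (cap 1).kind.inn + (cap 1).kind.out = 2 + 2 * n := by
      simp; omega
    rw [e2]; exact ih

theorem runs_clw_succ (n : ℕ) (s t : ZMod N) (X : ℕ → ZMod N) :
    runs (0 : ZMod N) (clw (n + 1)) (put [s, t] X) =
      if X 0 = t then runs (0 : ZMod N) (clw n) (put [s, X 1] (tl 2 X)) else 0 := by
  have e : clw (n + 1) = cap 1 :: clw n := rfl
  have e2 : put [s, t] X = put [s, t, X 0, X 1] (tl 2 X) := by
    conv_lhs => rw [eq_put2 X]
    rfl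
  rw [e, e2, runs_cap1, add_zero]

theorem card_clw_le (n : ℕ) : ∀ (s t : ZMod N) (X : ℕ → ZMod N),
    Multiset.card (runs (0 : ZMod N) (clw n) (put [s, t] X)) ≤ 1 := by
  induction n with
  | zero =>
    intro s t X
    have e : clw 0 = [cap 0] := rfl
    rw [e, runs_cap0]
    split_ifs <;> simp
  | succ n ih =>
    intro s t X
    rw [runs_clw_succ]
    split_ifs
    · exact ih _ _ _
    · simp

theorem clw_inj (n : ℕ) : ∀ (s t : ZMod N) (X X' : ℕ → ZMod N),
    runs (0 : ZMod N) (clw n) (put [s, t] X) ≠ 0 → runs (0 : ZMod N) (clw n) (put [s, t] X') ≠ 0 →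
    (∀ i < n, de X i = de X' i) → ∀ j < 2 * n, X j = X' j := by
  induction n with
  | zero => intro s t X X' _ _ _ j hj; omega
  | succ n ih =>
    intro s t X X' h h' hd j hj
    rw [runs_clw_succ] at h h'
    have h1 : X 0 = t := by
      by_contra hne; rw [if_neg hne] at h; exact h rfl
    have h2 : X' 0 = t := by
      by_contra hne; rw [if_neg hne] at h'; exact h' rfl
    rw [if_pos h1] at h
    rw [if_pos h2] at h'
    have h3 : X 1 = X' 1 := by
      have := hd 0 (by omega)
      simp only [de, Nat.mul_zero, Nat.zero_add] at this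
      linear_combination this + h1 - h2
    rw [← h3] at h'
    have h4 := ih s (X 1) (tl 2 X) (tl 2 X') h h' (fun i hi => by
      have := hd (i + 1) (by omega)
      exact this)
    match j with
    | 0 => rw [h1, h2]
    | 1 => exact h3
    | j + 2 => exact h4 j (by omega)

theorem bandKnot_eq (h : ℕ) (θ : Word) : bandKnot h θ = [cup 0] ++ (sh 2 (dblw θ) ++ clw (4 * h)) := by
  simp [bandKnot, clw, dblw]

theorem runs_band (h : ℕ) (θ : Word) : runs (0 : ZMod N) (bandKnot h θ) 0 =
    (Finset.univ : Finset (ZMod N)).val.bind fun s =>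
      (runs (0 : ZMod N) (dblw θ) 0).bind fun X => runs (0 : ZMod N) (clw (4 * h)) (put [s, s] X) := by
  have e0 : (0 : ℕ → ZMod N) = put [] 0 := rfl
  rw [bandKnot_eq, List.cons_append, List.nil_append]
  conv_lhs => rw [e0]
  rw [runs_cup0]
  congr 1
  funext s
  rw [add_zero, runs_append]
  have h1 : runs (0 : ZMod N) (sh 2 (dblw θ)) (put [s, s] 0) =
      (runs (0 : ZMod N) (dblw θ) 0).map (put [s, s]) := by
    have := runs_sh_put (0 : ZMod N) [s, s] (dblw θ) 0
    simpa using this
  rw [h1, Multiset.bind_map]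

end

open scoped Classical in
theorem count_le_one_of_knot {h : ℕ} {θ : Word}
    (hk : IsKnot (bandKnot h θ)) : Multiset.count 0 (runs (0 : ZMod 2) θ 0) ≤ 1 := by
  -- doubling of labels
  let dd : (ℕ → ZMod 2) → ℕ → ZMod 2 := fun z j => z (j / 2)
  have hdd4 : ∀ (a b : ZMod 2) (z : ℕ → ZMod 2), dd (put [a, b] z) = put [a, a, b, b] (dd z) := by
    intro a b z
    funext j
    match j with
    | 0 => rfl
    | 1 => rfl
    | 2 => rfl
    | 3 => rfl
    | j + 4 =>
      simp only [dd]
      have : (j + 4) / 2 = j / 2 + 2 := by omega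
      rw [this]; rfl
  have hddpre : ∀ (i : ℕ) (z y : ℕ → ZMod 2), dd (pre i z y) = pre (2 * i) (dd z) (dd y) := by
    intro i z y
    funext j
    simp only [dd, pre]
    by_cases hj : j < 2 * i
    · rw [if_pos hj, if_pos (by omega)]
    · rw [if_neg hj, if_neg (by omega)]
      congr 1; omega
  have hddtl : ∀ (i : ℕ) (z : ℕ → ZMod 2), dd (tl i z) = tl (2 * i) (dd z) := by
    intro i z
    funext j
    simp only [dd, tl]
    congr 1; omega
  have hdd0 : dd 0 = 0 := rfl
  have base : ∀ (k : Kind) (z : ℕ → ZMod 2), (act (0 : ZMod 2) ⟨k, 0⟩ z).map dd ≤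
      runs (0 : ZMod 2) (dbl ⟨k, 0⟩) (dd z) := by
    intro k z
    rw [act0_eq]
    cases k with
    | cup =>
      change (runs (0 : ZMod 2) [cup 0] z).map dd ≤ _
      rw [runs_dbl_cup]
      rw [← put_nil z, runs_cup0, Multiset.map_bind]
      have e1 : ∀ F : ZMod 2 → Multiset (ℕ → ZMod 2),
          (Finset.univ : Finset (ZMod 2)).val.bind F = F 0 + F 1 := by
        intro F
        have : (Finset.univ : Finset (ZMod 2)).val.bind F = ∑ c : ZMod 2, F c := rfl
        rw [this]
        exact Fin.sum_univ_two F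
      rw [e1, e1, e1, e1]
      simp only [runs_nil, Multiset.map_singleton, add_zero, hdd4, put_nil]
      exact add_le_add (Multiset.le_add_right _ _) (Multiset.le_add_left _ _)
    | cap =>
      change (runs (0 : ZMod 2) [cap 0] z).map dd ≤ _
      rw [runs_dbl_cap, eq_put2 z, runs_cap0, hdd4]
      simp only [put_nil, runs_nil, add_zero]
      by_cases h0 : z 1 = z 0
      · rw [if_pos h0, if_pos]
        · rw [Multiset.map_singleton]
          rfl
        · exact ⟨h0, h0⟩
      · rw [if_neg h0]; simp
    | pos =>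
      change (runs (0 : ZMod 2) [pos 0] z).map dd ≤ _
      rw [runs_dbl_pos, eq_put2 z, runs_pos0, hdd4, z2, runs_nil, Multiset.map_singleton, hdd4]
      have : (put [z 0, z 0, z 1, z 1] (dd (tl 2 z))) 0 + 2 * ((put [z 0, z 0, z 1, z 1] (dd (tl 2 z))) 3 -
          (put [z 0, z 0, z 1, z 1] (dd (tl 2 z))) 2) = z 0 := by
        show z 0 + 2 * (z 1 - z 1) = z 0
        ring
      rw [this]
      have : (put [z 0, z 0, z 1, z 1] (dd (tl 2 z))) 1 + 2 * ((put [z 0, z 0, z 1, z 1] (dd (tl 2 z))) 3 -
          (put [z 0, z 0, z 1, z 1] (dd (tl 2 z))) 2) = z 0 := by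
        show z 0 + 2 * (z 1 - z 1) = z 0
        ring
      rw [this]
      exact le_refl _
    | neg =>
      change (runs (0 : ZMod 2) [neg 0] z).map dd ≤ _
      rw [runs_dbl_neg, eq_put2 z, runs_neg0, hdd4, z2, runs_nil, Multiset.map_singleton, hdd4]
      have : (put [z 0, z 0, z 1, z 1] (dd (tl 2 z))) 2 + 2 * ((put [z 0, z 0, z 1, z 1] (dd (tl 2 z))) 0 -
          (put [z 0, z 0, z 1, z 1] (dd (tl 2 z))) 1) = z 1 := by
        show z 1 + 2 * (z 0 - z 0) = z 1
        ring
      rw [this]
      have : (put [z 0, z 0, z 1, z 1] (dd (tl 2 z))) 3 + 2 * ((put [z 0, z 0, z 1, z 1] (dd (tl 2 z))) 0 -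
          (put [z 0, z 0, z 1, z 1] (dd (tl 2 z))) 1) = z 1 := by
        show z 1 + 2 * (z 0 - z 0) = z 1
        ring
      rw [this]
      exact le_refl _
  have hstep : ∀ (g : Gen) (z : ℕ → ZMod 2), (act (0 : ZMod 2) g z).map dd ≤
      runs (0 : ZMod 2) (dbl g) (dd z) := by
    rintro ⟨k, i⟩ z
    have h1 := act_shift (0 : ZMod 2) k 0 i z
    rw [Nat.zero_add] at h1
    rw [h1, dbl_eq_sh, runs_sh, Multiset.map_map, ← hddtl]
    have h2 := Multiset.map_le_map (f := pre (2 * i) (dd z)) (base k (tl i z))
    rw [Multiset.map_map] at h2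
    have e : dd ∘ pre i z = pre (2 * i) (dd z) ∘ dd := by
      funext y; exact hddpre i z y
    rw [e]; exact h2
  have hbind : ∀ {s t : Multiset (ℕ → ZMod 2)} {f g : (ℕ → ZMod 2) → Multiset (ℕ → ZMod 2)},
      s ≤ t → (∀ x, f x ≤ g x) → s.bind f ≤ t.bind g := by
    intro s t f g hst hfg
    obtain ⟨u, rfl⟩ := Multiset.le_iff_exists_add.1 hst
    rw [Multiset.add_bind]
    refine le_trans ?_ (Multiset.le_add_right _ _)
    clear hst
    induction s using Multiset.induction_on with
    | empty => simp
    | cons a s ih => rw [Multiset.cons_bind, Multiset.cons_bind]; exact add_le_add (hfg a) ih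
  have hruns : ∀ (w : Word) (z : ℕ → ZMod 2), (runs (0 : ZMod 2) w z).map dd ≤
      runs (0 : ZMod 2) (dblw w) (dd z) := by
    intro w
    induction w with
    | nil => intro z; simp [dblw]
    | cons g w ih =>
      intro z
      rw [runs_cons, Multiset.map_bind, dblw_cons, runs_append]
      refine le_trans (hbind (le_refl _) ih) ?_
      have : (act (0 : ZMod 2) g z).bind (fun y => runs (0 : ZMod 2) (dblw w) (dd y)) =
          ((act (0 : ZMod 2) g z).map dd).bind (runs (0 : ZMod 2) (dblw w)) := by
        rw [Multiset.bind_map]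
      rw [this]
      exact hbind (hstep g z) fun _ => le_refl _
  have hcount : Multiset.count 0 (runs (0 : ZMod 2) θ 0) ≤
      Multiset.count 0 (runs (0 : ZMod 2) (dblw θ) 0) := by
    have h1 := Multiset.count_le_of_le (0 : ℕ → ZMod 2) (hruns θ 0)
    rw [hdd0] at h1
    refine le_trans ?_ h1
    have h2 : Multiset.count 0 (runs (0 : ZMod 2) θ 0) ≤
        Multiset.count (dd 0) ((runs (0 : ZMod 2) θ 0).map dd) := by
      have h3 := count_bind_ge (runs (0 : ZMod 2) θ 0) (f := fun x => {dd x}) (a := 0)
        (b := dd 0) (Multiset.mem_singleton_self _)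
      rwa [Multiset.bind_singleton] at h3
    exact h2
  -- the word above the first cup
  set v := sh 2 (dblw θ) ++ clw (4 * h) with hv
  have hdv : Dia 2 v 0 := by
    have h1 := hk.1
    rw [bandKnot_eq, dia_append] at h1
    obtain ⟨l, h2, h3⟩ := h1
    have : l = 2 := by
      have := h2.2
      rw [dia_nil] at this
      simpa using this.symm
    rw [← this]; exact h3
  have hkn : Multiset.card (runs (0 : ZMod 2) (bandKnot h θ) 0) =
      Multiset.card (runs (0 : ZMod 2) v 0) + Multiset.card (runs (0 : ZMod 2) v 0) := by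
    have e0 : (0 : ℕ → ZMod 2) = put [] 0 := rfl
    rw [bandKnot_eq, List.cons_append, List.nil_append]
    conv_lhs => rw [e0]
    rw [runs_cup0, card_bind]
    have e1 : ∀ F : ZMod 2 → ℕ, ((Finset.univ : Finset (ZMod 2)).val.map F).sum = F 0 + F 1 := by
      intro F
      have : ((Finset.univ : Finset (ZMod 2)).val.map F).sum = ∑ c : ZMod 2, F c := rfl
      rw [this]
      exact Fin.sum_univ_two F
    rw [e1]
    simp only [add_zero]
    congr 1
    · apply card_runs_congr _ hdv
      intro j hj
      match j with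
      | 0 => rfl
      | 1 => rfl
    · have h1 : Multiset.card (runs (0 : ZMod 2) v (put [1, 1] 0)) =
          Multiset.card (runs (0 : ZMod 2) v (fun _ => 1)) := by
        apply card_runs_congr _ hdv
        intro j hj
        match j with
        | 0 => rfl
        | 1 => rfl
      rw [h1, runs_one, Multiset.card_map]
  have hv1 : Multiset.card (runs (0 : ZMod 2) v 0) = 1 := by
    have := hk.2
    rw [hkn] at this
    omega
  -- the zero labelling
  have h5 : Multiset.count 0 (runs (0 : ZMod 2) (dblw θ) 0) ≤ Multiset.card (runs (0 : ZMod 2) v 0) := by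
    have h6 : Multiset.count 0 (runs (0 : ZMod 2) (dblw θ) 0) ≤
        Multiset.count 0 (runs (0 : ZMod 2) v 0) := by
      rw [hv, runs_append, runs_sh]
      have e1 : tl 2 (0 : ℕ → ZMod 2) = 0 := rfl
      rw [e1, Multiset.bind_map]
      apply count_bind_ge
      have e2 : pre 2 (0 : ℕ → ZMod 2) 0 = 0 := by funext j; simp [pre]
      rw [e2]
      exact zero_mem_runs _
    exact h6.trans (Multiset.count_le_card _ _)
  omega

theorem dia_dblw {m n : ℕ} {w : Word} (h : Dia m w n) : Dia (2 * m) (dblw w) (2 * n) := dia_dbl h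

open scoped Classical in
/-- A knot bounding a disk with `2 * h` flat bands has at most `3 ^ (2 * h + 1)` colourings. -/
theorem card_band_le {h : ℕ} {θ : Word} (hθ : Dia 0 θ (4 * h)) (hk : IsKnot (bandKnot h θ)) :
    Multiset.card (runs (0 : ZMod 3) (bandKnot h θ) 0) ≤ 3 ^ (2 * h + 1) := by
  have e4 : 4 * h = 2 * (2 * h) := by ring
  have hθ' : Dia 0 θ (2 * (2 * h)) := hθ.cast rfl e4 rfl
  have hc := count_le_one_of_knot hk
  set S := runs (0 : ZMod 3) (dblw θ) 0 with hS
  have hS0 : Multiset.count 0 S ≤ 1 := (dbl_rigid θ hc).1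
  have hSn : S.Nodup := by
    rw [Multiset.nodup_iff_count_le_one]
    intro X
    by_cases hX : X ∈ S
    · have h1 := runs_add (dblw θ) (x := 0) hX
      rw [add_zero] at h1
      rw [hS, h1]
      have h2 := Multiset.count_map_eq_count' (fun Y => Y + X) (runs (0 : ZMod 3) (dblw θ) 0)
        (add_left_injective X) 0
      rw [zero_add] at h2
      rw [h2]
      exact hS0
    · rw [Multiset.count_eq_zero_of_notMem hX]; omega
  have key : ∀ s : ZMod 3, Multiset.card (S.bind fun X =>
      runs (0 : ZMod 3) (clw (4 * h)) (put [s, s] X)) ≤ 3 ^ (2 * h) := by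
    intro s
    set f : (ℕ → ZMod 3) → Multiset (ℕ → ZMod 3) :=
      fun X => runs (0 : ZMod 3) (clw (4 * h)) (put [s, s] X) with hf
    set T := S.filter fun X => f X ≠ 0 with hT
    have h1 : Multiset.card (S.bind f) ≤ Multiset.card T := by
      rw [hT]
      clear_value S
      clear hSn hS0 hS hT
      induction S using Multiset.induction_on with
      | empty => simp
      | cons a S ih =>
        rw [Multiset.cons_bind, Multiset.card_add]
        by_cases ha : f a ≠ 0
        · rw [Multiset.filter_cons_of_pos (p := fun X => f X ≠ 0) _ ha, Multiset.card_cons]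
          have := card_clw_le (4 * h) s s a
          have h2 : Multiset.card (f a) ≤ 1 := this
          omega
        · rw [Multiset.filter_cons_of_neg (p := fun X => f X ≠ 0) _ ha]
          have h2 : Multiset.card (f a) = 0 := by
            rw [Multiset.card_eq_zero]
            by_contra h3
            exact ha h3
          omega
    refine h1.trans ?_
    have hTn : T.Nodup := hSn.filter _
    let φ : (ℕ → ZMod 3) → Fin (2 * (2 * h)) → ZMod 3 := fun X i => de X i
    have hinj : ∀ X ∈ T, ∀ Y ∈ T, φ X = φ Y → X = Y := by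
      intro X hX Y hY hXY
      rw [hT, Multiset.mem_filter] at hX hY
      have h3 := clw_inj (4 * h) s s X Y hX.2 hY.2 (fun i hi => by
        have := congrFun hXY ⟨i, by omega⟩
        exact this)
      funext j
      by_cases hj : j < 2 * (4 * h)
      · exact h3 j hj
      · rw [mem_runs_zero (dia_dblw hθ) hX.1 (by omega), mem_runs_zero (dia_dblw hθ) hY.1 (by omega)]
    have h4 : Multiset.card T = T.toFinset.card := by
      rw [Multiset.toFinset_card_of_nodup hTn]
    have h5 : T.toFinset.card ≤ Nat.card (feet θ (2 * (2 * h))) := by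
      have h6 : T.toFinset.card ≤ (Set.toFinset (feet θ (2 * (2 * h)) :
          Set (Fin (2 * (2 * h)) → ZMod 3))).card := by
        apply Finset.card_le_card_of_injOn φ
        · intro X hX
          rw [Finset.mem_coe, Multiset.mem_toFinset, hT, Multiset.mem_filter] at hX
          rw [Finset.mem_coe, Set.mem_toFinset]
          exact ⟨X, hX.1, fun i => rfl⟩
        · intro X hX Y hY hXY
          rw [Finset.mem_coe, Multiset.mem_toFinset] at hX hY
          exact hinj X hX Y hY hXY
      rw [Set.toFinset_card] at h6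
      rw [Nat.card_eq_fintype_card]
      exact h6
    rw [h4]
    exact h5.trans (card_feet hθ')
  rw [runs_band, card_bind]
  have e1 : ∀ F : ZMod 3 → ℕ, ((Finset.univ : Finset (ZMod 3)).val.map F).sum = ∑ c : ZMod 3, F c :=
    fun _ => rfl
  rw [e1]
  calc _ ≤ ∑ _c : ZMod 3, 3 ^ (2 * h) := Finset.sum_le_sum fun c _ => key c
    _ = _ := by rw [Finset.sum_const, Finset.card_univ, ZMod.card, smul_eq_mul, pow_succ']

/-- Colourings bound the genus from below. -/
theorem card_le_gen {D : Word} (hD : IsKnot D) {h : ℕ}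
    (hh : ∃ θ, Dia 0 θ (4 * h) ∧ Iso 0 0 D (bandKnot h θ)) :
    Multiset.card (runs (0 : ZMod 3) D 0) ≤ 3 ^ (2 * h + 1) := by
  obtain ⟨θ, hθ, hi⟩ := hh
  rw [runs_iso (by simp) hi]
  exact card_band_le hθ (hD.iso hi)

end H80Skein
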