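import Pool.Agent.H80Skein.GenLow

/-! The differences of the labels of the feet of the bands form an isotropic space. -/

set_option linter.unusedSimpArgs false
set_option linter.unusedSectionVars false

namespace H80Skein

section

variable {N : ℕ} [NeZero N]

/-- The sign of an orientation. -/
def sg (N : ℕ) (a : ZMod 2) : ZMod N := if a = 0 then 1 else -1

theorem sg_add (a : ZMod 2) : sg N (a + 1) = - sg N a := by
  have h : a = 0 ∨ a = 1 := by revert a; decide
  rcases h with rfl | rfl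
  · simp [sg]
  · have e : (1 + 1 : ZMod 2) = 0 := by decide
    simp [sg, e]

/-- The signed product of two labellings. -/
def qf (m : ℕ) (y : ℕ → ZMod 2) (u v : ℕ → ZMod N) : ZMod N :=
  ∑ j ∈ Finset.range m, sg N (y j) * u j * v j

theorem qf_pre (i m : ℕ) (y y' : ℕ → ZMod 2) (u u' v v' : ℕ → ZMod N) :
    qf (i + m) (pre i y y') (pre i u u') (pre i v v') = qf i y u v + qf m y' u' v' := by
  unfold qf
  rw [Finset.sum_range_add]
  congr 1
  · apply Finset.sum_congr rfl
    intro j hj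
    rw [Finset.mem_range] at hj
    rw [pre_lt hj, pre_lt hj, pre_lt hj]
  · apply Finset.sum_congr rfl
    intro j _
    rw [pre_ge (by omega), pre_ge (by omega), pre_ge (by omega), Nat.add_sub_cancel_left]

theorem qf_split (i m : ℕ) (y : ℕ → ZMod 2) (u v : ℕ → ZMod N) :
    qf (i + m) y u v = qf i y u v + qf m (tl i y) (tl i u) (tl i v) := by
  have := qf_pre i m y (tl i y) u (tl i u) v (tl i v)
  rwa [pre_tl, pre_tl, pre_tl] at this

theorem qf_put2 (m : ℕ) (a b : ZMod 2) (y : ℕ → ZMod 2) (p q r s : ZMod N) (u v : ℕ → ZMod N) :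
    qf (m + 2) (put [a, b] y) (put [p, q] u) (put [r, s] v) =
      sg N a * p * r + sg N b * q * s + qf m y u v := by
  unfold qf
  rw [Finset.sum_range_succ', Finset.sum_range_succ']
  simp only [put_cons_zero, put_cons_succ, put_nil]
  ring

theorem qf_act0 (k : Kind) {m : ℕ} (hm : k.inn ≤ m) {y y' : ℕ → ZMod 2} {X X' Y Y' : ℕ → ZMod N}
    (hy : y' ∈ act (1 : ZMod 2) ⟨k, 0⟩ y) (hX : X' ∈ runs (0 : ZMod N) (dbl ⟨k, 0⟩) X)
    (hY : Y' ∈ runs (0 : ZMod N) (dbl ⟨k, 0⟩) Y) :
    qf (m - k.inn + k.out) y' (de X') (de Y') = qf m y (de X) (de Y) := by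
  rw [act0_eq] at hy
  cases k with
  | cup =>
    rw [mem_dbl_cup] at hX hY
    obtain ⟨a, b, rfl⟩ := hX
    obtain ⟨c, d, rfl⟩ := hY
    change y' ∈ runs (1 : ZMod 2) [cup 0] y at hy
    rw [← put_nil y, runs_cup0, Multiset.mem_bind] at hy
    obtain ⟨e, -, hy⟩ := hy
    rw [runs_nil, Multiset.mem_singleton] at hy
    subst hy
    simp only [inn_cup, out_cup, Nat.sub_zero]
    rw [de_put4, de_put4, qf_put2, sg_add]
    ring
  | cap =>
    obtain ⟨r, rfl⟩ : ∃ r, m = r + 2 := ⟨m - 2, by simp at hm; omega⟩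
    rw [runs_dbl_cap] at hX hY
    split_ifs at hX with h1
    · split_ifs at hY with h2
      · rw [Multiset.mem_singleton] at hX hY
        subst hX hY
        change y' ∈ runs (1 : ZMod 2) [cap 0] y at hy
        rw [eq_put2 y, runs_cap0] at hy
        split_ifs at hy with h3
        · rw [runs_nil, Multiset.mem_singleton] at hy
          subst hy
          simp only [inn_cap, out_cap, Nat.add_sub_cancel, add_zero]
          conv_rhs => rw [eq_put2 y, de_eq4 X, de_eq4 Y, qf_put2, h3, sg_add, h1.1, h1.2, h2.1, h2.2]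
          rw [put_nil]
          ring
        · simp at hy
      · simp at hY
    · simp at hX
  | pos =>
    obtain ⟨r, rfl⟩ : ∃ r, m = r + 2 := ⟨m - 2, by simp at hm; omega⟩
    rw [runs_dbl_pos, Multiset.mem_singleton] at hX hY
    subst hX hY
    change y' ∈ runs (1 : ZMod 2) [pos 0] y at hy
    rw [eq_put2 y, runs_pos0, runs_nil, Multiset.mem_singleton, z2] at hy
    subst hy
    simp only [inn_pos, out_pos, Nat.add_sub_cancel]
    rw [de_put4, de_put4, qf_put2]
    conv_rhs => rw [eq_put2 y, de_eq4 X, de_eq4 Y, qf_put2]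
    ring
  | neg =>
    obtain ⟨r, rfl⟩ : ∃ r, m = r + 2 := ⟨m - 2, by simp at hm; omega⟩
    rw [runs_dbl_neg, Multiset.mem_singleton] at hX hY
    subst hX hY
    change y' ∈ runs (1 : ZMod 2) [neg 0] y at hy
    rw [eq_put2 y, runs_neg0, runs_nil, Multiset.mem_singleton, z2] at hy
    subst hy
    simp only [inn_neg, out_neg, Nat.add_sub_cancel]
    rw [de_put4, de_put4, qf_put2]
    conv_rhs => rw [eq_put2 y, de_eq4 X, de_eq4 Y, qf_put2]
    ring

theorem qf_step {g : Gen} {m m' : ℕ} (hg : Dia m [g] m') {y y' : ℕ → ZMod 2}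
    {X X' Y Y' : ℕ → ZMod N} (hy : y' ∈ act (1 : ZMod 2) g y)
    (hX : X' ∈ runs (0 : ZMod N) (dbl g) X) (hY : Y' ∈ runs (0 : ZMod N) (dbl g) Y) :
    qf m' y' (de X') (de Y') = qf m y (de X) (de Y) := by
  obtain ⟨k, i⟩ := g
  obtain ⟨h1, h2⟩ := hg
  rw [dia_nil] at h2
  simp only at h1 h2
  rw [mem_dbl] at hX hY
  obtain ⟨X1, hX1, rfl⟩ := hX
  obtain ⟨Y1, hY1, rfl⟩ := hY
  have := act_shift (1 : ZMod 2) k 0 i y
  rw [Nat.zero_add] at this
  rw [this, Multiset.mem_map] at hy
  obtain ⟨y1, hy1, rfl⟩ := hy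
  obtain ⟨r, rfl⟩ : ∃ r, m = i + r := ⟨m - i, by omega⟩
  obtain rfl : m' = i + (r - k.inn + k.out) := by omega
  rw [de_pre, de_pre, qf_pre, qf_split i r y, ← de_tl, ← de_tl]
  congr 1
  exact qf_act0 k (by omega) hy1 hX1 hY1

theorem qf_runs (w : Word) : ∀ {m n : ℕ}, Dia m w n → ∀ {y y' : ℕ → ZMod 2}
    {X X' Y Y' : ℕ → ZMod N}, y' ∈ runs (1 : ZMod 2) w y → X' ∈ runs (0 : ZMod N) (dblw w) X →
    Y' ∈ runs (0 : ZMod N) (dblw w) Y → qf n y' (de X') (de Y') = qf m y (de X) (de Y) := by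
  induction w with
  | nil =>
    intro m n h y y' X X' Y Y' hy hX hY
    rw [dia_nil] at h
    subst h
    have e : dblw [] = [] := rfl
    rw [e, runs_nil, Multiset.mem_singleton] at hX hY
    rw [runs_nil, Multiset.mem_singleton] at hy
    rw [hy, hX, hY]
  | cons g w ih =>
    intro m n h y y' X X' Y Y' hy hX hY
    rw [dblw_cons, runs_append, Multiset.mem_bind] at hX hY
    rw [runs_cons, Multiset.mem_bind] at hy
    obtain ⟨y1, hy1, hy⟩ := hy
    obtain ⟨X1, hX1, hX⟩ := hX
    obtain ⟨Y1, hY1, hY⟩ := hY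
    obtain ⟨h1, h2⟩ := h
    rw [ih h2 hy hX hY]
    exact qf_step ⟨h1, rfl⟩ hy1 hX1 hY1

theorem exists_orient {w : Word} {n : ℕ} (h : Dia 0 w n) : ∃ y, y ∈ runs (1 : ZMod 2) w 0 := by
  have hS : Dia 0 (w ++ flp w) 0 := dia_append.2 ⟨n, h, dia_flp h⟩
  obtain ⟨κ, c, -, hb⟩ := exists_matching hS
  have h1 := hb 1 0
  rw [if_pos (by intro i hi; omega)] at h1
  have h2 : runs (1 : ZMod 2) (w ++ flp w) 0 ≠ 0 := by
    intro h0
    rw [h0] at h1
    simp at h1
    have : 0 < 2 ^ c := by positivity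
    omega
  obtain ⟨z, hz⟩ := Multiset.exists_mem_of_ne_zero h2
  rw [runs_append, Multiset.mem_bind] at hz
  obtain ⟨y, hy, -⟩ := hz
  exact ⟨y, hy⟩

end

section

/-- The space of the differences at the feet. -/
def feet (w : Word) (n : ℕ) : Submodule (ZMod 3) (Fin n → ZMod 3) where
  carrier := {u | ∃ X ∈ runs (0 : ZMod 3) (dblw w) 0, ∀ i : Fin n, u i = de X i}
  zero_mem' := ⟨0, zero_mem_runs _, fun i => by simp [de]⟩
  add_mem' := by
    rintro a b ⟨X, hX, ha⟩ ⟨Y, hY, hb⟩
    refine ⟨X + Y, ?_, fun i => ?_⟩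
    · have := runs_add (dblw w) (x := 0) hY
      rw [add_zero] at this
      rw [this, Multiset.mem_map]
      exact ⟨X, hX, rfl⟩
    · rw [Pi.add_apply, ha, hb]
      simp only [de, Pi.add_apply]; ring
  smul_mem' := by
    rintro c a ⟨X, hX, ha⟩
    have h2 : X + X ∈ runs (0 : ZMod 3) (dblw w) 0 := by
      have := runs_add (dblw w) (x := 0) hX
      rw [add_zero] at this
      rw [this, Multiset.mem_map]
      exact ⟨X, hX, rfl⟩
    have hc : c = 0 ∨ c = 1 ∨ c = 2 := by revert c; decide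
    rcases hc with rfl | rfl | rfl
    · exact ⟨0, zero_mem_runs _, fun i => by simp [de]⟩
    · exact ⟨X, hX, fun i => by simp [ha]⟩
    · refine ⟨X + X, h2, fun i => ?_⟩
      rw [Pi.smul_apply, ha]
      simp only [de, Pi.add_apply, smul_eq_mul]; ring

theorem card_feet {w : Word} {n : ℕ} (h : Dia 0 w (2 * n)) :
    Nat.card (feet w (2 * n)) ≤ 3 ^ n := by
  classical
  have : Fact (Nat.Prime 3) := ⟨by norm_num⟩
  obtain ⟨y, hy⟩ := exists_orient h
  let d : Fin (2 * n) → ZMod 3 := fun i => sg 3 (y i)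
  let B : LinearMap.BilinForm (ZMod 3) (Fin (2 * n) → ZMod 3) := Matrix.toBilin' (Matrix.diagonal d)
  have hd : ∀ i, d i ≠ 0 := by
    intro i
    simp only [d, sg]
    have a1 : (1 : ZMod 3) ≠ 0 := one_ne_zero
    have a2 : (-1 : ZMod 3) ≠ 0 := neg_ne_zero.2 one_ne_zero
    split_ifs
    · exact a1
    · exact a2
  have hB : B.Nondegenerate := by
    apply LinearMap.BilinForm.nondegenerate_toBilin'_of_det_ne_zero'
    rw [Matrix.det_diagonal]
    exact Finset.prod_ne_zero_iff.2 fun i _ => hd i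
  have hBs : B.IsRefl := by
    apply LinearMap.IsSymm.isRefl
    refine ⟨fun u v => ?_⟩
    simp only [B, RingHom.id_apply]
    rw [Matrix.toBilin'_apply', Matrix.toBilin'_apply']
    simp only [Matrix.mulVec_diagonal, dotProduct]
    apply Finset.sum_congr rfl
    intro i _
    ring
  have hiso : feet w (2 * n) ≤ B.orthogonal (feet w (2 * n)) := by
    rintro u ⟨X, hX, hu⟩
    rw [LinearMap.BilinForm.mem_orthogonal_iff]
    rintro v ⟨Y, hY, hv⟩
    have hq := qf_runs w h hy hY hX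
    have : B v u = qf (2 * n) y (de Y) (de X) := by
      simp only [B]
      rw [Matrix.toBilin'_apply']
      simp only [Matrix.mulVec_diagonal, dotProduct, qf]
      rw [Finset.sum_range]
      apply Finset.sum_congr rfl
      intro i _
      rw [hu, hv]
      simp only [d]
      ring
    show B v u = 0
    rw [this, hq]
    simp [qf]
  have hfin := LinearMap.BilinForm.finrank_orthogonal hB (feet w (2 * n))
  have h1 := Submodule.finrank_mono hiso
  have h2 := Submodule.finrank_le (feet w (2 * n))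
  rw [Module.finrank_fin_fun] at hfin h2
  have h3 : Module.finrank (ZMod 3) (feet w (2 * n)) ≤ n := by omega
  rw [Module.natCard_eq_pow_finrank (K := ZMod 3) (V := feet w (2 * n))]
  rw [Nat.card_zmod]
  exact Nat.pow_le_pow_right (by norm_num) h3

end

end H80Skein
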