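import Pool.Agent.H80Skein.LitUnk

/-! Colourings of the boundary of a disk with `2 * h` flat bands. -/

set_option linter.unusedSimpArgs false
set_option linter.unusedSectionVars false

namespace H80Skein

/-- Every strand doubled. -/
def dblw (w : Word) : Word := w.flatMap dbl

theorem dblw_cons (g : Gen) (w : Word) : dblw (g :: w) = dbl g ++ dblw w := rfl
theorem dblw_append (u v : Word) : dblw (u ++ v) = dblw u ++ dblw v := by
  simp [dblw]

theorem dbl_eq_sh (k : Kind) (i : ℕ) : dbl ⟨k, i⟩ = sh (2 * i) (dbl ⟨k, 0⟩) := by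
  cases k <;> simp [dbl, sh, cup, cap, pos, neg] <;> omega

section

variable {N : ℕ} [NeZero N]

theorem mem_dbl {k : Kind} {i : ℕ} {X X' : ℕ → ZMod N} :
    X' ∈ runs (0 : ZMod N) (dbl ⟨k, i⟩) X ↔
      ∃ Y ∈ runs (0 : ZMod N) (dbl ⟨k, 0⟩) (tl (2 * i) X), X' = pre (2 * i) X Y := by
  rw [dbl_eq_sh, runs_sh, Multiset.mem_map]
  constructor
  · rintro ⟨Y, hY, rfl⟩; exact ⟨Y, hY, rfl⟩
  · rintro ⟨Y, hY, rfl⟩; exact ⟨Y, hY, rfl⟩

theorem runs_dbl_cup (Z : ℕ → ZMod N) : runs (0 : ZMod N) (dbl ⟨.cup, 0⟩) Z =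
    (Finset.univ : Finset (ZMod N)).val.bind fun a =>
      (Finset.univ : Finset (ZMod N)).val.bind fun b => {put [a, b, b, a] Z} := by
  have e : dbl ⟨.cup, 0⟩ = [cup 0, cup 1] := rfl
  rw [e]
  conv_lhs => rw [← put_nil Z]
  rw [runs_cup0]
  congr 1
  funext a
  rw [runs_cup1]
  congr 1
  funext b
  rw [runs_nil, add_zero, add_zero]

theorem mem_dbl_cup {Y Z : ℕ → ZMod N} : Y ∈ runs (0 : ZMod N) (dbl ⟨.cup, 0⟩) Z ↔
    ∃ a b, Y = put [a, b, b, a] Z := by
  rw [runs_dbl_cup, Multiset.mem_bind]
  constructor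
  · rintro ⟨a, -, h⟩
    rw [Multiset.mem_bind] at h
    obtain ⟨b, -, h⟩ := h
    exact ⟨a, b, Multiset.mem_singleton.1 h⟩
  · rintro ⟨a, b, rfl⟩
    refine ⟨a, Finset.mem_univ a, ?_⟩
    rw [Multiset.mem_bind]
    exact ⟨b, Finset.mem_univ b, Multiset.mem_singleton_self _⟩

theorem runs_dbl_cap (Z : ℕ → ZMod N) : runs (0 : ZMod N) (dbl ⟨.cap, 0⟩) Z =
    if Z 2 = Z 1 ∧ Z 3 = Z 0 then {tl 4 Z} else 0 := by
  have e : dbl ⟨.cap, 0⟩ = [cap 1, cap 0] := rfl
  rw [e]
  conv_lhs => rw [eq_put4 Z]
  rw [runs_cap1, runs_cap0, runs_nil, add_zero, add_zero, put_nil]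
  by_cases h1 : Z 2 = Z 1 <;> by_cases h2 : Z 3 = Z 0 <;> simp [h1, h2]

theorem runs_dbl_pos (Z : ℕ → ZMod N) : runs (0 : ZMod N) (dbl ⟨.pos, 0⟩) Z =
    {put [Z 2, Z 3, Z 0 + 2 * (Z 3 - Z 2), Z 1 + 2 * (Z 3 - Z 2)] (tl 4 Z)} := by
  have e : dbl ⟨.pos, 0⟩ = [pos 1, pos 0, pos 2, pos 1] := rfl
  rw [e]
  conv_lhs => rw [eq_put4 Z]
  rw [runs_pos1, runs_pos0, runs_pos2, runs_pos1, runs_nil]
  congr 3; ring_nf

theorem runs_dbl_neg (Z : ℕ → ZMod N) : runs (0 : ZMod N) (dbl ⟨.neg, 0⟩) Z =
    {put [Z 2 + 2 * (Z 0 - Z 1), Z 3 + 2 * (Z 0 - Z 1), Z 0, Z 1] (tl 4 Z)} := by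
  have e : dbl ⟨.neg, 0⟩ = [neg 1, neg 0, neg 2, neg 1] := rfl
  have hneg2 : ∀ (p q a b : ZMod N) (l : List (ZMod N)) (w : Word) (x : ℕ → ZMod N),
      runs (0 : ZMod N) (neg 2 :: w) (put (p :: q :: a :: b :: l) x) =
      runs 0 w (put (p :: q :: (2 * a - b) :: a :: l) x) :=
    fun p q a b l w x => runs_neg_put 0 [p, q] l a b w x
  rw [e]
  conv_lhs => rw [eq_put4 Z]
  rw [runs_neg1, runs_neg0, hneg2, runs_neg1, runs_nil]
  congr 3 <;> ring_nf

/-- The differences of the labels of the doubled strands. -/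
def de (X : ℕ → ZMod N) : ℕ → ZMod N := fun i => X (2 * i + 1) - X (2 * i)

/-- Where the two labels of a doubled strand agree. -/
def bd (X : ℕ → ZMod N) : ℕ → ZMod 2 := fun i => if de X i = 0 then 1 else 0

/-- The first labels of the doubled strands. -/
def fs (X : ℕ → ZMod N) : ℕ → ZMod N := fun i => X (2 * i)

/-- Where the first label of a doubled strand vanishes. -/
def ba (X : ℕ → ZMod N) : ℕ → ZMod 2 := fun i => if fs X i = 0 then 1 else 0

theorem fs_pre (i : ℕ) (X Y : ℕ → ZMod N) : fs (pre (2 * i) X Y) = pre i (fs X) (fs Y) := by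
  funext j
  simp only [fs, pre]
  by_cases h : j < i
  · rw [if_pos (by omega), if_pos (by omega)]
  · rw [if_neg (by omega), if_neg (by omega)]
    congr 1; omega

theorem fs_tl (i : ℕ) (X : ℕ → ZMod N) : fs (tl (2 * i) X) = tl i (fs X) := by
  funext j
  simp only [fs, tl]
  congr 1; ring

theorem de_pre (i : ℕ) (X Y : ℕ → ZMod N) : de (pre (2 * i) X Y) = pre i (de X) (de Y) := by
  funext j
  simp only [de, pre]
  by_cases h : j < i
  · rw [if_pos (by omega), if_pos (by omega), if_pos h]
  · rw [if_neg (by omega), if_neg (by omega), if_neg h]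
    congr 2 <;> omega

theorem de_tl (i : ℕ) (X : ℕ → ZMod N) : de (tl (2 * i) X) = tl i (de X) := by
  funext j
  simp only [de, tl]
  congr 2 <;> ring

theorem bd_pre (i : ℕ) (X Y : ℕ → ZMod N) : bd (pre (2 * i) X Y) = pre i (bd X) (bd Y) := by
  funext j
  simp only [bd, de_pre, pre]
  split_ifs <;> rfl

theorem bd_tl (i : ℕ) (X : ℕ → ZMod N) : bd (tl (2 * i) X) = tl i (bd X) := by
  funext j
  simp only [bd, de_tl, tl]

theorem ba_pre (i : ℕ) (X Y : ℕ → ZMod N) : ba (pre (2 * i) X Y) = pre i (ba X) (ba Y) := by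
  funext j
  simp only [ba, fs_pre, pre]
  split_ifs <;> rfl

theorem ba_tl (i : ℕ) (X : ℕ → ZMod N) : ba (tl (2 * i) X) = tl i (ba X) := by
  funext j
  simp only [ba, fs_tl, tl]

theorem bd_put2 (a b : ZMod N) (Z : ℕ → ZMod N) :
    bd (put [a, b] Z) = put [if b - a = 0 then 1 else 0] (bd Z) := by
  funext j
  match j with
  | 0 => rfl
  | j + 1 => rfl

theorem ba_put2 (a b : ZMod N) (Z : ℕ → ZMod N) :
    ba (put [a, b] Z) = put [if a = 0 then 1 else 0] (ba Z) := by
  funext j
  match j with
  | 0 => rfl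
  | j + 1 => rfl

theorem bd_put4 (a b c d : ZMod N) (Z : ℕ → ZMod N) : bd (put [a, b, c, d] Z) =
    put [if b - a = 0 then 1 else 0, if d - c = 0 then 1 else 0] (bd Z) := by
  have e : put [a, b, c, d] Z = put [a, b] (put [c, d] Z) := rfl
  rw [e, bd_put2, bd_put2]; rfl

theorem ba_put4 (a b c d : ZMod N) (Z : ℕ → ZMod N) : ba (put [a, b, c, d] Z) =
    put [if a = 0 then 1 else 0, if c = 0 then 1 else 0] (ba Z) := by
  have e : put [a, b, c, d] Z = put [a, b] (put [c, d] Z) := rfl
  rw [e, ba_put2, ba_put2]; rfl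

theorem act0_eq (τ : ZMod N) (k : Kind) (x : ℕ → ZMod N) :
    act τ ⟨k, 0⟩ x = runs τ [⟨k, 0⟩] x := (runs_single _ _ _).symm

theorem bd_act0 (k : Kind) {Z Y : ℕ → ZMod N} (h : Y ∈ runs (0 : ZMod N) (dbl ⟨k, 0⟩) Z) :
    bd Y ∈ act (0 : ZMod 2) ⟨k, 0⟩ (bd Z) := by
  rw [act0_eq]
  cases k with
  | cup =>
    rw [mem_dbl_cup] at h
    obtain ⟨a, b, rfl⟩ := h
    rw [bd_put4]
    change _ ∈ runs (0 : ZMod 2) [cup 0] (bd Z)
    rw [← put_nil (bd Z), runs_cup0, Multiset.mem_bind]
    refine ⟨if b - a = 0 then 1 else 0, Finset.mem_univ (_ : ZMod 2), ?_⟩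
    rw [runs_nil, Multiset.mem_singleton, add_zero, put_nil]
    have : (a - b = 0) ↔ (b - a = 0) := by
      constructor <;> intro h <;> linear_combination -h
    simp only [this]
  | cap =>
    rw [runs_dbl_cap] at h
    split_ifs at h with h1
    · rw [Multiset.mem_singleton] at h
      subst h
      have e : bd Z = put [if Z 1 - Z 0 = 0 then 1 else 0, if Z 3 - Z 2 = 0 then 1 else 0]
          (bd (tl 4 Z)) := by
        conv_lhs => rw [eq_put4 Z]
        rw [bd_put4]
      change _ ∈ runs (0 : ZMod 2) [cap 0] _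
      rw [e, runs_cap0, runs_nil, put_nil, h1.1, h1.2, add_zero]
      have : (Z 0 - Z 1 = 0) ↔ (Z 1 - Z 0 = 0) := by
        constructor <;> intro h <;> linear_combination -h
      simp only [this, if_true]
      exact Multiset.mem_singleton_self _
    · simp at h
  | pos =>
    rw [runs_dbl_pos, Multiset.mem_singleton] at h
    subst h
    rw [bd_put4]
    change _ ∈ runs (0 : ZMod 2) [pos 0] (bd Z)
    have e : bd Z = put [if Z 1 - Z 0 = 0 then 1 else 0, if Z 3 - Z 2 = 0 then 1 else 0]
        (bd (tl 4 Z)) := by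
      conv_lhs => rw [eq_put4 Z]
      rw [bd_put4]
    rw [e, runs_pos0, runs_nil, Multiset.mem_singleton, z2]
    have : (Z 1 + 2 * (Z 3 - Z 2) - (Z 0 + 2 * (Z 3 - Z 2)) = 0) ↔ (Z 1 - Z 0 = 0) := by
      constructor <;> intro h <;> linear_combination h
    simp only [this]
  | neg =>
    rw [runs_dbl_neg, Multiset.mem_singleton] at h
    subst h
    rw [bd_put4]
    change _ ∈ runs (0 : ZMod 2) [neg 0] (bd Z)
    have e : bd Z = put [if Z 1 - Z 0 = 0 then 1 else 0, if Z 3 - Z 2 = 0 then 1 else 0]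
        (bd (tl 4 Z)) := by
      conv_lhs => rw [eq_put4 Z]
      rw [bd_put4]
    rw [e, runs_neg0, runs_nil, Multiset.mem_singleton, z2]
    have : (Z 3 + 2 * (Z 0 - Z 1) - (Z 2 + 2 * (Z 0 - Z 1)) = 0) ↔ (Z 3 - Z 2 = 0) := by
      constructor <;> intro h <;> linear_combination h
    simp only [this]

theorem bd_step {g : Gen} {X X' : ℕ → ZMod N} (h : X' ∈ runs (0 : ZMod N) (dbl g) X) :
    bd X' ∈ act (0 : ZMod 2) g (bd X) := by
  obtain ⟨k, i⟩ := g
  rw [mem_dbl] at h
  obtain ⟨Y, hY, rfl⟩ := h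
  have := act_shift (0 : ZMod 2) k 0 i (bd X)
  rw [Nat.zero_add] at this
  rw [this, Multiset.mem_map, bd_pre]
  refine ⟨bd Y, ?_, rfl⟩
  rw [← bd_tl]
  exact bd_act0 k hY

theorem bd_runs (w : Word) : ∀ {X X' : ℕ → ZMod N}, X' ∈ runs (0 : ZMod N) (dblw w) X →
    bd X' ∈ runs (0 : ZMod 2) w (bd X) := by
  induction w with
  | nil =>
    intro X X' h
    have : X' = X := by simpa [dblw] using h
    rw [this]; simp
  | cons g w ih =>
    intro X X' h
    rw [dblw_cons, runs_append, Multiset.mem_bind] at h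
    obtain ⟨Y, hY, h⟩ := h
    rw [runs_cons, Multiset.mem_bind]
    exact ⟨bd Y, bd_step hY, ih h⟩

theorem bd_zero : bd (0 : ℕ → ZMod N) = fun _ => 1 := by
  funext j; simp [bd, de]

theorem ba_zero : ba (0 : ℕ → ZMod N) = fun _ => 1 := by
  funext j; simp [ba, fs]

theorem de_zero : de (0 : ℕ → ZMod N) = 0 := by
  funext j; simp [de]

theorem de_put4 (a b c d : ZMod N) (Z : ℕ → ZMod N) : de (put [a, b, c, d] Z) =
    put [b - a, d - c] (de Z) := by
  funext j
  match j with
  | 0 => rfl
  | 1 => rfl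
  | j + 2 => rfl

theorem put2_eq_zero {a b : ZMod N} {Z : ℕ → ZMod N} :
    put [a, b] Z = 0 ↔ a = 0 ∧ b = 0 ∧ Z = 0 := by
  constructor
  · intro h
    refine ⟨congrFun h 0, congrFun h 1, ?_⟩
    funext j
    exact congrFun h (j + 2)
  · rintro ⟨rfl, rfl, rfl⟩
    funext j
    match j with
    | 0 => rfl
    | 1 => rfl
    | j + 2 => rfl

theorem pre_eq_zero {i : ℕ} {X Y : ℕ → ZMod N} :
    pre i X Y = 0 ↔ (∀ j < i, X j = 0) ∧ Y = 0 := by
  constructor
  · intro h
    refine ⟨fun j hj => ?_, ?_⟩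
    · have := congrFun h j
      rwa [pre_lt hj] at this
    · have := congrArg (tl i) h
      rw [tl_pre] at this
      rw [this]; rfl
  · rintro ⟨h1, rfl⟩
    funext j
    by_cases hj : j < i
    · rw [pre_lt hj, h1 j hj]; rfl
    · rw [pre_ge (by omega)]; rfl

theorem de_eq4 (Z : ℕ → ZMod N) : de Z = put [Z 1 - Z 0, Z 3 - Z 2] (de (tl 4 Z)) := by
  conv_lhs => rw [eq_put4 Z]
  rw [de_put4]

theorem ba_eq4 (Z : ℕ → ZMod N) : ba Z =
    put [if Z 0 = 0 then 1 else 0, if Z 2 = 0 then 1 else 0] (ba (tl 4 Z)) := by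
  conv_lhs => rw [eq_put4 Z]
  rw [ba_put4]

theorem ba_act0 (k : Kind) {Z Y : ℕ → ZMod N} (h : Y ∈ runs (0 : ZMod N) (dbl ⟨k, 0⟩) Z)
    (hZ : de Z = 0) (hY : de Y = 0) : ba Y ∈ act (0 : ZMod 2) ⟨k, 0⟩ (ba Z) := by
  rw [act0_eq]
  rw [de_eq4, put2_eq_zero] at hZ
  obtain ⟨hZ1, hZ2, -⟩ := hZ
  cases k with
  | cup =>
    rw [mem_dbl_cup] at h
    obtain ⟨a, b, rfl⟩ := h
    rw [de_put4, put2_eq_zero] at hY
    have hab : b = a := by linear_combination hY.1
    subst hab
    rw [ba_put4]
    change _ ∈ runs (0 : ZMod 2) [cup 0] (ba Z)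
    rw [← put_nil (ba Z), runs_cup0, Multiset.mem_bind]
    refine ⟨if b = 0 then 1 else 0, Finset.mem_univ (_ : ZMod 2), ?_⟩
    rw [runs_nil, Multiset.mem_singleton, add_zero, put_nil]
  | cap =>
    rw [runs_dbl_cap] at h
    split_ifs at h with h1
    · rw [Multiset.mem_singleton] at h
      subst h
      change _ ∈ runs (0 : ZMod 2) [cap 0] _
      have h2 : Z 2 = Z 0 := by rw [h1.1]; linear_combination hZ1
      rw [ba_eq4 Z, runs_cap0, runs_nil, put_nil, h2, add_zero]
      simp only [if_true]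
      exact Multiset.mem_singleton_self _
    · simp at h
  | pos =>
    rw [runs_dbl_pos, Multiset.mem_singleton] at h
    subst h
    change _ ∈ runs (0 : ZMod 2) [pos 0] (ba Z)
    rw [ba_put4, ba_eq4 Z, runs_pos0, runs_nil, Multiset.mem_singleton, z2]
    have : Z 0 + 2 * (Z 3 - Z 2) = Z 0 := by linear_combination 2 * hZ2
    rw [this]
  | neg =>
    rw [runs_dbl_neg, Multiset.mem_singleton] at h
    subst h
    change _ ∈ runs (0 : ZMod 2) [neg 0] (ba Z)
    rw [ba_put4, ba_eq4 Z, runs_neg0, runs_nil, Multiset.mem_singleton, z2]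
    have : Z 2 + 2 * (Z 0 - Z 1) = Z 2 := by linear_combination -2 * hZ1
    rw [this]

theorem ba_step {g : Gen} {X X' : ℕ → ZMod N} (h : X' ∈ runs (0 : ZMod N) (dbl g) X)
    (hX : de X = 0) (hX' : de X' = 0) : ba X' ∈ act (0 : ZMod 2) g (ba X) := by
  obtain ⟨k, i⟩ := g
  rw [mem_dbl] at h
  obtain ⟨Y, hY, rfl⟩ := h
  have := act_shift (0 : ZMod 2) k 0 i (ba X)
  rw [Nat.zero_add] at this
  rw [this, Multiset.mem_map, ba_pre]
  refine ⟨ba Y, ?_, rfl⟩
  rw [← ba_tl]
  rw [de_pre, pre_eq_zero] at hX'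
  refine ba_act0 k hY ?_ hX'.2
  rw [de_tl, hX]; rfl

/-- Going back through a doubled piece which is not a cap. -/
theorem de_back {g : Gen} (hg : g.kind ≠ .cap) {X X' : ℕ → ZMod N}
    (h : X' ∈ runs (0 : ZMod N) (dbl g) X) :
    (de X' = 0 → de X = 0) ∧ (X' = 0 → X = 0) := by
  obtain ⟨k, i⟩ := g
  rw [mem_dbl] at h
  obtain ⟨Y, hY, rfl⟩ := h
  have key : (de Y = 0 → de (tl (2 * i) X) = 0) ∧ (Y = 0 → tl (2 * i) X = 0) := by
    set Z := tl (2 * i) X
    cases k with
    | cup =>
      rw [mem_dbl_cup] at hY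
      obtain ⟨a, b, rfl⟩ := hY
      constructor
      · intro h; rw [de_put4, put2_eq_zero] at h; exact h.2.2
      · intro h
        have e : put [a, b, b, a] Z = put [a, b] (put [b, a] Z) := rfl
        rw [e, put2_eq_zero, put2_eq_zero] at h
        exact h.2.2.2.2
    | cap => exact absurd rfl hg
    | pos =>
      rw [runs_dbl_pos, Multiset.mem_singleton] at hY
      subst hY
      constructor
      · intro h
        rw [de_put4, put2_eq_zero] at h
        rw [de_eq4, put2_eq_zero]
        exact ⟨by linear_combination h.2.1, h.1, h.2.2⟩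
      · intro h
        have e : ∀ a b c d : ZMod N, ∀ W, put [a, b, c, d] W = put [a, b] (put [c, d] W) :=
          fun _ _ _ _ _ => rfl
        rw [e, put2_eq_zero, put2_eq_zero] at h
        rw [eq_put4 Z, e, put2_eq_zero, put2_eq_zero]
        obtain ⟨h1, h2, h3, h4, h5⟩ := h
        refine ⟨by linear_combination h3 - 2 * (h2 - h1), by linear_combination h4 - 2 * (h2 - h1),
          h1, h2, h5⟩
    | neg =>
      rw [runs_dbl_neg, Multiset.mem_singleton] at hY
      subst hY
      constructor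
      · intro h
        rw [de_put4, put2_eq_zero] at h
        rw [de_eq4, put2_eq_zero]
        exact ⟨h.2.1, by linear_combination h.1, h.2.2⟩
      · intro h
        have e : ∀ a b c d : ZMod N, ∀ W, put [a, b, c, d] W = put [a, b] (put [c, d] W) :=
          fun _ _ _ _ _ => rfl
        rw [e, put2_eq_zero, put2_eq_zero] at h
        rw [eq_put4 Z, e, put2_eq_zero, put2_eq_zero]
        obtain ⟨h1, h2, h3, h4, h5⟩ := h
        refine ⟨h3, h4, by linear_combination h1 - 2 * (h3 - h4),
          by linear_combination h2 - 2 * (h3 - h4), h5⟩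
  constructor
  · intro h
    rw [de_pre, pre_eq_zero] at h
    have h2 := key.1 h.2
    rw [← pre_tl i (de X), pre_eq_zero, ← de_tl]
    exact ⟨h.1, h2⟩
  · intro h
    rw [pre_eq_zero] at h
    have h2 := key.2 h.2
    rw [← pre_tl (2 * i) X, pre_eq_zero]
    exact ⟨h.1, h2⟩

/-- Going back through a doubled cap. -/
theorem cap_back {i : ℕ} {X X' : ℕ → ZMod N} (h : X' ∈ runs (0 : ZMod N) (dbl ⟨.cap, i⟩) X) :
    X (2 * i + 2) = X (2 * i + 1) ∧ X (2 * i + 3) = X (2 * i) ∧
      X' = pre (2 * i) X (tl 4 (tl (2 * i) X)) := by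
  rw [mem_dbl] at h
  obtain ⟨Y, hY, rfl⟩ := h
  rw [runs_dbl_cap] at hY
  split_ifs at hY with h1
  · rw [Multiset.mem_singleton] at hY
    subst hY
    simp only [tl] at h1
    refine ⟨?_, ?_, rfl⟩
    · have := h1.1
      rw [Nat.add_comm 2, Nat.add_comm 1] at this
      exact this
    · have := h1.2
      rw [Nat.add_comm 3, Nat.zero_add] at this
      exact this
  · simp at hY

theorem count_bind_le {α β : Type*} [DecidableEq α] [DecidableEq β] {s : Multiset α}
    {f : α → Multiset β} {a : α} {b : β} (h0 : Multiset.count b (f a) ≤ 1)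
    (h : ∀ x ∈ s, b ∈ f x → x = a) : Multiset.count b (s.bind f) ≤ Multiset.count a s := by
  induction s using Multiset.induction_on with
  | empty => simp
  | cons x s ih =>
    rw [Multiset.cons_bind, Multiset.count_add, Multiset.count_cons]
    have h1 := ih (fun y hy => h y (Multiset.mem_cons_of_mem hy))
    have h2 : Multiset.count b (f x) ≤ if a = x then 1 else 0 := by
      split_ifs with hx
      · rw [← hx]; exact h0
      · rw [Nat.le_zero, Multiset.count_eq_zero]
        intro hb
        exact hx (h x (Multiset.mem_cons_self _ _) hb).symm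
    omega

theorem count_bind_ge {α β : Type*} [DecidableEq α] [DecidableEq β] (s : Multiset α)
    {f : α → Multiset β} {a : α} {b : β} (h0 : b ∈ f a) :
    Multiset.count a s ≤ Multiset.count b (s.bind f) := by
  induction s using Multiset.induction_on with
  | empty => simp
  | cons x s ih =>
    rw [Multiset.cons_bind, Multiset.count_add, Multiset.count_cons]
    have h2 : (if a = x then 1 else 0) ≤ Multiset.count b (f x) := by
      split_ifs with hx
      · rw [← hx]; exact Multiset.one_le_count_iff_mem.2 h0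
      · exact Nat.zero_le _
    omega

open scoped Classical

/-- The labels `1` at `i` and `i + 1`. -/
def z1 (i : ℕ) : ℕ → ZMod 2 := fun j => if j = i ∨ j = i + 1 then 1 else 0

theorem z1_ne (i : ℕ) : z1 i ≠ 0 := by
  intro h
  have := congrFun h i
  simp [z1] at this

theorem zero_mem_act (g : Gen) : (0 : ℕ → ZMod N) ∈ act (0 : ZMod N) g 0 := by
  have := const_runs [g] (0 : ZMod N)
  rw [runs_single] at this
  exact this

theorem zero_mem_runs (w : Word) : (0 : ℕ → ZMod N) ∈ runs (0 : ZMod N) w 0 := const_runs w 0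

theorem cap_dup {s : Multiset (ℕ → ZMod 2)} {i : ℕ} (h0 : 0 ∈ s) (h1 : z1 i ∈ s) :
    2 ≤ Multiset.count 0 (s.bind (act (0 : ZMod 2) (cap i))) := by
  obtain ⟨t, rfl⟩ := Multiset.exists_cons_of_mem h0
  rw [Multiset.mem_cons] at h1
  obtain ⟨u, rfl⟩ := Multiset.exists_cons_of_mem (h1.resolve_left (z1_ne i))
  rw [Multiset.cons_bind, Multiset.cons_bind, Multiset.count_add, Multiset.count_add]
  have e1 : act (0 : ZMod 2) (cap i) (z1 i) = {0} := by
    rw [← runs_single, runs_cap, runs_nil]
    have : z1 i (i + 1) = z1 i i + 0 := by simp [z1]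
    rw [if_pos this, glue_cap_eq]
    congr 1
    funext j
    simp only [z1]
    rw [if_neg]
    · rfl
    · rintro (h | h)
      · exact ins1_ne _ _ h
      · exact ins1_ne' _ _ h
  have e2 : 1 ≤ Multiset.count 0 (act (0 : ZMod 2) (cap i) 0) :=
    Multiset.one_le_count_iff_mem.2 (zero_mem_act _)
  rw [e1, Multiset.count_singleton_self]
  omega

/-- Translation by the constant labelling `1`. -/
theorem runs_one (w : Word) : runs (0 : ZMod 2) w (fun _ => 1) =
    (runs (0 : ZMod 2) w 0).map (· + fun _ => 1) := by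
  have := runs_add w (x := 0) (const_runs w (1 : ZMod 2))
  rwa [zero_add] at this

theorem cap_contra {w : Word} {i : ℕ} {y : ℕ → ZMod 2}
    (hc : Multiset.count 0 (runs (0 : ZMod 2) (w ++ [cap i]) 0) ≤ 1)
    (hy : y ∈ runs (0 : ZMod 2) w (fun _ => 1)) (h1 : y i = 0) (h2 : y (i + 1) = 0)
    (h3 : ∀ j, j ≠ i → j ≠ i + 1 → y j = 1) : False := by
  rw [runs_one, Multiset.mem_map] at hy
  obtain ⟨v, hv, rfl⟩ := hy
  have hv' : v = z1 i := by
    funext j
    simp only [Pi.add_apply] at h1 h2 h3
    have key : ∀ a b : ZMod 2, a + 1 = b → a = b + 1 := by decide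
    by_cases hj : j = i
    · rw [hj]; simp only [z1, true_or, if_true]
      exact key _ _ h1
    · by_cases hj' : j = i + 1
      · rw [hj']; simp only [z1, or_true, if_true]
        exact key _ _ h2
      · simp only [z1, hj, hj', or_self, if_false]
        exact key _ _ (h3 j hj hj')
  subst hv'
  have := cap_dup (zero_mem_runs w) hv
  rw [runs_append] at hc
  have e : (runs (0 : ZMod 2) [cap i]) = act (0 : ZMod 2) (cap i) := by
    funext x; exact runs_single _ _ _
  rw [e] at hc
  omega

theorem count_prefix (w : Word) (g : Gen) :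
    Multiset.count 0 (runs (0 : ZMod N) w 0) ≤ Multiset.count 0 (runs (0 : ZMod N) (w ++ [g]) 0) := by
  rw [runs_append]
  apply count_bind_ge
  rw [runs_single]
  exact zero_mem_act g

theorem dbl_count (g : Gen) : Multiset.count 0 (runs (0 : ZMod N) (dbl g) 0) ≤ 1 := by
  obtain ⟨k, i⟩ := g
  rw [dbl_eq_sh, runs_sh]
  have hinj : Function.Injective (pre (2 * i) (0 : ℕ → ZMod N)) := fun a b h => pre_inj h
  have e : (0 : ℕ → ZMod N) = pre (2 * i) 0 0 := by funext j; simp [pre]
  conv_lhs => rw [e]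
  have e2 : pre (2 * i) (pre (2 * i) 0 0) = pre (2 * i) (0 : ℕ → ZMod N) := by rw [← e]
  rw [e2, Multiset.count_map_eq_count' _ _ hinj]
  have e3 : tl (2 * i) (pre (2 * i) 0 0) = (0 : ℕ → ZMod N) := tl_pre _ _ _
  rw [e3]
  cases k with
  | cup =>
    rw [runs_dbl_cup]
    have hz : ∀ a b : ZMod N, put [a, b, b, a] 0 = 0 ↔ a = 0 ∧ b = 0 := by
      intro a b
      have e : put [a, b, b, a] 0 = put [a, b] (put [b, a] (0 : ℕ → ZMod N)) := rfl
      rw [e, put2_eq_zero, put2_eq_zero]
      tauto
    have h1 : ∀ a : ZMod N, Multiset.count 0 ((Finset.univ : Finset (ZMod N)).val.bind fun b =>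
        {put [a, b, b, a] (0 : ℕ → ZMod N)}) ≤ Multiset.count 0 (Finset.univ : Finset (ZMod N)).val := by
      intro a
      apply count_bind_le
      · exact (Multiset.count_le_card _ _).trans (by simp)
      · intro x _ hx
        rw [Multiset.mem_singleton] at hx
        exact ((hz a x).1 hx.symm).2
    have h2 : Multiset.count 0 (Finset.univ : Finset (ZMod N)).val ≤ 1 :=
      Multiset.nodup_iff_count_le_one.1 Finset.univ.nodup 0
    refine le_trans (count_bind_le (a := 0) ((h1 0).trans h2) ?_) h2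
    intro a _ ha
    rw [Multiset.mem_bind] at ha
    obtain ⟨b, -, hb⟩ := ha
    rw [Multiset.mem_singleton] at hb
    exact ((hz a b).1 hb.symm).1
  | cap =>
    refine (Multiset.count_le_card _ _).trans ?_
    rw [runs_dbl_cap]
    split_ifs <;> simp
  | pos =>
    refine (Multiset.count_le_card _ _).trans ?_
    rw [runs_dbl_pos]; simp
  | neg =>
    refine (Multiset.count_le_card _ _).trans ?_
    rw [runs_dbl_neg]; simp

/-- Without closed components a labelling of the doubled strands is known by its labels at the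
ends. -/
theorem dbl_rigid (w : Word) (hc : Multiset.count 0 (runs (0 : ZMod 2) w 0) ≤ 1) :
    Multiset.count 0 (runs (0 : ZMod N) (dblw w) 0) ≤ 1 ∧
    ∀ X ∈ runs (0 : ZMod N) (dblw w) 0, de X = 0 → ba X ∈ runs (0 : ZMod 2) w (fun _ => 1) := by
  induction w using List.reverseRecOn with
  | nil =>
    have e : dblw [] = [] := rfl
    rw [e]
    simp only [runs_nil]
    refine ⟨by simp, ?_⟩
    intro X hX _
    rw [Multiset.mem_singleton] at hX
    rw [hX, ba_zero]
    simp
  | append_singleton w g ih =>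
    have hc' := (count_prefix w g).trans hc
    obtain ⟨iha, ihb⟩ := ih hc'
    have e : dblw (w ++ [g]) = dblw w ++ dbl g := by rw [dblw_append]; simp [dblw]
    -- the differences vanish before the last piece
    have hback : ∀ Y ∈ runs (0 : ZMod N) (dblw w) 0, ∀ X ∈ runs (0 : ZMod N) (dbl g) Y,
        de X = 0 → de Y = 0 := by
      intro Y hY X hX hd
      by_cases hg : g.kind = .cap
      · obtain ⟨k, i⟩ := g
        simp only at hg
        subst hg
        obtain ⟨h1, h2, h3⟩ := cap_back hX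
        have hothers : ∀ j, j ≠ i → j ≠ i + 1 → de Y j = 0 := by
          intro j hj hj'
          by_cases hlt : j < i
          · have := congrFun hd j
            rw [h3, de_pre, pre_lt hlt] at this
            exact this
          · have := congrFun hd (j - 2)
            rw [h3, de_pre, pre_ge (by omega)] at this
            have e4 : de (tl 4 (tl (2 * i) Y)) (j - 2 - i) = de Y j := by
              simp only [de, tl]
              have a1 : 2 * (j - 2 - i) + 1 + 4 + 2 * i = 2 * j + 1 := by omega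
              have a2 : 2 * (j - 2 - i) + 4 + 2 * i = 2 * j := by omega
              rw [a1, a2]
            rw [e4] at this
            exact this
        have hd1 : de Y (i + 1) = - de Y i := by
          simp only [de]
          have a1 : 2 * (i + 1) + 1 = 2 * i + 3 := by ring
          have a2 : 2 * (i + 1) = 2 * i + 2 := by ring
          rw [a1, a2, h1, h2]; ring
        by_cases h0 : de Y i = 0
        · funext j
          by_cases hj : j = i
          · rw [hj, h0]; rfl
          · by_cases hj' : j = i + 1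
            · rw [hj', hd1, h0]; simp
            · rw [hothers j hj hj']; rfl
        · exfalso
          have hb := bd_runs w hY
          rw [bd_zero] at hb
          refine cap_contra (i := i) hc hb ?_ ?_ ?_
          · simp only [bd]; rw [if_neg h0]
          · simp only [bd]; rw [hd1, if_neg]
            rwa [neg_eq_zero]
          · intro j hj hj'
            simp only [bd]; rw [hothers j hj hj', if_pos rfl]
      · exact (de_back hg hX).1 hd
    constructor
    · rw [e, runs_append]
      refine (count_bind_le (dbl_count g) ?_).trans iha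
      intro Y hY h0
      by_cases hg : g.kind = .cap
      · obtain ⟨k, i⟩ := g
        simp only at hg
        subst hg
        have hd := hback Y hY 0 h0 de_zero
        obtain ⟨h1, h2, h3⟩ := cap_back h0
        have h3' := h3.symm
        rw [pre_eq_zero] at h3'
        have hb := ihb Y hY hd
        have h4 : Y (2 * i + 1) = Y (2 * i) := by
          have := congrFun hd i
          simp only [de, Pi.zero_apply] at this
          linear_combination this
        have hY0 : Y (2 * i) = 0 := by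
          by_contra hne
          refine cap_contra (i := i) hc hb ?_ ?_ ?_
          · simp only [ba, fs]; rw [if_neg hne]
          · have a2 : fs Y (i + 1) = Y (2 * i) := by
              have a3 : 2 * (i + 1) = 2 * i + 2 := by ring
              simp only [fs]
              rw [a3, h1, h4]
            simp only [ba]
            rw [if_neg]
            rw [a2]; exact hne
          · intro j hj hj'
            simp only [ba, fs]
            rw [if_pos]
            by_cases hlt : j < i
            · exact h3'.1 _ (by omega)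
            · have := congrFun h3'.2 (2 * j - 4 - 2 * i)
              simp only [tl] at this
              have a3 : 2 * j - 4 - 2 * i + 4 + 2 * i = 2 * j := by omega
              rw [a3] at this
              exact this
        funext j
        by_cases hlt : j < 2 * i
        · exact h3'.1 _ hlt
        · by_cases hj4 : j < 2 * i + 4
          · have : j = 2 * i ∨ j = 2 * i + 1 ∨ j = 2 * i + 2 ∨ j = 2 * i + 3 := by omega
            rcases this with rfl | rfl | rfl | rfl
            · exact hY0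
            · rw [h4, hY0]; rfl
            · rw [h1, h4, hY0]; rfl
            · rw [h2, hY0]; rfl
          · have := congrFun h3'.2 (j - 4 - 2 * i)
            simp only [tl] at this
            have a3 : j - 4 - 2 * i + 4 + 2 * i = j := by omega
            rw [a3] at this
            exact this
      · exact (de_back hg h0).2 rfl
    · intro X hX hd
      rw [e, runs_append, Multiset.mem_bind] at hX
      obtain ⟨Y, hY, hX⟩ := hX
      have hdY := hback Y hY X hX hd
      rw [runs_append, Multiset.mem_bind]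
      refine ⟨ba Y, ihb Y hY hdY, ?_⟩
      rw [runs_single]
      exact ba_step hX hdY hd

end

end H80Skein
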