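import Pool.Agent.H80Skein.GenBd

/-! Connected sums of boundaries of disks with flat bands. -/

set_option linter.unusedSimpArgs false
set_option linter.unusedSectionVars false

namespace H80Skein

theorem dblw_sh (n : ℕ) (w : Word) : dblw (sh n w) = sh (2 * n) (dblw w) := by
  induction w with
  | nil => rfl
  | cons g w ih =>
    rw [sh_cons, dblw_cons, dblw_cons, ih, sh_append]
    congr 1
    obtain ⟨k, i⟩ := g
    cases k <;> simp [dbl, sh, cup, cap, pos, neg] <;> omega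

/-- The long knot bounding a strip with flat bands on its right side. -/
def XR (n : ℕ) (θ : Word) : Word := sh 1 (dblw θ) ++ List.replicate n (cap 0)

theorem dia_caps0 (n r : ℕ) : Dia (2 * n + r) (List.replicate n (cap 0)) r := by
  induction n with
  | zero => simp
  | succ n ih =>
    rw [List.replicate_succ]
    refine ⟨by simp; omega, ?_⟩
    have e : 2 * (n + 1) + r - (cap 0).kind.inn + (cap 0).kind.out = 2 * n + r := by
      simp; omega
    rw [e]; exact ih

theorem dia_XR {n : ℕ} {θ : Word} (h : Dia 0 θ n) : Dia 1 (XR n θ) 1 := by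
  have h1 : Dia 1 (sh 1 (dblw θ)) (2 * n + 1) := (dia_sh 1 (dia_dblw h)).cast rfl (by omega) rfl
  exact dia_append.2 ⟨_, h1, dia_caps0 n 1⟩

theorem iso_XR {n m : ℕ} {θ φ : Word} (hθ : Dia 0 θ n) (hφ : Dia 0 φ m) :
    Iso 1 1 (XR n θ ++ XR m φ) (XR (n + m) (θ ++ sh n φ)) := by
  have h1 : Dia 1 (sh 1 (dblw θ)) (2 * n + 1) := (dia_sh 1 (dia_dblw hθ)).cast rfl (by omega) rfl
  have s1 := far_words (dia_caps0 n 1) (dia_dblw hφ)
  have s2 := Iso.ctx (l := 1) (r := 1) h1 (dia_caps0 m 1)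
    (s1.cast rfl (show 1 + 2 * m = 2 * m + 1 by omega) rfl rfl)
  refine s2.cast rfl rfl ?_ ?_
  · simp [XR]
  · rw [XR, dblw_append, dblw_sh, sh_append, sh_sh, List.replicate_add]
    simp only [List.append_assoc]

/-- `a` copies of `θ` side by side. -/
def side (n : ℕ) (θ : Word) : ℕ → Word
  | 0 => []
  | a + 1 => θ ++ sh n (side n θ a)

theorem dia_side {n : ℕ} {θ : Word} (h : Dia 0 θ n) (a : ℕ) : Dia 0 (side n θ a) (a * n) := by
  induction a with
  | zero => simp [side]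
  | succ a ih =>
    have h1 : Dia n (sh n (side n θ a)) ((a + 1) * n) :=
      (dia_sh n ih).cast (by omega) (by ring) rfl
    exact dia_append.2 ⟨n, h, h1⟩

theorem iso_wpow_XR {n : ℕ} {θ : Word} (h : Dia 0 θ n) (a : ℕ) :
    Iso 1 1 (wpow (XR n θ) a) (XR (a * n) (side n θ a)) := by
  induction a with
  | zero =>
    have e : XR (0 * n) (side n θ 0) = [] := by simp [XR, side, dblw, sh]
    rw [e]; exact Iso.refl _
  | succ a ih =>
    have s1 : Iso 1 1 (XR n θ ++ wpow (XR n θ) a) (XR n θ ++ XR (a * n) (side n θ a)) :=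
      Iso.pre (dia_XR h) ih
    have s2 := iso_XR h (dia_side h a)
    have e : n + a * n = (a + 1) * n := by ring
    rw [e] at s2
    exact s1.trans s2

theorem hr_sh {m n : ℕ} (k : ℕ) {w : Word} (h : Dia m w n) : hr (m + k) (sh k w) = hr m w := by
  induction w generalizing m with
  | nil => rfl
  | cons g w ih =>
    obtain ⟨h1, h2⟩ := h
    rw [sh_cons, hr_cons, hr_cons]
    simp only
    have e1 : m + k - (g.off + k) - g.kind.inn = m - g.off - g.kind.inn := by omega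
    have e2 : m + k - g.kind.inn + g.kind.out = m - g.kind.inn + g.kind.out + k := by omega
    rw [e1, e2, ih h2]

/-- Turning over and doubling commute. -/
theorem iso_hr_dblw {m n : ℕ} {w : Word} (h : Dia m w n) :
    Iso (2 * m) (2 * n) (hr (2 * m) (dblw w)) (dblw (hr m w)) := by
  induction w generalizing m with
  | nil =>
    rw [dia_nil] at h
    subst h
    exact Iso.refl _
  | cons g w ih =>
    obtain ⟨h1, h2⟩ := h
    have dg : Dia m [g] (m - g.kind.inn + g.kind.out) := ⟨h1, rfl⟩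
    have dd : Dia (2 * m) (dbl g) (2 * (m - g.kind.inn + g.kind.out)) := by
      have := dia_dblw dg
      simpa [dblw] using this
    rw [dblw_cons, hr_append dd, hr_cons, dblw_cons]
    have hg : Dia m [⟨g.kind, m - g.off - g.kind.inn⟩] (m - g.kind.inn + g.kind.out) := by
      have := dia_hr dg
      simpa [hr_cons] using this
    have dd' : Dia (2 * m) (dbl ⟨g.kind, m - g.off - g.kind.inn⟩)
        (2 * (m - g.kind.inn + g.kind.out)) := by
      have := dia_dblw hg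
      simpa [dblw] using this
    have s1 : Iso (2 * m) (2 * (m - g.kind.inn + g.kind.out)) (hr (2 * m) (dbl g))
        (dbl ⟨g.kind, m - g.off - g.kind.inn⟩) := by
      obtain ⟨k, i⟩ := g
      simp only at h1 dg dd hg dd' ⊢
      obtain ⟨r, rfl⟩ : ∃ r, m = i + k.inn + r := ⟨m - (i + k.inn), by omega⟩
      have er : i + k.inn + r - i - k.inn = r := by omega
      rw [er] at dd' ⊢
      have e2 : i + k.inn + r - k.inn + k.out = i + k.out + r := by omega
      rw [e2] at dd dd' ⊢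
      cases k with
      | cup =>
        have e : hr (2 * (i + Kind.cup.inn + r)) (dbl ⟨.cup, i⟩) = dbl ⟨.cup, r⟩ := by
          simp only [dbl, hr, cup, inn_cup, out_cup]
          have a1 : 2 * (i + 0 + r) - 2 * i - 0 = 2 * r := by omega
          have a2 : 2 * (i + 0 + r) - 0 + 2 - (2 * i + 1) - 0 = 2 * r + 1 := by omega
          rw [a1, a2]
        rw [e]; exact Iso.refl _
      | cap =>
        have e : hr (2 * (i + Kind.cap.inn + r)) (dbl ⟨.cap, i⟩) = dbl ⟨.cap, r⟩ := by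
          simp only [dbl, hr, cap, inn_cap, out_cap]
          have a1 : 2 * (i + 2 + r) - (2 * i + 1) - 2 = 2 * r + 1 := by omega
          have a2 : 2 * (i + 2 + r) - 2 + 0 - 2 * i - 2 = 2 * r := by omega
          rw [a1, a2]
        rw [e]; exact Iso.refl _
      | pos =>
        have e : hr (2 * (i + Kind.pos.inn + r)) (dbl ⟨.pos, i⟩) =
            [pos (2 * r + 1), pos (2 * r + 2), pos (2 * r), pos (2 * r + 1)] := by
          simp only [dbl, hr, pos, inn_pos, out_pos]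
          have a1 : 2 * (i + 2 + r) - (2 * i + 1) - 2 = 2 * r + 1 := by omega
          have a2 : 2 * (i + 2 + r) - 2 + 2 - 2 * i - 2 = 2 * r + 2 := by omega
          have a3 : 2 * (i + 2 + r) - 2 + 2 - 2 + 2 - (2 * i + 2) - 2 = 2 * r := by omega
          have a4 : 2 * (i + 2 + r) - 2 + 2 - 2 + 2 - 2 + 2 - (2 * i + 1) - 2 = 2 * r + 1 := by
            omega
          rw [a1, a2, a3, a4]
        rw [e]
        have st : Elem [⟨.pos, 2 * r⟩, ⟨.pos, 2 * r + Kind.pos.out⟩]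
            [⟨.pos, 2 * r + Kind.pos.inn⟩, ⟨.pos, 2 * r⟩] := Elem.far _ _ _ _ (le_refl _)
        have d1 : Dia (2 * (i + Kind.pos.inn + r)) ([pos (2 * r + 1)] ++
            [⟨.pos, 2 * r + Kind.pos.inn⟩, ⟨.pos, 2 * r⟩] ++ [pos (2 * r + 1)])
            (2 * (i + Kind.pos.out + r)) := by
          simp [Dia, pos]; omega
        have d2 : Dia (2 * (i + Kind.pos.inn + r)) ([pos (2 * r + 1)] ++
            [⟨.pos, 2 * r⟩, ⟨.pos, 2 * r + Kind.pos.out⟩] ++ [pos (2 * r + 1)])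
            (2 * (i + Kind.pos.out + r)) := by
          simp [Dia, pos]; omega
        exact (Iso.step st d2 d1).symm
      | neg =>
        have e : hr (2 * (i + Kind.neg.inn + r)) (dbl ⟨.neg, i⟩) =
            [neg (2 * r + 1), neg (2 * r + 2), neg (2 * r), neg (2 * r + 1)] := by
          simp only [dbl, hr, neg, inn_neg, out_neg]
          have a1 : 2 * (i + 2 + r) - (2 * i + 1) - 2 = 2 * r + 1 := by omega
          have a2 : 2 * (i + 2 + r) - 2 + 2 - 2 * i - 2 = 2 * r + 2 := by omega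
          have a3 : 2 * (i + 2 + r) - 2 + 2 - 2 + 2 - (2 * i + 2) - 2 = 2 * r := by omega
          have a4 : 2 * (i + 2 + r) - 2 + 2 - 2 + 2 - 2 + 2 - (2 * i + 1) - 2 = 2 * r + 1 := by
            omega
          rw [a1, a2, a3, a4]
        rw [e]
        have st : Elem [⟨.neg, 2 * r⟩, ⟨.neg, 2 * r + Kind.neg.out⟩]
            [⟨.neg, 2 * r + Kind.neg.inn⟩, ⟨.neg, 2 * r⟩] := Elem.far _ _ _ _ (le_refl _)
        have d1 : Dia (2 * (i + Kind.neg.inn + r)) ([neg (2 * r + 1)] ++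
            [⟨.neg, 2 * r + Kind.neg.inn⟩, ⟨.neg, 2 * r⟩] ++ [neg (2 * r + 1)])
            (2 * (i + Kind.neg.out + r)) := by
          simp [Dia, neg]; omega
        have d2 : Dia (2 * (i + Kind.neg.inn + r)) ([neg (2 * r + 1)] ++
            [⟨.neg, 2 * r⟩, ⟨.neg, 2 * r + Kind.neg.out⟩] ++ [neg (2 * r + 1)])
            (2 * (i + Kind.neg.out + r)) := by
          simp [Dia, neg]; omega
        exact (Iso.step st d2 d1).symm
    have s2 := Iso.post (dia_hr (dia_dblw h2)) s1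
    have s3 := Iso.pre dd' (ih h2)
    exact s2.trans s3

/-- The caps that close bands on the left side. -/
def clL : ℕ → Word
  | 0 => []
  | n + 1 => cap (2 * n + 1) :: clL n

theorem dia_clL (n r : ℕ) : Dia (2 * n + 1 + r) (clL n) (1 + r) := by
  induction n with
  | zero => simp [clL]
  | succ n ih =>
    rw [clL]
    refine ⟨by simp; omega, ?_⟩
    have e : 2 * (n + 1) + 1 + r - (cap (2 * n + 1)).kind.inn + (cap (2 * n + 1)).kind.out =
        2 * n + 1 + r := by simp; omega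
    rw [e]; exact ih

theorem hr_caps (n : ℕ) : hr (2 * n + 1) (List.replicate n (cap 0)) = clL n := by
  induction n with
  | zero => rfl
  | succ n ih =>
    rw [List.replicate_succ, hr_cons, clL]
    have e1 : 2 * (n + 1) + 1 - (cap 0).kind.inn + (cap 0).kind.out = 2 * n + 1 := by simp; omega
    have e2 : 2 * (n + 1) + 1 - (cap 0).off - (cap 0).kind.inn = 2 * n + 1 := by simp; omega
    rw [e1, e2, ih]; rfl

/-- The long knot bounding a strip with flat bands on its left side. -/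
def XL (n : ℕ) (φ : Word) : Word := dblw φ ++ clL n

theorem iso_hr_XR {n : ℕ} {θ : Word} (h : Dia 0 θ n) :
    Iso 1 1 (hr 1 (XR n θ)) (XL n (hr 0 θ)) := by
  have h1 : Dia 1 (sh 1 (dblw θ)) (2 * n + 1) := (dia_sh 1 (dia_dblw h)).cast rfl (by omega) rfl
  rw [XR, hr_append h1, hr_caps]
  have e := hr_sh 1 (dia_dblw h)
  rw [Nat.mul_zero, Nat.zero_add] at e
  rw [e]
  have s1 := (iso_hr_dblw h).right 1
  rw [Nat.mul_zero, Nat.zero_add] at s1
  exact Iso.post (dia_clL n 0) s1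

theorem caps_gather (m : ℕ) : ∀ k : ℕ, Iso (2 * m + 2 * k + 2) 2
    (List.replicate k (cap (2 * m + 1)) ++ clL m) (List.replicate (k + m) (cap 1)) := by
  induction m with
  | zero => intro k; simpa [clL] using Iso.refl _
  | succ m ih =>
    intro k
    have dW : Dia (2 * m + 3) [cap (2 * m + 1)] (2 * m + 1) := ⟨by simp, by simp⟩
    have s1 := far_words dW (dia_caps0 k 1)
    have s2 := Iso.post (v := clL m) (r := 2)
      ((dia_clL m 1).cast (by omega) (by omega) rfl) s1.symm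
    have e : ∀ j, sh j (List.replicate k (cap 0)) = List.replicate k (cap j) := by
      intro j; simp [sh, cap]
    rw [e, e] at s2
    have e3 : (2 * m + 3 : ℕ) = 2 * (m + 1) + 1 := by ring
    have s3 : Iso (2 * (m + 1) + 2 * k + 2) 2
        (List.replicate k (cap (2 * (m + 1) + 1)) ++ clL (m + 1))
        (List.replicate (k + 1) (cap (2 * m + 1)) ++ clL m) := by
      refine s2.cast (by omega) rfl ?_ ?_
      · simp [clL, e3]
      · simp [List.replicate_succ]
    have s4 := ih (k + 1)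
    have s5 : Iso (2 * (m + 1) + 2 * k + 2) 2
        (List.replicate (k + 1) (cap (2 * m + 1)) ++ clL m)
        (List.replicate (k + (m + 1)) (cap 1)) := by
      refine s4.cast (by omega) rfl rfl ?_
      have : k + 1 + m = k + (m + 1) := by omega
      rw [this]
    exact s3.trans s5

theorem dia_capsj (n j r : ℕ) : Dia (j + (2 * n + r)) (List.replicate n (cap j)) (j + r) := by
  have := dia_sh j (dia_caps0 n r)
  have e : sh j (List.replicate n (cap 0)) = List.replicate n (cap j) := by simp [sh, cap]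
  rw [e] at this
  exact this.cast (by omega) (by omega) rfl

/-- The closed diagram with all bands gathered. -/
theorem band_gather {n m : ℕ} {φ θ : Word} (hφ : Dia 0 φ (m + 1)) (hθ : Dia 0 θ n) :
    Iso 0 0 ([cup 0] ++ sh 2 (dblw (φ ++ sh (m + 1) θ)) ++ List.replicate (m + 1 + n) (cap 1) ++
      [cap 0]) (dblw φ ++ sh (2 * (m + 1)) (dblw θ) ++ List.replicate (n + m) (cap 1) ++
      [cap 0]) := by
  set R := dblw (φ ++ sh (m + 1) θ) with hR
  have hRe : R = dblw φ ++ sh (2 * (m + 1)) (dblw θ) := by rw [hR, dblw_append, dblw_sh]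
  have dR : Dia 0 R (2 * (m + 1 + n)) := by
    have : Dia 0 (φ ++ sh (m + 1) θ) (m + 1 + n) :=
      dia_append.2 ⟨m + 1, hφ, (dia_sh (m + 1) hθ).cast (by omega) (by omega) rfl⟩
    exact dia_dblw this
  rw [← hRe]
  have s1 := far_words (show Dia 0 [cup 0] 2 by decide) dR
  have d1 : Dia (2 * (m + 1 + n) + 2) (List.replicate (m + 1 + n) (cap 1) ++ [cap 0]) 0 := by
    refine dia_append.2 ⟨2, (dia_capsj (m + 1 + n) 1 1).cast (by omega) (by omega) rfl, by decide⟩
  have s2 : Iso 0 0 ([cup 0] ++ sh 2 R ++ (List.replicate (m + 1 + n) (cap 1) ++ [cap 0]))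
      (sh 0 R ++ [cup 0] ++ (List.replicate (m + 1 + n) (cap 1) ++ [cap 0])) :=
    Iso.post (d1.cast (by omega) rfl rfl) s1
  have dR' : Dia 0 R (2 * (m + 1 + n)) := dR
  have s3 : Iso 0 0 (R ++ [cup 0, cap 1] ++ (List.replicate (n + m) (cap 1) ++ [cap 0]))
      (R ++ [] ++ (List.replicate (n + m) (cap 1) ++ [cap 0])) := by
    refine Iso.step (Elem.zag 0) ?_ ?_
    · refine dia_append.2 ⟨2 * (m + 1 + n), dia_append.2 ⟨2 * (m + 1 + n), dR, ?_⟩, ?_⟩
      · refine ⟨by simp, by simp; omega, by simp⟩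
      · refine dia_append.2 ⟨2, (dia_capsj (n + m) 1 1).cast (by omega) (by omega) rfl, by decide⟩
    · refine dia_append.2 ⟨2 * (m + 1 + n), dia_append.2 ⟨2 * (m + 1 + n), dR, rfl⟩, ?_⟩
      refine dia_append.2 ⟨2, (dia_capsj (n + m) 1 1).cast (by omega) (by omega) rfl, by decide⟩
  have e1 : m + 1 + n = (n + m) + 1 := by omega
  refine (s2.cast rfl rfl (by simp) ?_).trans (s3.cast rfl rfl rfl (by simp))
  rw [e1, List.replicate_succ]
  simp

/-- Bands on both sides of the disk can be gathered on the right. -/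
theorem two_sided {n m : ℕ} {φ θ : Word} (hφ : Dia 0 φ (m + 1)) (hθ : Dia 0 θ n) :
    Iso 0 0 ([cup 0] ++ sh 1 (XR n θ) ++ XL (m + 1) φ ++ [cap 0])
      (dblw φ ++ sh (2 * (m + 1)) (dblw θ) ++ List.replicate (n + m) (cap 1) ++ [cap 0]) := by
  set V := XR n θ with hV
  have dV : Dia 1 V 1 := dia_XR hθ
  have dR : Dia 0 (dblw φ) (2 * (m + 1)) := dia_dblw hφ
  have dY : Dia 0 ([cup 0] ++ sh 1 V) 2 := dia_append.2 ⟨2, by decide, dia_sh 1 dV⟩
  have s1 := far_words dR dY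
  have dC : Dia (2 * (m + 1) + 2) (clL (m + 1) ++ [cap 0]) 0 :=
    dia_append.2 ⟨2, (dia_clL (m + 1) 1).cast (by omega) (by omega) rfl, by decide⟩
  have s2 : Iso 0 0 (sh 0 ([cup 0] ++ sh 1 V) ++ dblw φ ++ (clL (m + 1) ++ [cap 0]))
      (dblw φ ++ sh (2 * (m + 1)) ([cup 0] ++ sh 1 V) ++ (clL (m + 1) ++ [cap 0])) :=
    Iso.post dC s1.symm
  have dcm : Dia (2 * m + 2) (clL m ++ [cap 0]) 0 :=
    dia_append.2 ⟨2, (dia_clL m 1).cast (by omega) (by omega) rfl, by decide⟩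
  have dW : Dia (2 * m + 3) [cap (2 * m + 1)] (2 * m + 1) := ⟨by simp, by simp⟩
  have s3 := far_words dW dV
  have dRc : Dia 0 (dblw φ ++ [cup (2 * m + 2)]) (2 * m + 4) :=
    dia_append.2 ⟨2 * (m + 1), dR, ⟨by simp; omega, by simp; omega⟩⟩
  have s4 : Iso 0 0 ((dblw φ ++ [cup (2 * m + 2)]) ++ (sh (2 * m + 3) V ++ [cap (2 * m + 1)]) ++
      (clL m ++ [cap 0])) ((dblw φ ++ [cup (2 * m + 2)]) ++ ([cap (2 * m + 1)] ++ sh (2 * m + 1) V) ++
      (clL m ++ [cap 0])) :=
    Iso.ctx dRc dcm (s3.symm.cast (by omega) (by omega) rfl rfl)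
  have dV' : Dia (2 * m + 2) (sh (2 * m + 1) V) (2 * m + 2) :=
    (dia_sh (2 * m + 1) dV).cast (by omega) (by omega) rfl
  have s5 : Iso 0 0 (dblw φ ++ [cup (2 * m + 1 + 1), cap (2 * m + 1)] ++ (sh (2 * m + 1) V ++
      (clL m ++ [cap 0]))) (dblw φ ++ [] ++ (sh (2 * m + 1) V ++ (clL m ++ [cap 0]))) := by
    refine Iso.step (Elem.zig (2 * m + 1)) ?_ ?_
    · refine dia_append.2 ⟨2 * m + 2, dia_append.2 ⟨2 * (m + 1), dR, ?_⟩,
        dia_append.2 ⟨2 * m + 2, dV', dcm⟩⟩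
      refine ⟨?_, ?_, ?_⟩
      · simp
        try omega
      · simp
        try omega
      · simp
        try omega
    · refine dia_append.2 ⟨2 * m + 2, dia_append.2 ⟨2 * (m + 1), dR, by simp; omega⟩,
        dia_append.2 ⟨2 * m + 2, dV', dcm⟩⟩
  have dRR : Dia 0 (dblw φ ++ sh (2 * (m + 1)) (dblw θ)) (2 * m + 2 * n + 2) :=
    dia_append.2 ⟨2 * (m + 1), dR,
      (dia_sh (2 * (m + 1)) (dia_dblw hθ)).cast (by omega) (by omega) rfl⟩
  have s6 := Iso.ctx dRR (show Dia 2 [cap 0] 0 by decide) (caps_gather m n)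
  have e3 : sh (2 * m + 1) V = sh (2 * (m + 1)) (dblw θ) ++
      List.replicate n (cap (2 * m + 1)) := by
    rw [hV, XR, sh_append, sh_sh]
    congr 1
    · congr 1; omega
    · simp [sh, cap]
  have e4 : sh (2 * (m + 1)) ([cup 0] ++ sh 1 V) = [cup (2 * m + 2)] ++ sh (2 * m + 3) V := by
    rw [sh_append, sh_sh]
    have a1 : 1 + 2 * (m + 1) = 2 * m + 3 := by omega
    rw [a1]
    congr 1
    simp [sh, cup]; omega
  refine (s2.cast rfl rfl ?_ ?_).trans ((s4.cast rfl rfl rfl ?_).trans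
    ((s5.cast rfl rfl rfl ?_).trans (s6.cast rfl rfl rfl ?_)))
  · simp [XL]; rfl
  · rw [e4]; simp [clL]
  · simp
  · rw [e3]; simp
  · simp

theorem band_of_two {n m h k : ℕ} (hn : n = 4 * h) (hm : m + 1 = 4 * k) {φ θ : Word}
    (hφ : Dia 0 φ (m + 1)) (hθ : Dia 0 θ n) :
    Iso 0 0 ([cup 0] ++ sh 1 (XR n θ) ++ XL (m + 1) φ ++ [cap 0])
      (bandKnot (k + h) (φ ++ sh (m + 1) θ)) := by
  have s := (two_sided hφ hθ).trans (band_gather hφ hθ).symm
  have e : bandKnot (k + h) (φ ++ sh (m + 1) θ) = [cup 0] ++ sh 2 (dblw (φ ++ sh (m + 1) θ)) ++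
      List.replicate (m + 1 + n) (cap 1) ++ [cap 0] := by
    have : 4 * (k + h) = m + 1 + n := by omega
    rw [bandKnot, this]; rfl
  rw [e]; exact s

/-- Closing on the right. -/
def clo (W : Word) : Word := [cup 0] ++ sh 1 W ++ [cap 0]

theorem dia_clo {W : Word} (h : Dia 1 W 1) : Dia 0 (clo W) 0 :=
  dia_append.2 ⟨2, dia_append.2 ⟨2, by decide, dia_sh 1 h⟩, by decide⟩

theorem clo_XR (h : ℕ) (θ : Word) : clo (XR (4 * h) θ) = bandKnot h θ := by
  simp [clo, XR, bandKnot, dblw, sh, cap]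

theorem clo_iso {W W' : Word} (h : Iso 1 1 W W') : Iso 0 0 (clo W) (clo W') := by
  have := h.at 1 0
  exact Iso.ctx (m := 2) (n := 2) (by decide) (by decide) (this.cast (by omega) (by omega) rfl rfl)

/-- The local knot of genus one. -/
def gJ : Word := XR 4 (bth 1)

theorem dia_gJ : Dia 1 gJ 1 := dia_XR (dia_bth 1)

/-- Closures of powers bound disks with few bands. -/
theorem clo_wpow (a : ℕ) : ∃ θ, Dia 0 θ (4 * a) ∧ Iso 0 0 (clo (wpow gJ a)) (bandKnot a θ) := by
  refine ⟨side 4 (bth 1) a, (dia_side (dia_bth 1) a).cast rfl (by ring) rfl, ?_⟩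
  have s := clo_iso (iso_wpow_XR (dia_bth 1) a)
  rw [Nat.mul_comm a 4, clo_XR] at s
  exact s

theorem sum_gJ (a : ℕ) : ∃ θ, Dia 0 θ (4 * (a + 2)) ∧
    Iso 0 0 (cs (gJ ++ flp gJ) (clo (wpow gJ a))) (bandKnot (a + 2) θ) := by
  have dJ := dia_gJ
  have dP : Dia 1 (wpow gJ a) 1 := dia_wpow dJ a
  set P := wpow gJ a with hP
  have dcP : Dia 0 ([cup 0] ++ sh 1 P) 2 := dia_append.2 ⟨2, by decide, dia_sh 1 dP⟩
  -- the reversed summand moves to the right leg
  have s1 := bend_cap (dia_flp dJ)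
  have e1 : rotw 1 (flp gJ) = hr 1 gJ := by
    rw [rotw, hr_flp dJ, flp_flp]
  rw [e1] at s1
  have s2 : Iso 0 0 (([cup 0] ++ sh 1 P ++ gJ) ++ (flp gJ ++ [cap 0]))
      (([cup 0] ++ sh 1 P ++ gJ) ++ (sh 1 (hr 1 gJ) ++ [cap 0])) :=
    Iso.pre (dia_append.2 ⟨2, dcP, dia_right 1 dJ⟩) s1
  -- and is turned over
  have s3 : Iso 2 2 (sh 1 (hr 1 gJ)) (sh 1 gJ) :=
    ((iso_hr dJ).symm.at 1 0).cast (by omega) (by omega) rfl rfl
  have s4 : Iso 0 0 (([cup 0] ++ sh 1 P ++ gJ) ++ sh 1 (hr 1 gJ) ++ [cap 0])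
      (([cup 0] ++ sh 1 P ++ gJ) ++ sh 1 gJ ++ [cap 0]) :=
    Iso.ctx (dia_append.2 ⟨2, dcP, dia_right 1 dJ⟩) (by decide) s3
  have s5 := far_words dJ dJ
  have s6 : Iso 0 0 (([cup 0] ++ sh 1 P) ++ (gJ ++ sh 1 gJ) ++ [cap 0])
      (([cup 0] ++ sh 1 P) ++ (sh 1 gJ ++ gJ) ++ [cap 0]) :=
    Iso.ctx dcP (by decide) s5
  have s7 : Iso 0 0 (([cup 0] ++ sh 1 P ++ sh 1 gJ) ++ gJ ++ [cap 0])
      (([cup 0] ++ sh 1 P ++ sh 1 gJ) ++ XL 4 (hr 0 (bth 1)) ++ [cap 0]) := by
    refine Iso.ctx (m := 2) (n := 2) (dia_append.2 ⟨2, dcP, dia_sh 1 dJ⟩) (by decide) ?_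
    exact ((iso_hr dJ).trans (iso_hr_XR (dia_bth 1))).right 1
  have s8 : Iso 1 1 (P ++ gJ) (XR ((a + 1) * 4) (side 4 (bth 1) (a + 1))) := by
    rw [hP, ← wpow_snoc]
    exact iso_wpow_XR (dia_bth 1) (a + 1)
  have s9 : Iso 0 0 ([cup 0] ++ sh 1 (P ++ gJ) ++ (XL 4 (hr 0 (bth 1)) ++ [cap 0]))
      ([cup 0] ++ sh 1 (XR ((a + 1) * 4) (side 4 (bth 1) (a + 1))) ++
        (XL 4 (hr 0 (bth 1)) ++ [cap 0])) := by
    refine Iso.ctx (m := 2) (n := 2) (by decide) ?_ ((s8.at 1 0).cast (by omega) (by omega) rfl rfl)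
    refine dia_append.2 ⟨2, ?_, by decide⟩
    exact dia_append.2 ⟨10, by decide, (dia_clL 4 1).cast (by omega) (by omega) rfl⟩
  have s10 := band_of_two (n := (a + 1) * 4) (m := 3) (h := a + 1) (k := 1) (by ring) (by ring)
    (φ := hr 0 (bth 1)) (θ := side 4 (bth 1) (a + 1)) (dia_hr (dia_bth 1))
    (dia_side (dia_bth 1) (a + 1))
  refine ⟨hr 0 (bth 1) ++ sh 4 (side 4 (bth 1) (a + 1)), ?_, ?_⟩
  · exact dia_append.2 ⟨4, dia_hr (dia_bth 1), (dia_sh 4 (dia_side (dia_bth 1) (a + 1))).cast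
      (by omega) (by ring) rfl⟩
  · have e2 : 1 + (a + 1) = a + 2 := by omega
    rw [e2] at s10
    rw [clo, cs_snoc]
    refine (s2.cast rfl rfl ?_ ?_).trans ((s4.cast rfl rfl rfl ?_).trans ((s6.cast rfl rfl rfl ?_).trans
      ((s7.cast rfl rfl rfl ?_).trans ((s9.cast rfl rfl rfl ?_).trans s10))))
    all_goals simp

end H80Skein
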