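import Pool.Agent.H80Skein.Context2

/-! The group structure of the colourings of a tangle. -/

set_option linter.unusedSimpArgs false
set_option linter.unusedSectionVars false

namespace H80Skein

section

variable {N : ℕ} [NeZero N]

theorem glue_add (g : Gen) (x x' : ℕ → ZMod N) (c c' : ZMod N × ZMod N) :
    glue g (x + x') (c + c') = glue g x c + glue g x' c' := by
  funext j
  simp only [glue, Pi.add_apply, Prod.fst_add, Prod.snd_add]
  split_ifs <;> rfl

theorem glue_zero (g : Gen) : glue g (0 : ℕ → ZMod N) 0 = 0 := by
  funext j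
  simp only [glue, Pi.zero_apply, Prod.fst_zero, Prod.snd_zero, ite_self]

theorem sum_eq_bind {α β : Type*} [Fintype α] (f : α → Multiset β) :
    (Finset.univ : Finset α).val.bind f = ∑ a, f a := rfl

theorem map_eq_sum {α β : Type*} [Fintype α] (f : α → β) :
    (Finset.univ : Finset α).val.map f = ∑ a, ({f a} : Multiset β) := by
  rw [← sum_eq_bind, Multiset.bind_singleton]

/-- The colourings of the tangle diagram `T` form a group of at least `N ^ j` elements. -/
def Lin (N : ℕ) [NeZero N] (T : Word) (j : ℕ) : Prop :=
  ∃ (W : Type) (_ : AddCommGroup W) (_ : Fintype W) (L : W →+ (ℕ → ZMod N)),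
    runs (0 : ZMod N) T 0 = (Finset.univ : Finset W).val.map L ∧ N ^ j ≤ Fintype.card W

theorem lin_runs {T : Word} {m : ℕ} (h : Dia 0 T m) : ∃ j, m = 2 * j ∧ Lin N T j := by
  classical
  induction T using List.reverseRecOn generalizing m with
  | nil =>
    rw [dia_nil] at h
    subst h
    exact ⟨0, rfl, Unit, inferInstance, inferInstance, 0, rfl, by simp⟩
  | append_singleton T g ih =>
    obtain ⟨l, h1, h2⟩ := dia_append.1 h
    obtain ⟨j, rfl, W, _, _, L, hL, hc⟩ := ih h1
    obtain ⟨h3, h4⟩ := h2
    rw [dia_nil] at h4
    have hr : runs (0 : ZMod N) (T ++ [g]) 0 = ∑ w : W, runs 0 [g] (L w) := by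
      rw [runs_append, hL, Multiset.bind_map]; rfl
    obtain ⟨k, i⟩ := g
    cases k with
    | cup =>
      refine ⟨j + 1, ?_, ZMod N × W, inferInstance, inferInstance,
        { toFun := fun cw => glue (cup i) (L cw.2) (cw.1, cw.1)
          map_zero' := ?_
          map_add' := ?_ }, ?_, ?_⟩
      · simp at h4; omega
      · simp only [Prod.snd_zero, Prod.fst_zero, map_zero]
        exact glue_zero _
      · rintro ⟨c, w⟩ ⟨c', w'⟩
        simp only [Prod.mk_add_mk, map_add]
        rw [← glue_add]; rfl
      · rw [hr, map_eq_sum, Fintype.sum_prod_type_right]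
        refine Finset.sum_congr rfl (fun w _ => ?_)
        show runs 0 [cup i] (L w) = _
        rw [runs_cup, sum_eq_bind]
        refine Finset.sum_congr rfl (fun c _ => ?_)
        rw [runs_nil, add_zero]; rfl
      · rw [Fintype.card_prod, ZMod.card, pow_succ, mul_comm]
        exact Nat.mul_le_mul_left _ hc
    | cap =>
      let φ : W →+ ZMod N :=
        { toFun := fun w => L w (i + 1) - L w i
          map_zero' := by simp
          map_add' := by intro a b; simp only [map_add, Pi.add_apply]; ring }
      have hφ : ∀ w, w ∈ φ.ker ↔ L w (i + 1) = L w i := by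
        intro w
        rw [AddMonoidHom.mem_ker]
        exact sub_eq_zero
      simp only [inn_cap, out_cap] at h3 h4
      have hj : 1 ≤ j := by omega
      refine ⟨j - 1, by omega, φ.ker, inferInstance, inferInstance,
        { toFun := fun w => glue (cap i) (L w) 0
          map_zero' := ?_
          map_add' := ?_ }, ?_, ?_⟩
      · simp only [ZeroMemClass.coe_zero, map_zero]; exact glue_zero _
      · intro a b
        simp only [AddSubgroup.coe_add, map_add]
        rw [← glue_add, add_zero]
      · rw [hr, map_eq_sum]
        have e1 : ∀ w, runs (0 : ZMod N) [(⟨.cap, i⟩ : Gen)] (L w) =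
            if w ∈ φ.ker then {glue (cap i) (L w) 0} else 0 := by
          intro w
          show runs (0 : ZMod N) [cap i] (L w) = _
          rw [runs_cap, runs_nil, add_zero]
          simp only [hφ]; rfl
        simp only [e1]
        rw [← Finset.sum_filter]
        rw [Finset.sum_subtype (p := fun w => w ∈ φ.ker) _ (by simp)]
        rfl
      · have k1 : Nat.card φ.ker * φ.ker.index = Nat.card W := AddSubgroup.card_mul_index _
        rw [AddSubgroup.index_ker] at k1
        have k2 : Nat.card φ.range ≤ N := by
          calc Nat.card φ.range ≤ Nat.card (ZMod N) :=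
                Nat.card_le_card_of_injective _ Subtype.val_injective
            _ = N := Nat.card_zmod N
        rw [Nat.card_eq_fintype_card (α := W)] at k1
        have k3 : N ^ (j - 1) * N ≤ Nat.card φ.ker * N := by
          calc N ^ (j - 1) * N = N ^ j := by rw [← pow_succ]; congr 1; omega
            _ ≤ Fintype.card W := hc
            _ = Nat.card φ.ker * Nat.card φ.range := k1.symm
            _ ≤ Nat.card φ.ker * N := Nat.mul_le_mul_left _ k2
        have k4 := Nat.le_of_mul_le_mul_right k3 (Nat.pos_of_ne_zero (NeZero.ne N))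
        rw [← Nat.card_eq_fintype_card]; exact k4
    | pos =>
      simp only [inn_pos, out_pos] at h3 h4
      refine ⟨j, by omega, W, inferInstance, inferInstance,
        { toFun := fun w => glue (pos i) (L w) (L w (i + 1), 2 * L w (i + 1) - L w i)
          map_zero' := ?_
          map_add' := ?_ }, ?_, hc⟩
      · simp only [map_zero, Pi.zero_apply, mul_zero, sub_zero]
        exact glue_zero _
      · intro a b
        simp only [map_add, Pi.add_apply]
        rw [← glue_add]
        congr 1
        ext
        · rfl
        · simp only [Prod.snd_add]; ring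
      · rw [hr, map_eq_sum]
        refine Finset.sum_congr rfl (fun w _ => ?_)
        show runs 0 [pos i] (L w) = _
        rw [runs_pos, runs_nil]; rfl
    | neg =>
      simp only [inn_neg, out_neg] at h3 h4
      refine ⟨j, by omega, W, inferInstance, inferInstance,
        { toFun := fun w => glue (neg i) (L w) (2 * L w i - L w (i + 1), L w i)
          map_zero' := ?_
          map_add' := ?_ }, ?_, hc⟩
      · simp only [map_zero, Pi.zero_apply, mul_zero, sub_zero]
        exact glue_zero _
      · intro a b
        simp only [map_add, Pi.add_apply]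
        rw [← glue_add]
        congr 1
        ext
        · simp only [Prod.fst_add]; ring
        · rfl
      · rw [hr, map_eq_sum]
        refine Finset.sum_congr rfl (fun w _ => ?_)
        show runs 0 [neg i] (L w) = _
        rw [runs_neg, runs_nil]; rfl

theorem const_runs (w : Word) (a : ZMod N) :
    (fun _ => a : ℕ → ZMod N) ∈ runs (0 : ZMod N) w (fun _ => a) := by
  induction w with
  | nil => simp
  | cons g w ih =>
    rw [runs_cons, Multiset.mem_bind]
    refine ⟨fun _ => a, ?_, ih⟩
    rw [act_def, Multiset.mem_map]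
    have hg : ∀ c : ZMod N × ZMod N, (g.kind.out = 0 ∨ c = (a, a)) →
        glue g (fun _ => a) c = fun _ => a := by
      intro c hc
      funext j
      simp only [glue]
      rcases hc with hc | hc
      · rw [hc]; split_ifs <;> first | rfl | omega
      · rw [hc]; split_ifs <;> rfl
    obtain ⟨k, i⟩ := g
    cases k with
    | cup => exact ⟨(a, a), by simp [rule], hg _ (Or.inr rfl)⟩
    | cap => exact ⟨(0, 0), by simp [rule], hg _ (Or.inl rfl)⟩
    | pos => exact ⟨(a, a), by simp [rule]; ring, hg _ (Or.inr rfl)⟩
    | neg => exact ⟨(a, a), by simp [rule]; ring, hg _ (Or.inr rfl)⟩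

/-- The constant labels on `n` strands. -/
def cst (n : ℕ) (a : ZMod N) : ℕ → ZMod N := graft n 0 (fun _ => a)

theorem cst_runs {m n : ℕ} {w : Word} (h : Dia m w n) (a : ZMod N) :
    cst n a ∈ runs (0 : ZMod N) w (cst m a) := by
  rw [cst, cst, runs_graft 0 h, Multiset.mem_map]
  exact ⟨_, const_runs w a, rfl⟩

theorem cst_zero (a : ZMod N) : cst 0 a = 0 := by
  funext j; simp [cst, graft]

theorem cst_lt {n j : ℕ} (h : j < n) (a : ZMod N) : cst n a j = a := graft_lt h _ _

theorem cst_inj {n : ℕ} (hn : 1 ≤ n) {a b : ZMod N} (h : cst n a = cst n b) : a = b := by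
  have := congrFun h 0
  rwa [cst_lt hn, cst_lt hn] at this

/-- If a closed diagram `T ++ S` has only `N` colourings then no two colourings of `T` agree at
the endpoints and only constant colourings of the endpoints extend over both. -/
theorem nodup_of_card {T S : Word} {n : ℕ} (hn : 1 ≤ n) (hT : Dia 0 T n) (hS : Dia n S 0)
    (hc : Multiset.card (runs (0 : ZMod N) (T ++ S) 0) = N) :
    (runs (0 : ZMod N) T 0).Nodup ∧
      ∀ z ∈ runs (0 : ZMod N) T 0, runs (0 : ZMod N) S z ≠ 0 → ∃ a, z = cst n a := by
  classical
  obtain ⟨j, -, W, _, _, L, hL, -⟩ := lin_runs (N := N) hT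
  rw [card_runs_append, hL, Multiset.map_map] at hc
  have hc' : ∑ w : W, Multiset.card (runs (0 : ZMod N) S (L w)) = N := hc
  -- the constants
  have hw : ∀ a : ZMod N, ∃ w : W, L w = cst n a := by
    intro a
    have := cst_runs hT a
    rw [cst_zero, hL, Multiset.mem_map] at this
    obtain ⟨w, -, hw⟩ := this
    exact ⟨w, hw⟩
  choose ω hω using hw
  have hωi : Function.Injective ω := by
    intro a b hab
    have h1 := hω a
    rw [hab, hω b] at h1
    exact (cst_inj hn h1).symm
  let A : Finset W := Finset.univ.filter fun w => runs (0 : ZMod N) S (L w) ≠ 0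
  have hA : A.card ≤ N := by
    calc A.card = ∑ w ∈ A, 1 := by simp
      _ ≤ ∑ w ∈ A, Multiset.card (runs (0 : ZMod N) S (L w)) := by
          refine Finset.sum_le_sum (fun w hw => ?_)
          have : runs (0 : ZMod N) S (L w) ≠ 0 := (Finset.mem_filter.1 hw).2
          exact Nat.one_le_iff_ne_zero.2 (fun h => this (Multiset.card_eq_zero.1 h))
      _ ≤ ∑ w : W, Multiset.card (runs (0 : ZMod N) S (L w)) :=
          Finset.sum_le_sum_of_subset (Finset.filter_subset _ _)
      _ = N := hc'
  have hωA : ∀ a, ∀ w, L w = L (ω a) → w ∈ A := by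
    intro a w hwa
    refine Finset.mem_filter.2 ⟨Finset.mem_univ _, ?_⟩
    rw [hwa, hω a]
    have := cst_runs hS a
    intro h0
    rw [h0] at this
    exact Multiset.notMem_zero _ this
  have himg : Finset.univ.image ω = A := by
    apply Finset.eq_of_subset_of_card_le
    · intro w hw
      rw [Finset.mem_image] at hw
      obtain ⟨a, -, rfl⟩ := hw
      exact hωA a _ rfl
    · rw [Finset.card_image_of_injective _ hωi, Finset.card_univ, ZMod.card]; exact hA
  have hAω : ∀ w ∈ A, ∃ a, ω a = w := by
    intro w hw
    rw [← himg, Finset.mem_image] at hw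
    obtain ⟨a, -, h⟩ := hw
    exact ⟨a, h⟩
  have hinj : Function.Injective L := by
    intro a b hab
    have h1 : ω 0 + (a - b) ∈ A := by
      apply hωA 0
      rw [map_add, map_sub, hab, sub_self, add_zero]
    obtain ⟨c, hc⟩ := hAω _ h1
    have h2 : L (ω c) = L (ω 0) := by
      rw [hc, map_add, map_sub, hab, sub_self, add_zero]
    rw [hω, hω] at h2
    have h3 := cst_inj hn h2
    rw [h3] at hc
    have h4 : a - b = 0 := by
      have := congrArg (fun t => t - ω 0) hc
      simp only [sub_self, add_sub_cancel_left] at this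
      exact this.symm
    exact sub_eq_zero.1 h4
  refine ⟨?_, ?_⟩
  · rw [hL]; exact (Multiset.nodup_map_iff_of_injective hinj).2 Finset.univ.nodup
  · intro z hz hS
    rw [hL, Multiset.mem_map] at hz
    obtain ⟨w, -, rfl⟩ := hz
    obtain ⟨a, ha⟩ := hAω w (Finset.mem_filter.2 ⟨Finset.mem_univ _, hS⟩)
    exact ⟨a, by rw [← ha, hω]⟩

theorem card_runs_ge {T : Word} {n : ℕ} (hT : Dia 0 T (2 * n)) :
    N ^ n ≤ Multiset.card (runs (0 : ZMod N) T 0) := by
  obtain ⟨j, hj, W, _, _, L, hL, hc⟩ := lin_runs (N := N) hT
  have : j = n := by omega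
  subst this
  rw [hL, Multiset.card_map]
  exact hc

end

end H80Skein
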