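import Pool.Agent.H80Skein.Bend
import Pool.Agent.H80Skein.Lin
import Pool.Agent.H80Skein.Det

/-! Tying a local knot into a diagram (connected sum) is compatible with isotopy. -/

set_option linter.unusedSimpArgs false
set_option linter.unusedSectionVars false

namespace H80Skein

open Classical in
/-- `1` at the strands `k` of the cut between `u` and `v` for which tying `L` there gives a
diagram isotopic to `R`. -/
noncomputable def lam (L R : Word) (m : ℕ) (u v : Word) : ℕ → ZMod 2 := fun k =>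
  if k < m ∧ Iso 0 0 (u ++ sh k L ++ v) R then 1 else 0

section

variable {L : Word} (hL : Dia 1 L 1) (hR : Iso 1 1 (rotw 1 L) L)

theorem lam_congr {L R : Word} {m m' k k' : ℕ} {u v u' v' : Word} (hk : k < m ↔ k' < m')
    (h : k < m → Iso 0 0 (u ++ sh k L ++ v) (u' ++ sh k' L ++ v')) :
    lam L R m u v k = lam L R m' u' v' k' := by
  unfold lam
  by_cases hkm : k < m
  · have hk' := hk.1 hkm
    have := h hkm
    by_cases h1 : Iso 0 0 (u ++ sh k L ++ v) R
    · rw [if_pos ⟨hkm, h1⟩, if_pos ⟨hk', this.symm.trans h1⟩]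
    · rw [if_neg (fun h => h1 h.2), if_neg (fun h => h1 (this.trans h.2))]
  · rw [if_neg (fun h => hkm h.1), if_neg (fun h => hkm (hk.2 h.1))]

include hL

/-- Passing a piece that stands to the right. -/
theorem pass_left {m m' k : ℕ} {g : Gen} (hg : Dia m [g] m') (hk : k < g.off) :
    Iso m m' (sh k L ++ [g]) ([g] ++ sh k L) := by
  obtain ⟨κ, i⟩ := g
  obtain ⟨h1, h2⟩ := hg
  rw [dia_nil] at h2
  simp only at h1 h2 hk
  have hW : Dia (k + 1) (sh k L) (k + 1) := (dia_sh k hL).cast (by omega) (by omega) rfl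
  have hX : Dia (m - (k + 1)) [⟨κ, i - (k + 1)⟩] (m' - (k + 1)) := by
    refine ⟨by simp only; omega, by simp only [dia_nil]; omega⟩
  have := far_words hW hX
  refine this.cast (by omega) (by omega) ?_ ?_
  · have : i - (k + 1) + (k + 1) = i := by omega
    simp [this]
  · have : i - (k + 1) + (k + 1) = i := by omega
    simp [this]

/-- Passing a piece that stands to the left. -/
theorem pass_right {m m' k : ℕ} {g : Gen} (hg : Dia m [g] m') (hk : g.off + g.kind.out ≤ k)
    (hkm : k < m') : Iso m m' (sh (k - g.kind.out + g.kind.inn) L ++ [g]) ([g] ++ sh k L) := by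
  obtain ⟨κ, i⟩ := g
  obtain ⟨h1, h2⟩ := hg
  rw [dia_nil] at h2
  simp only at h1 h2 hk ⊢
  have hW : Dia (i + κ.inn) [⟨κ, i⟩] (i + κ.out) := ⟨by simp, by simp⟩
  have hX : Dia (m - (i + κ.inn)) (sh (k - (i + κ.out)) L) (m - (i + κ.inn)) := by
    have := dia_right (m - (i + κ.inn) - (1 + (k - (i + κ.out)))) (dia_sh (k - (i + κ.out)) hL)
    exact this.cast (by omega) (by omega) rfl
  have := far_words hW hX
  refine this.symm.cast (by omega) (by omega) ?_ ?_
  · rw [sh_sh]
    have : k - (i + κ.out) + (i + κ.inn) = k - κ.out + κ.inn := by omega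
    rw [this]
  · rw [sh_sh]
    have : k - (i + κ.out) + (i + κ.out) = k := by omega
    rw [this]

omit hL in
theorem at_one {X Y : Word} {a b : ℕ} (h : Iso a b X Y) {i m m' : ℕ} (hm : i + a ≤ m)
    (hm' : m' = m - a + b) : Iso m m' (sh i X) (sh i Y) :=
  (h.at i (m - (i + a))).cast (by omega) (by omega) rfl rfl

theorem pass_pos1 {m i : ℕ} (h : i + 2 ≤ m) :
    Iso m m (sh (i + 1) L ++ [pos i]) ([pos i] ++ sh i L) := by
  have := at_one (pass_pos_right hL) (i := i) (m := m) (m' := m) h (by omega)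
  simpa [sh_sh, Nat.add_comm, pos] using this

theorem pass_pos2 {m i : ℕ} (h : i + 2 ≤ m) :
    Iso m m (sh i L ++ [pos i]) ([pos i] ++ sh (i + 1) L) := by
  have := at_one (pass_pos_left hL) (i := i) (m := m) (m' := m) h (by omega)
  simpa [sh_sh, Nat.add_comm, pos] using this

theorem pass_neg1 {m i : ℕ} (h : i + 2 ≤ m) :
    Iso m m (sh (i + 1) L ++ [neg i]) ([neg i] ++ sh i L) := by
  have := at_one (pass_neg_right hL) (i := i) (m := m) (m' := m) h (by omega)
  simpa [sh_sh, Nat.add_comm, neg] using this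

theorem pass_neg2 {m i : ℕ} (h : i + 2 ≤ m) :
    Iso m m (sh i L ++ [neg i]) ([neg i] ++ sh (i + 1) L) := by
  have := at_one (pass_neg_left hL) (i := i) (m := m) (m' := m) h (by omega)
  simpa [sh_sh, Nat.add_comm, neg] using this

include hR

theorem pass_cup {m m' i : ℕ} (h : i ≤ m) (hm : m' = m + 2) :
    Iso m m' ([cup i] ++ sh i L) ([cup i] ++ sh (i + 1) L) := by
  have h1 : Iso 0 2 ([cup 0] ++ L) ([cup 0] ++ sh 1 L) := by
    refine (bend_cup hL).trans ?_
    exact Iso.pre (by decide : Dia 0 [cup 0] 2) (hR.left 1)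
  have := at_one h1 (i := i) (m := m) (m' := m') (by omega) (by omega)
  simpa [sh_sh, Nat.add_comm, cup] using this

theorem pass_cap {m m' i : ℕ} (h : i + 2 ≤ m) (hm : m' = m - 2) :
    Iso m m' (sh i L ++ [cap i]) (sh (i + 1) L ++ [cap i]) := by
  have h1 : Iso 2 0 (L ++ [cap 0]) (sh 1 L ++ [cap 0]) := by
    refine (bend_cap hL).trans ?_
    exact Iso.post (by decide : Dia 2 [cap 0] 0) (hR.left 1)
  have := at_one h1 (i := i) (m := m) (m' := m') (by omega) (by omega)
  simpa [sh_sh, Nat.add_comm, cap] using this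

theorem lam_step {R u v : Word} {g : Gen} {m m' : ℕ} (hu : Dia 0 u m) (hg : Dia m [g] m')
    (hv : Dia m' v 0) :
    lam L R m' (u ++ [g]) v ∈ act (0 : ZMod 2) g (lam L R m u (g :: v)) := by
  -- transport of an isotopy of the piece with `L` to the whole diagram
  have tr1 : ∀ {k k' : ℕ}, Iso m m' (sh k L ++ [g]) ([g] ++ sh k' L) →
      Iso 0 0 (u ++ sh k L ++ g :: v) ((u ++ [g]) ++ sh k' L ++ v) := by
    intro k k' h
    exact (Iso.ctx hu hv h).cast rfl rfl (by simp) (by simp)
  have hg' := hg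
  obtain ⟨κ, i⟩ := g
  obtain ⟨h1, h2⟩ := hg'
  rw [dia_nil] at h2
  simp only at h1 h2
  have far1 : ∀ j < i, lam L R m u (⟨κ, i⟩ :: v) j = lam L R m' (u ++ [⟨κ, i⟩]) v j := by
    intro j hj
    apply lam_congr
    · constructor <;> intro <;> omega
    · intro hjm
      exact tr1 (pass_left hL hg hj)
  have far2 : ∀ j, i + κ.out ≤ j → lam L R m u (⟨κ, i⟩ :: v) (j - κ.out + κ.inn) =
      lam L R m' (u ++ [⟨κ, i⟩]) v j := by
    intro j hj
    apply lam_congr
    · constructor <;> intro <;> omega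
    · intro hjm
      exact tr1 (pass_right hL hg hj (by omega))
  have hglue : ∀ c : ZMod 2 × ZMod 2,
      (κ.out = 2 → c.1 = lam L R m' (u ++ [⟨κ, i⟩]) v i ∧
        c.2 = lam L R m' (u ++ [⟨κ, i⟩]) v (i + 1)) →
      lam L R m' (u ++ [⟨κ, i⟩]) v = glue ⟨κ, i⟩ (lam L R m u (⟨κ, i⟩ :: v)) c := by
    intro c hc
    funext j
    unfold glue
    simp only
    split_ifs with a1 a2 a3
    · exact (far1 j a1).symm
    · subst a3
      rcases κ.out_eq with h | h
      · omega
      · exact (hc h).1.symm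
    · rcases κ.out_eq with h | h
      · omega
      · have : j = i + 1 := by omega
        subst this
        exact (hc h).2.symm
    · exact (far2 j (by omega)).symm
  rw [act_def, Multiset.mem_map]
  cases κ with
  | cup =>
    simp only [inn_cup, out_cup] at h1 h2
    refine ⟨(lam L R m' (u ++ [⟨.cup, i⟩]) v i, lam L R m' (u ++ [⟨.cup, i⟩]) v i + 0), ?_, ?_⟩
    · simp only [rule, Multiset.mem_map]
      exact ⟨_, (Finset.mem_univ _ : _ ∈ (Finset.univ : Finset (ZMod 2))), rfl⟩
    · refine (hglue _ (fun _ => ⟨rfl, ?_⟩)).symm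
      simp only [add_zero]
      apply lam_congr
      · constructor <;> intro <;> omega
      · intro _
        have := pass_cup hL hR (m := m) (m' := m') (i := i) (by omega) (by omega)
        exact (Iso.ctx hu hv this).cast rfl rfl (by simp [cup]) (by simp [cup])
  | cap =>
    simp only [inn_cap, out_cap] at h1 h2
    have hx : lam L R m u (⟨.cap, i⟩ :: v) (i + 1) = lam L R m u (⟨.cap, i⟩ :: v) i := by
      apply lam_congr
      · constructor <;> intro <;> omega
      · intro _
        have := pass_cap hL hR (m := m) (m' := m') (i := i) (by omega) (by omega)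
        exact (Iso.ctx hu hv this).symm.cast rfl rfl (by simp [cap]) (by simp [cap])
    refine ⟨(0, 0), ?_, ?_⟩
    · simp [rule, hx]
    · refine (hglue _ (fun h => ?_)).symm
      simp at h
  | pos =>
    simp only [inn_pos, out_pos] at h1 h2
    have e1 : lam L R m' (u ++ [⟨.pos, i⟩]) v i = lam L R m u (⟨.pos, i⟩ :: v) (i + 1) := by
      refine (lam_congr ?_ ?_).symm
      · constructor <;> intro <;> omega
      · intro _
        exact tr1 ((pass_pos1 hL (m := m) (i := i) (by omega)).cast rfl (by omega) rfl rfl)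
    have e2 : lam L R m' (u ++ [⟨.pos, i⟩]) v (i + 1) = lam L R m u (⟨.pos, i⟩ :: v) i := by
      refine (lam_congr ?_ ?_).symm
      · constructor <;> intro <;> omega
      · intro _
        exact tr1 ((pass_pos2 hL (m := m) (i := i) (by omega)).cast rfl (by omega) rfl rfl)
    refine ⟨_, Multiset.mem_singleton_self _, (hglue _ (fun _ => ⟨e1.symm, ?_⟩)).symm⟩
    rw [e2, z2]
  | neg =>
    simp only [inn_neg, out_neg] at h1 h2
    have e1 : lam L R m' (u ++ [⟨.neg, i⟩]) v i = lam L R m u (⟨.neg, i⟩ :: v) (i + 1) := by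
      refine (lam_congr ?_ ?_).symm
      · constructor <;> intro <;> omega
      · intro _
        exact tr1 ((pass_neg1 hL (m := m) (i := i) (by omega)).cast rfl (by omega) rfl rfl)
    have e2 : lam L R m' (u ++ [⟨.neg, i⟩]) v (i + 1) = lam L R m u (⟨.neg, i⟩ :: v) i := by
      refine (lam_congr ?_ ?_).symm
      · constructor <;> intro <;> omega
      · intro _
        exact tr1 ((pass_neg2 hL (m := m) (i := i) (by omega)).cast rfl (by omega) rfl rfl)
    refine ⟨_, Multiset.mem_singleton_self _, (hglue _ (fun _ => ⟨?_, e2.symm⟩)).symm⟩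
    rw [e1, z2]

theorem lam_zero (R u v : Word) : lam L R 0 u v = 0 := by
  funext k
  simp [lam]

theorem lam_fwd {R : Word} (w : Word) : ∀ (u v : Word) (m n : ℕ), Dia 0 u m → Dia m w n →
    Dia n v 0 → lam L R n (u ++ w) v ∈ runs (0 : ZMod 2) w (lam L R m u (w ++ v)) := by
  induction w with
  | nil =>
    intro u v m n hu hw hv
    rw [dia_nil] at hw
    subst hw
    simp
  | cons g w ih =>
    intro u v m n hu hw hv
    obtain ⟨h1, h2⟩ := hw
    have dg : Dia m [g] (m - g.kind.inn + g.kind.out) := ⟨h1, rfl⟩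
    rw [runs_cons, Multiset.mem_bind]
    refine ⟨_, lam_step hL hR hu dg (dia_append.2 ⟨_, h2, hv⟩), ?_⟩
    have := ih (u ++ [g]) v _ _ (dia_append.2 ⟨_, hu, dg⟩) h2 hv
    simpa using this

/-- All places of one cut give isotopic diagrams. -/
theorem ins_cut {u v : Word} {m : ℕ} (hu : Dia 0 u m) (hv : Dia m v 0) (hD : IsKnot (u ++ v))
    {k k' : ℕ} (hk : k < m) (hk' : k' < m) :
    Iso 0 0 (u ++ sh k L ++ v) (u ++ sh k' L ++ v) := by
  have h1 := nodup_of_card (N := 2) (by omega) hu hv hD.2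
  let R := u ++ sh k L ++ v
  have h2 : lam L R m u v ∈ runs (0 : ZMod 2) u 0 := by
    have := lam_fwd hL hR (R := R) u [] v 0 m rfl hu hv
    rwa [List.nil_append, lam_zero hL hR] at this
  have h3 : runs (0 : ZMod 2) v (lam L R m u v) ≠ 0 := by
    have := lam_fwd hL hR (R := R) v u [] m 0 hu hv rfl
    rw [List.append_nil] at this
    intro h0
    rw [h0] at this
    exact Multiset.notMem_zero _ this
  obtain ⟨a, ha⟩ := h1.2 _ h2 h3
  have e1 : lam L R m u v k = 1 := by
    unfold lam
    rw [if_pos ⟨hk, Iso.refl _⟩]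
  have e2 : lam L R m u v k' = 1 := by
    rw [ha, cst_lt hk', ← cst_lt (N := 2) hk a, ← ha, e1]
  unfold lam at e2
  by_contra hc
  rw [if_neg (fun h => hc h.2.symm)] at e2
  exact absurd e2 (by decide)

/-- The cuts before and after a piece give isotopic diagrams. -/
theorem ins_next {u v : Word} {g : Gen} {m m' : ℕ} (hu : Dia 0 u m) (hg : Dia m [g] m')
    (hv : Dia m' v 0) (hD : IsKnot (u ++ g :: v)) (hm : 1 ≤ m) (hm' : 1 ≤ m') :
    ∃ k < m, ∃ k' < m', Iso 0 0 (u ++ sh k L ++ g :: v) ((u ++ [g]) ++ sh k' L ++ v) := by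
  have tr1 : ∀ {k k' : ℕ}, Iso m m' (sh k L ++ [g]) ([g] ++ sh k' L) →
      Iso 0 0 (u ++ sh k L ++ g :: v) ((u ++ [g]) ++ sh k' L ++ v) := by
    intro k k' h
    exact (Iso.ctx hu hv h).cast rfl rfl (by simp) (by simp)
  have hg' := hg
  obtain ⟨κ, i⟩ := g
  obtain ⟨h1, h2⟩ := hg'
  rw [dia_nil] at h2
  simp only at h1 h2
  by_cases hi : 0 < i
  · exact ⟨0, by omega, 0, by omega, tr1 (pass_left hL hg hi)⟩
  · have hi0 : i = 0 := by omega
    subst hi0
    by_cases hlast : κ.out < m'
    · refine ⟨κ.out - κ.out + κ.inn, by omega, κ.out, hlast, tr1 (pass_right hL hg ?_ hlast)⟩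
      simp
    · -- then the piece is a crossing of two strands
      cases κ with
      | cup => simp at h1 h2 hlast; omega
      | cap => simp at h1 h2 hlast; omega
      | pos =>
        simp only [inn_pos, out_pos] at h1 h2 hlast
        exact ⟨0, by omega, 1, by omega,
          tr1 ((pass_pos2 hL (m := m) (i := 0) (by omega)).cast rfl (by omega) rfl rfl)⟩
      | neg =>
        simp only [inn_neg, out_neg] at h1 h2 hlast
        exact ⟨0, by omega, 1, by omega,
          tr1 ((pass_neg2 hL (m := m) (i := 0) (by omega)).cast rfl (by omega) rfl rfl)⟩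

end

theorem card_closed_append {N : ℕ} [NeZero N] {u v : Word} (hu : Dia 0 u 0) :
    Multiset.card (runs (0 : ZMod N) (u ++ v) 0) =
      Multiset.card (runs (0 : ZMod N) u 0) * Multiset.card (runs (0 : ZMod N) v 0) := by
  rw [card_runs_append]
  have : (runs (0 : ZMod N) u 0).map (fun z => Multiset.card (runs (0 : ZMod N) v z)) =
      (runs (0 : ZMod N) u 0).map (fun _ => Multiset.card (runs (0 : ZMod N) v 0)) := by
    apply Multiset.map_congr rfl
    intro z hz
    have : z = 0 := by
      funext j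
      exact mem_runs_zero hu hz (Nat.zero_le j)
    rw [this]
  rw [this, Multiset.map_const', Multiset.sum_replicate, smul_eq_mul]

theorem two_le_card {u : Word} (hu : Dia 0 u 0) (hne : u ≠ []) :
    2 ≤ Multiset.card (runs (0 : ZMod 2) u 0) := by
  obtain ⟨w, rfl, hw⟩ := exists_cons_cup hu hne
  rw [card_cup_cons hw]
  have h1 := cst_runs (N := 2) hw 0
  have h2 : cst 2 (0 : ZMod 2) = 0 := by
    funext j; simp [cst, graft]
  rw [h2] at h1
  have : 0 < Multiset.card (runs (0 : ZMod 2) w 0) := Multiset.card_pos_iff_exists_mem.2 ⟨_, h1⟩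
  omega

theorem width_pos {u v : Word} {m : ℕ} (hD : IsKnot (u ++ v)) (hu0 : u ≠ []) (hv0 : v ≠ [])
    (hu : Dia 0 u m) (hv : Dia m v 0) : 1 ≤ m := by
  by_contra hm
  obtain rfl : m = 0 := by omega
  have h1 := hD.2
  rw [card_closed_append hu] at h1
  have h2 := two_le_card hu hu0
  have h3 := two_le_card hv hv0
  nlinarith

theorem ne_nil_of_knot {D : Word} (hD : IsKnot D) : D ≠ [] := by
  rintro rfl
  have := hD.2
  simp at this

theorem exists_snoc_cap {D : Word} (hD : Dia 0 D 0) (hne : D ≠ []) :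
    ∃ w, D = w ++ [cap 0] ∧ Dia 0 w 2 := by
  have h1 : flp D ≠ [] := by
    intro h
    apply hne
    rw [← flp_flp D, h]; rfl
  obtain ⟨w, hw, hw'⟩ := exists_cons_cup (dia_flp hD) h1
  refine ⟨flp w, ?_, dia_flp hw'⟩
  rw [← flp_flp D, hw]; rfl

/-- The diagram `D` with `L` tied into the left leg of its last cap. -/
def cs (L D : Word) : Word := D.dropLast ++ L ++ [cap 0]

theorem cs_snoc (L w : Word) : cs L (w ++ [cap 0]) = w ++ L ++ [cap 0] := by
  simp [cs]

section

variable {L : Word} (hL : Dia 1 L 1) (hR : Iso 1 1 (rotw 1 L) L)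

include hL

theorem dia_cs {D : Word} (hD : Dia 0 D 0) (hne : D ≠ []) : Dia 0 (cs L D) 0 := by
  obtain ⟨w, rfl, hw⟩ := exists_snoc_cap hD hne
  rw [cs_snoc]
  exact dia_append.2 ⟨2, dia_append.2 ⟨2, hw, dia_right 1 hL⟩, by decide⟩

include hR

theorem ins_last (v : Word) : ∀ (u : Word) (m k : ℕ), IsKnot (u ++ v) → Dia 0 u m →
    Dia m v 0 → k < m → Iso 0 0 (u ++ sh k L ++ v) (cs L (u ++ v)) := by
  induction v with
  | nil =>
    intro u m k hD hu hv hk
    rw [dia_nil] at hv
    omega
  | cons g v ih =>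
    intro u m k hD hu hv hk
    by_cases hv0 : v = []
    · subst hv0
      have hD' := hD
      obtain ⟨w, hw, hw'⟩ := exists_snoc_cap hD.1 (ne_nil_of_knot hD)
      obtain ⟨rfl, hg⟩ := List.append_inj' hw rfl
      rw [List.singleton_inj] at hg
      subst hg
      rw [cs_snoc]
      have := ins_cut hL hR hu hv hD hk (show 0 < m by omega)
      simpa using this
    · obtain ⟨h1, h2⟩ := hv
      have dg : Dia m [g] (m - g.kind.inn + g.kind.out) := ⟨h1, rfl⟩
      have hD2 : IsKnot ((u ++ [g]) ++ v) := by simpa using hD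
      have hug : Dia 0 (u ++ [g]) (m - g.kind.inn + g.kind.out) := dia_append.2 ⟨_, hu, dg⟩
      have hm' := width_pos hD2 (by simp) hv0 hug h2
      obtain ⟨k1, hk1, k2, hk2, hiso⟩ := ins_next hL hR hu dg h2 hD (by omega) hm'
      have s1 := ins_cut hL hR hu (dia_cons.2 ⟨h1, h2⟩) hD hk hk1
      have s2 := ih (u ++ [g]) _ k2 hD2 hug h2 hk2
      have s3 := (s1.trans hiso).trans s2
      simpa using s3

/-- Connected sum with `L` is well defined on isotopy classes of knots. -/
theorem cs_iso {D E : Word} (h : Iso 0 0 D E) (hD : IsKnot D) : Iso 0 0 (cs L D) (cs L E) := by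
  suffices ∀ D E, Iso 0 0 D E → (IsKnot D ↔ IsKnot E) ∧
      (IsKnot D → Iso 0 0 (cs L D) (cs L E)) from (this D E h).2 hD
  clear hD h D E
  intro D E h
  induction h with
  | rel D E hab =>
    have hiso : Iso 0 0 D E := Relation.EqvGen.rel _ _ hab
    refine ⟨⟨fun h => h.iso hiso, fun h => h.iso hiso.symm⟩, fun hD => ?_⟩
    have hE := hD.iso hiso
    obtain ⟨h1, h2, u, v, s, t, hst, rfl, rfl⟩ := hab
    rw [List.append_assoc] at h1 h2
    obtain ⟨m, a1, a2⟩ := dia_append.1 h1
    obtain ⟨m', a3, a4⟩ := dia_append.1 a2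
    obtain ⟨l, b1, b2⟩ := dia_append.1 h2
    obtain ⟨l', b3, b4⟩ := dia_append.1 b2
    have e1 := dia_unique a1 b1
    subst e1
    have e2 : m' = l' := elem_width hst a3 b3
    subst e2
    by_cases hm : 1 ≤ m
    · have s1 := ins_last hL hR (s ++ v) u m 0 (by simpa using hD) a1 a2 hm
      have s2 := ins_last hL hR (t ++ v) u m 0 (by simpa using hE) b1 b2 hm
      have hLm : Dia m L m := (dia_right (m - 1) hL).cast (by omega) (by omega) rfl
      have s3 : Iso 0 0 ((u ++ L) ++ s ++ v) ((u ++ L) ++ t ++ v) :=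
        Iso.ctx (dia_append.2 ⟨m, a1, hLm⟩) a4 (Iso.elem hst a3 b3)
      have := (s1.symm.trans (s3.cast rfl rfl (by simp) (by simp))).trans s2
      simpa using this
    · obtain rfl : m = 0 := by omega
      have hm' : 1 ≤ m' := by
        cases hst <;>
          simp only [dia_cons, dia_nil, cup_kind, cap_kind, pos_kind, neg_kind, cup_off, cap_off,
            pos_off, neg_off, inn_cup, inn_cap, inn_pos, inn_neg, out_cup, out_cap, out_pos,
            out_neg] at a3 b3 <;> try omega
        rename_i a b i j hij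
        have := Kind.inn_eq a
        have := Kind.inn_eq b
        have := Kind.out_eq a
        have := Kind.out_eq b
        rcases a with _ | _ | _ | _ <;> rcases b with _ | _ | _ | _ <;> simp at a3 b3 <;> omega
      have s1 := ins_last hL hR v (u ++ s) m' 0 hD (dia_append.2 ⟨_, a1, a3⟩) a4 hm'
      have s2 := ins_last hL hR v (u ++ t) m' 0 hE (dia_append.2 ⟨_, b1, b3⟩) b4 hm'
      have hLm : Dia m' L m' := (dia_right (m' - 1) hL).cast (by omega) (by omega) rfl
      have s3 : Iso 0 0 (u ++ s ++ (L ++ v)) (u ++ t ++ (L ++ v)) :=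
        Iso.ctx a1 (dia_append.2 ⟨m', hLm, a4⟩) (Iso.elem hst a3 b3)
      have := (s1.symm.trans (s3.cast rfl rfl (by simp) (by simp))).trans s2
      exact this
  | refl D => exact ⟨Iff.rfl, fun _ => Iso.refl _⟩
  | symm D E _ ih => exact ⟨ih.1.symm, fun h => (ih.2 (ih.1.2 h)).symm⟩
  | trans D E F _ _ ih ih' =>
    exact ⟨ih.1.trans ih'.1, fun h => (ih.2 h).trans (ih'.2 (ih.1.1 h))⟩

end

end H80Skein
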