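import Pool.Agent.H80Skein.Det

/-! The three invariants are isotopy invariants and detect the unknot. -/

set_option linter.unusedSimpArgs false
set_option linter.unusedSectionVars false

namespace H80Skein

theorem isoInv_unk : IsoInv unk := by
  intro D E h
  unfold unk
  refine iInf_congr (fun k => iInf_congr_Prop ?_ (fun _ => rfl))
  constructor
  · rintro ⟨A, B, h1, h2⟩; exact ⟨A, B, h.symm.trans h1, h2⟩
  · rintro ⟨A, B, h1, h2⟩; exact ⟨A, B, h.trans h1, h2⟩

theorem isoInv_cr : IsoInv cr := by
  intro D E h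
  unfold cr
  refine iInf_congr (fun A => iInf_congr_Prop ?_ (fun _ => rfl))
  exact ⟨fun h1 => h.symm.trans h1, fun h1 => h.trans h1⟩

theorem isoInv_gen : IsoInv gen := by
  intro D E h
  unfold gen
  refine iInf_congr (fun k => iInf_congr_Prop ?_ (fun _ => rfl))
  constructor
  · rintro ⟨A, h1, h2⟩; exact ⟨A, h1, h.symm.trans h2⟩
  · rintro ⟨A, h1, h2⟩; exact ⟨A, h1, h.trans h2⟩

/-- A minimum over natural numbers that is zero is attained at zero. -/
theorem iInf_nat_eq_zero {ι : Type*} {f : ι → ℕ} {P : ι → Prop}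
    (h : (⨅ i, ⨅ (_ : P i), ((f i : ℕ) : ℕ∞)) = 0) : ∃ i, P i ∧ f i = 0 := by
  by_contra hcon
  push Not at hcon
  have : (1 : ℕ∞) ≤ ⨅ i, ⨅ (_ : P i), ((f i : ℕ) : ℕ∞) := by
    refine le_iInf (fun i => le_iInf (fun hi => ?_))
    have := hcon i hi
    exact_mod_cast Nat.one_le_iff_ne_zero.2 this
  rw [h] at this
  exact absurd this (by norm_num)

theorem Switch.refl (E : Word) : Switch 0 E E := by
  induction E with
  | nil => exact Switch.nil
  | cons g w ih => exact Switch.keep g ih

theorem Switch.eq_of_zero {k : ℕ} {E F : Word} (h : Switch k E F) (hk : k = 0) : E = F := by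
  induction h with
  | nil => rfl
  | keep g _ ih => rw [ih hk]
  | posNeg i _ _ => omega
  | negPos i _ _ => omega

theorem unk_unknot : unk unknot = 0 := by
  refine le_antisymm ?_ zero_le
  refine (iInf_le _ 0).trans ?_
  refine (iInf_le _ ⟨unknot, unknot, Iso.refl _, Switch.refl _, Iso.refl _⟩).trans ?_
  simp

theorem detU_unk : DetU unk := by
  intro D _ h
  rw [unk_unknot] at h
  obtain ⟨k, ⟨E, F, h1, h2, h3⟩, hk⟩ := iInf_nat_eq_zero h
  have := h2.eq_of_zero hk
  subst this
  exact h1.trans h3

theorem gen_unknot : gen unknot = 0 := by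
  refine le_antisymm ?_ zero_le
  refine (iInf_le _ 0).trans ?_
  refine (iInf_le _ ⟨[], rfl, Iso.refl _⟩).trans ?_
  simp

theorem dia_dbl {m n : ℕ} {w : Word} (h : Dia m w n) :
    Dia (2 * m) (w.flatMap dbl) (2 * n) := by
  induction w generalizing m with
  | nil => rw [dia_nil] at h; subst h; rfl
  | cons g w ih =>
    obtain ⟨h1, h2⟩ := h
    rw [List.flatMap_cons]
    refine dia_append.2 ⟨_, ?_, ih h2⟩
    obtain ⟨k, i⟩ := g
    cases k with
    | cup =>
      simp only [inn_cup, out_cup] at h1 ⊢
      refine ⟨by simp; omega, by simp; omega, ?_⟩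
      simp; omega
    | cap =>
      simp only [inn_cap, out_cap] at h1 ⊢
      refine ⟨by simp; omega, by simp; omega, ?_⟩
      simp; omega
    | pos =>
      simp only [inn_pos, out_pos] at h1 ⊢
      refine ⟨by simp; omega, by simp; omega, by simp; omega, by simp; omega, ?_⟩
      simp; omega
    | neg =>
      simp only [inn_neg, out_neg] at h1 ⊢
      refine ⟨by simp; omega, by simp; omega, by simp; omega, by simp; omega, ?_⟩
      simp; omega

/-- A closed diagram with a single labelling modulo two is empty. -/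
theorem eq_nil_of_card {T : Word} (hT : Dia 0 T 0)
    (h : Multiset.card (runs (0 : ZMod 2) T 0) = 1) : T = [] := by
  by_contra hne
  obtain ⟨w, rfl, hw⟩ := exists_cons_cup hT hne
  rw [card_cup_cons hw] at h
  omega

theorem detU_gen : DetU gen := by
  intro D hD h
  rw [gen_unknot] at h
  obtain ⟨k, ⟨θ, h1, h2⟩, hk⟩ := iInf_nat_eq_zero h
  subst hk
  have hT := dia_dbl h1
  simp only [Nat.mul_zero] at hT
  have e : bandKnot 0 θ = [cup 0] ++ sh 2 (θ.flatMap dbl) ++ [cap 0] := by
    simp [bandKnot]
  rw [e] at h2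
  have hk := (hD.iso h2).2
  rw [card_runs_closed 0 _ _ _ 2 hT] at hk
  have h3 : Multiset.card (runs (0 : ZMod 2) ([cup 0] ++ [cap 0]) 0) = 2 := card_unknot (N := 2)
  rw [h3] at hk
  have h4 : θ.flatMap dbl = [] := eq_nil_of_card hT (by omega)
  rw [h4] at h2
  exact h2

/-! Crossingless diagrams -/

/-- Diagrams without crossings. -/
def CL (w : Word) : Prop := ∀ g ∈ w, g.kind = .cup ∨ g.kind = .cap

theorem CL.append {u v : Word} : CL (u ++ v) ↔ CL u ∧ CL v := by
  constructor
  · intro h
    exact ⟨fun g hg => h g (List.mem_append_left _ hg), fun g hg => h g (List.mem_append_right _ hg)⟩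
  · rintro ⟨h1, h2⟩ g hg
    rcases List.mem_append.1 hg with h | h
    · exact h1 g h
    · exact h2 g h

theorem cl_of_crossings {w : Word} (h : crossings w = 0) : CL w := by
  intro g hg
  rw [crossings, List.countP_eq_zero] at h
  have := h g hg
  simp only [decide_eq_true_eq, not_or] at this
  cases hk : g.kind <;> simp_all

/-- All pieces are cups. -/
def AllCup (w : Word) : Prop := ∀ g ∈ w, g.kind = .cup

theorem first_cap {w : Word} (h : CL w) :
    AllCup w ∨ ∃ u i v, w = u ++ [cap i] ++ v ∧ AllCup u := by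
  induction w with
  | nil => left; intro g hg; simp at hg
  | cons g w ih =>
    have h1 : CL w := fun g' hg' => h g' (by simp [hg'])
    rcases h g (by simp) with h2 | h2
    · rcases ih h1 with h3 | ⟨u, i, v, h3, h4⟩
      · left
        intro g' hg'
        rcases List.mem_cons.1 hg' with rfl | hg'
        · exact h2
        · exact h3 g' hg'
      · right
        refine ⟨g :: u, i, v, by rw [h3]; rfl, ?_⟩
        intro g' hg'
        rcases List.mem_cons.1 hg' with rfl | hg'
        · exact h2
        · exact h4 g' hg'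
    · right
      obtain ⟨k, i⟩ := g
      simp only at h2
      subst h2
      exact ⟨[], i, w, rfl, by intro g hg; simp at hg⟩

theorem dia_allCup {w : Word} (h : AllCup w) {m n : ℕ} (hd : Dia m w n) :
    n = m + 2 * w.length := by
  induction w generalizing m with
  | nil => rw [dia_nil] at hd; simp [hd]
  | cons g w ih =>
    obtain ⟨h1, h2⟩ := hd
    have hg := h g (by simp)
    rw [hg] at h2
    simp only [inn_cup, out_cup] at h2
    have := ih (fun g' hg' => h g' (by simp [hg'])) h2
    rw [List.length_cons]; omega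

/-- A cap in a crossingless diagram cancels against a cup or closes a circle. -/
theorem reduce_cap (n : ℕ) : ∀ (u : Word) (i : ℕ) (v : Word), u.length = n → AllCup u → CL v →
    Dia 0 (u ++ [cap i] ++ v) 0 →
    ∃ A B : Word, (A ++ B).length + 2 = (u ++ [cap i] ++ v).length ∧ CL (A ++ B) ∧
      Dia 0 (A ++ B) 0 ∧ (Iso 0 0 (u ++ [cap i] ++ v) (A ++ B) ∨
        ∃ j, Iso 0 0 (u ++ [cap i] ++ v) (A ++ [cup j, cap j] ++ B)) := by
  induction n with
  | zero =>
    intro u i v hu _ _ hd
    have : u = [] := List.length_eq_zero_iff.1 hu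
    subst this
    exact absurd hd.1 (by simp)
  | succ n ih =>
    intro u i v hu hcu hv hd
    have hne : u ≠ [] := by rintro rfl; simp at hu
    obtain ⟨u', g, rfl⟩ : ∃ u' g, u = u' ++ [g] :=
      ⟨u.dropLast, u.getLast hne, (List.dropLast_append_getLast hne).symm⟩
    have hu' : u'.length = n := by simpa using hu
    have hcu' : AllCup u' := fun g' hg' => hcu g' (by simp [hg'])
    have hg : g.kind = .cup := hcu g (by simp)
    obtain ⟨k, j⟩ := g
    simp only at hg
    subst hg
    have clu' : CL u' := fun g' hg' => Or.inl (hcu' g' hg')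
    -- the diagram levels
    have hd2 : Dia 0 (u' ++ ([cup j, cap i] ++ v)) 0 := by
      have : u' ++ ([cup j, cap i] ++ v) = u' ++ [⟨.cup, j⟩] ++ [cap i] ++ v := by simp [cup]
      rw [this]; exact hd
    obtain ⟨l, hl1, hl2⟩ := dia_append.1 hd2
    obtain ⟨l', hl3, hl4⟩ := dia_append.1 hl2
    have hl5 : j ≤ l ∧ i + 2 ≤ l + 2 ∧ l' = l := by
      obtain ⟨a1, a2, a3⟩ := hl3
      simp at a1 a2 a3
      refine ⟨a1, by omega, ?_⟩
      have a4 : l = l' := a3
      omega
    obtain ⟨hj, hi, rfl⟩ := hl5
    have eD : u' ++ [(⟨.cup, j⟩ : Gen)] ++ [cap i] ++ v = u' ++ [cup j, cap i] ++ v := by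
      simp [cup]
    have hd3 : Dia 0 (u' ++ [cup j, cap i] ++ v) 0 := by rw [← eD]; exact hd
    have hA : Dia 0 (u' ++ v) 0 := dia_append.2 ⟨_, hl1, hl4⟩
    have hlen : (u' ++ v).length + 2 = (u' ++ [(⟨.cup, j⟩ : Gen)] ++ [cap i] ++ v).length := by
      simp; omega
    by_cases c1 : i = j
    · subst c1
      refine ⟨u', v, hlen, CL.append.2 ⟨clu', hv⟩, hA, Or.inr ⟨i, ?_⟩⟩
      rw [eD]; exact Iso.refl _
    by_cases c2 : i = j + 1
    · subst c2
      refine ⟨u', v, hlen, CL.append.2 ⟨clu', hv⟩, hA, Or.inl ?_⟩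
      have := Iso.step (m := 0) (n := 0) (u := u') (v := v) (Elem.zag j) hd3 (by simpa using hA)
      rw [eD]; simpa using this
    by_cases c3 : j = i + 1
    · subst c3
      refine ⟨u', v, hlen, CL.append.2 ⟨clu', hv⟩, hA, Or.inl ?_⟩
      have := Iso.step (m := 0) (n := 0) (u := u') (v := v) (Elem.zig i) hd3 (by simpa using hA)
      rw [eD]; simpa using this
    by_cases c4 : j + 2 ≤ i
    · -- the cap moves down on the right
      obtain ⟨i', rfl⟩ : ∃ i', i = i' + 2 := ⟨i - 2, by omega⟩
      have hd4 : Dia 0 (u' ++ [cap i', cup j] ++ v) 0 := by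
        rw [List.append_assoc]
        refine dia_append.2 ⟨_, hl1, dia_append.2 ⟨_, ?_, hl4⟩⟩
        refine ⟨by simp; omega, by simp; omega, ?_⟩
        simp; omega
      have s1 : Iso 0 0 (u' ++ [cup j, cap (i' + 2)] ++ v) (u' ++ [cap i', cup j] ++ v) :=
        Iso.step (Elem.far .cup .cap j i' (by omega)) hd3 hd4
      have e2 : u' ++ [cap i', cup j] ++ v = u' ++ [cap i'] ++ (cup j :: v) := by simp
      rw [e2] at s1 hd4
      obtain ⟨A, B, h1, h2, h3, h4⟩ := ih u' i' (cup j :: v) hu' hcu'
        (by intro g hg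
            rcases List.mem_cons.1 hg with rfl | hg
            · left; rfl
            · exact hv g hg) hd4
      refine ⟨A, B, ?_, h2, h3, ?_⟩
      · rw [h1]; simp
      · rw [eD]
        rcases h4 with h4 | ⟨q, h4⟩
        · exact Or.inl (s1.trans h4)
        · exact Or.inr ⟨q, s1.trans h4⟩
    · -- the cap moves down on the left
      obtain ⟨j', rfl⟩ : ∃ j', j = j' + 2 := ⟨j - 2, by omega⟩
      have hd4 : Dia 0 (u' ++ [cap i, cup j'] ++ v) 0 := by
        rw [List.append_assoc]
        refine dia_append.2 ⟨_, hl1, dia_append.2 ⟨_, ?_, hl4⟩⟩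
        refine ⟨by simp; omega, by simp; omega, ?_⟩
        simp; omega
      have s1 : Iso 0 0 (u' ++ [cap i, cup j'] ++ v) (u' ++ [cup (j' + 2), cap i] ++ v) :=
        Iso.step (Elem.far .cap .cup i j' (by omega)) hd4 hd3
      have e2 : u' ++ [cap i, cup j'] ++ v = u' ++ [cap i] ++ (cup j' :: v) := by simp
      rw [e2] at s1 hd4
      obtain ⟨A, B, h1, h2, h3, h4⟩ := ih u' i (cup j' :: v) hu' hcu'
        (by intro g hg
            rcases List.mem_cons.1 hg with rfl | hg
            · left; rfl
            · exact hv g hg) hd4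
      refine ⟨A, B, ?_, h2, h3, ?_⟩
      · rw [h1]; simp
      · rw [eD]
        rcases h4 with h4 | ⟨q, h4⟩
        · exact Or.inl (s1.symm.trans h4)
        · exact Or.inr ⟨q, s1.symm.trans h4⟩

/-- A knot diagram without crossings is isotopic to the unknot. -/
theorem iso_of_cl (n : ℕ) : ∀ D : Word, D.length = n → IsKnot D → CL D → Iso 0 0 D unknot := by
  induction n using Nat.strong_induction_on with
  | _ n ih =>
    intro D hn hD hcl
    rcases first_cap hcl with h | ⟨u, i, v, rfl, hu⟩
    · have := dia_allCup h hD.1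
      have h0 : D = [] := List.length_eq_zero_iff.1 (by omega)
      have := hD.2
      rw [h0] at this
      simp at this
    · have hv : CL v := (CL.append.1 hcl).2
      obtain ⟨A, B, h1, h2, h3, h4⟩ := reduce_cap u.length u i v rfl hu hv hD.1
      rcases h4 with h4 | ⟨j, h4⟩
      · exact h4.trans (ih (A ++ B).length (by omega) _ rfl (hD.iso h4) h2)
      · have hk := (hD.iso h4).2
        have hk1 := (hD.iso h4).1
        have e : A ++ [cup j, cap j] ++ B = A ++ sh j unknot ++ B := by
          simp [unknot, cup, cap]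
        rw [e, card_runs_closed 0 _ _ _ _ (by decide), card_unknot] at hk
        have h5 : A ++ B = [] := eq_nil_of_card h3 (by omega)
        rw [List.append_eq_nil_iff] at h5
        obtain ⟨rfl, rfl⟩ := h5
        have hj : j = 0 := by
          have := hk1.1
          simp at this
          exact this
        subst hj
        exact h4

theorem cr_unknot : cr unknot = 0 := by
  refine le_antisymm ?_ zero_le
  refine (iInf_le _ unknot).trans ?_
  refine (iInf_le _ (Iso.refl _)).trans ?_
  have : crossings unknot = 0 := by decide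
  rw [this]; simp

theorem detU_cr : DetU cr := by
  intro D hD h
  rw [cr_unknot] at h
  obtain ⟨E, h1, h2⟩ := iInf_nat_eq_zero h
  exact h1.trans (iso_of_cl _ E rfl (hD.iso h1) (cl_of_crossings h2))

end H80Skein
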