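import Pool.Agent.H80Skein.Loops
import Pool.Agent.H80Skein.Examples

/-! The number of loops of the two extreme smoothings of a diagram. -/

set_option linter.unusedSimpArgs false
set_option linter.unusedSectionVars false

namespace H80Skein

/-! ### The dot product of two labellings -/

/-- The dot product of the first `m` labels. -/
def dot (m : ℕ) (x y : ℕ → ZMod 2) : ZMod 2 := ∑ j ∈ Finset.range m, x j * y j

theorem sum_split (f : ℕ → ZMod 2) (o c r : ℕ) : ∑ j ∈ Finset.range (o + c + r), f j =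
    ∑ j ∈ Finset.range o, f j + ∑ j ∈ Finset.range c, f (o + j) +
      ∑ j ∈ Finset.range r, f (o + c + j) := by
  rw [Finset.sum_range_add, Finset.sum_range_add]

theorem dot_act {m m' : ℕ} {g : Gen} (hg : Dia m [g] m') {x x' z z' : ℕ → ZMod 2}
    (h : z ∈ act (0 : ZMod 2) g x) (h' : z' ∈ act (0 : ZMod 2) g x') :
    dot m' z z' = dot m x x' := by
  rw [act_def, Multiset.mem_map] at h h'
  obtain ⟨c, hc, rfl⟩ := h
  obtain ⟨c', hc', rfl⟩ := h'
  obtain ⟨k, i⟩ := g
  obtain ⟨h1, h2⟩ := hg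
  rw [dia_nil] at h2
  simp only at h1 h2 hc hc'
  obtain ⟨r, rfl⟩ : ∃ r, m = i + k.inn + r := ⟨m - (i + k.inn), by omega⟩
  obtain rfl : m' = i + k.out + r := by omega
  unfold dot
  rw [sum_split, sum_split]
  have e1 : ∑ j ∈ Finset.range i, glue ⟨k, i⟩ x c j * glue ⟨k, i⟩ x' c' j =
      ∑ j ∈ Finset.range i, x j * x' j := by
    apply Finset.sum_congr rfl
    intro j hj
    rw [Finset.mem_range] at hj
    rw [glue_lt _ hj, glue_lt _ hj]
  have e3 : ∑ j ∈ Finset.range r, glue ⟨k, i⟩ x c (i + k.out + j) *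
      glue ⟨k, i⟩ x' c' (i + k.out + j) =
      ∑ j ∈ Finset.range r, x (i + k.inn + j) * x' (i + k.inn + j) := by
    apply Finset.sum_congr rfl
    intro j hj
    rw [glue_ge _ (by simp), glue_ge _ (by simp)]
    simp only
    have : i + k.out + j - k.out + k.inn = i + k.inn + j := by omega
    rw [this]
  rw [e1, e3]
  congr 2
  -- the middle part
  have t1 : ∀ (y : ℕ → ZMod 2) (d : ZMod 2 × ZMod 2), k.out = 2 →
      glue ⟨k, i⟩ y d i = d.1 ∧ glue ⟨k, i⟩ y d (i + 1) = d.2 := by
    intro y d hk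
    simp [glue, hk]
  cases k with
  | cup =>
    simp only [rule, Multiset.mem_map, add_zero] at hc hc'
    obtain ⟨a, -, rfl⟩ := hc
    obtain ⟨a', -, rfl⟩ := hc'
    simp only [out_cup, inn_cup, Finset.sum_range_succ, Finset.range_zero, Finset.sum_empty,
      Nat.add_zero, zero_add]
    rw [(t1 x (a, a) rfl).1, (t1 x (a, a) rfl).2, (t1 x' (a', a') rfl).1, (t1 x' (a', a') rfl).2]
    have : ∀ a a' : ZMod 2, a * a' + a * a' = 0 := by decide
    exact this a a'
  | cap =>
    simp only [rule, add_zero] at hc hc'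
    split_ifs at hc with h1
    · split_ifs at hc' with h2
      · simp only [out_cap, inn_cap, Finset.sum_range_succ, Finset.range_zero, Finset.sum_empty,
          Nat.add_zero, zero_add, h1, h2]
        have : ∀ a a' : ZMod 2, 0 = a * a' + a * a' := by decide
        exact this _ _
      · simp at hc'
    · simp at hc
  | pos =>
    simp only [rule, Multiset.mem_singleton] at hc hc'
    subst hc hc'
    simp only [out_pos, inn_pos, Finset.sum_range_succ, Finset.range_zero, Finset.sum_empty,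
      Nat.add_zero, zero_add]
    rw [(t1 x _ rfl).1, (t1 x _ rfl).2, (t1 x' _ rfl).1, (t1 x' _ rfl).2]
    simp only [z2]
    ring
  | neg =>
    simp only [rule, Multiset.mem_singleton] at hc hc'
    subst hc hc'
    simp only [out_neg, inn_neg, Finset.sum_range_succ, Finset.range_zero, Finset.sum_empty,
      Nat.add_zero, zero_add]
    rw [(t1 x _ rfl).1, (t1 x _ rfl).2, (t1 x' _ rfl).1, (t1 x' _ rfl).2]
    simp only [z2]
    ring

theorem dot_runs (w : Word) : ∀ {m n : ℕ}, Dia m w n → ∀ {x x' z z' : ℕ → ZMod 2},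
    z ∈ runs (0 : ZMod 2) w x → z' ∈ runs (0 : ZMod 2) w x' → dot n z z' = dot m x x' := by
  induction w with
  | nil =>
    intro m n hd x x' z z' h h'
    rw [dia_nil] at hd
    rw [runs_nil, Multiset.mem_singleton] at h h'
    subst hd h h'
    rfl
  | cons g w ih =>
    intro m n hd x x' z z' h h'
    rw [runs_cons, Multiset.mem_bind] at h h'
    obtain ⟨y, hy, hz⟩ := h
    obtain ⟨y', hy', hz'⟩ := h'
    obtain ⟨h1, h2⟩ := hd
    rw [ih h2 hz hz']
    exact dot_act ⟨h1, rfl⟩ hy hy'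

/-! ### Counting -/

/-- Replace the labels at `i`, `i + 1`. -/
def upd (i : ℕ) (a b : ZMod 2) (z : ℕ → ZMod 2) : ℕ → ZMod 2 := fun j =>
  if j = i then a else if j = i + 1 then b else z j

theorem upd_add (i : ℕ) (a b c d : ZMod 2) (z z' : ℕ → ZMod 2) :
    upd i a b z + upd i c d z' = upd i (a + c) (b + d) (z + z') := by
  funext j
  simp only [upd, Pi.add_apply]
  split_ifs <;> rfl

theorem upd_self (i : ℕ) (z : ℕ → ZMod 2) : upd i (z i) (z (i + 1)) z = z := by
  funext j
  simp only [upd]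
  split_ifs with h1 h2
  · rw [h1]
  · rw [h2]
  · rfl

section

variable {p q : Word} {m i : ℕ}

/-- Number of labellings of `p` and of `q` that agree off the strands `i`, `i + 1` and have the
given labels there. -/
def nn (p q : Word) (i : ℕ) (a b c d : ZMod 2) : ℕ :=
  ((runs (0 : ZMod 2) p 0).map fun z =>
    if z i = a ∧ z (i + 1) = b then Multiset.card (runs (0 : ZMod 2) q (upd i c d z)) else 0).sum

theorem nn_ne_zero {a b c d : ZMod 2} (h : nn p q i a b c d ≠ 0) :
    ∃ z ∈ runs (0 : ZMod 2) p 0, z i = a ∧ z (i + 1) = b ∧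
      ∃ y, y ∈ runs (0 : ZMod 2) q (upd i c d z) := by
  by_contra hc
  push Not at hc
  apply h
  unfold nn
  rw [Multiset.sum_eq_zero]
  intro t ht
  rw [Multiset.mem_map] at ht
  obtain ⟨z, hz, rfl⟩ := ht
  split_ifs with h1
  · have := hc z hz h1.1 h1.2
    rw [Multiset.card_eq_zero]
    exact Multiset.eq_zero_of_forall_notMem this
  · rfl

theorem nn_trans {a b c d : ZMod 2} (h : nn p q i a b c d ≠ 0) (a' b' c' d' : ZMod 2) :
    nn p q i (a' + a) (b' + b) (c' + c) (d' + d) = nn p q i a' b' c' d' := by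
  obtain ⟨z0, hz0, rfl, rfl, y0, hy0⟩ := nn_ne_zero h
  unfold nn
  have e0 := runs_add p (x := 0) hz0
  rw [zero_add] at e0
  conv_lhs => rw [e0, Multiset.map_map]
  congr 1
  apply Multiset.map_congr rfl
  intro z _
  simp only [Function.comp, Pi.add_apply, add_left_inj]
  congr 1
  rw [← upd_add, runs_add q hy0, Multiset.card_map]

theorem dot_upd {m i : ℕ} (hi : i + 2 ≤ m) (z z' : ℕ → ZMod 2) (c d c' d' : ZMod 2) :
    dot m (upd i c d z) (upd i c' d' z') + z i * z' i + z (i + 1) * z' (i + 1) =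
      dot m z z' + c * c' + d * d' := by
  obtain ⟨r, rfl⟩ : ∃ r, m = i + 2 + r := ⟨m - (i + 2), by omega⟩
  unfold dot
  rw [sum_split, sum_split]
  have e1 : ∑ j ∈ Finset.range i, upd i c d z j * upd i c' d' z' j =
      ∑ j ∈ Finset.range i, z j * z' j := by
    apply Finset.sum_congr rfl
    intro j hj
    rw [Finset.mem_range] at hj
    simp only [upd]
    rw [if_neg (by omega), if_neg (by omega), if_neg (by omega), if_neg (by omega)]
  have e3 : ∑ j ∈ Finset.range r, upd i c d z (i + 2 + j) * upd i c' d' z' (i + 2 + j) =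
      ∑ j ∈ Finset.range r, z (i + 2 + j) * z' (i + 2 + j) := by
    apply Finset.sum_congr rfl
    intro j hj
    simp only [upd]
    rw [if_neg (by omega), if_neg (by omega), if_neg (by omega), if_neg (by omega)]
  rw [e1, e3]
  simp only [Finset.sum_range_succ, Finset.range_zero, Finset.sum_empty, Nat.add_zero, upd,
    if_true, zero_add, Nat.succ_ne_self, if_false]
  ring

theorem nn_dot (hp : Dia 0 p m) (hq : Dia m q 0) (hi : i + 2 ≤ m) {a b c d a' b' c' d' : ZMod 2}
    (h : nn p q i a b c d ≠ 0) (h' : nn p q i a' b' c' d' ≠ 0) :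
    a * a' + b * b' = c * c' + d * d' := by
  obtain ⟨z, hz, rfl, rfl, y, hy⟩ := nn_ne_zero h
  obtain ⟨z', hz', rfl, rfl, y', hy'⟩ := nn_ne_zero h'
  have e1 := dot_runs p hp hz hz'
  have e2 := dot_runs q hq hy hy'
  have e3 := dot_upd hi z z' c d c' d'
  rw [e1, ← e2] at e3
  simpa [dot] using e3

theorem nn_ones (hp : Dia 0 p m) (hq : Dia m q 0) (hi : i + 2 ≤ m) : nn p q i 1 1 1 1 ≠ 0 := by
  have h1 := cst_runs (N := 2) hp 1
  rw [cst_zero] at h1
  have h2 := cst_runs (N := 2) hq 1
  unfold nn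
  intro h0
  rw [Multiset.sum_eq_zero_iff] at h0
  have := h0 _ (Multiset.mem_map_of_mem _ h1)
  rw [cst_lt (by omega), cst_lt (by omega), if_pos ⟨rfl, rfl⟩] at this
  have e : upd i 1 1 (cst m 1 : ℕ → ZMod 2) = cst m 1 := by
    conv_rhs => rw [← upd_self i (cst m 1 : ℕ → ZMod 2), cst_lt (by omega), cst_lt (by omega)]
  rw [e, Multiset.card_eq_zero] at this
  rw [this] at h2
  exact Multiset.notMem_zero _ h2

theorem sum_zmod2 (f : ZMod 2 → ℕ) : ∑ a : ZMod 2, f a = f 0 + f 1 := by
  have : (Finset.univ : Finset (ZMod 2)) = {0, 1} := by decide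
  rw [this, Finset.sum_insert (by decide), Finset.sum_singleton]

theorem card_id : Multiset.card (runs (0 : ZMod 2) (p ++ q) 0) =
    nn p q i 0 0 0 0 + nn p q i 1 1 1 1 + nn p q i 0 1 0 1 + nn p q i 1 0 1 0 := by
  rw [card_runs_append]
  unfold nn
  rw [← Multiset.sum_map_add, ← Multiset.sum_map_add, ← Multiset.sum_map_add]
  congr 1
  apply Multiset.map_congr rfl
  intro z _
  have hu := upd_self i z
  have hx : ∀ a : ZMod 2, a = 0 ∨ a = 1 := by decide
  rcases hx (z i) with h1 | h1 <;> rcases hx (z (i + 1)) with h2 | h2 <;>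
    rw [h1, h2] at hu <;> simp [h1, h2, hu]

theorem card_flip (g : Gen) (hg : g.kind = .pos ∨ g.kind = .neg) (hgi : g.off = i) :
    Multiset.card (runs (0 : ZMod 2) (p ++ [g] ++ q) 0) =
    nn p q i 0 0 0 0 + nn p q i 1 1 1 1 + nn p q i 0 1 1 0 + nn p q i 1 0 0 1 := by
  have key : ∀ z : ℕ → ZMod 2, runs (0 : ZMod 2) (g :: q) z =
      runs (0 : ZMod 2) q (upd i (z (i + 1)) (z i) z) := by
    intro z
    obtain ⟨k, i'⟩ := g
    simp only at hg hgi
    subst hgi
    have e : (fun j => z (tr i' j)) = upd i' (z (i' + 1)) (z i') z := by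
      funext j
      unfold tr upd
      split_ifs <;> rfl
    rcases hg with rfl | rfl
    · have := runs2_pos 0 i' q z
      rw [e] at this; exact this
    · have := runs2_neg 0 i' q z
      rw [e] at this; exact this
  rw [List.append_assoc, card_runs_append]
  unfold nn
  rw [← Multiset.sum_map_add, ← Multiset.sum_map_add, ← Multiset.sum_map_add]
  congr 1
  apply Multiset.map_congr rfl
  intro z _
  rw [List.singleton_append, key]
  have hx : ∀ a : ZMod 2, a = 0 ∨ a = 1 := by decide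
  rcases hx (z i) with h1 | h1 <;> rcases hx (z (i + 1)) with h2 | h2 <;> simp [h1, h2]

theorem card_e : Multiset.card (runs (0 : ZMod 2) (p ++ [cap i, cup i] ++ q) 0) =
    nn p q i 0 0 0 0 + nn p q i 1 1 1 1 + nn p q i 0 0 1 1 + nn p q i 1 1 0 0 := by
  have key : ∀ z : ℕ → ZMod 2, Multiset.card (runs (0 : ZMod 2) (cap i :: cup i :: q) z) =
      if z (i + 1) = z i then Multiset.card (runs (0 : ZMod 2) q (upd i 0 0 z)) +
        Multiset.card (runs (0 : ZMod 2) q (upd i 1 1 z)) else 0 := by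
    intro z
    rw [runs_cap]
    simp only [add_zero]
    split_ifs with h
    · rw [runs_cup, card_bind, ← sum_zmod2 (fun a => Multiset.card (runs (0 : ZMod 2) q (upd i a a z)))]
      apply Finset.sum_congr rfl
      intro a _
      congr 2
      funext j
      unfold glue upd
      simp only [cap_off, cup_off, cap_kind, cup_kind, out_cap, out_cup, inn_cap, inn_cup,
        add_zero]
      by_cases c1 : j < i
      · have c2 : ¬ j = i := by omega
        have c3 : ¬ j = i + 1 := by omega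
        simp only [c1, c2, c3, if_true, if_false]
      · by_cases c2 : j < i + 2
        · have c3 : j = i ∨ j = i + 1 := by omega
          rcases c3 with rfl | rfl
          · simp [c1]
          · simp
        · have c3 : ¬ j = i := by omega
          have c4 : ¬ j = i + 1 := by omega
          have c5 : ¬ j - 2 < i := by omega
          have c6 : j - 2 + 2 = j := by omega
          simp only [c1, c2, c3, c4, c5, c6, if_false]
          simp [c6]
    · simp
  rw [List.append_assoc, card_runs_append]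
  unfold nn
  rw [← Multiset.sum_map_add, ← Multiset.sum_map_add, ← Multiset.sum_map_add]
  congr 1
  apply Multiset.map_congr rfl
  intro z _
  have e : [cap i, cup i] ++ q = cap i :: cup i :: q := rfl
  rw [e, key]
  have hx : ∀ a : ZMod 2, a = 0 ∨ a = 1 := by decide
  rcases hx (z i) with h1 | h1 <;> rcases hx (z (i + 1)) with h2 | h2 <;>
    simp [h1, h2, Nat.add_comm]

theorem nn_class (hp : Dia 0 p m) (hq : Dia m q 0) (hi : i + 2 ≤ m) :
    ∃ n0 x y w : ℕ, (nn p q i 0 0 0 0 = n0 ∧ nn p q i 1 1 1 1 = n0) ∧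
      (nn p q i 0 1 0 1 = x ∧ nn p q i 1 0 1 0 = x) ∧
      (nn p q i 0 1 1 0 = y ∧ nn p q i 1 0 0 1 = y) ∧
      (nn p q i 0 0 1 1 = w ∧ nn p q i 1 1 0 0 = w) ∧
      ((x = n0 ∧ y = 0 ∧ w = 0) ∨ (x = 0 ∧ y = n0 ∧ w = 0) ∨ (x = 0 ∧ y = 0 ∧ w = n0) ∨
        (x = 0 ∧ y = 0 ∧ w = 0)) := by
  have h1 := nn_ones hp hq hi
  have t1 : ∀ a b c d : ZMod 2, nn p q i (a + 1) (b + 1) (c + 1) (d + 1) = nn p q i a b c d :=
    fun a b c d => nn_trans h1 a b c d
  have e0 : nn p q i 1 1 1 1 = nn p q i 0 0 0 0 := by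
    have := t1 0 0 0 0
    simpa using this
  have e1 : nn p q i 1 0 1 0 = nn p q i 0 1 0 1 := by
    have := t1 0 1 0 1
    have h : (1 + 1 : ZMod 2) = 0 := by decide
    simpa [h] using this
  have e2 : nn p q i 1 0 0 1 = nn p q i 0 1 1 0 := by
    have := t1 0 1 1 0
    have h : (1 + 1 : ZMod 2) = 0 := by decide
    simpa [h] using this
  have e3 : nn p q i 1 1 0 0 = nn p q i 0 0 1 1 := by
    have := t1 0 0 1 1
    have h : (1 + 1 : ZMod 2) = 0 := by decide
    simpa [h] using this
  have b : ∀ a b c d : ZMod 2, nn p q i a b c d ≠ 0 → nn p q i a b c d = nn p q i 0 0 0 0 := by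
    intro a b c d h
    have := nn_trans h 0 0 0 0
    simpa using this
  have o1 : nn p q i 0 1 0 1 ≠ 0 → nn p q i 0 1 1 0 = 0 := by
    intro h
    by_contra h'
    exact absurd (nn_dot hp hq hi h h') (by decide)
  have o2 : nn p q i 0 1 0 1 ≠ 0 → nn p q i 0 0 1 1 = 0 := by
    intro h
    by_contra h'
    exact absurd (nn_dot hp hq hi h h') (by decide)
  have o3 : nn p q i 0 1 1 0 ≠ 0 → nn p q i 0 0 1 1 = 0 := by
    intro h
    by_contra h'
    exact absurd (nn_dot hp hq hi h h') (by decide)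
  refine ⟨_, _, _, _, ⟨rfl, e0⟩, ⟨rfl, e1⟩, ⟨rfl, e2⟩, ⟨rfl, e3⟩, ?_⟩
  by_cases c1 : nn p q i 0 1 0 1 = 0
  · by_cases c2 : nn p q i 0 1 1 0 = 0
    · by_cases c3 : nn p q i 0 0 1 1 = 0
      · exact Or.inr (Or.inr (Or.inr ⟨c1, c2, c3⟩))
      · exact Or.inr (Or.inr (Or.inl ⟨c1, c2, b _ _ _ _ c3⟩))
    · exact Or.inr (Or.inl ⟨c1, b _ _ _ _ c2, o3 c2⟩)
  · exact Or.inl ⟨b _ _ _ _ c1, o1 c1, o2 c1⟩

theorem three_way (hp : Dia 0 p m) (hq : Dia m q 0) (hi : i + 2 ≤ m) (g : Gen)
    (hg : g.kind = .pos ∨ g.kind = .neg) (hgi : g.off = i) :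
    (Multiset.card (runs (0 : ZMod 2) (p ++ q) 0) ≤
        Multiset.card (runs (0 : ZMod 2) (p ++ [g] ++ q) 0) ∨
      Multiset.card (runs (0 : ZMod 2) (p ++ [cap i, cup i] ++ q) 0) ≤
        Multiset.card (runs (0 : ZMod 2) (p ++ [g] ++ q) 0)) ∧
    Multiset.card (runs (0 : ZMod 2) (p ++ q) 0) ≤
      2 * Multiset.card (runs (0 : ZMod 2) (p ++ [cap i, cup i] ++ q) 0) ∧
    Multiset.card (runs (0 : ZMod 2) (p ++ [cap i, cup i] ++ q) 0) ≤
      2 * Multiset.card (runs (0 : ZMod 2) (p ++ q) 0) := by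
  obtain ⟨n0, x, y, w, ⟨a1, a2⟩, ⟨b1, b2⟩, ⟨c1, c2⟩, ⟨d1, d2⟩, h⟩ := nn_class hp hq hi
  rw [card_id (i := i), card_flip g hg hgi, card_e, a1, a2, b1, b2, c1, c2, d1, d2]
  rcases h with ⟨rfl, rfl, rfl⟩ | ⟨rfl, rfl, rfl⟩ | ⟨rfl, rfl, rfl⟩ | ⟨rfl, rfl, rfl⟩ <;>
    (refine ⟨?_, ?_, ?_⟩ <;> omega)

end

/-! ### The two extreme smoothings -/

/-- The smoothing of a piece with coefficient `A`. -/
def smA (g : Gen) : Word := match g.kind with
  | .pos => [cap g.off, cup g.off]
  | .neg => []
  | _ => [g]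

/-- The smoothing of a piece with coefficient `A⁻¹`. -/
def smB (g : Gen) : Word := match g.kind with
  | .pos => []
  | .neg => [cap g.off, cup g.off]
  | _ => [g]

/-- All crossings smoothed with coefficient `A`. -/
def sA (w : Word) : Word := w.flatMap smA
/-- All crossings smoothed with coefficient `A⁻¹`. -/
def sB (w : Word) : Word := w.flatMap smB

@[simp] theorem sA_nil : sA [] = [] := rfl
@[simp] theorem sB_nil : sB [] = [] := rfl
@[simp] theorem sA_append (u v : Word) : sA (u ++ v) = sA u ++ sA v := by simp [sA]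
@[simp] theorem sB_append (u v : Word) : sB (u ++ v) = sB u ++ sB v := by simp [sB]
@[simp] theorem sA_pos (i : ℕ) : sA [pos i] = [cap i, cup i] := rfl
@[simp] theorem sA_neg (i : ℕ) : sA [neg i] = [] := rfl
@[simp] theorem sB_pos (i : ℕ) : sB [pos i] = [] := rfl
@[simp] theorem sB_neg (i : ℕ) : sB [neg i] = [cap i, cup i] := rfl
@[simp] theorem sA_e (i : ℕ) : sA [cap i, cup i] = [cap i, cup i] := rfl
@[simp] theorem sB_e (i : ℕ) : sB [cap i, cup i] = [cap i, cup i] := rfl

theorem dia_sm (sm : Gen → Word) (h : ∀ g m, g.off + g.kind.inn ≤ m →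
    Dia m (sm g) (m - g.kind.inn + g.kind.out)) {m n : ℕ} {w : Word} (hd : Dia m w n) :
    Dia m (w.flatMap sm) n := by
  induction w generalizing m with
  | nil => exact hd
  | cons g w ih =>
    obtain ⟨h1, h2⟩ := hd
    rw [List.flatMap_cons]
    exact dia_append.2 ⟨_, h g m h1, ih h2⟩

theorem dia_e {m i : ℕ} (h : i + 2 ≤ m) : Dia m [cap i, cup i] m := by
  refine ⟨by simp; omega, by simp; omega, ?_⟩
  simp; omega

theorem dia_sA {m n : ℕ} {w : Word} (hd : Dia m w n) : Dia m (sA w) n := by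
  refine dia_sm smA ?_ hd
  rintro ⟨k, i⟩ m h
  cases k
  · exact ⟨h, rfl⟩
  · exact ⟨h, rfl⟩
  · exact (dia_e h).cast rfl (by simp at h ⊢; omega) rfl
  · show m = _
    simp at h ⊢; omega

theorem dia_sB {m n : ℕ} {w : Word} (hd : Dia m w n) : Dia m (sB w) n := by
  refine dia_sm smB ?_ hd
  rintro ⟨k, i⟩ m h
  cases k
  · exact ⟨h, rfl⟩
  · exact ⟨h, rfl⟩
  · show m = _
    simp at h ⊢; omega
  · exact (dia_e h).cast rfl (by simp at h ⊢; omega) rfl

/-- Either the diagram has no crossing or one of them can be singled out. -/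
theorem cl_or_crossing (w : Word) : CL w ∨ ∃ p g q, w = p ++ [g] ++ q ∧
    (g.kind = .pos ∨ g.kind = .neg) := by
  induction w with
  | nil => left; intro g hg; simp at hg
  | cons g w ih =>
    by_cases hg : g.kind = .pos ∨ g.kind = .neg
    · right; exact ⟨[], g, w, rfl, hg⟩
    · rcases ih with h | ⟨p, g', q, rfl, h⟩
      · left
        intro g' hg'
        rcases List.mem_cons.1 hg' with rfl | hg'
        · cases hk : g'.kind <;> simp_all
        · exact h g' hg'
      · right
        exact ⟨g :: p, g', q, rfl, h⟩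

theorem sA_cl {w : Word} (h : CL w) : sA w = w := by
  induction w with
  | nil => rfl
  | cons g w ih =>
    have h1 : CL w := fun g' hg' => h g' (by simp [hg'])
    have h2 := h g (by simp)
    rw [sA, List.flatMap_cons, ← sA, ih h1]
    rcases h2 with h2 | h2 <;> simp [smA, h2]

theorem sB_cl {w : Word} (h : CL w) : sB w = w := by
  induction w with
  | nil => rfl
  | cons g w ih =>
    have h1 : CL w := fun g' hg' => h g' (by simp [hg'])
    have h2 := h g (by simp)
    rw [sB, List.flatMap_cons, ← sB, ih h1]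
    rcases h2 with h2 | h2 <;> simp [smB, h2]

theorem kmt (n : ℕ) : ∀ D : Word, crossings D = n → Dia 0 D 0 →
    Multiset.card (runs (0 : ZMod 2) (sA D) 0) * Multiset.card (runs (0 : ZMod 2) (sB D) 0) ≤
      2 ^ n * Multiset.card (runs (0 : ZMod 2) D 0) ^ 2 := by
  induction n with
  | zero =>
    intro D hn hD
    have h := cl_of_crossings hn
    rw [sA_cl h, sB_cl h]
    apply le_of_eq
    ring
  | succ n ih =>
    intro D hn hD
    rcases cl_or_crossing D with h | ⟨p, g, q, rfl, hg⟩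
    · exfalso
      have : crossings D = 0 := by
        rw [crossings, List.countP_eq_zero]
        intro g hg
        rcases h g hg with h | h <;> simp [h]
      omega
    · rw [List.append_assoc] at hD
      obtain ⟨m, hp, hgq⟩ := dia_append.1 hD
      obtain ⟨m', hg1, hq⟩ := dia_append.1 hgq
      obtain ⟨k, i⟩ := g
      obtain ⟨hi, hm⟩ := hg1
      rw [dia_nil] at hm
      have hcr : ∀ w : Word, crossings w = 0 → crossings (p ++ w ++ q) = n := by
        intro w hw
        rw [crossings_append, crossings_append] at hn ⊢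
        have : crossings [(⟨k, i⟩ : Gen)] = 1 := by
          rcases hg with h | h <;> (simp only at h; subst h; rfl)
        omega
      have hk : k.inn = 2 ∧ k.out = 2 := by
        rcases hg with h | h <;> (simp only at h; subst h; exact ⟨rfl, rfl⟩)
      simp only [hk.1, hk.2] at hi hm
      obtain rfl : m' = m := by omega
      have hq' : Dia m' q 0 := hq
      have c0 := ih (p ++ q) (by simpa using hcr [] rfl) (dia_append.2 ⟨_, hp, hq'⟩)
      have c1 := ih (p ++ [cap i, cup i] ++ q) (hcr _ rfl)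
        (dia_append.2 ⟨_, dia_append.2 ⟨_, hp, dia_e hi⟩, hq'⟩)
      obtain ⟨t1, -, -⟩ := three_way hp hq' hi ⟨k, i⟩ hg rfl
      obtain ⟨-, tA1, tA2⟩ := three_way (dia_sA hp) (dia_sA hq') hi (pos i) (Or.inl rfl) rfl
      obtain ⟨-, tB1, tB2⟩ := three_way (dia_sB hp) (dia_sB hq') hi (pos i) (Or.inl rfl) rfl
      rw [sA_append, sB_append] at c0
      rw [sA_append, sA_append, sB_append, sB_append, sA_e, sB_e] at c1
      rw [sA_append, sA_append, sB_append, sB_append]
      simp only at hg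
      set X := Multiset.card (runs (0 : ZMod 2) (p ++ [⟨k, i⟩] ++ q) 0)
      set X0 := Multiset.card (runs (0 : ZMod 2) (p ++ q) 0)
      set X1 := Multiset.card (runs (0 : ZMod 2) (p ++ [cap i, cup i] ++ q) 0)
      set a0 := Multiset.card (runs (0 : ZMod 2) (sA p ++ sA q) 0)
      set a1 := Multiset.card (runs (0 : ZMod 2) (sA p ++ [cap i, cup i] ++ sA q) 0)
      set b0 := Multiset.card (runs (0 : ZMod 2) (sB p ++ sB q) 0)
      set b1 := Multiset.card (runs (0 : ZMod 2) (sB p ++ [cap i, cup i] ++ sB q) 0)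
      rcases hg with rfl | rfl
      · have e1 : sA [(⟨.pos, i⟩ : Gen)] = [cap i, cup i] := rfl
        have e2 : sB [(⟨.pos, i⟩ : Gen)] = [] := rfl
        rw [e1, e2, List.append_nil]
        show a1 * b0 ≤ 2 ^ (n + 1) * X ^ 2
        rcases t1 with t | t
        · calc a1 * b0 ≤ 2 * a0 * b0 := Nat.mul_le_mul_right _ tA2
            _ = 2 * (a0 * b0) := by ring
            _ ≤ 2 * (2 ^ n * X0 ^ 2) := by omega
            _ ≤ 2 * (2 ^ n * X ^ 2) := by gcongr
            _ = _ := by ring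
        · calc a1 * b0 ≤ a1 * (2 * b1) := Nat.mul_le_mul_left _ tB1
            _ = 2 * (a1 * b1) := by ring
            _ ≤ 2 * (2 ^ n * X1 ^ 2) := by omega
            _ ≤ 2 * (2 ^ n * X ^ 2) := by gcongr
            _ = _ := by ring
      · have e1 : sA [(⟨.neg, i⟩ : Gen)] = [] := rfl
        have e2 : sB [(⟨.neg, i⟩ : Gen)] = [cap i, cup i] := rfl
        rw [e1, e2, List.append_nil]
        show a0 * b1 ≤ 2 ^ (n + 1) * X ^ 2
        rcases t1 with t | t
        · calc a0 * b1 ≤ a0 * (2 * b0) := Nat.mul_le_mul_left _ tB2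
            _ = 2 * (a0 * b0) := by ring
            _ ≤ 2 * (2 ^ n * X0 ^ 2) := by omega
            _ ≤ 2 * (2 ^ n * X ^ 2) := by gcongr
            _ = _ := by ring
        · calc a0 * b1 ≤ 2 * a1 * b1 := Nat.mul_le_mul_right _ tA1
            _ = 2 * (a1 * b1) := by ring
            _ ≤ 2 * (2 ^ n * X1 ^ 2) := by omega
            _ ≤ 2 * (2 ^ n * X ^ 2) := by gcongr
            _ = _ := by ring

end H80Skein
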