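import Pool.Agent.H80Skein.Defs

/-! Moves between linear combinations of tangles and the module of knots modulo such moves. -/

namespace H80Skein

/-- Knot diagrams. -/
abbrev KD := {D : Word // IsKnot D}

/-- A move between `A`-linear combinations of `n`-string tangles: the combinations `s` and `t` are
lists of coefficients and diagrams, drawn with their `2 * n` endpoints at the top, and `ok` is a
condition on the orientations of all the terms (those of `s` first, then those of `t`) at the
endpoints. `ok` true everywhere: an unoriented move; `ok y` meaning `y i = o` for all terms `i`: an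
oriented move with boundary orientation `o`. -/
structure LMove (A : Type*) where
  n : ℕ
  s : List (A × Word)
  t : List (A × Word)
  hs : ∀ x ∈ s, Dia 0 x.2 (2 * n)
  ht : ∀ x ∈ t, Dia 0 x.2 (2 * n)
  ok : (ℕ → Fin (2 * n) → ZMod 2) → Prop

/-- The terms of both sides. -/
def LMove.terms {A : Type*} (μ : LMove A) : List Word := μ.s.map Prod.snd ++ μ.t.map Prod.snd

/-- The move `μ` applies in the surrounding diagram `(u, v)`: every term of `μ`, put between `u`
and `v` to the right of `k` strands, gives a knot diagram, and some orientations of these knots are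
allowed by `ok`. (An orientation is a labelling with `N = 2` and `τ = 1`.) -/
def LMove.In {A : Type*} (μ : LMove A) (u v : Word) (k : ℕ) : Prop :=
  ∃ m, Dia 0 u m ∧ k ≤ m ∧ (∀ T ∈ μ.terms, IsKnot (u ++ sh k T ++ v)) ∧
    ∃ y : ℕ → ℕ → ZMod 2,
      (∀ i (h : i < μ.terms.length), y i ∈ runs (N := 2) 1 (u ++ sh k μ.terms[i]) 0 ∧
        runs (N := 2) 1 v (y i) ≠ 0) ∧
      μ.ok fun i j => y i (k + j)

section

variable (A : Type*) [Ring A]

open Classical in
/-- The knot diagram `D` as an element of the free module on the knot diagrams. -/
noncomputable def kn (D : Word) : KD →₀ A :=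
  if h : IsKnot D then Finsupp.single ⟨D, h⟩ 1 else 0

variable {A}

/-- The linear combination `s`, put between `u` and `v` to the right of `k` strands. -/
noncomputable def put3 (u v : Word) (k : ℕ) (s : List (A × Word)) : KD →₀ A :=
  (s.map fun x => x.1 • kn A (u ++ sh k x.2 ++ v)).sum

/-- The submodule generated by the differences of isotopic knots and by the differences of the two
sides of the moves of `𝓜` in all surrounding diagrams. -/
noncomputable def rels (𝓜 : Set (LMove A)) : Submodule A (KD →₀ A) :=
  Submodule.span A ({x | ∃ D E, IsKnot D ∧ IsKnot E ∧ Iso 0 0 D E ∧ x = kn A D - kn A E} ∪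
    {x | ∃ μ ∈ 𝓜, ∃ u v k, μ.In u v k ∧ x = put3 u v k μ.s - put3 u v k μ.t})

/-- The module `A[K]/𝓜` of knots modulo isotopy and the moves of `𝓜`. -/
abbrev SkeinMod (𝓜 : Set (LMove A)) := (KD →₀ A) ⧸ rels 𝓜

/-- The natural map from knots to `A[K]/𝓜`. -/
noncomputable def cls (𝓜 : Set (LMove A)) (D : Word) : SkeinMod 𝓜 :=
  (rels 𝓜).mkQ (kn A D)

end

end H80Skein
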