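import Pool.Agent.H80Skein.LinDefs
import Pool.Agent.H80Skein.CrVal

/-! The operator of connected sum on the module of knots modulo linear moves. -/

set_option linter.unusedSimpArgs false
set_option linter.unusedSectionVars false

namespace H80Skein

/-- Local knots that can be tied into diagrams. -/
structure Loc (L : Word) : Prop where
  dia : Dia 1 L 1
  rot : Iso 1 1 (rotw 1 L) L
  one : ∀ x : ℕ → ZMod 2, runs (0 : ZMod 2) L x = {x}
  ori : ∀ x : ℕ → ZMod 2, x ∈ runs (1 : ZMod 2) L x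

theorem isKnot_cs {L : Word} (hL : Loc L) {D : Word} (hD : IsKnot D) : IsKnot (cs L D) := by
  obtain ⟨w, rfl, hw⟩ := exists_snoc_cap hD.1 (ne_nil_of_knot hD)
  refine ⟨dia_cs hL.dia hD.1 (ne_nil_of_knot hD), ?_⟩
  rw [cs_snoc]
  have : runs (0 : ZMod 2) (w ++ L ++ [cap 0]) 0 = runs (0 : ZMod 2) (w ++ [cap 0]) 0 := by
    rw [List.append_assoc, runs_append, runs_append (0 : ZMod 2) w [cap 0]]
    apply Multiset.bind_congr
    intro z _
    rw [runs_append, hL.one, Multiset.singleton_bind]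
  rw [this]; exact hD.2

section

variable {A : Type*} [Ring A]

theorem kn_of {D : Word} (h : IsKnot D) : kn A D = Finsupp.single ⟨D, h⟩ 1 := by
  unfold kn; rw [dif_pos h]

/-- Connected sum with `L` on the free module. -/
noncomputable def csF (A : Type*) [Ring A] (L : Word) : (KD →₀ A) →ₗ[A] (KD →₀ A) :=
  Finsupp.linearCombination A fun D : KD => kn A (cs L D.1)

theorem csF_kn {L D : Word} (h : IsKnot D) : csF A L (kn A D) = kn A (cs L D) := by
  rw [kn_of h, csF, Finsupp.linearCombination_single, one_smul]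

/-- The surrounding diagram with `L` tied into its last cap. -/
theorem LMove.In.cs {μ : LMove A} (hn : 1 ≤ μ.n) (hne : μ.terms ≠ []) {L u v : Word} {k : ℕ}
    (hL : Loc L) (h : μ.In u v k) :
    ∃ v', μ.In u v' k ∧ ∀ T ∈ μ.terms, H80Skein.cs L (u ++ sh k T ++ v) = u ++ sh k T ++ v' := by
  obtain ⟨m, hu, hk, hknot, y, hy, hok⟩ := h
  -- `v` ends with a cap
  obtain ⟨T, hT⟩ := List.exists_mem_of_ne_nil _ hne
  have hdT : ∀ T ∈ μ.terms, Dia 0 T (2 * μ.n) := by
    intro T hT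
    rw [LMove.terms, List.mem_append, List.mem_map, List.mem_map] at hT
    rcases hT with ⟨x, hx, rfl⟩ | ⟨x, hx, rfl⟩
    · exact μ.hs x hx
    · exact μ.ht x hx
  have hd : ∀ T ∈ μ.terms, Dia m (sh k T) (m + 2 * μ.n) := by
    intro T hT
    have := dia_right (m - k) (dia_sh k (hdT T hT))
    exact this.cast (by omega) (by omega) rfl
  have hKT := hknot T hT
  obtain ⟨l, h1, h2⟩ := dia_append.1 hKT.1
  have h3 := dia_unique h1 (dia_append.2 ⟨_, hu, hd T hT⟩)
  subst h3
  have hvne : v ≠ [] := by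
    rintro rfl
    rw [dia_nil] at h2
    omega
  obtain ⟨w, hw, hw'⟩ := exists_snoc_cap hKT.1 (ne_nil_of_knot hKT)
  obtain ⟨v', g, rfl⟩ : ∃ v' g, v = v' ++ [g] :=
    ⟨v.dropLast, v.getLast hvne, (List.dropLast_append_getLast hvne).symm⟩
  rw [← List.append_assoc] at hw
  obtain ⟨rfl, hg⟩ := List.append_inj' hw rfl
  rw [List.singleton_inj] at hg
  subst hg
  have e : ∀ T : Word, H80Skein.cs L (u ++ sh k T ++ (v' ++ [cap 0])) =
      u ++ sh k T ++ (v' ++ L ++ [cap 0]) := by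
    intro T
    rw [← List.append_assoc, cs_snoc]
    simp
  refine ⟨v' ++ L ++ [cap 0], ⟨m, hu, hk, ?_, y, ?_, hok⟩, fun T _ => e T⟩
  · intro T hT
    rw [← e]
    exact isKnot_cs hL (hknot T hT)
  · intro i hi
    refine ⟨(hy i hi).1, ?_⟩
    have h4 := (hy i hi).2
    intro h0
    apply h4
    rw [runs_append] at h0 ⊢
    rw [Multiset.eq_zero_iff_forall_notMem] at h0 ⊢
    intro z hz
    rw [Multiset.mem_bind] at hz
    obtain ⟨x, hx, hz⟩ := hz
    apply h0 z
    rw [Multiset.mem_bind]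
    refine ⟨x, ?_, hz⟩
    rw [runs_append, Multiset.mem_bind]
    exact ⟨x, hx, hL.ori x⟩

theorem csF_put3 {L u v v' : Word} {k : ℕ} (s : List (A × Word))
    (h1 : ∀ x ∈ s, IsKnot (u ++ sh k x.2 ++ v))
    (h2 : ∀ x ∈ s, H80Skein.cs L (u ++ sh k x.2 ++ v) = u ++ sh k x.2 ++ v') :
    csF A L (put3 u v k s) = put3 u v' k s := by
  unfold put3
  rw [map_list_sum, List.map_map]
  congr 1
  apply List.map_congr_left
  intro x hx
  simp only [Function.comp]
  rw [map_smul, csF_kn (h1 x hx), h2 x hx]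

theorem put3_nil (u v : Word) (k : ℕ) : put3 (A := A) u v k [] = 0 := rfl

theorem csF_rels {L : Word} (hL : Loc L) {𝓜 : Set (LMove A)} (hn : ∀ μ ∈ 𝓜, 1 ≤ μ.n) :
    rels 𝓜 ≤ (rels 𝓜).comap (csF A L) := by
  unfold rels
  rw [Submodule.span_le]
  rintro x (⟨D, E, hD, hE, hiso, rfl⟩ | ⟨μ, hμ, u, v, k, hin, rfl⟩)
  · rw [SetLike.mem_coe, Submodule.mem_comap, map_sub, csF_kn hD, csF_kn hE]
    apply Submodule.subset_span
    left
    exact ⟨_, _, isKnot_cs hL hD, isKnot_cs hL hE, cs_iso hL.dia hL.rot hiso hD, rfl⟩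
  · rw [SetLike.mem_coe, Submodule.mem_comap]
    by_cases hne : μ.terms = []
    · have h1 : μ.s = [] ∧ μ.t = [] := by
        rw [LMove.terms, List.append_eq_nil_iff, List.map_eq_nil_iff, List.map_eq_nil_iff] at hne
        exact hne
      rw [h1.1, h1.2, sub_self, map_zero]
      exact Submodule.zero_mem _
    · obtain ⟨v', h1, h2⟩ := hin.cs (hn μ hμ) hne hL
      obtain ⟨m, -, -, hk, -⟩ := hin
      rw [map_sub, csF_put3 (v' := v'), csF_put3 (v' := v')]
      · apply Submodule.subset_span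
        right
        exact ⟨μ, hμ, u, v', k, h1, rfl⟩
      · intro x hx
        exact hk _ (List.mem_append_right _ (List.mem_map_of_mem hx))
      · intro x hx
        exact h2 _ (List.mem_append_right _ (List.mem_map_of_mem hx))
      · intro x hx
        exact hk _ (List.mem_append_left _ (List.mem_map_of_mem hx))
      · intro x hx
        exact h2 _ (List.mem_append_left _ (List.mem_map_of_mem hx))

/-- Connected sum with `L` on `A[K]/𝓜`. -/
noncomputable def csV {L : Word} (hL : Loc L) {𝓜 : Set (LMove A)} (hn : ∀ μ ∈ 𝓜, 1 ≤ μ.n) :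
    SkeinMod 𝓜 →ₗ[A] SkeinMod 𝓜 :=
  (rels 𝓜).mapQ (rels 𝓜) (csF A L) (csF_rels hL hn)

theorem csV_cls {L : Word} (hL : Loc L) {𝓜 : Set (LMove A)} (hn : ∀ μ ∈ 𝓜, 1 ≤ μ.n) {D : Word}
    (hD : IsKnot D) : csV hL hn (cls 𝓜 D) = cls 𝓜 (cs L D) := by
  have := Submodule.mapQ_apply (rels 𝓜) (rels 𝓜) (csF A L) (h := csF_rels hL hn) (kn A D)
  unfold csV cls
  rw [Submodule.mkQ_apply, this, csF_kn hD, Submodule.mkQ_apply]

/-- The counting argument. -/
theorem no_inj {I : Word → ℕ∞} {L : Word} (hL : Loc L)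
    (hI : ∃ m0 : ℕ, ∀ m : ℕ, m0 ≤ m → ∃ D, IsKnot D ∧ I (cs L D) = m)
    (R S : Finset ℕ) (hRS : R.card < S.card) (hS : ∀ a ∈ S, ∃ E, IsKnot E ∧ I E = a)
    (hR : ∀ m : ℕ, m ∉ R → ∃ D, IsKnot D ∧ I D = m ∧ ∀ a ∈ S, I (cs L D) ≠ a)
    (𝓜 : Set (LMove A)) (hn : ∀ μ ∈ 𝓜, 1 ≤ μ.n) :
    ¬ ∃ f : SkeinMod 𝓜 → ℕ, Function.Injective f ∧ ∀ D, IsKnot D → (f (cls 𝓜 D) : ℕ∞) = I D := by
  classical
  rintro ⟨f, hf, hfI⟩
  obtain ⟨m0, hm0⟩ := hI
  choose! D0 hD0 hD0' using hm0
  let φ := csV hL hn (𝓜 := 𝓜)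
  -- the elements of level at least `m0` are in the image
  have himg : ∀ w : SkeinMod 𝓜, m0 ≤ f w → w ∈ LinearMap.range φ := by
    intro w hw
    refine ⟨cls 𝓜 (D0 (f w)), ?_⟩
    apply hf
    have h1 := hfI _ (isKnot_cs hL (hD0 _ hw))
    rw [hD0' _ hw] at h1
    show f (csV hL hn (cls 𝓜 (D0 (f w)))) = f w
    rw [csV_cls hL hn (hD0 _ hw)]
    exact_mod_cast h1
  -- the map is onto
  have hsurj : ∀ w : SkeinMod 𝓜, w ∈ LinearMap.range φ := by
    intro w
    by_contra hw
    -- `w` plus the image avoids the image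
    let g : ℕ → ℕ := fun m => f (w + cls 𝓜 (cs L (D0 (m0 + m))))
    have hg : ∀ m, g m < m0 := by
      intro m
      by_contra hge
      push Not at hge
      apply hw
      have h1 := himg _ hge
      have h2 : cls 𝓜 (cs L (D0 (m0 + m))) ∈ LinearMap.range φ :=
        ⟨cls 𝓜 (D0 (m0 + m)), csV_cls hL hn (hD0 _ (by omega))⟩
      have := Submodule.sub_mem _ h1 h2
      simpa using this
    have hginj : Function.Injective g := by
      intro a b hab
      have h1 := hf hab
      have h2 : cls 𝓜 (cs L (D0 (m0 + a))) = cls 𝓜 (cs L (D0 (m0 + b))) := add_left_cancel h1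
      have h3 := hfI _ (isKnot_cs hL (hD0 (m0 + a) (by omega)))
      have h4 := hfI _ (isKnot_cs hL (hD0 (m0 + b) (by omega)))
      rw [h2, h4, hD0' _ (by omega), hD0' _ (by omega)] at h3
      have : m0 + b = m0 + a := by exact_mod_cast h3
      omega
    have : Set.Finite (Set.range g) := (Set.finite_lt_nat m0).subset (by
      rintro _ ⟨m, rfl⟩; exact hg m)
    exact Set.infinite_range_of_injective hginj this
  -- preimages of the missed levels
  have hpre : ∀ a ∈ S, ∃ w : SkeinMod 𝓜, f w ∈ R ∧ f (φ w) = a := by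
    intro a ha
    obtain ⟨E, hE, hEa⟩ := hS a ha
    obtain ⟨w, hw⟩ := hsurj (cls 𝓜 E)
    have hfa : f (cls 𝓜 E) = a := by
      have := hfI E hE
      rw [hEa] at this
      exact_mod_cast this
    refine ⟨w, ?_, by rw [hw, hfa]⟩
    by_contra hR'
    obtain ⟨D, hD, hDm, hDS⟩ := hR (f w) hR'
    apply hDS a ha
    have h1 : cls 𝓜 D = w := by
      apply hf
      have := hfI D hD
      rw [hDm] at this
      exact_mod_cast this
    have h2 := hfI _ (isKnot_cs hL hD)
    rw [← csV_cls hL hn hD, h1] at h2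
    have h3 : csV hL hn w = cls 𝓜 E := hw
    rw [h3, hfa] at h2
    exact h2.symm
  choose! ω hω hω' using hpre
  have : S.card ≤ R.card := by
    apply Finset.card_le_card_of_injOn (fun a => f (ω a))
    · intro a ha
      exact hω a ha
    · intro a ha b hb hab
      have h1 := hf hab
      rw [← hω' a ha, h1, hω' b hb]
  omega

end

end H80Skein
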