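import Pool.Agent.H80Skein.LinMod

/-! The trefoil as a local knot; the crossing number. -/

set_option linter.unusedSimpArgs false
set_option linter.unusedSectionVars false

namespace H80Skein

theorem rot_tk1 : Iso 1 1 (rotw 1 (tk 1)) (tk 1) := by
  have e1 : rotw 1 (tk 1) = [cup 1, neg 0, neg 0, pos 1, cap 0] := by decide
  have e2 : hr 1 (tk 1) = [cup 0, pos 1, neg 0, neg 0, cap 1] := by decide
  have s1 : Iso 1 1 ([] ++ [cup 0, pos 1] ++ [neg 0, pos 1, cap 0])
      ([] ++ [cup 1, neg 0] ++ [neg 0, pos 1, cap 0]) :=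
    Iso.step (Elem.slideA 0) (by decide) (by decide)
  have s2 : Iso 1 1 ([cup 0, pos 1, neg 0] ++ [pos 1, cap 0] ++ [])
      ([cup 0, pos 1, neg 0] ++ [neg 0, cap 1] ++ []) :=
    Iso.step (Elem.slideD 0) (by decide) (by decide)
  have s3 := iso_hr (dia_tk 1)
  rw [e2] at s3
  rw [e1]
  exact (s1.symm.trans s2).trans s3.symm

theorem ori_tk1 (x : ℕ → ZMod 2) : x ∈ runs (1 : ZMod 2) (tk 1) x := by
  have e : tk 1 = [cup 1, pos 0, neg 1, neg 1, cap 0] := by decide
  have e0 : ∀ w, runs (1 : ZMod 2) w x = runs (1 : ZMod 2) w (put [x 0] (tl 1 x)) := by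
    intro w; rw [← eq_put1]
  rw [e, e0, runs_cup1, Multiset.mem_bind]
  refine ⟨x 0 + 1, ?_, ?_⟩
  · exact (Finset.mem_univ _ : _ ∈ (Finset.univ : Finset (ZMod 2)))
  · rw [runs_pos0, runs_neg1, runs_neg1, runs_cap0, runs_nil]
    have h : ∀ a : ZMod 2, 2 * (2 * (2 * (a + 1) - a) - (a + 1 + 1)) - (2 * (a + 1) - a) =
        (a + 1) + 1 ∧ 2 * (2 * (a + 1) - a) - (a + 1 + 1) = a := by decide
    rw [if_pos (h _).1, (h _).2, ← eq_put1]
    exact Multiset.mem_singleton_self _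

theorem mult_one_two : mult 2 1 = 1 := by decide

theorem loc_tk1 : Loc (tk 1) where
  dia := dia_tk 1
  rot := rot_tk1
  one x := by rw [runs_tk', mult_one_two, Multiset.replicate_one]
  ori := ori_tk1

theorem wpow_snoc (w : Word) (a : ℕ) : wpow w (a + 1) = wpow w a ++ w := by
  induction a with
  | zero => simp [wpow]
  | succ a ih =>
    rw [wpow, ih, ← List.append_assoc, ← wpow, ih]

theorem cs_ksum (k a b : ℕ) : cs (tk 1) (ksum k 1 a b) = ksum k 1 a (b + 1) := by
  rw [ksum, cs_snoc, ksum, wpow_snoc (tk 1) b]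
  simp only [List.append_assoc]

/-- The crossing number does not come from moves between linear combinations. -/
theorem no_inj_cr {A : Type*} [Ring A] (𝓜 : Set (LMove A)) (hn : ∀ μ ∈ 𝓜, 1 ≤ μ.n) :
    ¬ ∃ f : SkeinMod 𝓜 → ℕ, Function.Injective f ∧ ∀ D, IsKnot D → (f (cls 𝓜 D) : ℕ∞) = cr D := by
  apply no_inj loc_tk1 (I := cr) ⟨6, ?_⟩ {1, 2} {0, 4, 5} (by decide) ?_ ?_ 𝓜 hn
  · intro m hm
    refine ⟨ksum (m - 5) 1 1 0, isKnot_ksum _ _ _ _, ?_⟩
    rw [cs_ksum, cr_ksum_eq _ _ (by omega) (by omega)]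
    norm_cast
    omega
  · intro a ha
    simp only [Finset.mem_insert, Finset.mem_singleton] at ha
    rcases ha with rfl | rfl | rfl
    · exact ⟨ksum 1 1 0 0, isKnot_ksum _ _ _ _, by rw [cr_ksum_eq _ _ (by omega) (by omega)]⟩
    · exact ⟨ksum 2 1 1 0, isKnot_ksum _ _ _ _, by rw [cr_ksum_eq _ _ (by omega) (by omega)]⟩
    · exact ⟨ksum 3 1 1 0, isKnot_ksum _ _ _ _, by rw [cr_ksum_eq _ _ (by omega) (by omega)]⟩
  · intro m hm
    simp only [Finset.mem_insert, Finset.mem_singleton, not_or] at hm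
    rcases Nat.eq_zero_or_pos m with rfl | h0
    · refine ⟨ksum 1 1 0 0, isKnot_ksum _ _ _ _, by rw [cr_ksum_eq _ _ (by omega) (by omega)], ?_⟩
      intro a ha
      rw [cs_ksum, cr_ksum_eq _ _ (by omega) (by omega)]
      simp only [Finset.mem_insert, Finset.mem_singleton] at ha
      norm_cast
      omega
    · refine ⟨ksum (m - 2) 1 1 0, isKnot_ksum _ _ _ _, ?_, ?_⟩
      · rw [cr_ksum_eq _ _ (by omega) (by omega)]
        norm_cast
        omega
      · intro a ha
        rw [cs_ksum, cr_ksum_eq _ _ (by omega) (by omega)]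
        simp only [Finset.mem_insert, Finset.mem_singleton] at ha
        norm_cast
        omega

end H80Skein
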