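import Pool.Agent.H80Skein.GenUp

/-! The genus does not come from moves between linear combinations. -/

set_option linter.unusedSimpArgs false
set_option linter.unusedSectionVars false

namespace H80Skein

section

variable {N : ℕ} [NeZero N]

/-- A long diagram multiplies labellings by a constant. -/
theorem long_runs {W : Word} (h : Dia 1 W 1) : ∃ c : ℕ, ∀ x : ℕ → ZMod N,
    runs (0 : ZMod N) W x = Multiset.replicate c x := by
  refine ⟨Multiset.card (runs (0 : ZMod N) W 0), fun x => ?_⟩
  rw [Multiset.eq_replicate]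
  constructor
  · have h1 : Multiset.card (runs (0 : ZMod N) W x) =
        Multiset.card (runs (0 : ZMod N) W (fun _ => x 0)) := by
      apply card_runs_congr _ h
      intro j hj
      have : j = 0 := by omega
      rw [this]
    rw [h1]
    have h2 := card_add W (x := 0) (x' := fun _ => x 0) (by
      intro h0
      have := const_runs W (x 0)
      rw [h0] at this
      exact Multiset.notMem_zero _ this)
    rw [zero_add] at h2
    exact h2
  · intro z hz
    have h1 := alt_runs h hz
    have h2 := mem_runs_tl h hz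
    simp only [alt] at h1
    funext j
    match j with
    | 0 => linear_combination h1
    | j + 1 => exact congrFun h2 j

theorem card_clo {W : Word} {c : ℕ} (h : ∀ x : ℕ → ZMod N,
    runs (0 : ZMod N) W x = Multiset.replicate c x) :
    Multiset.card (runs (0 : ZMod N) (clo W) 0) = N * c := by
  have e0 : (0 : ℕ → ZMod N) = put [] 0 := rfl
  rw [clo, List.append_assoc, List.cons_append, List.nil_append]
  conv_lhs => rw [e0]
  rw [runs_cup0, card_bind]
  have h1 : ∀ a : ZMod N, Multiset.card (runs (0 : ZMod N) (sh 1 W ++ [cap 0])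
      (put [a, a + 0] 0)) = c := by
    intro a
    rw [runs_append, runs_sh, h, Multiset.map_replicate, pre_tl, card_bind,
      Multiset.map_replicate, Multiset.sum_replicate, runs_cap0, if_pos rfl, runs_nil]
    simp
  simp only [h1]
  rw [Multiset.map_const', Multiset.sum_replicate]
  simp [ZMod.card]

/-- A closed diagram is isotopic to its image under turning over a horizontal axis. -/
theorem iso_flp {D : Word} (h : Dia 0 D 0) : Iso 0 0 D (flp D) := by
  have h1 := bend h
  have h2 := twist_nat h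
  simp only [nc, ht, List.nil_append, List.append_nil, sh_zero] at h1 h2
  have h3 := h2.flp
  exact h1.trans h3.symm

theorem flp_clo (W : Word) : flp (clo W) = clo (flp W) := by
  have e1 : flp [cup 0] = [cap 0] := rfl
  have e2 : flp [cap 0] = [cup 0] := rfl
  rw [clo, flp_append, flp_append, flp_sh, e1, e2, clo, List.append_assoc]

theorem runs_mul {U W : Word} {c d : ℕ} (hU : ∀ x : ℕ → ZMod N, runs (0 : ZMod N) U x =
    Multiset.replicate c x) (hW : ∀ x : ℕ → ZMod N, runs (0 : ZMod N) W x =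
    Multiset.replicate d x) (x : ℕ → ZMod N) :
    runs (0 : ZMod N) (U ++ W) x = Multiset.replicate (c * d) x := by
  rw [runs_append, hU]
  have : (Multiset.replicate c x).bind (runs (0 : ZMod N) W) =
      (Multiset.replicate c x).bind fun _ => Multiset.replicate d x := by
    apply Multiset.bind_congr
    intro y hy
    rw [Multiset.eq_of_mem_replicate hy]; exact hW x
  rw [this, Multiset.eq_replicate]
  constructor
  · rw [card_bind, Multiset.map_const', Multiset.sum_replicate, Multiset.card_replicate,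
      Multiset.card_replicate, smul_eq_mul]
  · intro y hy
    rw [Multiset.mem_bind] at hy
    obtain ⟨z, -, hz⟩ := hy
    exact Multiset.eq_of_mem_replicate hz

theorem runs_pow {W : Word} {c : ℕ} (h : ∀ x : ℕ → ZMod N, runs (0 : ZMod N) W x =
    Multiset.replicate c x) (a : ℕ) : ∀ x : ℕ → ZMod N, runs (0 : ZMod N) (wpow W a) x =
    Multiset.replicate (c ^ a) x := by
  induction a with
  | zero => intro x; simp [wpow, Multiset.replicate_one]
  | succ a ih => intro x; rw [wpow, runs_mul h ih, pow_succ']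

theorem card_two {P L : Word} {c d : ℕ} (hP : ∀ x : ℕ → ZMod N, runs (0 : ZMod N) P x =
    Multiset.replicate c x) (hL : ∀ x : ℕ → ZMod N, runs (0 : ZMod N) L x =
    Multiset.replicate d x) :
    Multiset.card (runs (0 : ZMod N) ([cup 0] ++ sh 1 P ++ L ++ [cap 0]) 0) = N * (c * d) := by
  have e0 : (0 : ℕ → ZMod N) = put [] 0 := rfl
  have hP' : ∀ x : ℕ → ZMod N, runs (0 : ZMod N) (sh 1 P) x = Multiset.replicate c x := by
    intro x
    rw [runs_sh, hP, Multiset.map_replicate, pre_tl]
  rw [List.append_assoc, List.append_assoc, List.cons_append, List.nil_append, ← List.append_assoc]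
  conv_lhs => rw [e0]
  rw [runs_cup0, card_bind]
  have h1 : ∀ a : ZMod N, Multiset.card (runs (0 : ZMod N) (sh 1 P ++ L ++ [cap 0])
      (put [a, a + 0] 0)) = c * d := by
    intro a
    rw [runs_append, runs_mul hP' hL, card_bind,
      Multiset.map_replicate, Multiset.sum_replicate, runs_cap0, if_pos rfl, runs_nil]
    simp
  simp only [h1]
  rw [Multiset.map_const', Multiset.sum_replicate]
  simp [ZMod.card]

end

/-- A long diagram has an orientation with any given direction. -/
theorem ori_long {W : Word} (h : Dia 1 W 1) (x : ℕ → ZMod 2) : x ∈ runs (1 : ZMod 2) W x := by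
  have hS : Dia 2 (W ++ [cap 0]) 0 := dia_append.2 ⟨2, dia_right 1 h, by decide⟩
  obtain ⟨κ, c, hκ, hb⟩ := exists_matching hS
  have k0 : κ 0 = 1 := by
    obtain ⟨h1, h2, -⟩ := hκ 0 (by norm_num)
    omega
  have k1 : κ 1 = 0 := by
    obtain ⟨h1, h2, -⟩ := hκ 1 (by norm_num)
    omega
  set y : ℕ → ZMod 2 := put [x 0, x 0 + 1] 0 with hy
  have h1 := hb 1 y
  have hcond : ∀ i < 2, y (κ i) = y i + 1 := by
    intro i hi
    match i with
    | 0 => rw [k0]; rfl
    | 1 =>
      rw [k1]
      show x 0 = x 0 + 1 + 1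
      have : ∀ a : ZMod 2, a = a + 1 + 1 := by decide
      exact this _
  rw [if_pos hcond] at h1
  have h2 : runs (1 : ZMod 2) (W ++ [cap 0]) y ≠ 0 := by
    intro h0
    rw [h0] at h1
    simp at h1
    have : 0 < 2 ^ c := by positivity
    omega
  obtain ⟨w, hw⟩ := Multiset.exists_mem_of_ne_zero h2
  rw [runs_append, Multiset.mem_bind] at hw
  obtain ⟨z, hz, hw⟩ := hw
  have hz1 := mem_runs_tl h hz
  have hz2 : z 1 = z 0 + 1 := by
    by_contra hne
    rw [eq_put2 z, runs_cap0, if_neg hne] at hw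
    exact Multiset.notMem_zero _ hw
  have hz3 : z 1 = x 0 + 1 := congrFun hz1 0
  have hz0 : z 0 = x 0 := by
    rw [hz2] at hz3
    exact add_right_cancel hz3
  have hzy : z = y := by
    funext j
    match j with
    | 0 => exact hz0
    | j + 1 => exact congrFun hz1 j
  rw [hzy] at hz
  have e : x = graft 1 (tl 1 x) y := by
    funext j
    match j with
    | 0 => rfl
    | j + 1 => rw [graft_ge (by omega)]; rfl
  have h3 := runs_graft (1 : ZMod 2) h y (tl 1 x)
  rw [← e] at h3
  rw [h3, Multiset.mem_map]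
  exact ⟨y, hz, e.symm⟩

theorem clo_gJ : clo gJ = bandKnot 1 (bth 1) := clo_XR 1 (bth 1)

theorem iso_clo_flp {W : Word} (h : Dia 1 W 1) : Iso 0 0 (clo W) (clo (flp W)) := by
  rw [← flp_clo]
  exact iso_flp (dia_clo h)

/-- The multiplicity of a local knot and of its reverse. -/
theorem mult_of_clo {N : ℕ} [NeZero N] {c : ℕ}
    (h : Multiset.card (runs (0 : ZMod N) (clo gJ) 0) = N * c) :
    (∀ x : ℕ → ZMod N, runs (0 : ZMod N) gJ x = Multiset.replicate c x) ∧
    (∀ x : ℕ → ZMod N, runs (0 : ZMod N) (flp gJ) x = Multiset.replicate c x) := by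
  have hN : 0 < N := Nat.pos_of_ne_zero (NeZero.ne N)
  obtain ⟨c1, h1⟩ := long_runs (N := N) dia_gJ
  obtain ⟨c2, h2⟩ := long_runs (N := N) (dia_flp dia_gJ)
  have h3 := card_clo h1
  have h4 := card_clo h2
  rw [← runs_iso (by simp) (iso_clo_flp dia_gJ)] at h4
  rw [h] at h3 h4
  have e1 : c = c1 := Nat.eq_of_mul_eq_mul_left hN h3
  have e2 : c = c2 := Nat.eq_of_mul_eq_mul_left hN h4
  subst e1
  subst e2
  exact ⟨h1, h2⟩

theorem mult_gJ2 : (∀ x : ℕ → ZMod 2, runs (0 : ZMod 2) gJ x = Multiset.replicate 1 x) ∧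
    (∀ x : ℕ → ZMod 2, runs (0 : ZMod 2) (flp gJ) x = Multiset.replicate 1 x) := by
  apply mult_of_clo
  rw [clo_gJ]
  exact (isKnot_band 1).2

theorem mult_gJ3 : (∀ x : ℕ → ZMod 3, runs (0 : ZMod 3) gJ x = Multiset.replicate (3 ^ 2) x) ∧
    (∀ x : ℕ → ZMod 3, runs (0 : ZMod 3) (flp gJ) x = Multiset.replicate (3 ^ 2) x) := by
  apply mult_of_clo
  rw [clo_gJ]
  have := card_band_zero (N := 3) (m := 1) (by decide)
  rw [this]; norm_num

/-- The local knot used for the genus. -/
def gL : Word := gJ ++ flp gJ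

theorem loc_gL : Loc gL where
  dia := dia_append.2 ⟨1, dia_gJ, dia_flp dia_gJ⟩
  rot := iso_rotw dia_gJ
  one x := by
    rw [gL, runs_mul mult_gJ2.1 mult_gJ2.2]; simp
  ori x := ori_long (dia_append.2 ⟨1, dia_gJ, dia_flp dia_gJ⟩) x

theorem isKnot_clo (a : ℕ) : IsKnot (clo (wpow gJ a)) := by
  refine ⟨dia_clo (dia_wpow dia_gJ a), ?_⟩
  rw [card_clo (runs_pow mult_gJ2.1 a)]
  simp

theorem gen_clo (a : ℕ) : gen (clo (wpow gJ a)) = a := by
  apply le_antisymm
  · exact (iInf_le _ a).trans (iInf_le _ (clo_wpow a))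
  · unfold gen
    refine le_iInf fun h => le_iInf fun hh => ?_
    have h1 := card_le_gen (isKnot_clo a) hh
    rw [card_clo (runs_pow mult_gJ3.1 a), ← pow_mul, ← pow_succ'] at h1
    have h2 := (Nat.pow_le_pow_iff_right (by norm_num : 1 < 3)).1 h1
    exact_mod_cast (by omega : a ≤ h)

theorem gen_cs (a : ℕ) : gen (cs gL (clo (wpow gJ a))) = (a + 2 : ℕ) := by
  have hk : IsKnot (cs gL (clo (wpow gJ a))) := isKnot_cs loc_gL (isKnot_clo a)
  apply le_antisymm
  · exact (iInf_le _ (a + 2)).trans (iInf_le _ (sum_gJ a))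
  · unfold gen
    refine le_iInf fun h => le_iInf fun hh => ?_
    have h1 := card_le_gen hk hh
    have e : cs gL (clo (wpow gJ a)) = [cup 0] ++ sh 1 (wpow gJ a) ++ gL ++ [cap 0] := by
      rw [clo, cs_snoc]
    have hL : ∀ x : ℕ → ZMod 3, runs (0 : ZMod 3) gL x = Multiset.replicate (3 ^ 2 * 3 ^ 2) x :=
      runs_mul mult_gJ3.1 mult_gJ3.2
    rw [e, card_two (runs_pow mult_gJ3.1 a) hL, ← pow_mul,
      ← pow_add, ← pow_add, ← pow_succ'] at h1
    have h2 := (Nat.pow_le_pow_iff_right (by norm_num : 1 < 3)).1 h1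
    exact_mod_cast (by omega : a + 2 ≤ h)

/-- The genus does not come from moves between linear combinations. -/
theorem no_inj_gen {A : Type*} [Ring A] (𝓜 : Set (LMove A)) (hn : ∀ μ ∈ 𝓜, 1 ≤ μ.n) :
    ¬ ∃ f : SkeinMod 𝓜 → ℕ, Function.Injective f ∧ ∀ D, IsKnot D → (f (cls 𝓜 D) : ℕ∞) = gen D := by
  apply no_inj loc_gL (I := gen) ⟨2, ?_⟩ ∅ {0} (by decide) ?_ ?_ 𝓜 hn
  · intro m hm
    refine ⟨clo (wpow gJ (m - 2)), isKnot_clo _, ?_⟩
    rw [gen_cs]
    norm_cast
    omega
  · intro a ha
    rw [Finset.mem_singleton] at ha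
    subst ha
    exact ⟨unknot, isKnot_unknot, gen_unknot⟩
  · intro m _
    refine ⟨clo (wpow gJ m), isKnot_clo m, gen_clo m, ?_⟩
    intro a ha
    rw [Finset.mem_singleton] at ha
    subst ha
    rw [gen_cs]
    norm_cast

end H80Skein
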