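import Pool.Agent.H80Skein.LitGen

/-! Moves between linear combinations of tangles: the module of knots modulo the moves contains
infinitely many classes that are not classes of knots. -/

set_option linter.unusedSimpArgs false
set_option linter.unusedSectionVars false

namespace H80Skein

variable {A : Type*} [Ring A]

theorem no_cofinite {I : Word → ℕ∞} {L : Word} (hL : Loc L) {d : ℕ} (hd : 1 ≤ d) (G : Set ℕ)
    (h0 : 0 ∈ G) (hG : ∀ m ∈ G, m + d ∈ G ∧ ∃ D, IsKnot D ∧ I D = m ∧ I (cs L D) = (m + d : ℕ))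
    (m0 : ℕ) (hG0 : ∀ m, m0 ≤ m → m ∈ G) (𝓜 : Set (LMove A)) (hn : ∀ μ ∈ 𝓜, 1 ≤ μ.n)
    (ha : ∀ D E, IsKnot D → IsKnot E → (cls 𝓜 D = cls 𝓜 E ↔ I D = I E)) :
    {w : SkeinMod 𝓜 | ∀ D, IsKnot D → cls 𝓜 D ≠ w}.Infinite := by
  classical
  intro hb
  have hGd : ∀ m ∈ G, ∃ D, IsKnot D ∧ I D = m ∧ I (cs L D) = (m + d : ℕ) := fun m hm => (hG m hm).2
  choose! K hK hKI hKL using hGd
  let φ := csV hL hn (𝓜 := 𝓜)
  let v : ℕ → SkeinMod 𝓜 := fun m => cls 𝓜 (K m)
  have hφ : ∀ m ∈ G, φ (v m) = v (m + d) := by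
    intro m hm
    show csV hL hn (cls 𝓜 (K m)) = cls 𝓜 (K (m + d))
    rw [csV_cls hL hn (hK m hm), ha _ _ (isKnot_cs hL (hK m hm)) (hK _ (hG m hm).1), hKL m hm,
      hKI _ (hG m hm).1]
  have hvinj : ∀ a ∈ G, ∀ b ∈ G, v a = v b → a = b := by
    intro a hma b hmb hab
    rw [ha _ _ (hK a hma) (hK b hmb), hKI a hma, hKI b hmb] at hab
    exact_mod_cast hab
  -- the good classes and their images
  let P : Set (SkeinMod 𝓜) := {w | ∃ m ∈ G, w = v m}
  let Q : Set (SkeinMod 𝓜) := {w | ∃ m ∈ G, w = v (m + d)}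
  -- all but finitely many elements are in `Q`
  have hcof : {w : SkeinMod 𝓜 | w ∉ Q}.Finite := by
    let g : ℕ∞ → SkeinMod 𝓜 := fun a =>
      if h : ∃ D, IsKnot D ∧ I D = a then cls 𝓜 h.choose else 0
    have hg : ∀ D, IsKnot D → cls 𝓜 D = g (I D) := by
      intro D hD
      have h : ∃ E, IsKnot E ∧ I E = I D := ⟨D, hD, rfl⟩
      simp only [g]
      rw [dif_pos h, ha _ _ hD h.choose_spec.1, h.choose_spec.2]
    have hT : (({⊤} : Set ℕ∞) ∪ (fun m : ℕ => (m : ℕ∞)) '' {m | m < m0 + d}).Finite :=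
      (Set.finite_singleton _).union ((Set.finite_lt_nat _).image _)
    apply (hb.union (hT.image g)).subset
    intro w hw
    by_cases hP : ∀ D, IsKnot D → cls 𝓜 D ≠ w
    · exact Or.inl hP
    · right
      push Not at hP
      obtain ⟨D, hD, rfl⟩ := hP
      refine ⟨I D, ?_, (hg D hD).symm⟩
      by_cases htop : I D = ⊤
      · exact Or.inl htop
      · right
        obtain ⟨m, hm⟩ := ENat.ne_top_iff_exists.1 htop
        refine ⟨m, ?_, hm⟩
        by_contra hge
        simp only [Set.mem_setOf_eq, not_lt] at hge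
        apply hw
        have hmG : m - d ∈ G := hG0 _ (by omega)
        refine ⟨m - d, hmG, ?_⟩
        have e : m - d + d = m := by omega
        rw [e]
        have hmG' : m ∈ G := hG0 _ (by omega)
        show cls 𝓜 D = cls 𝓜 (K m)
        rw [ha _ _ hD (hK m hmG'), hKI m hmG', hm]
  have hQr : ∀ w ∈ Q, w ∈ LinearMap.range φ := by
    rintro w ⟨m, hm, rfl⟩
    exact ⟨v m, hφ m hm⟩
  -- the map is onto
  have hsurj : ∀ w : SkeinMod 𝓜, w ∈ LinearMap.range φ := by
    intro w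
    by_contra hw
    let g : ℕ → SkeinMod 𝓜 := fun m => w + v (m0 + m + d)
    have hg : ∀ m, g m ∈ {w : SkeinMod 𝓜 | w ∉ Q} := by
      intro m hQ
      apply hw
      have h1 := hQr _ hQ
      have h2 : v (m0 + m + d) ∈ LinearMap.range φ :=
        hQr _ ⟨m0 + m, hG0 _ (by omega), rfl⟩
      have := Submodule.sub_mem _ h1 h2
      simpa [g] using this
    have hginj : Function.Injective g := by
      intro a b hab
      have h1 : v (m0 + a + d) = v (m0 + b + d) := add_left_cancel hab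
      have := hvinj _ (hG0 _ (by omega)) _ (hG0 _ (by omega)) h1
      omega
    exact Set.infinite_range_of_injective hginj
      (hcof.subset (by rintro _ ⟨m, rfl⟩; exact hg m))
  -- a chain of preimages of the class of the unknot
  choose ψ hψ using fun w => LinearMap.mem_range.1 (hsurj w)
  let c : ℕ → SkeinMod 𝓜 := fun i => ψ^[i + 1] (v 0)
  have hc : ∀ i, φ (c (i + 1)) = c i := by
    intro i
    simp only [c]
    rw [Function.iterate_succ_apply']
    exact hψ _
  have hc0 : φ (c 0) = v 0 := by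
    simp only [c, Function.iterate_succ, Function.iterate_zero, Function.comp, id]
    exact hψ _
  have hcP : ∀ i, c i ∉ P := by
    intro i
    induction i with
    | zero =>
      rintro ⟨m, hm, h⟩
      rw [h, hφ m hm] at hc0
      have := hvinj _ (hG m hm).1 _ h0 hc0
      omega
    | succ i ih =>
      rintro ⟨m, hm, h⟩
      apply ih
      rw [← hc i, h, hφ m hm]
      exact ⟨m + d, (hG m hm).1, rfl⟩
  have hcQ : ∀ i, c i ∈ {w : SkeinMod 𝓜 | w ∉ Q} := by
    rintro i ⟨m, hm, h⟩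
    exact hcP i ⟨m + d, (hG m hm).1, h⟩
  have hkey : ∀ i k, c i ≠ c (i + (k + 1)) := by
    intro i
    induction i with
    | zero =>
      intro k h
      have h1 := congrArg φ h
      rw [hc0, Nat.zero_add, hc k] at h1
      exact hcP k ⟨0, h0, h1.symm⟩
    | succ i ih =>
      intro k h
      have h1 := congrArg φ h
      have e : i + 1 + (k + 1) = i + (k + 1) + 1 := by omega
      rw [hc i, e, hc (i + (k + 1))] at h1
      exact ih k h1
  have hcinj : Function.Injective c := by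
    intro i j hij
    by_contra hne
    rcases Nat.lt_or_gt_of_ne hne with h | h
    · obtain ⟨k, rfl⟩ : ∃ k, j = i + (k + 1) := ⟨j - i - 1, by omega⟩
      exact hkey i k hij
    · obtain ⟨k, rfl⟩ : ∃ k, i = j + (k + 1) := ⟨i - j - 1, by omega⟩
      exact hkey j k hij.symm
  exact Set.infinite_range_of_injective hcinj
    (hcof.subset (by rintro _ ⟨m, rfl⟩; exact hcQ m))

/-- The three invariants. -/
theorem many_classes {I : Word → ℕ∞} (hI : I = unk ∨ I = cr ∨ I = gen) (𝓜 : Set (LMove A))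
    (hn : ∀ μ ∈ 𝓜, 1 ≤ μ.n)
    (ha : ∀ D E, IsKnot D → IsKnot E → (cls 𝓜 D = cls 𝓜 E ↔ I D = I E)) :
    {w : SkeinMod 𝓜 | ∀ D, IsKnot D → cls 𝓜 D ≠ w}.Infinite := by
  rcases hI with rfl | rfl | rfl
  · refine no_cofinite loc_tk1 (le_refl 1) Set.univ trivial (fun m _ => ⟨trivial, ?_⟩) 0
      (fun _ _ => trivial) 𝓜 hn ha
    exact ⟨ksum 1 1 0 m, isKnot_ksum _ _ _ _, unk_sum m, by rw [cs_ksum, unk_sum]⟩
  · refine no_cofinite loc_tk1 (d := 3) (by norm_num) {m | m = 0 ∨ 3 ≤ m} (Or.inl rfl) ?_ 3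
      (fun m hm => Or.inr hm) 𝓜 hn ha
    rintro m (rfl | hm)
    · refine ⟨Or.inr (le_refl 3), ksum 1 1 0 0, isKnot_ksum _ _ _ _, ?_, ?_⟩
      · rw [cr_ksum_eq _ _ (by omega) (by omega)]
      · rw [cs_ksum, cr_ksum_eq _ _ (by omega) (by omega)]
    · refine ⟨Or.inr (by omega), ksum (m - 2) 1 1 0, isKnot_ksum _ _ _ _, ?_, ?_⟩
      · rw [cr_ksum_eq _ _ (by omega) (by omega)]
        norm_cast
        omega
      · rw [cs_ksum, cr_ksum_eq _ _ (by omega) (by omega)]
        norm_cast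
        omega
  · refine no_cofinite loc_gL (d := 2) (by norm_num) Set.univ trivial (fun m _ => ⟨trivial, ?_⟩) 0
      (fun _ _ => trivial) 𝓜 hn ha
    exact ⟨clo (wpow gJ m), isKnot_clo m, gen_clo m, gen_cs m⟩

theorem no_inj_all {I : Word → ℕ∞} (hI : I = unk ∨ I = cr ∨ I = gen) (𝓜 : Set (LMove A))
    (hn : ∀ μ ∈ 𝓜, 1 ≤ μ.n) :
    ¬ ∃ f : SkeinMod 𝓜 → ℕ, Function.Injective f ∧ ∀ D, IsKnot D → (f (cls 𝓜 D) : ℕ∞) = I D := by
  rcases hI with rfl | rfl | rfl
  · exact no_inj_unk 𝓜 hn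
  · exact no_inj_cr 𝓜 hn
  · exact no_inj_gen 𝓜 hn

end H80Skein
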