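import Pool.Agent.H80Skein.LitCr

/-! Switching crossings changes the number of colourings by a bounded factor; the unknotting
number. -/

set_option linter.unusedSimpArgs false
set_option linter.unusedSectionVars false

namespace H80Skein

section

variable {N : ℕ} [NeZero N]

/-- Invariance under translation by its elements. -/
def Addv (X : Multiset (ℕ → ZMod N)) : Prop := ∀ x' ∈ X, X.map (· + x') = X

theorem Addv.act {X : Multiset (ℕ → ZMod N)} (h : Addv X) (g : Gen) :
    Addv (X.bind (act (0 : ZMod N) g)) := by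
  intro y' hy'
  rw [Multiset.mem_bind] at hy'
  obtain ⟨x', hx', hy'⟩ := hy'
  rw [Multiset.map_bind]
  have : (fun x => (H80Skein.act (0 : ZMod N) g x).map (· + y')) =
      fun x => H80Skein.act (0 : ZMod N) g (x + x') := by
    funext x; rw [act_add g hy']
  rw [this]
  conv_rhs => rw [← h x' hx']
  rw [Multiset.bind_map]

theorem Addv.filter {X : Multiset (ℕ → ZMod N)} (h : Addv X) (i : ℕ) :
    Addv (X.filter fun x => x (i + 1) - x i = 0) := by
  intro x' hx'
  rw [Multiset.mem_filter] at hx'
  conv_rhs => rw [← h x' hx'.1]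
  rw [Multiset.filter_map]
  congr 1
  apply Multiset.filter_congr
  intro x _
  simp only [Function.comp, Pi.add_apply]
  have := hx'.2
  constructor
  · intro h1
    linear_combination h1 + this
  · intro h1
    linear_combination h1 - this

theorem Addv.level {X : Multiset (ℕ → ZMod N)} (h : Addv X) (i : ℕ) {x' : ℕ → ZMod N}
    (hx' : x' ∈ X) : (X.filter fun x => x (i + 1) - x i = x' (i + 1) - x' i) =
      (X.filter fun x => x (i + 1) - x i = 0).map (· + x') := by
  conv_lhs => rw [← h x' hx']
  rw [Multiset.filter_map]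
  congr 1
  apply Multiset.filter_congr
  intro x _
  simp only [Function.comp, Pi.add_apply]
  constructor
  · intro h1
    linear_combination h1
  · intro h1
    linear_combination h1

theorem card_add (w : Word) {x x' : ℕ → ZMod N} (h : runs (0 : ZMod N) w x' ≠ 0) :
    Multiset.card (runs (0 : ZMod N) w (x + x')) = Multiset.card (runs (0 : ZMod N) w x) := by
  obtain ⟨y, hy⟩ := Multiset.exists_mem_of_ne_zero h
  rw [runs_add w hy, Multiset.card_map]

theorem sum_levels (X : Multiset (ℕ → ZMod N)) (i : ℕ) :
    X = ∑ d : ZMod N, X.filter fun x => x (i + 1) - x i = d := by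
  classical
  induction X using Multiset.induction_on with
  | empty => simp
  | cons a X ih =>
    have : ∀ d : ZMod N, (a ::ₘ X).filter (fun x => x (i + 1) - x i = d) =
        (if a (i + 1) - a i = d then {a} else 0) + X.filter fun x => x (i + 1) - x i = d := by
      intro d
      by_cases hd : a (i + 1) - a i = d
      · rw [Multiset.filter_cons_of_pos (p := fun x : ℕ → ZMod N => x (i + 1) - x i = d) _ hd,
          if_pos hd, Multiset.singleton_add]
      · rw [Multiset.filter_cons_of_neg (p := fun x : ℕ → ZMod N => x (i + 1) - x i = d) _ hd,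
          if_neg hd, zero_add]
    simp only [this]
    rw [Finset.sum_add_distrib, ← ih, Finset.sum_ite_eq]
    simp [Multiset.singleton_add]

/-- The key estimate: restricting to equal labels at `i`, `i + 1` divides the number of
extensions by at most `N`. -/
theorem card_level (w : Word) {X : Multiset (ℕ → ZMod N)} (h : Addv X) (i : ℕ) :
    Multiset.card (X.bind (runs (0 : ZMod N) w)) ≤
      N * Multiset.card ((X.filter fun x => x (i + 1) - x i = 0).bind (runs (0 : ZMod N) w)) := by
  conv_lhs => rw [sum_levels X i]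
  have e : (∑ d : ZMod N, X.filter fun x => x (i + 1) - x i = d).bind (runs (0 : ZMod N) w) =
      ∑ d : ZMod N, (X.filter fun x => x (i + 1) - x i = d).bind (runs (0 : ZMod N) w) := by
    induction (Finset.univ : Finset (ZMod N)) using Finset.cons_induction with
    | empty => simp
    | cons a s ha ih => rw [Finset.sum_cons, Finset.sum_cons, Multiset.add_bind, ih]
  rw [e, Multiset.card_sum]
  have hd : ∀ d : ZMod N, Multiset.card ((X.filter fun x => x (i + 1) - x i = d).bind
      (runs (0 : ZMod N) w)) ≤ Multiset.card ((X.filter fun x => x (i + 1) - x i = 0).bind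
      (runs (0 : ZMod N) w)) := by
    intro d
    by_cases hex : ∃ x' ∈ X, x' (i + 1) - x' i = d ∧ runs (0 : ZMod N) w x' ≠ 0
    · obtain ⟨x', hx', rfl, hr⟩ := hex
      rw [h.level i hx', Multiset.bind_map, card_bind, card_bind]
      apply le_of_eq
      congr 1
      apply Multiset.map_congr rfl
      intro x _
      exact card_add w hr
    · push Not at hex
      rw [card_bind]
      apply le_trans (le_of_eq _) (Nat.zero_le _)
      apply Multiset.sum_eq_zero
      intro c hc
      rw [Multiset.mem_map] at hc
      obtain ⟨x, hx, rfl⟩ := hc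
      rw [Multiset.mem_filter] at hx
      rw [hex x hx.1 hx.2, Multiset.card_zero]
  calc _ ≤ ∑ _d : ZMod N, Multiset.card ((X.filter fun x => x (i + 1) - x i = 0).bind
      (runs (0 : ZMod N) w)) := Finset.sum_le_sum fun d _ => hd d
    _ = _ := by rw [Finset.sum_const, Finset.card_univ, ZMod.card, smul_eq_mul]

theorem act_pos_neg (i : ℕ) {x : ℕ → ZMod N} (h : x (i + 1) - x i = 0) :
    act (0 : ZMod N) (pos i) x = act (0 : ZMod N) (neg i) x := by
  have h' : x (i + 1) = x i := by linear_combination h
  rw [act_def, act_def]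
  simp only [pos_off, neg_off, pos_kind, neg_kind, rule, h', Multiset.map_singleton]
  congr 1
  funext j
  simp only [glue, pos_off, neg_off, pos_kind, neg_kind, out_pos, out_neg, inn_pos, inn_neg]
  split_ifs <;> ring

theorem card_switch {k : ℕ} {E F : Word} (h : Switch k E F) :
    ∀ {X : Multiset (ℕ → ZMod N)}, Addv X →
      Multiset.card (X.bind (runs (0 : ZMod N) E)) ≤
        N ^ k * Multiset.card (X.bind (runs (0 : ZMod N) F)) := by
  induction h with
  | nil => intro X _; simp
  | keep g h ih =>
    intro X hX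
    have e : ∀ w : Word, X.bind (runs (0 : ZMod N) (g :: w)) =
        (X.bind (act (0 : ZMod N) g)).bind (runs (0 : ZMod N) w) := by
      intro w; rw [Multiset.bind_assoc]; rfl
    rw [e, e]
    exact ih (hX.act g)
  | @posNeg i k E F h ih =>
    intro X hX
    have e : ∀ (g : Gen) (w : Word) (Y : Multiset (ℕ → ZMod N)),
        Y.bind (runs (0 : ZMod N) (g :: w)) =
        (Y.bind (act (0 : ZMod N) g)).bind (runs (0 : ZMod N) w) := by
      intro g w Y; rw [Multiset.bind_assoc]; rfl
    have h1 := card_level (pos i :: E) hX i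
    set Y := X.filter fun x => x (i + 1) - x i = 0 with hY
    have hYA : Addv Y := hX.filter i
    have h2 : Y.bind (act (0 : ZMod N) (pos i)) = Y.bind (act (0 : ZMod N) (neg i)) := by
      apply Multiset.bind_congr
      intro x hx
      exact act_pos_neg i (Multiset.mem_filter.1 hx).2
    have h3 := ih (hYA.act (neg i))
    rw [e _ _ Y, h2] at h1
    have h4 : Multiset.card (Y.bind (runs (0 : ZMod N) (neg i :: F))) ≤
        Multiset.card (X.bind (runs (0 : ZMod N) (neg i :: F))) := by
      apply Multiset.card_le_card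
      rw [← Multiset.filter_add_not (fun x => x (i + 1) - x i = 0) X, Multiset.add_bind]
      exact Multiset.le_add_right _ _
    rw [e] at h4
    calc _ ≤ N * Multiset.card ((Y.bind (act (0 : ZMod N) (neg i))).bind (runs (0 : ZMod N) E)) := h1
      _ ≤ N * (N ^ k * Multiset.card ((Y.bind (act (0 : ZMod N) (neg i))).bind
          (runs (0 : ZMod N) F))) := Nat.mul_le_mul_left _ h3
      _ ≤ N * (N ^ k * _) := Nat.mul_le_mul_left _ (Nat.mul_le_mul_left _ h4)
      _ = _ := by rw [pow_succ]; ring
  | @negPos i k E F h ih =>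
    intro X hX
    have e : ∀ (g : Gen) (w : Word) (Y : Multiset (ℕ → ZMod N)),
        Y.bind (runs (0 : ZMod N) (g :: w)) =
        (Y.bind (act (0 : ZMod N) g)).bind (runs (0 : ZMod N) w) := by
      intro g w Y; rw [Multiset.bind_assoc]; rfl
    have h1 := card_level (neg i :: E) hX i
    set Y := X.filter fun x => x (i + 1) - x i = 0 with hY
    have hYA : Addv Y := hX.filter i
    have h2 : Y.bind (act (0 : ZMod N) (neg i)) = Y.bind (act (0 : ZMod N) (pos i)) := by
      apply Multiset.bind_congr
      intro x hx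
      exact (act_pos_neg i (Multiset.mem_filter.1 hx).2).symm
    have h3 := ih (hYA.act (pos i))
    rw [e _ _ Y, h2] at h1
    have h4 : Multiset.card (Y.bind (runs (0 : ZMod N) (pos i :: F))) ≤
        Multiset.card (X.bind (runs (0 : ZMod N) (pos i :: F))) := by
      apply Multiset.card_le_card
      rw [← Multiset.filter_add_not (fun x => x (i + 1) - x i = 0) X, Multiset.add_bind]
      exact Multiset.le_add_right _ _
    rw [e] at h4
    calc _ ≤ N * Multiset.card ((Y.bind (act (0 : ZMod N) (pos i))).bind (runs (0 : ZMod N) E)) := h1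
      _ ≤ N * (N ^ k * Multiset.card ((Y.bind (act (0 : ZMod N) (pos i))).bind
          (runs (0 : ZMod N) F))) := Nat.mul_le_mul_left _ h3
      _ ≤ N * (N ^ k * _) := Nat.mul_le_mul_left _ (Nat.mul_le_mul_left _ h4)
      _ = _ := by rw [pow_succ]; ring

/-- Colourings bound the unknotting number from below. -/
theorem card_le_unk {D : Word} {k : ℕ} (h : ∃ E F, Iso 0 0 D E ∧ Switch k E F ∧ Iso 0 0 F unknot) :
    Multiset.card (runs (0 : ZMod N) D 0) ≤ N ^ (k + 1) := by
  obtain ⟨E, F, h1, h2, h3⟩ := h
  have hX : Addv ({0} : Multiset (ℕ → ZMod N)) := by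
    intro x hx
    rw [Multiset.mem_singleton] at hx
    subst hx
    simp
  have h4 := card_switch h2 hX
  rw [Multiset.singleton_bind, Multiset.singleton_bind] at h4
  rw [runs_iso (by simp) h1]
  rw [runs_iso (by simp) h3, card_unknot, ← pow_succ] at h4
  exact h4

end

/-- The trefoil with one crossing switched. -/
def tks : Word := [cup 1, pos 0, neg 1, pos 1, cap 0]

theorem iso_tks : Iso 1 1 tks [] := by
  have s1 : Iso 1 1 ([cup 1, pos 0] ++ [neg 1, pos 1] ++ [cap 0]) ([cup 1, pos 0] ++ [] ++ [cap 0]) :=
    Iso.step (Elem.r2B 1) (by decide) (by decide)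
  have s2 : Iso 1 1 ([cup 1] ++ [pos 0, cap 0] ++ []) ([cup 1] ++ [cap 0] ++ []) :=
    Iso.step (Elem.r1C 0) (by decide) (by decide)
  have s3 : Iso 1 1 ([] ++ [cup 1, cap 0] ++ []) ([] ++ [] ++ []) :=
    Iso.step (Elem.zig 0) (by decide) (by decide)
  exact (s1.trans s2).trans s3

theorem iso_wpow_tks (b : ℕ) : Iso 2 2 (wpow tks b) [] := by
  induction b with
  | zero => exact Iso.refl _
  | succ b ih =>
    have h1 : Iso 2 2 (tks ++ wpow tks b) ([] ++ wpow tks b) :=
      Iso.post (dia_wpow (by decide : Dia 2 tks 2) b) (iso_tks.right 1)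
    exact h1.trans ih

theorem Switch.append {k l : ℕ} {A B C D : Word} (h : Switch k A B) (h' : Switch l C D) :
    Switch (k + l) (A ++ C) (B ++ D) := by
  induction h with
  | nil => simpa using h'
  | keep g h ih => exact Switch.keep g ih
  | posNeg i h ih => rw [Nat.add_right_comm]; exact Switch.posNeg i ih
  | negPos i h ih => rw [Nat.add_right_comm]; exact Switch.negPos i ih

theorem switch_tk1 : Switch 1 (tk 1) tks :=
  Switch.keep _ (Switch.keep _ (Switch.keep _ (Switch.negPos 1 (Switch.keep _ Switch.nil))))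

theorem switch_wpow (b : ℕ) : Switch b (wpow (tk 1) b) (wpow tks b) := by
  induction b with
  | zero => exact Switch.nil
  | succ b ih =>
    have h := switch_tk1.append ih
    rw [Nat.add_comm 1 b] at h
    exact h

theorem mult_three_one : mult 3 1 = 3 := by decide

theorem unk_sum (b : ℕ) : unk (ksum 1 1 0 b) = b := by
  apply le_antisymm
  · refine (iInf_le _ b).trans (iInf_le _ ?_)
    refine ⟨ksum 1 1 0 b, [cup 0] ++ ([] ++ wpow tks b) ++ [cap 0], Iso.refl _, ?_, ?_⟩
    · have h1 : Switch 0 [cup 0] [cup 0] := Switch.keep _ Switch.nil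
      have h2 : Switch 0 [cap 0] [cap 0] := Switch.keep _ Switch.nil
      have h3 := (h1.append (Switch.nil.append (switch_wpow b))).append h2
      have h4 : 0 + (0 + b) + 0 = b := by omega
      rw [h4] at h3
      exact h3
    · exact Iso.ctx (by decide : Dia 0 [cup 0] 2) (by decide : Dia 2 [cap 0] 0) (iso_wpow_tks b)
  · unfold unk
    refine le_iInf fun k => le_iInf fun h => ?_
    have h1 := card_le_unk (N := 3) h
    rw [card_ksum, mult_three_one, pow_zero, one_mul, ← pow_succ'] at h1
    have h2 := (Nat.pow_le_pow_iff_right (by norm_num : 1 < 3)).1 h1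
    exact_mod_cast (by omega : b ≤ k)

theorem cs_ksum' (b : ℕ) : cs (tk 1) (ksum 1 1 0 b) = ksum 1 1 0 (b + 1) := cs_ksum 1 0 b

/-- The unknotting number does not come from moves between linear combinations. -/
theorem no_inj_unk {A : Type*} [Ring A] (𝓜 : Set (LMove A)) (hn : ∀ μ ∈ 𝓜, 1 ≤ μ.n) :
    ¬ ∃ f : SkeinMod 𝓜 → ℕ, Function.Injective f ∧ ∀ D, IsKnot D → (f (cls 𝓜 D) : ℕ∞) = unk D := by
  apply no_inj loc_tk1 (I := unk) ⟨1, ?_⟩ ∅ {0} (by decide) ?_ ?_ 𝓜 hn
  · intro m hm
    refine ⟨ksum 1 1 0 (m - 1), isKnot_ksum _ _ _ _, ?_⟩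
    rw [cs_ksum, unk_sum]
    norm_cast
    omega
  · intro a ha
    rw [Finset.mem_singleton] at ha
    subst ha
    exact ⟨unknot, isKnot_unknot, unk_unknot⟩
  · intro m _
    refine ⟨ksum 1 1 0 m, isKnot_ksum _ _ _ _, unk_sum m, ?_⟩
    intro a ha
    rw [Finset.mem_singleton] at ha
    subst ha
    rw [cs_ksum, unk_sum]
    norm_cast

end H80Skein
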