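import Pool.Agent.H80Skein.Bracket
import Pool.Agent.H80Skein.Inv

/-! Crossingless diagrams: number of loops. -/

set_option linter.unusedSimpArgs false
set_option linter.unusedSectionVars false

namespace H80Skein

section

variable {R : Type*} [CommRing R] (A : Rˣ)

theorem reduce_cap' (n : ℕ) : ∀ (u : Word) (i : ℕ) (v : Word), u.length = n → AllCup u → CL v →
    Dia 0 (u ++ [cap i] ++ v) 0 →
    ∃ P Q : Word, (P ++ Q).length + 2 = (u ++ [cap i] ++ v).length ∧ CL (P ++ Q) ∧
      Dia 0 (P ++ Q) 0 ∧ ((Iso 0 0 (u ++ [cap i] ++ v) (P ++ Q) ∧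
          ev A (u ++ [cap i] ++ v) = ev A (P ++ Q)) ∨
        ∃ j, Iso 0 0 (u ++ [cap i] ++ v) (P ++ [cup j, cap j] ++ Q) ∧
          ev A (u ++ [cap i] ++ v) = ev A (P ++ [cup j, cap j] ++ Q)) := by
  induction n with
  | zero =>
    intro u i v hu _ _ hd
    have : u = [] := List.length_eq_zero_iff.1 hu
    subst this
    exact absurd hd.1 (by simp)
  | succ n ih =>
    intro u i v hu hcu hv hd
    have hne : u ≠ [] := by rintro rfl; simp at hu
    obtain ⟨u', g, rfl⟩ : ∃ u' g, u = u' ++ [g] :=
      ⟨u.dropLast, u.getLast hne, (List.dropLast_append_getLast hne).symm⟩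
    have hu' : u'.length = n := by simpa using hu
    have hcu' : AllCup u' := fun g' hg' => hcu g' (by simp [hg'])
    have hg : g.kind = .cup := hcu g (by simp)
    obtain ⟨k, j⟩ := g
    simp only at hg
    subst hg
    have clu' : CL u' := fun g' hg' => Or.inl (hcu' g' hg')
    have hd2 : Dia 0 (u' ++ ([cup j, cap i] ++ v)) 0 := by
      have : u' ++ ([cup j, cap i] ++ v) = u' ++ [⟨.cup, j⟩] ++ [cap i] ++ v := by simp [cup]
      rw [this]; exact hd
    obtain ⟨l, hl1, hl2⟩ := dia_append.1 hd2
    obtain ⟨l', hl3, hl4⟩ := dia_append.1 hl2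
    have hl5 : j ≤ l ∧ i + 2 ≤ l + 2 ∧ l' = l := by
      obtain ⟨a1, a2, a3⟩ := hl3
      simp at a1 a2 a3
      refine ⟨a1, by omega, ?_⟩
      have a4 : l = l' := a3
      omega
    obtain ⟨hj, hi, rfl⟩ := hl5
    have eD : u' ++ [(⟨.cup, j⟩ : Gen)] ++ [cap i] ++ v = u' ++ [cup j, cap i] ++ v := by
      simp [cup]
    have hd3 : Dia 0 (u' ++ [cup j, cap i] ++ v) 0 := by rw [← eD]; exact hd
    have hA : Dia 0 (u' ++ v) 0 := dia_append.2 ⟨_, hl1, hl4⟩
    have hlen : (u' ++ v).length + 2 = (u' ++ [(⟨.cup, j⟩ : Gen)] ++ [cap i] ++ v).length := by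
      simp; omega
    by_cases c1 : i = j
    · subst c1
      refine ⟨u', v, hlen, CL.append.2 ⟨clu', hv⟩, hA, Or.inr ⟨i, ?_⟩⟩
      rw [eD]; exact ⟨Iso.refl _, rfl⟩
    by_cases c2 : i = j + 1
    · subst c2
      refine ⟨u', v, hlen, CL.append.2 ⟨clu', hv⟩, hA, Or.inl ?_⟩
      have := Iso.step (m := 0) (n := 0) (u := u') (v := v) (Elem.zag j) hd3 (by simpa using hA)
      rw [eD]
      refine ⟨by simpa using this, ?_⟩
      have e := zag_op A j
      simp only [ev_append, ev_cons, ev_nil, mul_one, cup_kind, cup_off, cap_kind, cap_off, op, e]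
    by_cases c3 : j = i + 1
    · subst c3
      refine ⟨u', v, hlen, CL.append.2 ⟨clu', hv⟩, hA, Or.inl ?_⟩
      have := Iso.step (m := 0) (n := 0) (u := u') (v := v) (Elem.zig i) hd3 (by simpa using hA)
      rw [eD]
      refine ⟨by simpa using this, ?_⟩
      have e := zig_op A i
      simp only [ev_append, ev_cons, ev_nil, mul_one, cup_kind, cup_off, cap_kind, cap_off, op, e]
    by_cases c4 : j + 2 ≤ i
    · -- the cap moves down on the right
      obtain ⟨i', rfl⟩ : ∃ i', i = i' + 2 := ⟨i - 2, by omega⟩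
      have hd4 : Dia 0 (u' ++ [cap i', cup j] ++ v) 0 := by
        rw [List.append_assoc]
        refine dia_append.2 ⟨_, hl1, dia_append.2 ⟨_, ?_, hl4⟩⟩
        refine ⟨by simp; omega, by simp; omega, ?_⟩
        simp; omega
      have s1 : Iso 0 0 (u' ++ [cup j, cap (i' + 2)] ++ v) (u' ++ [cap i', cup j] ++ v) :=
        Iso.step (Elem.far .cup .cap j i' (by omega)) hd3 hd4
      have t1 : ev A (u' ++ [cup j, cap (i' + 2)] ++ v) = ev A (u' ++ [cap i', cup j] ++ v) := by
        have e := far_cup_cap A (i := j) (j := i') (by omega)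
        simp only [ev_append, ev_cons, ev_nil, mul_one, cup_kind, cup_off, cap_kind, cap_off, op, e]
      have e2 : u' ++ [cap i', cup j] ++ v = u' ++ [cap i'] ++ (cup j :: v) := by simp
      rw [e2] at s1 hd4 t1
      obtain ⟨P, Q, h1, h2, h3, h4⟩ := ih u' i' (cup j :: v) hu' hcu'
        (by intro g hg
            rcases List.mem_cons.1 hg with rfl | hg
            · left; rfl
            · exact hv g hg) hd4
      refine ⟨P, Q, ?_, h2, h3, ?_⟩
      · rw [h1]; simp
      · rw [eD]
        rcases h4 with h4 | ⟨q, h4⟩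
        · exact Or.inl ⟨s1.trans h4.1, t1.trans h4.2⟩
        · exact Or.inr ⟨q, s1.trans h4.1, t1.trans h4.2⟩
    · -- the cap moves down on the left
      obtain ⟨j', rfl⟩ : ∃ j', j = j' + 2 := ⟨j - 2, by omega⟩
      have hd4 : Dia 0 (u' ++ [cap i, cup j'] ++ v) 0 := by
        rw [List.append_assoc]
        refine dia_append.2 ⟨_, hl1, dia_append.2 ⟨_, ?_, hl4⟩⟩
        refine ⟨by simp; omega, by simp; omega, ?_⟩
        simp; omega
      have s1 : Iso 0 0 (u' ++ [cap i, cup j'] ++ v) (u' ++ [cup (j' + 2), cap i] ++ v) :=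
        Iso.step (Elem.far .cap .cup i j' (by omega)) hd4 hd3
      have t1 : ev A (u' ++ [cap i, cup j'] ++ v) = ev A (u' ++ [cup (j' + 2), cap i] ++ v) := by
        have e := far_cap_cup A (i := i) (j := j') (by omega)
        simp only [ev_append, ev_cons, ev_nil, mul_one, cup_kind, cup_off, cap_kind, cap_off, op, e]
      have e2 : u' ++ [cap i, cup j'] ++ v = u' ++ [cap i] ++ (cup j' :: v) := by simp
      rw [e2] at s1 hd4 t1
      obtain ⟨P, Q, h1, h2, h3, h4⟩ := ih u' i (cup j' :: v) hu' hcu'
        (by intro g hg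
            rcases List.mem_cons.1 hg with rfl | hg
            · left; rfl
            · exact hv g hg) hd4
      refine ⟨P, Q, ?_, h2, h3, ?_⟩
      · rw [h1]; simp
      · rw [eD]
        rcases h4 with h4 | ⟨q, h4⟩
        · exact Or.inl ⟨s1.symm.trans h4.1, t1.symm.trans h4.2⟩
        · exact Or.inr ⟨q, s1.symm.trans h4.1, t1.symm.trans h4.2⟩

/-- A crossingless closed diagram consists of `l` loops. -/
theorem loops_of_cl (n : ℕ) : ∀ D : Word, D.length = n → Dia 0 D 0 → CL D →
    ∃ l : ℕ, ev A D = (dl A) ^ l • 1 ∧ Multiset.card (runs (0 : ZMod 2) D 0) = 2 ^ l := by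
  induction n using Nat.strong_induction_on with
  | _ n ih =>
    intro D hn hD hcl
    rcases first_cap hcl with h | ⟨u, i, v, rfl, hu⟩
    · have := dia_allCup h hD
      have h0 : D = [] := List.length_eq_zero_iff.1 (by omega)
      subst h0
      exact ⟨0, by simp, by simp⟩
    · have hv : CL v := (CL.append.1 hcl).2
      obtain ⟨P, Q, h1, h2, h3, h4⟩ := reduce_cap' A u.length u i v rfl hu hv hD
      obtain ⟨l, hl1, hl2⟩ := ih (P ++ Q).length (by omega) _ rfl h3 h2
      rcases h4 with ⟨h4, h5⟩ | ⟨j, h4, h5⟩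
      · exact ⟨l, by rw [h5, hl1], by rw [runs_iso (by decide) h4, hl2]⟩
      · refine ⟨l + 1, ?_, ?_⟩
        · have e := cup_cap A j
          rw [ev_append] at hl1
          have e1 : ev A [cup j, cap j] = dl A • 1 := by
            rw [ev_cons, ev_cons, ev_nil, mul_one]; exact e
          rw [h5, ev_append, ev_append, e1]
          rw [mul_smul_comm, mul_one, smul_mul_assoc, hl1, smul_smul, pow_succ, mul_comm]
        · rw [runs_iso (by decide) h4]
          have e : P ++ [cup j, cap j] ++ Q = P ++ sh j unknot ++ Q := by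
            simp [unknot, cup, cap]
          rw [e, card_runs_closed 0 _ _ _ _ (by decide), card_unknot, hl2, pow_succ, mul_comm]

end

/-! ### Additivity of labellings -/

section

variable {N : ℕ} [NeZero N]

theorem act_add (g : Gen) {x x' y' : ℕ → ZMod N} (h : y' ∈ act (0 : ZMod N) g x') :
    act (0 : ZMod N) g (x + x') = (act (0 : ZMod N) g x).map (· + y') := by
  rw [act_def, Multiset.mem_map] at h
  obtain ⟨c', hc', rfl⟩ := h
  rw [act_def, act_def, Multiset.map_map]
  have e : (fun c => glue g x c + glue g x' c') = fun c => glue g (x + x') (c + c') := by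
    funext c
    rw [glue_add]
  have e2 : ((fun z => z + glue g x' c') ∘ glue g x) = (glue g (x + x')) ∘ (· + c') := by
    funext c
    simp only [Function.comp]
    rw [glue_add]
  rw [e2, ← Multiset.map_map]
  congr 1
  obtain ⟨k, i⟩ := g
  simp only [Pi.add_apply] at hc' ⊢
  cases k with
  | cup =>
    simp only [rule, Multiset.map_map, Multiset.mem_map] at hc' ⊢
    obtain ⟨a, -, rfl⟩ := hc'
    have : (Finset.univ : Finset (ZMod N)).val =
        (Finset.univ : Finset (ZMod N)).val.map (Equiv.addRight a) := by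
      conv_lhs => rw [← Finset.map_univ_equiv (Equiv.addRight a)]
      rfl
    conv_lhs => rw [this]
    rw [Multiset.map_map]
    apply Multiset.map_congr rfl
    intro c _
    simp
  | cap =>
    simp only [rule, add_zero] at hc' ⊢
    split_ifs at hc' with h1
    · rw [Multiset.mem_singleton] at hc'
      subst hc'
      by_cases h2 : x (i + 1) = x i
      · rw [if_pos h2, if_pos (by rw [h1, h2])]; simp
      · rw [if_neg h2, if_neg]
        · simp
        · intro h3
          apply h2
          rw [h1] at h3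
          exact add_right_cancel h3
    · simp at hc'
  | pos =>
    simp only [rule, Multiset.mem_singleton, Multiset.map_singleton] at hc' ⊢
    subst hc'
    congr 1
    simp only [Prod.mk_add_mk]
    congr 1
    ring
  | neg =>
    simp only [rule, Multiset.mem_singleton, Multiset.map_singleton] at hc' ⊢
    subst hc'
    congr 1
    simp only [Prod.mk_add_mk]
    congr 1
    ring

theorem runs_add (w : Word) : ∀ {x x' y' : ℕ → ZMod N}, y' ∈ runs (0 : ZMod N) w x' →
    runs (0 : ZMod N) w (x + x') = (runs (0 : ZMod N) w x).map (· + y') := by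
  induction w with
  | nil =>
    intro x x' y' h
    rw [runs_nil, Multiset.mem_singleton] at h
    subst h
    simp
  | cons g w ih =>
    intro x x' y' h
    rw [runs_cons, Multiset.mem_bind] at h
    obtain ⟨z', hz', hy'⟩ := h
    rw [runs_cons, runs_cons, act_add g hz', Multiset.bind_map, Multiset.map_bind]
    apply Multiset.bind_congr
    intro z _
    exact ih hy'

end

end H80Skein
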