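import Pool.Agent.H80Skein.Examples

/-! The main theorem on moves of which all but finitely many have a trivial side. -/

set_option linter.unusedSimpArgs false
set_option linter.unusedSectionVars false

namespace H80Skein

/-- The reversed move. -/
def Move.rev (μ : Move) : Move := ⟨μ.n, μ.t, μ.s, μ.ht, μ.hs, fun y z => μ.ok z y⟩

theorem Move.Applies.rev {μ : Move} {D E : Word} (h : μ.Applies D E) : μ.rev.Applies E D := by
  obtain ⟨u, v, m, k, hu, hk, hD, hE, y, hy, z, hz, hyv, hzv, hok⟩ := h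
  exact ⟨u, v, m, k, hu, hk, hE, hD, z, hz, y, hy, hzv, hyv, hok⟩

theorem Pres.rev {I : Word → ℕ∞} {μ : Move} (h : Pres I μ) : Pres I μ.rev := by
  intro D E hD hE hA
  exact (h E D hE hD hA.rev).symm

/-- The two sides have the same colourings modulo `p`, up to colourings of the endpoints. -/
def SameCol (p : ℕ) [NeZero p] (μ : Move) : Prop :=
  runs (0 : ZMod p) μ.s 0 = runs (0 : ZMod p) μ.t 0

theorem Move.Applies.card_eq {μ : Move} {p : ℕ} [NeZero p] (hc : SameCol p μ) {D E : Word}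
    (h : μ.Applies D E) :
    Multiset.card (runs (0 : ZMod p) D 0) = Multiset.card (runs (0 : ZMod p) E 0) := by
  obtain ⟨u, v, m, k, hu, hk, rfl, rfl, -⟩ := h
  have : ∀ x : ℕ → ZMod p, runs (0 : ZMod p) (sh k μ.s) x = runs (0 : ZMod p) (sh k μ.t) x := by
    intro x
    rw [runs_sh_insb 0 μ.hs, runs_sh_insb 0 μ.ht]
    have : runs (0 : ZMod p) μ.s 0 = runs (0 : ZMod p) μ.t 0 := hc
    rw [this]
  rw [List.append_assoc, List.append_assoc, runs_append, runs_append]
  congr 1
  apply Multiset.bind_congr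
  intro x _
  rw [runs_append, runs_append, this]

/-- If all applicable moves keep the colourings, then equivalent knots have equally many. -/
theorem card_eq_of_meq {𝓜 : Set Move} {p : ℕ} [NeZero p]
    (h : ∀ μ ∈ 𝓜, ∀ D E, IsKnot D → IsKnot E → μ.Applies D E → SameCol p μ) {D E : Word}
    (hDE : MEq 𝓜 D E) :
    Multiset.card (runs (0 : ZMod p) D 0) = Multiset.card (runs (0 : ZMod p) E 0) := by
  induction hDE with
  | rel D E hDE =>
    obtain ⟨hD, hE, hi | ⟨μ, hμ, ha⟩⟩ := hDE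
    · rw [runs_iso (by simp) hi]
    · exact ha.card_eq (h μ hμ D E hD hE ha)
  | refl D => rfl
  | symm D E _ ih => exact ih.symm
  | trans D E F _ _ ih ih' => exact ih.trans ih'

/-! ### The remaining moves -/

theorem runs_closed_eq {N : ℕ} [NeZero N] {T : Word} (hT : Dia 0 T 0) :
    runs (0 : ZMod N) T 0 = Multiset.replicate (Multiset.card (runs (0 : ZMod N) T 0)) 0 := by
  rw [Multiset.eq_replicate]
  refine ⟨rfl, fun z hz => ?_⟩
  funext j
  exact mem_runs_zero hT hz (Nat.zero_le j)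

theorem bdry_sub {p : ℕ} [NeZero p] {n : ℕ} {T T' : Word} (hT : Dia 0 T (2 * n))
    (hT' : Dia 0 T' (2 * n)) (h : BdryCol p n T = BdryCol p n T') {z : ℕ → ZMod p}
    (hz : z ∈ runs (0 : ZMod p) T 0) : z ∈ runs (0 : ZMod p) T' 0 := by
  have h1 : (fun j : Fin (2 * n) => z j) ∈ BdryCol p n T := ⟨z, hz, fun j => rfl⟩
  rw [h] at h1
  obtain ⟨z', hz', he⟩ := h1
  have : z' = z := by
    funext j
    by_cases hj : j < 2 * n
    · exact he ⟨j, hj⟩
    · rw [mem_runs_zero hT hz (by omega), mem_runs_zero hT' hz' (by omega)]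
  rwa [← this]

/-- A move that applies to some knot and preserves the colourings of the endpoints for almost all
primes keeps the colourings for almost all primes. -/
theorem exists_bound {μ : Move} {D E : Word} (hD : IsKnot D) (hE : IsKnot E)
    (ha : μ.Applies D E)
    (hfin : 2 ≤ μ.n → {p : ℕ | ∃ _ : Fact p.Prime, BdryCol p μ.n μ.s ≠ BdryCol p μ.n μ.t}.Finite) :
    ∃ P : ℕ, ∀ (p : ℕ) [Fact p.Prime], P < p → SameCol p μ := by
  obtain ⟨S, hS, hs2, ht2, -⟩ := ha.ctx hD hE
  have hks : IsKnot (μ.s ++ S) := ⟨dia_append.2 ⟨_, μ.hs, hS⟩, hs2⟩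
  have hkt : IsKnot (μ.t ++ S) := ⟨dia_append.2 ⟨_, μ.ht, hS⟩, ht2⟩
  obtain ⟨d1, hd1, H1⟩ := det_lemma hks
  obtain ⟨d2, hd2, H2⟩ := det_lemma hkt
  have hnd : ∀ (p : ℕ) (d : ℤ), d ≠ 0 → d.natAbs < p → ¬ (p : ℤ) ∣ d := by
    intro p d hd hp hdvd
    have := Int.natAbs_dvd_natAbs.2 hdvd
    rw [Int.natAbs_natCast] at this
    have := Nat.le_of_dvd (Int.natAbs_pos.2 hd) this
    omega
  by_cases hn : μ.n = 0
  · -- closed diagrams
    have hs0 : Dia 0 μ.s 0 := by have := μ.hs; rwa [hn] at this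
    have ht0 : Dia 0 μ.t 0 := by have := μ.ht; rwa [hn] at this
    have hS0 : Dia 0 S 0 := by rwa [hn] at hS
    have e : ∀ (N : ℕ) [NeZero N] (T : Word), Dia 0 T 0 →
        Multiset.card (runs (0 : ZMod N) (T ++ S) 0) =
        Multiset.card (runs (0 : ZMod N) T 0) * Multiset.card (runs (0 : ZMod N) S 0) := by
      intro N _ T hT
      have := card_runs_closed (0 : ZMod N) [] S T 0 hT 0
      simpa using this
    by_cases hSn : S = []
    · refine ⟨max d1.natAbs d2.natAbs, fun p hp hP => ?_⟩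
      have k1 := H1 p (hnd p d1 hd1 (by omega))
      have k2 := H2 p (hnd p d2 hd2 (by omega))
      rw [hSn, List.append_nil] at k1 k2
      rw [SameCol, runs_closed_eq hs0, runs_closed_eq ht0, k1, k2]
    · obtain ⟨w, rfl, hw⟩ := exists_cons_cup hS0 hSn
      rw [e 2 _ hs0, card_cup_cons hw] at hs2
      rw [e 2 _ ht0, card_cup_cons hw] at ht2
      have c1 : Multiset.card (runs (0 : ZMod 2) μ.s 0) = 1 := by
        have h3 : Multiset.card (runs (0 : ZMod 2) μ.s 0) *
          Multiset.card (runs (0 : ZMod 2) w 0) = 1 := by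
          have : 2 * (Multiset.card (runs (0 : ZMod 2) μ.s 0) *
            Multiset.card (runs (0 : ZMod 2) w 0)) = 2 :=
            (by ring : _ = Multiset.card (runs (0 : ZMod 2) μ.s 0) *
              (2 * Multiset.card (runs (0 : ZMod 2) w 0))).trans hs2
          omega
        exact Nat.eq_one_of_mul_eq_one_right h3
      have c2 : Multiset.card (runs (0 : ZMod 2) μ.t 0) = 1 := by
        have h3 : Multiset.card (runs (0 : ZMod 2) μ.t 0) *
          Multiset.card (runs (0 : ZMod 2) w 0) = 1 := by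
          have : 2 * (Multiset.card (runs (0 : ZMod 2) μ.t 0) *
            Multiset.card (runs (0 : ZMod 2) w 0)) = 2 :=
            (by ring : _ = Multiset.card (runs (0 : ZMod 2) μ.t 0) *
              (2 * Multiset.card (runs (0 : ZMod 2) w 0))).trans ht2
          omega
        exact Nat.eq_one_of_mul_eq_one_right h3
      refine ⟨0, fun p hp _ => ?_⟩
      rw [SameCol, eq_nil_of_card hs0 c1, eq_nil_of_card ht0 c2]
  · have hn1 : 1 ≤ 2 * μ.n := by omega
    have hnds : ∀ (p : ℕ) [Fact p.Prime], max d1.natAbs d2.natAbs < p →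
        (runs (0 : ZMod p) μ.s 0).Nodup ∧ (runs (0 : ZMod p) μ.t 0).Nodup := by
      intro p hp hP
      exact ⟨(nodup_of_card hn1 μ.hs hS (H1 p (hnd p d1 hd1 (by omega)))).1,
        (nodup_of_card hn1 μ.ht hS (H2 p (hnd p d2 hd2 (by omega)))).1⟩
    by_cases hn2 : μ.n = 1
    · refine ⟨max d1.natAbs d2.natAbs, fun p hp hP => ?_⟩
      obtain ⟨n1, n2⟩ := hnds p hP
      have key : ∀ T : Word, Dia 0 T (2 * μ.n) → ∀ z ∈ runs (0 : ZMod p) T 0,
          ∀ i < μ.n, z (2 * i + 1) = z (2 * i) := by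
        intro T hT z hz i hi
        have hi0 : i = 0 := by omega
        subst hi0
        have a1 := alt_runs hT hz
        have a2 : alt 0 (0 : ℕ → ZMod p) = 0 := rfl
        rw [alt_even, a2, hn2, Finset.sum_range_one] at a1
        simp only [Nat.mul_zero, Nat.zero_add] at a1 ⊢
        linear_combination -a1
      rw [SameCol, eq_cups_of μ.hs n1 (key _ μ.hs), eq_cups_of μ.ht n2 (key _ μ.ht)]
    · obtain ⟨B, hB⟩ := (hfin (by omega)).bddAbove
      refine ⟨max B (max d1.natAbs d2.natAbs), fun p hp hP => ?_⟩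
      obtain ⟨n1, n2⟩ := hnds p (by omega)
      have heq : BdryCol p μ.n μ.s = BdryCol p μ.n μ.t := by
        by_contra hne
        have h1 : p ∈ {p : ℕ | ∃ _ : Fact p.Prime, BdryCol p μ.n μ.s ≠ BdryCol p μ.n μ.t} :=
          ⟨hp, hne⟩
        have := hB h1
        omega
      rw [SameCol, Multiset.Nodup.ext n1 n2]
      intro z
      exact ⟨fun h => bdry_sub μ.hs μ.ht heq h, fun h => bdry_sub μ.ht μ.hs heq.symm h⟩

/-! ### Contradictions -/

theorem not_iso_unknot {D : Word} (p : ℕ) [Fact p.Prime]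
    (h : Multiset.card (runs (0 : ZMod p) D 0) ≠ p) : ¬ Iso 0 0 D unknot := by
  intro hi
  apply h
  rw [runs_iso (by simp) hi]
  exact card_unknot

theorem eq_one_of {I : Word → ℕ∞} (hU : DetU I) (h0 : I unknot = 0) {D : Word} (hD : IsKnot D)
    (hn : ¬ Iso 0 0 D unknot) (h1 : I D ≤ 1) : I D = 1 := by
  refine le_antisymm h1 ?_
  rw [Order.one_le_iff_pos, pos_iff_ne_zero]
  intro h
  exact hn (hU D hD (by rw [h, h0]))

/-- Infinitely many different primes above a bound, with their halves. -/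
theorem exists_primes (P : ℕ) : ∃ p k : ℕ → ℕ, Function.Injective p ∧
    ∀ i, (p i).Prime ∧ P < p i ∧ 3 < p i ∧ 2 * k i + 1 = p i := by
  have hinf : {p : ℕ | p.Prime ∧ P < p ∧ 3 < p}.Infinite := by
    rw [Set.infinite_iff_exists_gt]
    intro a
    obtain ⟨p, hp1, hp2⟩ := Nat.exists_infinite_primes (a + P + 4)
    exact ⟨p, ⟨hp2, by omega, by omega⟩, by omega⟩
  let e := hinf.natEmbedding
  refine ⟨fun i => (e i : ℕ), fun i => (e i : ℕ) / 2, ?_, ?_⟩
  · intro i j hij
    exact e.injective (Subtype.ext hij)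
  · intro i
    obtain ⟨h1, h2, h3⟩ := (e i).2
    have hodd : (e i : ℕ) % 2 = 1 := by
      rcases h1.eq_two_or_odd with h | h
      · omega
      · exact h
    exact ⟨h1, h2, h3, by simp only; omega⟩

theorem not_dvd_of_ne {p q : ℕ} (hp : p.Prime) (hq : q.Prime) (h : p ≠ q) : ¬ p ∣ q := by
  intro hd
  rcases (Nat.dvd_prime hq).1 hd with h1 | h1
  · exact hp.one_lt.ne' h1
  · exact h h1

/-- The invariance of the numbers of colourings for large primes. -/
def ColInv (𝓜 : Set Move) (P : ℕ) : Prop :=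
  ∀ (p : ℕ) [Fact p.Prime], P < p → ∀ D E, MEq 𝓜 D E →
      Multiset.card (runs (0 : ZMod p) D 0) = Multiset.card (runs (0 : ZMod p) E 0)

theorem contra_unk {𝓜 : Set Move} {B : ℕ} (hB : AtMost B 𝓜 unk) {P : ℕ}
    (hP : ColInv 𝓜 P) : False := by
  obtain ⟨p, k, hinj, hpk⟩ := exists_primes P
  have c1 : ∀ i j, (hij : i ≠ j) → ∀ [Fact (p i).Prime],
      Multiset.card (runs (0 : ZMod (p i)) (ksum (k i) 0 1 0) 0) = p i * p i ∧
      Multiset.card (runs (0 : ZMod (p i)) (ksum (k j) 0 1 0) 0) = p i := by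
    intro i j hij _
    constructor
    · rw [card_ksum, mult_eq_p (by rw [(hpk i).2.2.2])]; simp
    · rw [card_ksum, mult_eq_one]
      · simp
      · rw [(hpk j).2.2.2]
        exact not_dvd_of_ne (hpk i).1 (hpk j).1 (fun h => hij (hinj h))
  have u1 : ∀ i, unk (ksum (k i) 0 1 0) = 1 := by
    intro i
    have : Fact (p i).Prime := ⟨(hpk i).1⟩
    refine eq_one_of detU_unk unk_unknot (isKnot_ksum _ _ _ _)
      (not_iso_unknot (p i) ?_) (unk_twist_le _)
    rw [(c1 i (i + 1) (by omega)).1]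
    have := (hpk i).2.2.1
    nlinarith
  obtain ⟨i, j, hij, hm⟩ := hB (fun i => ksum (k i) 0 1 0) (fun i => isKnot_ksum _ _ _ _)
    (fun i j => by rw [u1, u1])
  have : Fact (p i).Prime := ⟨(hpk i).1⟩
  have h := hP (p i) (hpk i).2.1 _ _ hm
  have hij' : (i : ℕ) ≠ j := fun h => hij (Fin.ext h)
  rw [(c1 i j hij').1, (c1 i j hij').2] at h
  have := (hpk i).2.2.1
  nlinarith

theorem contra_gen {𝓜 : Set Move} {B : ℕ} (hB : AtMost B 𝓜 gen) {P : ℕ}
    (hP : ColInv 𝓜 P) : False := by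
  obtain ⟨p, k, hinj, hpk⟩ := exists_primes P
  have c1 : ∀ i j, (hij : i ≠ j) → ∀ [Fact (p i).Prime],
      Multiset.card (runs (0 : ZMod (p i)) (bandKnot 1 (bth (k i))) 0) = p i ^ 3 ∧
      Multiset.card (runs (0 : ZMod (p i)) (bandKnot 1 (bth (k j))) 0) = p i := by
    intro i j hij _
    constructor
    · apply card_band_zero
      have := (ZMod.natCast_eq_zero_iff (2 * k i + 1) (p i)).2 (by rw [(hpk i).2.2.2])
      push_cast at this; exact this
    · apply card_band_unit
      intro e he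
      have h1 : ((2 * k j + 1 : ℕ) : ZMod (p i)) ≠ 0 := by
        intro h0
        have h2 := (ZMod.natCast_eq_zero_iff _ (p i)).1 h0
        rw [(hpk j).2.2.2] at h2
        exact not_dvd_of_ne (hpk i).1 (hpk j).1 (fun h => hij (hinj h)) h2
      have h2 : (2 * (k j : ZMod (p i)) + 1) ≠ 0 := by
        intro h0; apply h1; rw [← h0]; push_cast; ring
      exact (mul_eq_zero.1 he).resolve_left h2
  have hp33 : ∀ i, p i ^ 3 ≠ p i := by
    intro i
    have h3 := (hpk i).2.2.1
    have : p i ^ 3 = p i * p i * p i := by ring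
    rw [this]; nlinarith
  have u1 : ∀ i, gen (bandKnot 1 (bth (k i))) = 1 := by
    intro i
    have : Fact (p i).Prime := ⟨(hpk i).1⟩
    refine eq_one_of detU_gen gen_unknot (isKnot_band _)
      (not_iso_unknot (p i) ?_) (gen_band_le _)
    rw [(c1 i (i + 1) (by omega)).1]
    exact hp33 i
  obtain ⟨i, j, hij, hm⟩ := hB (fun i => bandKnot 1 (bth (k i))) (fun i => isKnot_band _)
    (fun i j => by rw [u1, u1])
  have : Fact (p i).Prime := ⟨(hpk i).1⟩
  have h := hP (p i) (hpk i).2.1 _ _ hm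
  have hij' : (i : ℕ) ≠ j := fun h => hij (Fin.ext h)
  rw [(c1 i j hij').1, (c1 i j hij').2] at h
  exact hp33 i h

theorem contra_cr {𝓜 : Set Move} {B : ℕ} (hB : AtMost B 𝓜 cr) {P : ℕ}
    (hP : ColInv 𝓜 P) : False := by
  obtain ⟨pp, kk, hinj, hpk⟩ := exists_primes P
  obtain ⟨hp, hpP, hp3, hk⟩ := hpk 0
  obtain ⟨hq, hqP, hq3, hl⟩ := hpk 1
  have hne : pp 0 ≠ pp 1 := fun h => absurd (hinj h) (by norm_num)
  set p := pp 0
  set q := pp 1
  set k := kk 0
  set l := kk 1
  have : Fact p.Prime := ⟨hp⟩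
  have : Fact q.Prime := ⟨hq⟩
  have hpq : ¬ p ∣ 2 * l + 1 := by rw [hl]; exact not_dvd_of_ne hp hq hne
  have hqp : ¬ q ∣ 2 * k + 1 := by rw [hk]; exact not_dvd_of_ne hq hp hne.symm
  have cp : ∀ a b, Multiset.card (runs (0 : ZMod p) (ksum k l a b) 0) = p * p ^ a := by
    intro a b
    rw [card_ksum, mult_eq_p (by rw [hk]), mult_eq_one hpq]; simp
  have cq : ∀ a b, Multiset.card (runs (0 : ZMod q) (ksum k l a b) 0) = q * q ^ b := by
    intro a b
    rw [card_ksum, mult_eq_one hqp, mult_eq_p (by rw [hl])]; simp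
  -- inequivalence
  have hineq : ∀ x y : ℕ × ℕ, MEq 𝓜 (ksum k l x.1 x.2) (ksum k l y.1 y.2) → x = y := by
    intro x y hm
    have e1 := hP p hpP _ _ hm
    have e2 := hP q hqP _ _ hm
    rw [cp, cp] at e1
    rw [cq, cq] at e2
    have f1 : x.1 = y.1 := by
      have := Nat.eq_of_mul_eq_mul_left (by omega : 0 < p) e1
      exact Nat.pow_right_injective (by omega : 2 ≤ p) this
    have f2 : x.2 = y.2 := by
      have := Nat.eq_of_mul_eq_mul_left (by omega : 0 < q) e2
      exact Nat.pow_right_injective (by omega : 2 ≤ q) this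
    exact Prod.ext f1 f2
  -- pigeonhole
  set C := k + l + 4 with hC
  set M := B * (C + 1) + 1 with hM
  let f : ℕ × ℕ → ℕ := fun ab => (cr (ksum k l ab.1 ab.2)).toNat
  have hcr : ∀ a b, cr (ksum k l a b) ≠ ⊤ := by
    intro a b h
    have := cr_ksum k l a b
    rw [h, top_le_iff] at this
    exact ENat.natCast_ne_top _ this
  have hf : ∀ ab ∈ Finset.range M ×ˢ Finset.range M, f ab ∈ Finset.range (C * M + 1) := by
    intro ab hab
    rw [Finset.mem_product, Finset.mem_range, Finset.mem_range] at hab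
    rw [Finset.mem_range]
    have h1 : f ab ≤ ab.1 * (k + 2) + ab.2 * (l + 2) := by
      have h2 := cr_ksum k l ab.1 ab.2
      rw [← ENat.natCast_toNat (hcr ab.1 ab.2)] at h2
      exact_mod_cast h2
    have h3 : ab.1 * (k + 2) ≤ M * (k + 2) := Nat.mul_le_mul_right _ (by omega)
    have h4 : ab.2 * (l + 2) ≤ M * (l + 2) := Nat.mul_le_mul_right _ (by omega)
    have h5 : M * (k + 2) + M * (l + 2) = C * M := by
      rw [← Nat.mul_add]
      have : k + 2 + (l + 2) = C := by omega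
      rw [this]; ring
    omega
  have hcard : (Finset.range (C * M + 1)).card * B <
      (Finset.range M ×ˢ Finset.range M).card := by
    rw [Finset.card_range, Finset.card_product, Finset.card_range]
    have : M * M = (B * C) * M + B * M + M := by
      conv_lhs => rw [hM]
      ring
    rw [this]
    have h1 : B ≤ B * M := Nat.le_mul_of_pos_right _ (by omega)
    have h2 : (C * M + 1) * B = B * C * M + B := by ring
    rw [h2]; omega
  obtain ⟨y, -, hy⟩ := Finset.exists_lt_card_fiber_of_mul_lt_card_of_maps_to hf hcard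
  set F := (Finset.range M ×ˢ Finset.range M).filter fun x => f x = y with hF
  obtain ⟨e⟩ : Nonempty (Fin (B + 1) ↪ F) := by
    apply Function.Embedding.nonempty_of_card_le
    rw [Fintype.card_fin, Fintype.card_coe]; exact hy
  have heF : ∀ i, f (e i : ℕ × ℕ) = y := fun i => (Finset.mem_filter.1 (e i).2).2
  obtain ⟨i, j, hij, hm⟩ := hB (fun i => ksum k l (e i : ℕ × ℕ).1 (e i : ℕ × ℕ).2)
    (fun i => isKnot_ksum _ _ _ _) (fun i j => by
      rw [← ENat.natCast_toNat (hcr (e i : ℕ × ℕ).1 (e i : ℕ × ℕ).2),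
        ← ENat.natCast_toNat (hcr (e j : ℕ × ℕ).1 (e j : ℕ × ℕ).2)]
      exact congrArg _ ((heF i).trans (heF j).symm))
  exact hij (e.injective (Subtype.ext (hineq _ _ hm)))

/-- Suppose that all but finitely many of the local moves of `𝓜` have a trivial side, that
`𝓜`-equivalent knots have the same unknotting number, crossing number or genus `I`, and that among
the knots with the same `I` there are at most `B` classes. Then `𝓜` contains a move with at least
two strings, with both sides nontrivial, such that for infinitely many primes the colourings of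
the endpoints that extend over one side are not those that extend over the other one. -/
theorem main (𝓜 : Set Move)
    (hfin : {μ : Move | μ ∈ 𝓜 ∧ ¬ IsTrivial μ.n μ.s ∧ ¬ IsTrivial μ.n μ.t}.Finite)
    (I : Word → ℕ∞) (hI : I = unk ∨ I = cr ∨ I = gen) (hd : Descends 𝓜 I)
    (B : ℕ) (hB : AtMost B 𝓜 I) :
    ∃ μ ∈ 𝓜, 2 ≤ μ.n ∧ ¬ IsTrivial μ.n μ.s ∧ ¬ IsTrivial μ.n μ.t ∧
      {p : ℕ | ∃ _ : Fact p.Prime, BdryCol p μ.n μ.s ≠ BdryCol p μ.n μ.t}.Infinite := by
  by_contra hcon
  push Not at hcon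
  have hinv : IsoInv I ∧ DetU I := by
    rcases hI with rfl | rfl | rfl
    · exact ⟨isoInv_unk, detU_unk⟩
    · exact ⟨isoInv_cr, detU_cr⟩
    · exact ⟨isoInv_gen, detU_gen⟩
  have hpres : ∀ μ ∈ 𝓜, Pres I μ := by
    intro μ hμ D E hD hE ha
    exact hd D E hD hE (Relation.EqvGen.rel _ _ ⟨hD, hE, Or.inr ⟨μ, hμ, ha⟩⟩)
  -- a bound for each exceptional move
  have hb : ∀ μ ∈ {μ : Move | μ ∈ 𝓜 ∧ ¬ IsTrivial μ.n μ.s ∧ ¬ IsTrivial μ.n μ.t},
      ∃ P : ℕ, ∀ (p : ℕ) [Fact p.Prime], P < p → ∀ D E, IsKnot D → IsKnot E →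
        μ.Applies D E → SameCol p μ := by
    rintro μ ⟨hμ, h1, h2⟩
    by_cases hex : ∃ D E, IsKnot D ∧ IsKnot E ∧ μ.Applies D E
    · obtain ⟨D, E, hD, hE, ha⟩ := hex
      obtain ⟨P, hP⟩ := exists_bound hD hE ha (fun hn => hcon μ hμ hn h1 h2)
      exact ⟨P, fun p _ hp D E _ _ _ => hP p hp⟩
    · exact ⟨0, fun p _ _ D E hD hE ha => absurd ⟨D, E, hD, hE, ha⟩ hex⟩
  choose! bd hbd using hb
  obtain ⟨P, hP⟩ : ∃ P : ℕ, ∀ μ ∈ {μ : Move | μ ∈ 𝓜 ∧ ¬ IsTrivial μ.n μ.s ∧ ¬ IsTrivial μ.n μ.t},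
      bd μ ≤ P := by
    obtain ⟨P, hP⟩ := (hfin.image bd).bddAbove
    exact ⟨P, fun μ hμ => hP (Set.mem_image_of_mem _ hμ)⟩
  have hall : ColInv 𝓜 (max P 2) := by
    intro p hp hpP D E hDE
    refine card_eq_of_meq (fun μ hμ D E hD hE ha => ?_) hDE
    by_cases h1 : IsTrivial μ.n μ.s
    · exact rigid hinv.1 hinv.2 (hpres μ hμ) h1 hD hE ha (by omega)
    · by_cases h2 : IsTrivial μ.n μ.t
      · exact (rigid (μ := μ.rev) hinv.1 hinv.2 (hpres μ hμ).rev h2 hE hD ha.rev
          (by omega)).symm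
      · have h3 := hP μ ⟨hμ, h1, h2⟩
        exact hbd μ ⟨hμ, h1, h2⟩ p (by omega) D E hD hE ha
  rcases hI with rfl | rfl | rfl
  · exact contra_unk hB hall
  · exact contra_cr hB hall
  · exact contra_gen hB hall

end H80Skein
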