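import Pool.Agent.H80Skein.CupIso

/-! The matching of the endpoints of a diagram `2 * n → 0`, seen by labels modulo two. -/

set_option linter.unusedSimpArgs false
set_option linter.unusedSectionVars false

namespace H80Skein

/-- `κ` is a fixed point free involution of the numbers below `M`. -/
def Mat (M : ℕ) (κ : ℕ → ℕ) : Prop := ∀ i < M, κ i < M ∧ κ i ≠ i ∧ κ (κ i) = i

/-- The labellings modulo two of `S` are those compatible with the matching `κ`, each with `c`
extensions. -/
def Beh (S : Word) (M : ℕ) (κ : ℕ → ℕ) (c : ℕ) : Prop :=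
  ∀ (τ : ZMod 2) (x : ℕ → ZMod 2),
    Multiset.card (runs τ S x) = if (∀ i < M, x (κ i) = x i + τ) then c else 0

/-- The exchange of `i` and `i + 1`. -/
def tr (i : ℕ) : ℕ → ℕ := fun j => if j = i then i + 1 else if j = i + 1 then i else j

/-- Insertion of two points at `i`. -/
def ins1 (i : ℕ) : ℕ → ℕ := fun j => if j < i then j else j + 2

/-- Deletion of the two points `i`, `i + 1`. -/
def del1 (i : ℕ) : ℕ → ℕ := fun j => if j < i then j else j - 2

theorem tr_tr (i j : ℕ) : tr i (tr i j) = j := by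
  simp only [tr]; split_ifs <;> omega

theorem tr_lt {i j M : ℕ} (h : i + 2 ≤ M) : tr i j < M ↔ j < M := by
  simp only [tr]; split_ifs <;> omega

theorem ins1_del1 {i k : ℕ} (h : k ≠ i) (h' : k ≠ i + 1) : ins1 i (del1 i k) = k := by
  simp only [ins1, del1]; split_ifs <;> omega

theorem del1_ins1 (i j : ℕ) : del1 i (ins1 i j) = j := by
  simp only [ins1, del1]; split_ifs <;> omega

theorem ins1_ne (i j : ℕ) : ins1 i j ≠ i := by
  simp only [ins1]; split_ifs <;> omega

theorem ins1_ne' (i j : ℕ) : ins1 i j ≠ i + 1 := by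
  simp only [ins1]; split_ifs <;> omega

theorem ins1_lt {i j M : ℕ} (h : i ≤ M) : ins1 i j < M + 2 ↔ j < M := by
  simp only [ins1]; split_ifs <;> omega

theorem del1_lt {i k M : ℕ} (h : i ≤ M) (h1 : k ≠ i) (h2 : k ≠ i + 1) (hk : k < M + 2) :
    del1 i k < M := by
  simp only [del1]; split_ifs <;> omega

theorem ins1_inj {i j k : ℕ} (h : ins1 i j = ins1 i k) : j = k := by
  have := congrArg (del1 i) h
  rwa [del1_ins1, del1_ins1] at this

theorem z2 (a b : ZMod 2) : 2 * a - b = b := by revert a b; decide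
theorem z2' (a b : ZMod 2) : a + b + b = a := by revert a b; decide

theorem runs2_pos (τ : ZMod 2) (i : ℕ) (w : Word) (x : ℕ → ZMod 2) :
    runs τ (pos i :: w) x = runs τ w (fun j => x (tr i j)) := by
  rw [runs_pos]
  congr 1
  funext j
  rw [z2]
  by_cases h1 : j < i
  · rw [glue_lt _ h1]; simp only [tr]; rw [if_neg (by omega), if_neg (by omega)]
  by_cases h2 : j < i + 2
  · rw [glue_mid _ (by simp; omega) (by simpa using h2)]
    simp only [tr, pos_off]
    by_cases h3 : j = i
    · rw [if_pos h3, if_pos h3]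
    · rw [if_neg h3, if_neg h3, if_pos (by omega)]
  · rw [glue_ge _ (by simp; omega)]
    simp only [tr, pos_kind, out_pos, inn_pos]
    rw [if_neg (by omega), if_neg (by omega)]
    congr 1; omega

theorem runs2_neg (τ : ZMod 2) (i : ℕ) (w : Word) (x : ℕ → ZMod 2) :
    runs τ (neg i :: w) x = runs τ w (fun j => x (tr i j)) := by
  rw [runs_neg]
  congr 1
  funext j
  rw [z2]
  by_cases h1 : j < i
  · rw [glue_lt _ h1]; simp only [tr]; rw [if_neg (by omega), if_neg (by omega)]
  by_cases h2 : j < i + 2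
  · rw [glue_mid _ (by simp; omega) (by simpa using h2)]
    simp only [tr, neg_off]
    by_cases h3 : j = i
    · rw [if_pos h3, if_pos h3]
    · rw [if_neg h3, if_neg h3, if_pos (by omega)]
  · rw [glue_ge _ (by simp; omega)]
    simp only [tr, neg_kind, out_neg, inn_neg]
    rw [if_neg (by omega), if_neg (by omega)]
    congr 1; omega

theorem glue_cap_eq {N : ℕ} [NeZero N] (i : ℕ) (x : ℕ → ZMod N) (c : ZMod N × ZMod N) :
    glue (cap i) x c = fun j => x (ins1 i j) := by
  funext j
  by_cases h : j < i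
  · rw [glue_lt _ h]; simp [ins1, h]
  · rw [glue_ge _ (by simp; omega)]; simp [ins1, h]

theorem glue_cup_ins {N : ℕ} [NeZero N] (i j : ℕ) (x : ℕ → ZMod N) (c : ZMod N × ZMod N) :
    glue (cup i) x c (ins1 i j) = x j := by
  by_cases h : j < i
  · have : ins1 i j = j := by simp [ins1, h]
    rw [this, glue_lt _ h]
  · have : ins1 i j = j + 2 := by simp [ins1, h]
    rw [this, glue_ge _ (by simp; omega)]; simp

theorem glue_cup_fst {N : ℕ} [NeZero N] (i : ℕ) (x : ℕ → ZMod N) (c : ZMod N × ZMod N) :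
    glue (cup i) x c i = c.1 := by
  rw [glue_mid _ (by simp) (by simp)]; simp

theorem glue_cup_snd {N : ℕ} [NeZero N] (i : ℕ) (x : ℕ → ZMod N) (c : ZMod N × ZMod N) :
    glue (cup i) x c (i + 1) = c.2 := by
  rw [glue_mid _ (by simp) (by simp)]; simp

/-- Conjugation of a matching by an involution. -/
theorem Mat.conj {M : ℕ} {κ σ : ℕ → ℕ} (h : Mat M κ) (h1 : ∀ j, σ (σ j) = j)
    (h2 : ∀ j, j < M → σ j < M) : Mat M (fun j => σ (κ (σ j))) := by
  intro i hi
  obtain ⟨a, b, c⟩ := h (σ i) (h2 i hi)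
  refine ⟨h2 _ a, fun e => b ?_, ?_⟩
  · have := congrArg σ e
    rwa [h1] at this
  · simp only [h1, c]

theorem conj_iff {M : ℕ} {κ σ : ℕ → ℕ} (h1 : ∀ j, σ (σ j) = j)
    (h2 : ∀ j, j < M → σ j < M) (x : ℕ → ZMod 2) (τ : ZMod 2) :
    (∀ i < M, x (σ (κ (σ i))) = x i + τ) ↔ ∀ i < M, x (σ (κ i)) = x (σ i) + τ := by
  constructor
  · intro h i hi
    have := h (σ i) (h2 i hi)
    rwa [h1] at this
  · intro h i hi
    have := h (σ i) (h2 i hi)
    rwa [h1] at this

theorem Beh.conj {S W : Word} {M : ℕ} {κ σ : ℕ → ℕ} {c : ℕ} (h : Beh S M κ c)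
    (h1 : ∀ j, σ (σ j) = j) (h2 : ∀ j, j < M → σ j < M)
    (hW : ∀ (τ : ZMod 2) (x : ℕ → ZMod 2), runs τ W x = {fun j => x (σ j)}) :
    Beh (W ++ S) M (fun j => σ (κ (σ j))) c := by
  intro τ x
  rw [runs_append, hW, Multiset.singleton_bind, h]
  simp only [conj_iff h1 h2 x τ]

/-- The matching after removing a cap. -/
def capκ (i : ℕ) (κ : ℕ → ℕ) : ℕ → ℕ := fun j =>
  if j = i then i + 1 else if j = i + 1 then i else ins1 i (κ (del1 i j))

theorem Mat.capκ {M i : ℕ} {κ : ℕ → ℕ} (h : Mat M κ) (hi : i ≤ M) :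
    Mat (M + 2) (H80Skein.capκ i κ) := by
  intro j hj
  simp only [H80Skein.capκ]
  by_cases h1 : j = i
  · rw [if_pos h1, if_neg (by omega), if_pos rfl]; omega
  by_cases h2 : j = i + 1
  · rw [if_neg h1, if_pos h2, if_pos rfl]; omega
  rw [if_neg h1, if_neg h2]
  obtain ⟨a, b, c⟩ := h (del1 i j) (del1_lt hi h1 h2 hj)
  refine ⟨(ins1_lt hi).2 a, ?_, ?_⟩
  · intro e
    apply b
    have := congrArg (del1 i) e
    rwa [del1_ins1] at this
  · rw [if_neg (ins1_ne _ _), if_neg (ins1_ne' _ _), del1_ins1, c, ins1_del1 h1 h2]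

theorem Beh.cap {S : Word} {M i : ℕ} {κ : ℕ → ℕ} {c : ℕ} (h : Beh S M κ c) (hi : i ≤ M) :
    Beh (H80Skein.cap i :: S) (M + 2) (H80Skein.capκ i κ) c := by
  intro τ x
  rw [runs_cap]
  have key : (∀ j < M + 2, x (H80Skein.capκ i κ j) = x j + τ) ↔
      (x (i + 1) = x i + τ ∧ ∀ j < M, x (ins1 i (κ j)) = x (ins1 i j) + τ) := by
    constructor
    · intro H
      constructor
      · have := H i (by omega)
        simp only [H80Skein.capκ, if_true] at this
        exact this
      · intro j hj
        have := H (ins1 i j) ((ins1_lt hi).2 hj)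
        simp only [H80Skein.capκ] at this
        rw [if_neg (ins1_ne _ _), if_neg (ins1_ne' _ _), del1_ins1] at this
        exact this
    · rintro ⟨H1, H2⟩ j hj
      simp only [H80Skein.capκ]
      by_cases h1 : j = i
      · rw [if_pos h1, h1]; exact H1
      by_cases h2 : j = i + 1
      · rw [if_neg h1, if_pos h2, h2, H1, z2']
      rw [if_neg h1, if_neg h2]
      have := H2 (del1 i j) (del1_lt hi h1 h2 hj)
      rw [ins1_del1 h1 h2] at this
      exact this
  by_cases h0 : x (i + 1) = x i + τ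
  · rw [if_pos h0, glue_cap_eq, h]
    simp only [key, h0, true_and]
  · rw [if_neg h0, if_neg (fun H => h0 (key.1 H).1)]
    simp

/-- The matching after removing a cup. -/
def cupκ (i : ℕ) (κ : ℕ → ℕ) : ℕ → ℕ := fun j =>
  if κ (ins1 i j) = i then del1 i (κ (i + 1))
  else if κ (ins1 i j) = i + 1 then del1 i (κ i)
  else del1 i (κ (ins1 i j))

theorem Mat.cupκ {M i : ℕ} {κ : ℕ → ℕ} (h : Mat (M + 2) κ) (hi : i ≤ M) :
    Mat M (H80Skein.cupκ i κ) := by
  intro j hj
  have hj' : ins1 i j < M + 2 := (ins1_lt hi).2 hj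
  obtain ⟨a, b, c⟩ := h _ hj'
  obtain ⟨a1, b1, c1⟩ := h i (by omega)
  obtain ⟨a2, b2, c2⟩ := h (i + 1) (by omega)
  have n1 := ins1_ne i j
  have n2 := ins1_ne' i j
  simp only [H80Skein.cupκ]
  by_cases h1 : κ (ins1 i j) = i
  · rw [if_pos h1]
    have e1 : κ i = ins1 i j := by rw [h1] at c; exact c
    have m1 : κ (i + 1) ≠ i := by
      intro e; rw [e] at c2; rw [e1] at c2; exact n2 c2
    have m2 : κ (i + 1) ≠ i + 1 := b2
    rw [ins1_del1 m1 m2, c2]
    refine ⟨del1_lt hi m1 m2 a2, ?_, ?_⟩
    · intro e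
      have := congrArg (ins1 i) e
      rw [ins1_del1 m1 m2] at this
      rw [this, h1] at c2
      omega
    · rw [if_neg (by omega), if_pos rfl, e1, del1_ins1]
  · rw [if_neg h1]
    by_cases h2 : κ (ins1 i j) = i + 1
    · rw [if_pos h2]
      have e1 : κ (i + 1) = ins1 i j := by rw [h2] at c; exact c
      have m1 : κ i ≠ i := b1
      have m2 : κ i ≠ i + 1 := by
        intro e; rw [e] at c1; rw [e1] at c1; exact n1 c1
      rw [ins1_del1 m1 m2, c1]
      refine ⟨del1_lt hi m1 m2 a1, ?_, ?_⟩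
      · intro e
        have := congrArg (ins1 i) e
        rw [ins1_del1 m1 m2] at this
        rw [this, h2] at c1
        omega
      · rw [if_pos rfl, e1, del1_ins1]
    · rw [if_neg h2, ins1_del1 h1 h2, c]
      refine ⟨del1_lt hi h1 h2 a, ?_, ?_⟩
      · intro e
        have := congrArg (ins1 i) e
        rw [ins1_del1 h1 h2] at this
        exact b this
      · rw [if_neg n1, if_neg n2, del1_ins1]

theorem exists_beh_cup {S : Word} {M i : ℕ} {κ : ℕ → ℕ} {c : ℕ} (hM : Mat (M + 2) κ)
    (h : Beh S (M + 2) κ (2 ^ c)) (hi : i ≤ M) :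
    ∃ c', Beh (H80Skein.cup i :: S) M (H80Skein.cupκ i κ) (2 ^ c') := by
  obtain ⟨a1, b1, c1⟩ := hM i (by omega)
  obtain ⟨a2, b2, c2⟩ := hM (i + 1) (by omega)
  by_cases h0 : κ i = i + 1
  · refine ⟨c + 1, ?_⟩
    intro τ x
    rw [runs_cup, card_bind]
    have h0' : κ (i + 1) = i := by rw [← h0, c1]
    have key : ∀ d : ZMod 2, (∀ j < M + 2, glue (H80Skein.cup i) x (d, d + τ) (κ j) =
        glue (H80Skein.cup i) x (d, d + τ) j + τ) ↔
        ∀ j < M, x (H80Skein.cupκ i κ j) = x j + τ := by
      intro d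
      have ne1 : ∀ j < M, κ (ins1 i j) ≠ i := by
        intro j hj e
        obtain ⟨-, -, c3⟩ := hM _ ((ins1_lt hi).2 hj)
        rw [e, h0] at c3
        exact ins1_ne' i j c3.symm
      have ne2 : ∀ j < M, κ (ins1 i j) ≠ i + 1 := by
        intro j hj e
        obtain ⟨-, -, c3⟩ := hM _ ((ins1_lt hi).2 hj)
        rw [e, h0'] at c3
        exact ins1_ne i j c3.symm
      constructor
      · intro H j hj
        have := H (ins1 i j) ((ins1_lt hi).2 hj)
        rw [glue_cup_ins] at this
        simp only [H80Skein.cupκ]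
        rw [if_neg (ne1 j hj), if_neg (ne2 j hj)]
        rw [← ins1_del1 (ne1 j hj) (ne2 j hj), glue_cup_ins] at this
        exact this
      · intro H j hj
        by_cases h1 : j = i
        · rw [h1, h0, glue_cup_fst, glue_cup_snd]
        by_cases h2 : j = i + 1
        · rw [h2, h0', glue_cup_fst, glue_cup_snd, z2']
        have hj' := del1_lt hi h1 h2 hj
        have := H _ hj'
        have n1 := ne1 _ hj'
        have n2 := ne2 _ hj'
        rw [ins1_del1 h1 h2] at n1 n2
        simp only [H80Skein.cupκ] at this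
        rw [ins1_del1 h1 h2, if_neg n1, if_neg n2] at this
        rw [← ins1_del1 n1 n2, glue_cup_ins]
        conv_rhs => rw [← ins1_del1 h1 h2, glue_cup_ins]
        exact this
    have : ∀ d : ZMod 2, Multiset.card (runs τ S (glue (H80Skein.cup i) x (d, d + τ))) =
        if (∀ j < M, x (H80Skein.cupκ i κ j) = x j + τ) then 2 ^ c else 0 := by
      intro d
      rw [h]
      simp only [key d]
    simp only [this]
    rw [Multiset.map_const', Multiset.sum_replicate]
    have e2 : Multiset.card (Finset.univ : Finset (ZMod 2)).val = 2 := rfl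
    rw [e2]
    split_ifs <;> simp [pow_succ, mul_comm]
  · refine ⟨c, ?_⟩
    intro τ x
    rw [runs_cup, card_bind]
    have m1 : κ i ≠ i := b1
    have m2 : κ i ≠ i + 1 := h0
    have m3 : κ (i + 1) ≠ i := by
      intro e; rw [e] at c2; exact h0 c2
    have m4 : κ (i + 1) ≠ i + 1 := b2
    have key : ∀ d : ZMod 2, (∀ j < M + 2, glue (H80Skein.cup i) x (d, d + τ) (κ j) =
        glue (H80Skein.cup i) x (d, d + τ) j + τ) ↔
        (d = x (del1 i (κ (i + 1))) ∧ ∀ j < M, x (H80Skein.cupκ i κ j) = x j + τ) := by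
      intro d
      set X := glue (H80Skein.cup i) x (d, d + τ) with hX
      have X1 : X i = d := glue_cup_fst _ _ _
      have X2 : X (i + 1) = d + τ := glue_cup_snd _ _ _
      have X3 : ∀ k, k ≠ i → k ≠ i + 1 → X k = x (del1 i k) := by
        intro k hk hk'
        conv_lhs => rw [← ins1_del1 hk hk']
        exact glue_cup_ins _ _ _ _
      constructor
      · intro H
        have HB := H (κ (i + 1)) a2
        rw [c2, X2, X3 _ m3 m4] at HB
        have HB' : d = x (del1 i (κ (i + 1))) := add_right_cancel HB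
        have HA := H (κ i) a1
        rw [c1, X1, X3 _ m1 m2] at HA
        refine ⟨HB', ?_⟩
        intro j hj
        have hj' := (ins1_lt hi).2 hj
        have Hj := H _ hj'
        obtain ⟨-, -, c3⟩ := hM _ hj'
        simp only [H80Skein.cupκ]
        by_cases h1 : κ (ins1 i j) = i
        · rw [if_pos h1, ← HB', HA]
          rw [h1] at c3
          rw [c3, del1_ins1]
        · rw [if_neg h1]
          by_cases h2 : κ (ins1 i j) = i + 1
          · rw [if_pos h2]
            rw [h2] at c3
            rw [c3, del1_ins1] at HB'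
            rw [← HB', HA, z2']
          · rw [if_neg h2]
            rw [X3 _ h1 h2, X3 _ (ins1_ne _ _) (ins1_ne' _ _), del1_ins1] at Hj
            exact Hj
      · rintro ⟨Hd, H⟩ l hl
        have HA : x (del1 i (κ i)) = d + τ := by
          have := H (del1 i (κ (i + 1))) (del1_lt hi m3 m4 a2)
          simp only [H80Skein.cupκ] at this
          rw [ins1_del1 m3 m4, c2, if_neg (by omega), if_pos rfl, ← Hd] at this
          exact this
        by_cases h1 : l = i
        · rw [h1, X1, X3 _ m1 m2, HA]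
        by_cases h2 : l = i + 1
        · rw [h2, X2, X3 _ m3 m4, ← Hd, z2']
        obtain ⟨a3, b3, c3⟩ := hM l hl
        by_cases h3 : κ l = i
        · rw [h3, X1]
          rw [h3] at c3
          rw [← c3, X3 _ m1 m2, HA, z2']
        by_cases h4 : κ l = i + 1
        · rw [h4, X2]
          rw [h4] at c3
          rw [← c3, X3 _ m3 m4, ← Hd]
        have := H (del1 i l) (del1_lt hi h1 h2 hl)
        simp only [H80Skein.cupκ] at this
        rw [ins1_del1 h1 h2, if_neg h3, if_neg h4] at this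
        rw [X3 _ h3 h4, X3 _ h1 h2]
        exact this
    have : ∀ d : ZMod 2, Multiset.card (runs τ S (glue (H80Skein.cup i) x (d, d + τ))) =
        if d = x (del1 i (κ (i + 1))) then
          (if (∀ j < M, x (H80Skein.cupκ i κ j) = x j + τ) then 2 ^ c else 0) else 0 := by
      intro d
      rw [h]
      simp only [key d]
      by_cases h5 : d = x (del1 i (κ (i + 1)))
      · simp only [h5, true_and, if_true]
      · simp only [h5, false_and, if_false]
    simp only [this]
    have e3 : ((Finset.univ : Finset (ZMod 2)).val.map fun d =>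
        if d = x (del1 i (κ (i + 1))) then
          (if (∀ j < M, x (H80Skein.cupκ i κ j) = x j + τ) then 2 ^ c else 0) else 0).sum =
        ∑ d : ZMod 2, if d = x (del1 i (κ (i + 1))) then
          (if (∀ j < M, x (H80Skein.cupκ i κ j) = x j + τ) then 2 ^ c else 0) else 0 := rfl
    rw [e3, Finset.sum_ite_eq' Finset.univ]
    simp

/-- Every diagram without upper endpoints has a matching. -/
theorem exists_matching {M : ℕ} {S : Word} (h : Dia M S 0) :
    ∃ κ c, Mat M κ ∧ Beh S M κ (2 ^ c) := by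
  induction S generalizing M with
  | nil =>
    rw [dia_nil] at h
    subst h
    refine ⟨id, 0, ?_, ?_⟩
    · intro i hi; omega
    · intro τ x; simp
  | cons g S ih =>
    obtain ⟨h1, h2⟩ := h
    obtain ⟨κ, c, hκ, hb⟩ := ih h2
    obtain ⟨k, i⟩ := g
    cases k with
    | cup =>
      simp only [inn_cup, out_cup, Nat.sub_zero, Nat.add_zero] at h1 hκ hb
      obtain ⟨c', hc'⟩ := exists_beh_cup hκ hb h1
      exact ⟨_, c', hκ.cupκ h1, hc'⟩
    | cap =>
      simp only [inn_cap, out_cap, Nat.add_zero] at h1 hκ hb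
      obtain ⟨m, rfl⟩ : ∃ m', M = m' + 2 := ⟨M - 2, by omega⟩
      simp only [Nat.add_sub_cancel] at hκ hb
      exact ⟨_, c, hκ.capκ (by omega), hb.cap (by omega)⟩
    | pos =>
      simp only [inn_pos, out_pos] at h1 hκ hb
      have e : M - 2 + 2 = M := by omega
      rw [e] at hκ hb
      refine ⟨_, c, hκ.conj (tr_tr i) (fun j hj => (tr_lt h1).2 hj), ?_⟩
      exact hb.conj (W := [pos i]) (tr_tr i) (fun j hj => (tr_lt h1).2 hj)
        (fun τ x => by rw [runs2_pos, runs_nil])
    | neg =>
      simp only [inn_neg, out_neg] at h1 hκ hb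
      have e : M - 2 + 2 = M := by omega
      rw [e] at hκ hb
      refine ⟨_, c, hκ.conj (tr_tr i) (fun j hj => (tr_lt h1).2 hj), ?_⟩
      exact hb.conj (W := [neg i]) (tr_tr i) (fun j hj => (tr_lt h1).2 hj)
        (fun τ x => by rw [runs2_neg, runs_nil])

/-- The matching `κ` and the matching of a stack of cups form a single cycle. -/
def Conn (n : ℕ) (κ : ℕ → ℕ) : Prop :=
  ∀ x : ℕ → ZMod 2, (∀ i < 2 * n, x (κ i) = x i) → (∀ i < n, x (2 * i + 1) = x (2 * i)) →
    ∀ i < 2 * n, x i = x 0

/-- If a stack of `n ≥ 1` cups closed by `S` is a knot then `S` has no closed components and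
its matching closes the stack of cups to a single cycle. -/
theorem conn_of_knot {n : ℕ} (hn : 1 ≤ n) {S : Word} {κ : ℕ → ℕ} {c : ℕ}
    (hκ : Mat (2 * n) κ) (hb : Beh S (2 * n) κ (2 ^ c))
    (hk : Multiset.card (runs (N := 2) 0 (cups n ++ S) 0) = 2) :
    Beh S (2 * n) κ 1 ∧ Conn n κ := by
  rw [card_runs_append] at hk
  have hb0 : ∀ x : ℕ → ZMod 2, Multiset.card (runs 0 S x) =
      if (∀ i < 2 * n, x (κ i) = x i) then 2 ^ c else 0 := by
    intro x
    have := hb 0 x
    simpa using this
  simp only [hb0] at hk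
  -- the two constant labellings
  let C : ZMod 2 → ℕ → ZMod 2 := fun a j => if j < 2 * n then a else 0
  have hC : ∀ a, C a ∈ runs (0 : ZMod 2) (cups n) 0 := by
    intro a
    rw [mem_cups]
    refine ⟨fun i hi => ?_, ?_⟩
    · simp only [C]; rw [if_pos (by omega), if_pos (by omega)]
    · funext j; simp only [C, tl]; rw [if_neg (by omega)]; rfl
  have hCκ : ∀ a, ∀ i < 2 * n, C a (κ i) = C a i := by
    intro a i hi
    simp only [C]
    rw [if_pos (hκ i hi).1, if_pos hi]
  have h01 : C 0 ≠ C 1 := by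
    intro e
    have := congrFun e 0
    simp only [C] at this
    rw [if_pos (by omega), if_pos (by omega)] at this
    exact absurd this (by decide)
  -- general bound
  have bound : ∀ T : Multiset (ℕ → ZMod 2), T ≤ runs (0 : ZMod 2) (cups n) 0 →
      (∀ x ∈ T, ∀ i < 2 * n, x (κ i) = x i) → Multiset.card T * 2 ^ c ≤ 2 := by
    intro T hT hT2
    obtain ⟨R, hR⟩ := Multiset.le_iff_exists_add.1 hT
    rw [hR, Multiset.map_add, Multiset.sum_add] at hk
    have : (T.map fun z => if (∀ i < 2 * n, z (κ i) = z i) then 2 ^ c else 0) =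
        T.map fun _ => 2 ^ c := Multiset.map_congr rfl (fun x hx => if_pos (hT2 x hx))
    rw [this, Multiset.map_const', Multiset.sum_replicate, smul_eq_mul] at hk
    omega
  have nd := nodup_cups n (0 : ℕ → ZMod 2)
  have hT2 : ({C 0, C 1} : Multiset (ℕ → ZMod 2)) ≤ runs (0 : ZMod 2) (cups n) 0 := by
    rw [Multiset.le_iff_subset (by simp [h01])]
    intro x hx
    simp only [Multiset.insert_eq_cons, Multiset.mem_cons, Multiset.mem_singleton] at hx
    rcases hx with rfl | rfl <;> exact hC _
  have b2 := bound _ hT2 (by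
    intro x hx
    simp only [Multiset.insert_eq_cons, Multiset.mem_cons, Multiset.mem_singleton] at hx
    rcases hx with rfl | rfl <;> exact hCκ _)
  have hc : c = 0 := by
    by_contra hc
    have : 2 ≤ 2 ^ c := by
      calc 2 = 2 ^ 1 := rfl
        _ ≤ 2 ^ c := Nat.pow_le_pow_right (by norm_num) (by omega)
    simp at b2
    omega
  subst hc
  refine ⟨by simpa using hb, ?_⟩
  intro x hx1 hx2 i hi
  by_contra hne
  let X : ℕ → ZMod 2 := fun j => if j < 2 * n then x j else 0
  have hX : X ∈ runs (0 : ZMod 2) (cups n) 0 := by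
    rw [mem_cups]
    refine ⟨fun i hi => ?_, ?_⟩
    · simp only [X]; rw [if_pos (by omega), if_pos (by omega)]; exact hx2 i hi
    · funext j; simp only [X, tl]; rw [if_neg (by omega)]; rfl
  have hXκ : ∀ i < 2 * n, X (κ i) = X i := by
    intro i hi
    simp only [X]
    rw [if_pos (hκ i hi).1, if_pos hi]; exact hx1 i hi
  have hXC : ∀ a, X ≠ C a := by
    intro a e
    apply hne
    have e1 := congrFun e i
    have e2 := congrFun e 0
    simp only [X, C] at e1 e2
    rw [if_pos hi, if_pos hi] at e1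
    rw [if_pos (by omega), if_pos (by omega)] at e2
    rw [e1, e2]
  have hT3 : ({X, C 0, C 1} : Multiset (ℕ → ZMod 2)) ≤ runs (0 : ZMod 2) (cups n) 0 := by
    rw [Multiset.le_iff_subset (by simp [h01, hXC])]
    intro y hy
    simp only [Multiset.insert_eq_cons, Multiset.mem_cons, Multiset.mem_singleton] at hy
    rcases hy with rfl | rfl | rfl
    · exact hX
    · exact hC _
    · exact hC _
  have b3 := bound _ hT3 (by
    intro y hy
    simp only [Multiset.insert_eq_cons, Multiset.mem_cons, Multiset.mem_singleton] at hy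
    rcases hy with rfl | rfl | rfl
    · exact hXκ
    · exact hCκ _
    · exact hCκ _)
  simp at b3

end H80Skein
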