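import Pool.Agent.H80Skein.Lin

/-! Rigidity of invariant-preserving moves with a trivial side. -/

set_option linter.unusedSimpArgs false
set_option linter.unusedSectionVars false

namespace H80Skein

theorem zz (τ : ZMod 2) : τ + τ = 0 := by revert τ; decide

/-! ### Two-sided contexts -/

section

variable {N : ℕ} [NeZero N]

/-- The block `z` of `m` labels inserted into `x` behind the first `k` labels. -/
def insb (k m : ℕ) (z x : ℕ → ZMod N) : ℕ → ZMod N := fun j =>
  if j < k then x j else if j < k + m then z (j - k) else x (j - m)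

theorem pre_eq_graft (i : ℕ) (x z : ℕ → ZMod N) : pre i x z = graft i z x := rfl

theorem runs_sh_insb (τ : ZMod N) {T : Word} {m : ℕ} (hT : Dia 0 T m) (k : ℕ)
    (x : ℕ → ZMod N) : runs τ (sh k T) x = (runs τ T 0).map fun z => insb k m z x := by
  rw [runs_sh, runs_zero_closed τ hT, Multiset.map_map]
  congr 1
  funext z
  funext j
  simp only [Function.comp, pre, graft, insb, tl]
  by_cases h1 : j < k
  · rw [if_pos h1, if_pos h1]
  rw [if_neg h1, if_neg h1]
  by_cases h2 : j < k + m
  · rw [if_pos (by omega), if_pos h2]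
  · rw [if_neg (by omega), if_neg h2]
    congr 1; omega

end

/-- The strand `a` carried to the right over `k` strands. -/
def car : ℕ → ℕ → Word
  | _, 0 => []
  | a, k + 1 => pos a :: car (a + 1) k

theorem dia_car {a k M : ℕ} (h : a + k + 1 ≤ M) : Dia M (car a k) M := by
  induction k generalizing a with
  | zero => rfl
  | succ k ih =>
    refine ⟨by simp; omega, ?_⟩
    simp only [pos_kind, inn_pos, out_pos]
    have : M - 2 + 2 = M := by omega
    rw [this]; exact ih (by omega)

theorem runs2_car (τ : ZMod 2) (a k : ℕ) (x : ℕ → ZMod 2) :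
    runs τ (car a k) x = {fun j => if j < a then x j else if j < a + k then x (j + 1)
      else if j = a + k then x a else x j} := by
  induction k generalizing a x with
  | zero =>
    rw [car, runs_nil]
    congr 1
    funext j
    by_cases h1 : j < a
    · rw [if_pos h1]
    rw [if_neg h1, if_neg (by omega)]
    by_cases h2 : j = a + 0
    · rw [if_pos h2]; rw [h2]; rfl
    · rw [if_neg h2]
  | succ k ih =>
    rw [car, runs2_pos, ih]
    congr 1
    funext j
    have h : j < a ∨ j = a ∨ (a < j ∧ j < a + 1 + k) ∨ j = a + 1 + k ∨ a + 1 + k < j := by omega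
    rcases h with h | h | h | h | h
    · rw [if_pos (by omega), if_pos h]
      congr 1; simp only [tr]; split_ifs <;> omega
    · rw [if_pos (by omega), if_neg (by omega), if_pos (by omega)]
      congr 1; simp only [tr]; split_ifs <;> omega
    · rw [if_neg (by omega), if_pos (by omega), if_neg (by omega), if_pos (by omega)]
      congr 1; simp only [tr]; split_ifs <;> omega
    · rw [if_neg (by omega), if_neg (by omega), if_pos (by omega), if_neg (by omega),
        if_neg (by omega), if_pos (by omega)]
      congr 1; simp only [tr]; split_ifs <;> omega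
    · rw [if_neg (by omega), if_neg (by omega), if_neg (by omega), if_neg (by omega),
        if_neg (by omega), if_neg (by omega)]
      congr 1; simp only [tr]; split_ifs <;> omega

/-- The first `m` strands carried to the right over the next `k` strands. -/
def blk : ℕ → ℕ → Word
  | 0, _ => []
  | m + 1, k => car m k ++ blk m k

theorem dia_blk {m k M : ℕ} (h : m + k ≤ M) : Dia M (blk m k) M := by
  induction m with
  | zero => rfl
  | succ m ih => exact dia_append.2 ⟨M, dia_car (by omega), ih (by omega)⟩

theorem runs2_blk (τ : ZMod 2) (m k : ℕ) (z x : ℕ → ZMod 2) :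
    runs τ (blk m k) (graft m x z) = {insb k m z x} := by
  induction m generalizing x with
  | zero =>
    rw [blk, runs_nil]
    congr 1
    funext j
    simp only [graft, insb, Nat.not_lt_zero, if_false, Nat.sub_zero, Nat.add_zero, ite_self]
    split_ifs <;> first | rfl | omega
  | succ m ih =>
    rw [blk, runs_append, runs2_car, Multiset.singleton_bind]
    have e : (fun j => if j < m then graft (m + 1) x z j else if j < m + k then
        graft (m + 1) x z (j + 1) else if j = m + k then graft (m + 1) x z m
        else graft (m + 1) x z j) =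
        graft m (fun j => if j < k then x j else if j = k then z m else x (j - 1)) z := by
      funext j
      have h : j < m ∨ (m ≤ j ∧ j < m + k) ∨ j = m + k ∨ m + k < j := by omega
      rcases h with h | h | h | h
      · rw [if_pos h, graft_lt (by omega), graft_lt h]
      · rw [if_neg (by omega), if_pos (by omega), graft_ge (by omega), graft_ge (by omega),
          if_pos (by omega)]
        congr 1; omega
      · rw [if_neg (by omega), if_neg (by omega), if_pos h, graft_lt (by omega),
          graft_ge (by omega), if_neg (by omega), if_pos (by omega)]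
      · rw [if_neg (by omega), if_neg (by omega), if_neg (by omega), graft_ge (by omega),
          graft_ge (by omega), if_neg (by omega), if_neg (by omega)]
        congr 1
    rw [e, ih]
    congr 1
    funext j
    simp only [insb]
    have h : j < k ∨ (k ≤ j ∧ j < k + m) ∨ j = k + m ∨ k + m < j := by omega
    rcases h with h | h | h | h
    · rw [if_pos h, if_pos h, if_pos h]
    · rw [if_neg (by omega), if_pos (by omega), if_neg (by omega), if_pos (by omega)]
    · rw [if_neg (by omega), if_neg (by omega), if_neg (by omega), if_pos (by omega),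
        if_neg (by omega), if_pos (by omega)]
      congr 1; omega
    · rw [if_neg (by omega), if_neg (by omega), if_neg (by omega), if_neg (by omega),
        if_neg (by omega), if_neg (by omega)]
      congr 1

/-- The one-sided context made of a two-sided one. -/
def oneSided (n k : ℕ) (u v : Word) : Word := sh n u ++ blk n k ++ v

theorem runs2_oneSided (τ : ZMod 2) {u v : Word} {n m k : ℕ} (hu : Dia 0 u m)
    {z : ℕ → ZMod 2} (hz : tl n z = 0) :
    runs τ (oneSided n k u v) z = (runs τ u 0).bind fun x => runs τ v (insb k n z x) := by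
  rw [oneSided, List.append_assoc, runs_append, runs_sh, hz, Multiset.bind_map]
  congr 1
  funext x
  rw [runs_append, pre_eq_graft, runs2_blk, Multiset.singleton_bind]

theorem runs2_twoSided (τ : ZMod 2) {u v T : Word} {n m k : ℕ} (hu : Dia 0 u m)
    (hT : Dia 0 T n) :
    runs τ (u ++ sh k T ++ v) 0 = runs τ (T ++ oneSided n k u v) 0 := by
  rw [List.append_assoc, runs_append, runs_append]
  have e : (runs τ T 0).bind (runs τ (oneSided n k u v)) =
      (runs τ T 0).bind fun z => (runs τ u 0).bind fun x => runs τ v (insb k n z x) := by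
    apply Multiset.bind_congr
    intro z hz
    exact runs2_oneSided τ hu (by rw [mem_runs_tl hT hz]; rfl)
  rw [e, Multiset.bind_bind]
  apply Multiset.bind_congr
  intro x _
  rw [runs_append, runs_sh_insb τ hT, Multiset.bind_map]

theorem dia_oneSided {u v T : Word} {n m k : ℕ} (hu : Dia 0 u m) (hk : k ≤ m)
    (hT : Dia 0 T n) (hD : Dia 0 (u ++ sh k T ++ v) 0) : Dia n (oneSided n k u v) 0 := by
  rw [List.append_assoc] at hD
  obtain ⟨m', h1, h2⟩ := dia_append.1 hD
  have := dia_unique hu h1
  subst this
  obtain ⟨l, h3, h4⟩ := dia_append.1 h2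
  have h5 : Dia m (sh k T) (m + n) := by
    have := dia_right (m - k) (dia_sh k hT)
    have e1 : 0 + k + (m - k) = m := by omega
    have e2 : n + k + (m - k) = m + n := by omega
    rwa [e1, e2] at this
  have := dia_unique h3 h5
  subst this
  have h6 : Dia n (sh n u) (m + n) := by
    have := dia_sh n hu
    rwa [Nat.zero_add] at this
  exact dia_append.2 ⟨_, dia_append.2 ⟨_, h6, dia_blk (by omega)⟩, h4⟩

/-! ### Moves that preserve an invariant -/

/-- The move preserves the invariant. -/
def Pres (I : Word → ℕ∞) (μ : Move) : Prop :=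
  ∀ D E, IsKnot D → IsKnot E → μ.Applies D E → I D = I E

/-- The invariant is an isotopy invariant. -/
def IsoInv (I : Word → ℕ∞) : Prop := ∀ D E, Iso 0 0 D E → I D = I E

/-- The invariant detects the unknot. -/
def DetU (I : Word → ℕ∞) : Prop := ∀ D, IsKnot D → I D = I unknot → Iso 0 0 D unknot

theorem card_unknot {N : ℕ} [NeZero N] : Multiset.card (runs (0 : ZMod N) unknot 0) = N := by
  have e : (0 : ℕ → ZMod N) = put [] 0 := rfl
  rw [unknot, e, runs_cup0, card_bind]
  simp only [runs_cap0, if_true, runs_nil, Multiset.card_singleton]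
  rw [Multiset.map_const', Multiset.sum_replicate]
  simp [ZMod.card]

theorem IsKnot.iso {D E : Word} (h : IsKnot D) (hi : Iso 0 0 D E) : IsKnot E := by
  refine ⟨(hi.dia).1 h.1, ?_⟩
  rw [← runs_iso (by simp) hi]; exact h.2

theorem isKnot_unknot : IsKnot unknot := ⟨by decide, card_unknot⟩

/-- An application of a move gives its one-sided applications in all contexts with the same
labellings modulo two. -/
theorem Move.Applies.ctx {μ : Move} {D E : Word} (hD : IsKnot D) (hE : IsKnot E)
    (h : μ.Applies D E) : ∃ S : Word, Dia (2 * μ.n) S 0 ∧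
      Multiset.card (runs (0 : ZMod 2) (μ.s ++ S) 0) = 2 ∧
      Multiset.card (runs (0 : ZMod 2) (μ.t ++ S) 0) = 2 ∧
      ∀ C : Word, Dia (2 * μ.n) C 0 →
        (∀ (τ : ZMod 2) (x : ℕ → ZMod 2),
          Multiset.card (runs τ C x) = Multiset.card (runs τ S x)) →
        IsKnot (μ.s ++ C) ∧ IsKnot (μ.t ++ C) ∧ μ.Applies (μ.s ++ C) (μ.t ++ C) := by
  obtain ⟨u, v, m, k, hu, hk, rfl, rfl, y, hy, z, hz, hyv, hzv, hok⟩ := h
  refine ⟨oneSided (2 * μ.n) k u v, dia_oneSided hu hk μ.hs hD.1, ?_, ?_, ?_⟩
  · rw [← runs2_twoSided 0 hu μ.hs]; exact hD.2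
  · rw [← runs2_twoSided 0 hu μ.ht]; exact hE.2
  · intro C hC hcard
    have cardC : ∀ T : Word, Dia 0 T (2 * μ.n) →
        Multiset.card (runs (0 : ZMod 2) (T ++ C) 0) =
        Multiset.card (runs (0 : ZMod 2) (T ++ oneSided (2 * μ.n) k u v) 0) := by
      intro T _
      rw [card_runs_append, card_runs_append]
      simp only [hcard]
    refine ⟨⟨dia_append.2 ⟨_, μ.hs, hC⟩, ?_⟩, ⟨dia_append.2 ⟨_, μ.ht, hC⟩, ?_⟩, ?_⟩
    · rw [cardC _ μ.hs, ← runs2_twoSided 0 hu μ.hs]; exact hD.2
    · rw [cardC _ μ.ht, ← runs2_twoSided 0 hu μ.ht]; exact hE.2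
    · -- the orientations
      have key : ∀ T : Word, Dia 0 T (2 * μ.n) → ∀ y ∈ runs (1 : ZMod 2) (u ++ sh k T) 0,
          runs (1 : ZMod 2) v y ≠ 0 → ∃ y' ∈ runs (1 : ZMod 2) T 0,
            runs (1 : ZMod 2) C y' ≠ 0 ∧
            (fun j : Fin (2 * μ.n) => y' (0 + j)) = fun j : Fin (2 * μ.n) => y (k + j) := by
        intro T hT y hy hyv
        rw [runs_append, Multiset.mem_bind] at hy
        obtain ⟨x, hx, hy⟩ := hy
        rw [runs_sh_insb 1 hT, Multiset.mem_map] at hy
        obtain ⟨y', hy', rfl⟩ := hy
        refine ⟨y', hy', ?_, ?_⟩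
        · intro h0
          have h1 := hcard 1 y'
          rw [h0, Multiset.card_zero, runs2_oneSided 1 hu (by rw [mem_runs_tl hT hy']; rfl)] at h1
          have h2 := Multiset.card_eq_zero.1 h1.symm
          apply hyv
          by_contra h3
          obtain ⟨w, hw⟩ := Multiset.exists_mem_of_ne_zero h3
          have : w ∈ (runs (1 : ZMod 2) u 0).bind fun x =>
              runs (1 : ZMod 2) v (insb k (2 * μ.n) y' x) :=
            Multiset.mem_bind.2 ⟨x, hx, hw⟩
          rw [h2] at this
          exact Multiset.notMem_zero _ this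
        · funext j
          simp only [insb]
          rw [if_neg (by omega), if_pos (by omega)]
          congr 1; omega
      obtain ⟨y', hy', hyC, hye⟩ := key _ μ.hs y hy hyv
      obtain ⟨z', hz', hzC, hze⟩ := key _ μ.ht z hz hzv
      refine ⟨[], C, 0, 0, rfl, le_rfl, by simp, by simp, y', by simpa using hy', z',
        by simpa using hz', hyC, hzC, ?_⟩
      rw [hye, hze]; exact hok

section

variable {p : ℕ} [Fact p.Prime]

theorem eq_cups_of {T : Word} {n : ℕ} (hT : Dia 0 T (2 * n))
    (hnd : (runs (0 : ZMod p) T 0).Nodup)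
    (h : ∀ z ∈ runs (0 : ZMod p) T 0, ∀ i < n, z (2 * i + 1) = z (2 * i)) :
    runs (0 : ZMod p) T 0 = runs (0 : ZMod p) (cups n) 0 := by
  apply Multiset.eq_of_le_of_card_le
  · rw [Multiset.le_iff_subset hnd]
    intro z hz
    rw [mem_cups]
    refine ⟨h z hz, ?_⟩
    rw [mem_runs_tl hT hz]; rfl
  · rw [card_cups]; exact card_runs_ge hT

/-- The test labelling. -/
theorem exists_test {n : ℕ} (hn : 1 ≤ n) : ∃ y : ℕ → ZMod p,
    ∑ i ∈ Finset.range n, ej y i = 0 ∧ (n = 1 ∨ ∃ i < n, ej y i ≠ 0) := by
  by_cases h : n = 1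
  · exact ⟨0, by simp [ej], Or.inl h⟩
  · refine ⟨fun j => if j = 1 ∨ j = 2 then 1 else 0, ?_, Or.inr ⟨0, by omega, ?_⟩⟩
    · obtain ⟨m, rfl⟩ : ∃ m, n = m + 2 := ⟨n - 2, by omega⟩
      rw [Finset.sum_range_succ', Finset.sum_range_succ']
      have : ∀ i ∈ Finset.range m, ej (fun j => if j = 1 ∨ j = 2 then (1 : ZMod p) else 0)
          (i + 1 + 1) = 0 := by
        intro i _
        simp only [ej]
        rw [if_neg (by omega), if_neg (by omega), sub_zero]
      rw [Finset.sum_congr rfl this]
      simp [ej]
    · simp [ej]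

/-- Rigidity: a move with a trivial side that preserves an invariant detecting the unknot keeps
all colourings of the endpoints. -/
theorem rigid {I : Word → ℕ∞} (hI : IsoInv I) (hU : DetU I) {μ : Move} (hpr : Pres I μ)
    (ht : IsTrivial μ.n μ.s) {D E : Word} (hD : IsKnot D) (hE : IsKnot E)
    (h : μ.Applies D E) (hp : p ≠ 2) :
    runs (0 : ZMod p) μ.s 0 = runs (0 : ZMod p) μ.t 0 := by
  obtain ⟨S, hS, hs2, ht2, hctx⟩ := h.ctx hD hE
  obtain ⟨β, hβ, hβd, hiso⟩ := ht
  change Iso 0 (2 * μ.n) μ.s (cups μ.n ++ β) at hiso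
  by_cases hn : μ.n = 0
  · -- closed diagrams
    have hβ0 : β = [] := by
      cases β with
      | nil => rfl
      | cons g w =>
        exfalso
        have h1 := hβd.1
        rw [hn] at h1
        rcases hβ g (by simp) with h2 | h2 <;> rw [h2] at h1 <;> simp at h1
    have hs0 : Dia 0 μ.s 0 := by have := μ.hs; rwa [hn] at this
    have ht0 : Dia 0 μ.t 0 := by have := μ.ht; rwa [hn] at this
    have hS0 : Dia 0 S 0 := by rwa [hn] at hS
    have i1 : Iso 0 0 μ.s [] := by
      rw [hn, hβ0] at hiso; simpa [cups] using hiso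
    have c1 : Multiset.card (runs (0 : ZMod 2) μ.s 0) = 1 := by
      rw [runs_iso (by simp) i1]; simp
    have e1 := card_runs_closed (0 : ZMod 2) [] S μ.s 0 hs0 0
    have e2 := card_runs_closed (0 : ZMod 2) [] S μ.t 0 ht0 0
    simp only [sh_zero, List.nil_append] at e1 e2
    rw [hs2, c1] at e1
    rw [ht2] at e2
    have c2 : Multiset.card (runs (0 : ZMod 2) μ.t 0) = 1 := by
      have : Multiset.card (runs (0 : ZMod 2) S 0) = 2 := by omega
      rw [this] at e2
      omega
    have t0 : μ.t = [] := by
      cases htt : μ.t with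
      | nil => rfl
      | cons g w =>
        exfalso
        rw [htt] at c2 ht0
        obtain ⟨h1, h2⟩ := ht0
        obtain ⟨k, i⟩ := g
        cases k with
        | cup =>
          simp only [inn_cup] at h1
          have hi : i = 0 := by omega
          subst hi
          simp only [inn_cup, out_cup, Nat.zero_sub, Nat.zero_add] at h2
          have e0 : (0 : ℕ → ZMod 2) = put [] 0 := rfl
          have h3 : Multiset.card (runs (0 : ZMod 2) (cup 0 :: w) 0) =
            ∑ c : ZMod 2, Multiset.card (runs (0 : ZMod 2) w (put [c, c + 0] 0)) := by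
            rw [e0, runs_cup0, card_bind]; rfl
          change Multiset.card (runs (0 : ZMod 2) (cup 0 :: w) 0) = 1 at c2
          rw [h3] at c2
          have h4 : ∀ c : ZMod 2, 1 ≤ Multiset.card (runs (0 : ZMod 2) w (put [c, c + 0] 0)) := by
            intro c
            have h5 := cst_runs h2 c
            rw [← card_runs_congr 0 h2 (x := cst 2 c)]
            · exact Nat.one_le_iff_ne_zero.2 (fun h0 => by
                rw [Multiset.card_eq_zero.1 h0] at h5
                exact Multiset.notMem_zero _ h5)
            · intro j hj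
              rw [cst_lt hj]
              have : j = 0 ∨ j = 1 := by omega
              rcases this with rfl | rfl <;> simp
          have h6 : ∑ c : ZMod 2, 1 ≤
              ∑ c : ZMod 2, Multiset.card (runs (0 : ZMod 2) w (put [c, c + 0] 0)) :=
            Finset.sum_le_sum (fun c _ => h4 c)
          rw [c2] at h6
          simp at h6
        | cap => simp at h1
        | pos => simp at h1
        | neg => simp at h1
    rw [runs_iso (by simp) i1, t0]
  -- the main case
  have hn1 : 1 ≤ μ.n := by omega
  have hβb := dia_binv hβ hβd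
  set n := μ.n with hndef
  have hS1 : Dia (2 * n) (β ++ S) 0 := dia_append.2 ⟨_, hβd, hS⟩
  obtain ⟨κ, c, hκ, hb⟩ := exists_matching hS1
  have hk2 : Multiset.card (runs (0 : ZMod 2) (cups n ++ (β ++ S)) 0) = 2 := by
    rw [← List.append_assoc, ← runs_iso (by simp) (Iso.post hS hiso)]
    exact hs2
  obtain ⟨hb1, hconn⟩ := conn_of_knot hn1 hκ hb hk2
  -- the key property
  have key : ∀ y : ℕ → ZMod p, ∑ i ∈ Finset.range n, ej y i = 0 →
      (n = 1 ∨ ∃ i < n, ej y i ≠ 0) → ∃ S' : Word, Dia (2 * n) S' 0 ∧
      runs (0 : ZMod p) S' y ≠ 0 ∧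
      Multiset.card (runs (0 : ZMod p) ((μ.t ++ binv β) ++ S') 0) = p := by
    intro y hy1 hy2
    obtain ⟨S', h1, h2, h3, h4⟩ := context_lemma hp hn1 κ y ⟨hκ, hconn, hy1⟩ hy2
    refine ⟨S', h1, h4, ?_⟩
    have hC : Dia (2 * n) (binv β ++ S') 0 := dia_append.2 ⟨_, hβb, h1⟩
    obtain ⟨k1, k2, k3⟩ := hctx (binv β ++ S') hC (by
      intro τ x
      have a1 : Multiset.card (runs τ (binv β ++ S') x) =
          Multiset.card (runs τ (binv β ++ (β ++ S)) x) := by
        rw [card_runs_append, card_runs_append]
        congr 1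
        congr 1
        funext x'
        rw [h2, hb1]
      have a2 : Iso (2 * n) 0 ((binv β ++ β) ++ S) ([] ++ S) := Iso.post hS (iso_binv_mul hβ hβd)
      rw [a1, ← List.append_assoc, runs_iso (zz τ) a2]; rfl)
    have i1 : Iso 0 0 (μ.s ++ (binv β ++ S')) unknot := by
      have b1 : Iso 0 0 (μ.s ++ (binv β ++ S')) ((cups n ++ β) ++ (binv β ++ S')) :=
        Iso.post hC hiso
      have b2 : Iso 0 0 (cups n ++ (β ++ binv β) ++ S') (cups n ++ [] ++ S') := by
        have := dia_cups 0 n
        rw [Nat.zero_add] at this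
        exact Iso.ctx this h1 (iso_mul_binv hβ hβd)
      have e : (cups n ++ β) ++ (binv β ++ S') = cups n ++ (β ++ binv β) ++ S' := by
        simp only [List.append_assoc]
      rw [e] at b1
      refine b1.trans (b2.trans ?_)
      simpa using h3
    have e2 : I (μ.t ++ (binv β ++ S')) = I unknot := by
      rw [← hpr _ _ k1 k2 k3]; exact hI _ _ i1
    have i2 := hU _ k2 e2
    rw [List.append_assoc, runs_iso (by simp) i2]
    exact card_unknot
  have hT : Dia 0 (μ.t ++ binv β) (2 * n) := dia_append.2 ⟨_, μ.ht, hβb⟩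
  have hnd : (runs (0 : ZMod p) (μ.t ++ binv β) 0).Nodup := by
    obtain ⟨y, hy1, hy2⟩ := exists_test (p := p) hn1
    obtain ⟨S', h1, -, h3⟩ := key y hy1 hy2
    exact (nodup_of_card (by omega) hT h1 h3).1
  have hblk : ∀ z ∈ runs (0 : ZMod p) (μ.t ++ binv β) 0, ∀ i < n, z (2 * i + 1) = z (2 * i) := by
    intro z hz i hi
    by_contra hne
    have hsum : ∑ i ∈ Finset.range n, ej z i = 0 := by
      have a1 := alt_runs hT hz
      rw [alt_even] at a1
      have a2 : alt 0 (0 : ℕ → ZMod p) = 0 := rfl
      rw [a2, neg_eq_zero] at a1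
      exact a1
    have hz2 : ej z i ≠ 0 := sub_ne_zero.2 hne
    obtain ⟨S', h1, h2, h3⟩ := key z hsum (Or.inr ⟨i, hi, hz2⟩)
    obtain ⟨a, ha⟩ := (nodup_of_card (by omega) hT h1 h3).2 z hz h2
    apply hne
    rw [ha, cst_lt (by omega), cst_lt (by omega)]
  have heq := eq_cups_of hT hnd hblk
  have f1 : runs (0 : ZMod p) μ.s 0 = runs (0 : ZMod p) (cups n ++ β) 0 :=
    runs_iso (by simp) hiso 0
  have f2 : Iso 0 (2 * n) (μ.t ++ (binv β ++ β)) (μ.t ++ []) :=
    Iso.pre μ.ht (iso_binv_mul hβ hβd)
  have f3 := runs_iso (τ := (0 : ZMod p)) (by simp) f2 0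
  rw [List.append_nil, ← List.append_assoc, runs_append, heq, ← runs_append] at f3
  rw [f1, f3]

end

end H80Skein
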