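import Pool.Agent.H80Skein.Slide
import Pool.Agent.H80Skein.Rigid

/-! A strand passing under (or over) a word. -/

set_option linter.unusedSimpArgs false
set_option linter.unusedSectionVars false

namespace H80Skein

theorem Iso.at {m n : ℕ} (i r : ℕ) {a b : Word} (h : Iso m n a b) :
    Iso (i + m + r) (i + n + r) (sh i a) (sh i b) := by
  have := (h.left i).right r
  rw [Nat.add_comm m i, Nat.add_comm n i] at this
  exact this

theorem Iso.cast {m n m' n' : ℕ} {a b a' b' : Word} (h : Iso m n a b) (hm : m = m') (hn : n = n')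
    (ha : a = a') (hb : b = b') : Iso m' n' a' b' := by
  subst hm hn ha hb; exact h

theorem Dia.cast {m n m' n' : ℕ} {a a' : Word} (h : Dia m a n) (hm : m = m') (hn : n = n')
    (ha : a = a') : Dia m' a' n' := by
  subst hm hn ha; exact h

@[simp] theorem car_zero (a : ℕ) : car a 0 = [] := rfl

theorem car_add (a k l : ℕ) : car a (k + l) = car a k ++ car (a + k) l := by
  induction k generalizing a with
  | zero => simp
  | succ k ih =>
    have e : k + 1 + l = (k + l) + 1 := by omega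
    rw [e, car, car, ih]
    have e' : a + 1 + k = a + (k + 1) := by omega
    simp [e']

theorem sh_car (k a l : ℕ) : sh k (car a l) = car (a + k) l := by
  induction l generalizing a with
  | zero => rfl
  | succ l ih =>
    rw [car, car, sh_cons, ih]
    have e : a + 1 + k = a + k + 1 := by omega
    rw [e]; rfl

theorem nat_core (k : Kind) : Iso (k.inn + 1) (k.out + 1) ([⟨k, 1⟩] ++ car 0 k.out)
    (car 0 k.inn ++ [⟨k, 0⟩]) := by
  cases k with
  | cup =>
    -- `cup 1, pos 0, pos 1 = cup 0, neg 1, pos 1 = cup 0`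
    have s1 : Iso 1 3 ([] ++ [cup 1, pos 0] ++ [pos 1]) ([] ++ [cup 0, neg 1] ++ [pos 1]) :=
      (Iso.step (Elem.slideB 0) (by decide) (by decide)).symm
    have s2 : Iso 1 3 ([cup 0] ++ [neg 1, pos 1] ++ []) ([cup 0] ++ [] ++ []) :=
      Iso.step (Elem.r2B 1) (by decide) (by decide)
    exact s1.trans s2
  | cap =>
    have s1 : Iso 3 1 ([pos 0] ++ [pos 1, cap 0] ++ []) ([pos 0] ++ [neg 0, cap 1] ++ []) :=
      Iso.step (Elem.slideD 0) (by decide) (by decide)
    have s2 : Iso 3 1 ([] ++ [pos 0, neg 0] ++ [cap 1]) ([] ++ [] ++ [cap 1]) :=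
      Iso.step (Elem.r2A 0) (by decide) (by decide)
    exact (s1.trans s2).symm
  | pos => exact iso_r3.symm
  | neg => exact iso_r3_b

theorem nat_gen {a a' : ℕ} {g : Gen} (h : Dia a [g] a') :
    Iso (a + 1) (a' + 1) ([⟨g.kind, g.off + 1⟩] ++ car 0 a') (car 0 a ++ [g]) := by
  obtain ⟨k, i⟩ := g
  obtain ⟨h1, h2⟩ := h
  rw [dia_nil] at h2
  simp only at h1 h2
  obtain ⟨r, rfl⟩ : ∃ r, a = i + k.inn + r := ⟨a - (i + k.inn), by omega⟩
  obtain rfl : a' = i + k.out + r := by omega
  have dX : Dia k.inn [⟨k, 0⟩] k.out := ⟨by simp, by simp⟩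
  have t1 : Iso (i + 1 + k.inn) (i + 1 + k.out) (car 0 i ++ sh (i + 1) [⟨k, 0⟩])
      (sh (i + 1) [⟨k, 0⟩] ++ car 0 i) := far_words (dia_car (by omega)) dX
  have t2 := (nat_core k).at i r
  rw [sh_append, sh_append, sh_car, sh_car] at t2
  have dW : Dia (i + k.inn) [⟨k, i⟩] (i + k.out) := ⟨by simp, by simp⟩
  have t3 : Iso (i + k.inn + (r + 1)) (i + k.out + (r + 1)) ([⟨k, i⟩] ++ sh (i + k.out) (car 0 r))
      (sh (i + k.inn) (car 0 r) ++ [⟨k, i⟩]) := far_words dW (dia_car (by omega))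
  rw [sh_car, sh_car, Nat.zero_add, Nat.zero_add] at t3
  have t1' := (t1.right r).symm
  have e1 : i + 1 + k.inn + r = i + k.inn + r + 1 := by omega
  have e2 : i + 1 + k.out + r = i + k.out + r + 1 := by omega
  rw [e1, e2] at t1'
  have e3 : i + (k.inn + 1) + r = i + k.inn + r + 1 := by omega
  have e4 : i + (k.out + 1) + r = i + k.out + r + 1 := by omega
  rw [e3, e4] at t2
  rw [car_add 0 (i + k.out) r, car_add 0 i k.out, car_add 0 (i + k.inn) r, car_add 0 i k.inn]
  have d1 : Dia (i + k.out + r + 1) (car (0 + i) k.out ++ car (0 + (i + k.out)) r)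
      (i + k.out + r + 1) :=
    dia_append.2 ⟨_, dia_car (by omega), dia_car (by omega)⟩
  have s1 := Iso.post d1 t1'
  have d2 : Dia (i + k.inn + r + 1) (car 0 i) (i + k.inn + r + 1) := dia_car (by omega)
  have d3 : Dia (i + k.out + r + 1) (car (0 + (i + k.out)) r) (i + k.out + r + 1) :=
    dia_car (by omega)
  have s2 := Iso.ctx d2 d3 t2
  have d4 : Dia (i + k.inn + r + 1) (car 0 i ++ car (0 + i) k.inn) (i + k.inn + r + 1) :=
    dia_append.2 ⟨_, dia_car (by omega), dia_car (by omega)⟩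
  have s3 := Iso.pre d4 t3
  refine (s1.cast rfl rfl ?_ ?_).trans ((s2.cast rfl rfl rfl ?_).trans (s3.cast rfl rfl rfl ?_))
  · simp
  · simp [Nat.add_comm]
  · simp
  · simp

/-- A strand to the left of `W` passes under it to the right. -/
theorem nat_pos {a b : ℕ} {W : Word} (h : Dia a W b) :
    Iso (a + 1) (b + 1) (sh 1 W ++ car 0 b) (car 0 a ++ W) := by
  induction W generalizing a with
  | nil =>
    rw [dia_nil] at h
    subst h
    simpa using Iso.refl _
  | cons g W ih =>
    obtain ⟨h1, h2⟩ := h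
    have dg : Dia a [g] (a - g.kind.inn + g.kind.out) := ⟨h1, rfl⟩
    have dg1 : Dia (a + 1) (sh 1 [g]) (a - g.kind.inn + g.kind.out + 1) := dia_sh 1 dg
    have s1 := Iso.pre dg1 (ih h2)
    have s2 := Iso.post (v := W) (r := b + 1) (dia_right 1 h2) (nat_gen dg)
    refine (s1.cast rfl rfl ?_ ?_).trans (s2.cast rfl rfl rfl ?_)
    · simp
    · simp
    · simp

/-- The strand carried to the right over the others. -/
def carN (a k : ℕ) : Word := mir (car a k)

theorem nat_neg {a b : ℕ} {W : Word} (h : Dia a W b) :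
    Iso (a + 1) (b + 1) (sh 1 W ++ carN 0 b) (carN 0 a ++ W) := by
  have := (nat_pos (dia_mir h)).mir
  rw [mir_append, mir_append, mir_sh, mir_mir] at this
  exact this

theorem isBraid_car (a k : ℕ) : IsBraid (car a k) := by
  induction k generalizing a with
  | zero => intro g hg; simp at hg
  | succ k ih =>
    intro g hg
    rw [car, List.mem_cons] at hg
    rcases hg with rfl | hg
    · exact Or.inl rfl
    · exact ih _ g hg

/-- If `X ++ c = c ++ Y` then `Y ++ c⁻¹ = c⁻¹ ++ X`. -/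
theorem iso_inv_swap {a b : ℕ} {X Y c c' : Word} (hc : IsBraid c) (hca : Dia a c a)
    (hc' : IsBraid c') (hcb : Dia b c' b) (hX : Dia a X b) (hY : Dia a Y b)
    (h : Iso a b (X ++ c') (c ++ Y)) :
    Iso a b (Y ++ binv c') (binv c ++ X) := by
  have s1 := Iso.ctx (dia_binv hc hca) (dia_binv hc' hcb) h
  have s2 : Iso a b ((binv c ++ c) ++ (Y ++ binv c')) ([] ++ (Y ++ binv c')) :=
    Iso.post (dia_append.2 ⟨b, hY, dia_binv hc' hcb⟩) (iso_binv_mul hc hca)
  have s3 : Iso a b ((binv c ++ X) ++ (c' ++ binv c')) ((binv c ++ X) ++ []) :=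
    Iso.pre (dia_append.2 ⟨a, dia_binv hc hca, hX⟩) (iso_mul_binv hc' hcb)
  have t1 := s1.cast rfl rfl (show _ = (binv c ++ X) ++ (c' ++ binv c') by simp)
    (show _ = (binv c ++ c) ++ (Y ++ binv c') by simp)
  have := (s3.symm.trans t1).trans s2
  simpa using this.symm

section Pass

variable {L : Word} (hL : Dia 1 L 1)

include hL

theorem pass_pos_right : Iso 2 2 (sh 1 L ++ [pos 0]) ([pos 0] ++ L) := nat_pos hL
theorem pass_neg_right : Iso 2 2 (sh 1 L ++ [neg 0]) ([neg 0] ++ L) := nat_neg hL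

theorem pass_pos_left : Iso 2 2 (L ++ [pos 0]) ([pos 0] ++ sh 1 L) :=
  iso_inv_swap (c := [neg 0]) (c' := [neg 0]) (isBraid_of (by decide)) (by decide)
    (isBraid_of (by decide)) (by decide) (dia_sh 1 hL) (dia_right 1 hL) (pass_neg_right hL)

theorem pass_neg_left : Iso 2 2 (L ++ [neg 0]) ([neg 0] ++ sh 1 L) :=
  iso_inv_swap (c := [pos 0]) (c' := [pos 0]) (isBraid_of (by decide)) (by decide)
    (isBraid_of (by decide)) (by decide) (dia_sh 1 hL) (dia_right 1 hL) (pass_pos_right hL)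

end Pass

end H80Skein
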