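import Pool.Agent.H80Skein.CupIso

/-! Symmetries of diagrams, far commutation of words, and strands passing over or under a word. -/

set_option linter.unusedSimpArgs false
set_option linter.unusedSectionVars false

namespace H80Skein

/-! ### Mirror image -/

/-- Crossings switched. -/
def mirK : Kind → Kind
  | .cup => .cup
  | .cap => .cap
  | .pos => .neg
  | .neg => .pos

/-- The mirror image of a diagram. -/
def mir (w : Word) : Word := w.map fun g => ⟨mirK g.kind, g.off⟩

@[simp] theorem mirK_inn (k : Kind) : (mirK k).inn = k.inn := by cases k <;> rfl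
@[simp] theorem mirK_out (k : Kind) : (mirK k).out = k.out := by cases k <;> rfl
@[simp] theorem mir_nil : mir [] = [] := rfl
@[simp] theorem mir_cons (g : Gen) (w : Word) : mir (g :: w) = ⟨mirK g.kind, g.off⟩ :: mir w := rfl
@[simp] theorem mir_append (u v : Word) : mir (u ++ v) = mir u ++ mir v := by simp [mir]
theorem mir_mir (w : Word) : mir (mir w) = w := by
  induction w with
  | nil => rfl
  | cons g w ih =>
    rw [mir_cons, mir_cons, ih]
    obtain ⟨k, i⟩ := g
    cases k <;> rfl
theorem mir_sh (k : ℕ) (w : Word) : mir (sh k w) = sh k (mir w) := by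
  induction w with
  | nil => rfl
  | cons g w ih => simp [ih]

theorem dia_mir {m n : ℕ} {w : Word} (h : Dia m w n) : Dia m (mir w) n := by
  induction w generalizing m with
  | nil => exact h
  | cons g w ih =>
    obtain ⟨h1, h2⟩ := h
    have h3 := ih h2
    refine ⟨by simpa using h1, ?_⟩
    show Dia (m - (mirK g.kind).inn + (mirK g.kind).out) (mir w) n
    rw [mirK_inn, mirK_out]
    exact h3

/-! ### Braid relations -/

theorem isBraid_of {w : Word} (h : w.all fun g => decide (g.kind = .pos ∨ g.kind = .neg)) :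
    IsBraid w := by
  intro g hg
  have := List.all_eq_true.1 h g hg
  simpa using this

theorem iso_r3 : Iso 3 3 [pos 0, pos 1, pos 0] [pos 1, pos 0, pos 1] :=
  Iso.elem (Elem.r3 0) (by decide) (by decide)

/-- Multiplying an isotopy of braids by a letter on the left and one on the right. -/
theorem iso_conj {m : ℕ} {a b x y : Word} (hx : IsBraid x) (hxd : Dia m x m)
    (hy : IsBraid y) (hyd : Dia m y m)
    (h : Iso m m (x ++ a) (b ++ y)) (ha : Dia m a m) (hb : Dia m b m) :
    Iso m m (a ++ binv y) (binv x ++ b) := by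
  have hyi := dia_binv hy hyd
  have hxi := dia_binv hx hxd
  have s1 : Iso m m (binv x ++ (x ++ a) ++ binv y) (binv x ++ (b ++ y) ++ binv y) :=
    Iso.ctx hxi hyi h
  have s2 : Iso m m ((binv x ++ x) ++ (a ++ binv y)) ([] ++ (a ++ binv y)) :=
    Iso.post (dia_append.2 ⟨m, ha, hyi⟩) (iso_binv_mul hx hxd)
  have s3 : Iso m m ((binv x ++ b) ++ (y ++ binv y)) ((binv x ++ b) ++ []) :=
    Iso.pre (dia_append.2 ⟨m, hxi, hb⟩) (iso_mul_binv hy hyd)
  have e1 : binv x ++ (x ++ a) ++ binv y = (binv x ++ x) ++ (a ++ binv y) := by simp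
  have e2 : binv x ++ (b ++ y) ++ binv y = (binv x ++ b) ++ (y ++ binv y) := by simp
  rw [e1, e2] at s1
  have := (s2.symm.trans s1).trans s3
  simpa using this

theorem iso_r3_b : Iso 3 3 [neg 1, pos 0, pos 1] [pos 0, pos 1, neg 0] := by
  have h : Iso 3 3 ([pos 1] ++ [pos 0, pos 1]) ([pos 0, pos 1] ++ [pos 0]) := iso_r3.symm
  have := iso_conj (isBraid_of (by decide)) (by decide) (isBraid_of (by decide)) (by decide)
    h (by decide) (by decide)
  exact this.symm

theorem iso_r3_c : Iso 3 3 [neg 1, neg 0, pos 1] [pos 0, neg 1, neg 0] := by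
  have h : Iso 3 3 ([neg 1] ++ [pos 0, pos 1]) ([pos 0, pos 1] ++ [neg 0]) := iso_r3_b
  have h1 : Iso 3 3 ([pos 1, neg 0] ++ []) ([] ++ [pos 1, neg 0]) := Iso.refl _
  -- `pos 0 pos 1 neg 0 = neg 1 pos 0 pos 1`, cut `pos 1` off
  have s1 : Iso 3 3 ([pos 0] ++ [pos 1, neg 0]) ([neg 1, pos 0] ++ [pos 1]) := h.symm
  have := iso_conj (isBraid_of (by decide)) (by decide) (isBraid_of (by decide)) (by decide)
    s1 (by decide) (by decide)
  -- `pos 1 neg 0 neg 1 = neg 0 neg 1 pos 0`
  have h2 : Iso 3 3 ([pos 1] ++ [neg 0, neg 1]) ([neg 0, neg 1] ++ [pos 0]) := this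
  have h3 := iso_conj (isBraid_of (by decide)) (by decide) (isBraid_of (by decide)) (by decide)
    h2 (by decide) (by decide)
  -- `neg 0 neg 1 neg 0 = neg 1 neg 0 neg 1`
  have h4 : Iso 3 3 ([neg 0] ++ [neg 1, neg 0]) ([neg 1, neg 0] ++ [neg 1]) := h3
  have h5 := iso_conj (isBraid_of (by decide)) (by decide) (isBraid_of (by decide)) (by decide)
    h4 (by decide) (by decide)
  exact h5

theorem iso_r3_neg : Iso 3 3 [neg 0, neg 1, neg 0] [neg 1, neg 0, neg 1] := by
  have h : Iso 3 3 ([neg 1, neg 0] ++ [pos 1]) ([pos 0] ++ [neg 1, neg 0]) := iso_r3_c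
  have s : Iso 3 3 (([neg 0] ++ ([neg 1, neg 0] ++ [pos 1])) ++ [neg 1])
      (([neg 0] ++ ([pos 0] ++ [neg 1, neg 0])) ++ [neg 1]) :=
    Iso.ctx (by decide : Dia 3 [neg 0] 3) (by decide : Dia 3 [neg 1] 3) h
  have s1 : Iso 3 3 ([neg 0, neg 1, neg 0] ++ [pos 1, neg 1] ++ []) ([neg 0, neg 1, neg 0] ++ [] ++ []) :=
    Iso.step (Elem.r2A 1) (by decide) (by decide)
  have s2 : Iso 3 3 ([] ++ [neg 0, pos 0] ++ [neg 1, neg 0, neg 1]) ([] ++ [] ++ [neg 1, neg 0, neg 1]) :=
    Iso.step (Elem.r2B 0) (by decide) (by decide)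
  exact (s1.symm.trans s).trans s2

theorem Elem.mir {s t : Word} (h : Elem s t) {m n : ℕ} (hs : Dia m s n) (ht : Dia m t n) :
    Iso m n (H80Skein.mir s) (H80Skein.mir t) := by
  have ds := dia_mir hs
  have dt := dia_mir ht
  cases h with
  | far a b i j h =>
    have := Elem.far (mirK a) (mirK b) i j h
    simp only [mirK_inn, mirK_out] at this
    exact Iso.elem this ds dt
  | zig i => exact Iso.elem (Elem.zig i) ds dt
  | zag i => exact Iso.elem (Elem.zag i) ds dt
  | slideA i => exact Iso.elem (Elem.slideB i) ds dt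
  | slideB i => exact Iso.elem (Elem.slideA i) ds dt
  | slideC i => exact Iso.elem (Elem.slideD i) ds dt
  | slideD i => exact Iso.elem (Elem.slideC i) ds dt
  | r1A i => exact Iso.elem (Elem.r1B i) ds dt
  | r1B i => exact Iso.elem (Elem.r1A i) ds dt
  | r1C i => exact Iso.elem (Elem.r1D i) ds dt
  | r1D i => exact Iso.elem (Elem.r1C i) ds dt
  | r2A i => exact Iso.elem (Elem.r2B i) ds dt
  | r2B i => exact Iso.elem (Elem.r2A i) ds dt
  | r3 i =>
    have hm : i + 3 ≤ m := by
      obtain ⟨h1, h2, h3⟩ := hs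
      simp at h1 h2
      omega
    have hn : m = n := dia_braid_eq (by
      intro g hg
      simp at hg
      rcases hg with rfl | rfl | rfl <;> simp) hs
    subst hn
    have := ((iso_r3_neg.left i).right (m - i - 3))
    have e : 3 + i + (m - i - 3) = m := by omega
    rw [e] at this
    have e1 : sh i [neg 0, neg 1, neg 0] = H80Skein.mir [pos i, pos (i + 1), pos i] := by
      simp [pos, neg, mirK, Nat.add_comm]
    have e2 : sh i [neg 1, neg 0, neg 1] = H80Skein.mir [pos (i + 1), pos i, pos (i + 1)] := by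
      simp [pos, neg, mirK, Nat.add_comm]
    rw [e1, e2] at this
    exact this

theorem Iso.mir {m n : ℕ} {a b : Word} (h : Iso m n a b) :
    Iso m n (H80Skein.mir a) (H80Skein.mir b) := by
  induction h with
  | rel a b hab =>
    obtain ⟨h1, h2, u, v, s, t, hst, rfl, rfl⟩ := hab
    rw [List.append_assoc] at h1 h2
    obtain ⟨l, a1, a2⟩ := dia_append.1 h1
    obtain ⟨l', a3, a4⟩ := dia_append.1 a2
    obtain ⟨l2, b1, b2⟩ := dia_append.1 h2
    obtain ⟨l2', b3, b4⟩ := dia_append.1 b2
    have e1 := dia_unique a1 b1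
    subst e1
    have e2 : l' = l2' := by
      -- the elementary moves do not change the number of strands
      cases hst with
      | far a b i j h =>
        obtain ⟨c1, c2, c3⟩ := a3
        obtain ⟨d1, d2, d3⟩ := b3
        simp only [dia_nil] at c1 c2 c3 d1 d2 d3
        omega
      | _ =>
        simp only [dia_cons, dia_nil, cup_kind, cap_kind, pos_kind, neg_kind, cup_off, cap_off,
          pos_off, neg_off, inn_cup, inn_cap, inn_pos, inn_neg, out_cup, out_cap, out_pos,
          out_neg] at a3 b3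
        omega
    subst e2
    rw [mir_append, mir_append, mir_append, mir_append]
    exact Iso.ctx (dia_mir a1) (dia_mir a4) (hst.mir a3 b3)
  | refl a => exact Iso.refl _
  | symm a b _ ih => exact ih.symm
  | trans a b c _ _ ih ih' => exact ih.trans ih'

/-! ### Far commutation -/

/-- A piece on the left commutes with a word on the right. -/
theorem far_gen {a a' c d : ℕ} {g : Gen} {X : Word} (hg : Dia a [g] a') (hX : Dia c X d) :
    Iso (a + c) (a' + d) ([g] ++ sh a' X) (sh a X ++ [g]) := by
  obtain ⟨hg1, hg2⟩ := hg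
  rw [dia_nil] at hg2
  induction X generalizing c with
  | nil => exact Iso.refl _
  | cons x X ih =>
    obtain ⟨hx1, hx2⟩ := hX
    have s2 := ih hx2
    -- first exchange `g` and `x`
    have dx : Dia c [x] (c - x.kind.inn + x.kind.out) := ⟨hx1, rfl⟩
    have dX' : Dia (c - x.kind.inn + x.kind.out) X d := hx2
    have d1 : Dia (a + c) ([g, ⟨x.kind, x.off + a'⟩] ++ sh a' X) (a' + d) := by
      refine ⟨by omega, by simp only; omega, ?_⟩
      have := dia_sh a' dX'
      simp only
      have e : a + c - g.kind.inn + g.kind.out - x.kind.inn + x.kind.out =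
        c - x.kind.inn + x.kind.out + a' := by omega
      rw [e, Nat.add_comm a' d]; exact this
    have d2 : Dia (a + c) ([⟨x.kind, x.off + a⟩, g] ++ sh a' X) (a' + d) := by
      refine ⟨by simp only; omega, by simp only; omega, ?_⟩
      have := dia_sh a' dX'
      simp only
      have e : a + c - x.kind.inn + x.kind.out - g.kind.inn + g.kind.out =
        c - x.kind.inn + x.kind.out + a' := by omega
      rw [e, Nat.add_comm a' d]; exact this
    have s1 : Iso (a + c) (a' + d) ([] ++ [g, ⟨x.kind, x.off + a'⟩] ++ sh a' X)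
        ([] ++ [⟨x.kind, x.off + a⟩, g] ++ sh a' X) := by
      have hf := Elem.far g.kind x.kind g.off (x.off + a - g.kind.inn) (by omega)
      have e1 : x.off + a - g.kind.inn + g.kind.out = x.off + a' := by omega
      have e2 : x.off + a - g.kind.inn + g.kind.inn = x.off + a := by omega
      rw [e1, e2] at hf
      exact Iso.step hf d1 d2
    have s3 : Iso (a + c) (a' + d) ([⟨x.kind, x.off + a⟩] ++ ([g] ++ sh a' X))
        ([⟨x.kind, x.off + a⟩] ++ (sh a X ++ [g])) := by
      refine Iso.pre (m := a + (c - x.kind.inn + x.kind.out)) ?_ s2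
      refine ⟨by simp only; omega, ?_⟩
      simp only [dia_nil]; omega
    exact s1.trans s3

/-- Words on the left and on the right commute. -/
theorem far_words {a b c d : ℕ} {W X : Word} (hW : Dia a W b) (hX : Dia c X d) :
    Iso (a + c) (b + d) (W ++ sh b X) (sh a X ++ W) := by
  induction W generalizing a with
  | nil =>
    rw [dia_nil] at hW
    subst hW
    simp only [List.nil_append, List.append_nil]
    exact Iso.refl _
  | cons g W ih =>
    obtain ⟨h1, h2⟩ := hW
    have s1 := ih h2
    have dg : Dia a [g] (a - g.kind.inn + g.kind.out) := ⟨h1, rfl⟩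
    have s2 : Iso (a + c) (b + d) ([g] ++ (W ++ sh b X))
        ([g] ++ (sh (a - g.kind.inn + g.kind.out) X ++ W)) :=
      Iso.pre (dia_right c dg) s1
    have s3 := Iso.post (v := W) (r := b + d) (dia_right d h2) (far_gen dg hX)
    have e1 : ([g] ++ sh (a - g.kind.inn + g.kind.out) X) ++ W =
      [g] ++ (sh (a - g.kind.inn + g.kind.out) X ++ W) := by simp
    rw [e1] at s3
    have := s2.trans s3
    simpa using this

end H80Skein
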